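import Pool.Agent.Lib.MP_9f3af0_lcC.RectMaps

/-!
# MP_9f3af0_lc: polygons in which exposed chords pass every vertex (helper83)

No assumption on opposite vertices is made here.  If every vertex `s` is passed by a chord whose ends are
exposed and within `k` steps of `s`, then some class is linked: such chords survive all cuts, so there is
never a fat rectangle.
-/

namespace VisMap

namespace Cut

open Dism

/-- Every vertex `s` is passed by a visible chord with exposed ends within `k` steps of `s`. -/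
def ExpChords (k : ℤ) (r : ℤ → ℤ → Prop) : Prop :=
  ∀ s, ∃ x y, s - k ≤ x ∧ x < s ∧ s < y ∧ y ≤ s + k ∧ Exposed k r x ∧ Exposed k r y ∧ r x y

variable {n : ℕ} {r : ℤ → ℤ → Prop}

/-- `ExpChords` is inherited. -/
theorem CutE.expChords {n' : ℕ} {k d c : ℤ} {φ : ℤ → ℤ} (hC : CutE n n' k d c r φ) (hk : 0 < k)
    (hdk : d < k) (hv : ∀ u, k ∣ u - c → r u (u + d)) (hr : ExpChords k r) :
    ExpChords (k - d + 1) (fun a b => r (φ a) (φ b)) := by
  intro a
  obtain ⟨x, y, x1, x2, y1, y2, hx, hy, hxy⟩ := hr (φ a)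
  obtain ⟨x, rfl⟩ := hC.survive hk hdk hv hx
  obtain ⟨y, rfl⟩ := hC.survive hk hdk hv hy
  have e1 := hC.shiftm1 a
  have e2 := hC.shift1 a
  exact ⟨x, y, hC.hE.mono.le_iff_le.1 (by omega), hC.hE.mono.lt_iff_lt.1 x2,
    hC.hE.mono.lt_iff_lt.1 y1, hC.hE.mono.le_iff_le.1 (by omega), hC.exposed hx, hC.exposed hy, hxy⟩

/-- If every vertex is passed by an exposed chord, then some class is linked. -/
theorem linked_of_expChords : ∀ (n : ℕ) (k : ℤ) (r : ℤ → ℤ → Prop), ZRel n r → 0 < k →
    k ∣ (n : ℤ) → k < n → Wd n k r → ExpChords k r → Lkd k r := by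
  have main : ∀ N : ℕ, ∀ (n : ℕ) (k : ℤ) (r : ℤ → ℤ → Prop), k.toNat ≤ N → ZRel n r →
      0 < k → k ∣ (n : ℤ) → k < n → Wd n k r → ExpChords k r → Lkd k r := by
    intro N
    induction N with
    | zero => intro n k r h1 _ h2; omega
    | succ N ih =>
      intro n k r hN h hk hkn hlt hw hr
      by_cases hk1 : k = 1
      · subst hk1
        exact ⟨0, fun u _ => h.succ u⟩
      obtain ⟨q, hq⟩ := id hkn
      have hq2 : 2 ≤ q := by
        by_contra hcon
        have : k * q ≤ k * 1 := mul_le_mul_of_nonneg_left (by omega) hk.le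
        omega
      have hn4 : 4 ≤ (n : ℤ) := by
        have : k * 2 ≤ k * q := mul_le_mul_of_nonneg_left hq2 hk.le
        omega
      by_cases hn3 : (n : ℤ) ≤ 3 * k
      · exact linked_three h hk hkn hlt (by omega) hn3 hw
      have hq4 : 4 ≤ q := by
        by_contra hcon
        have : k * q ≤ k * 3 := mul_le_mul_of_nonneg_left (by omega) hk.le
        omega
      have h4k : 4 * k ≤ n := by
        have : k * 4 ≤ k * q := mul_le_mul_of_nonneg_left hq4 hk.le
        omega
      by_contra hno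
      refine false_of_noFat h (by omega) hkn h4k hw (fun c d d1 d2 hv => ?_) fun s hs => ?_
      · rcases eq_or_lt_of_le d2 with hd | hd
        · subst hd
          exact hno ⟨c, hv⟩
        · obtain ⟨n', φ, hC⟩ := cut_enum h (by omega) hkn hw d1 hd hv
          have hlt' : k - d + 1 < (n' : ℤ) := by
            by_contra hcon
            have h5 : (n' : ℤ) * k ≤ (k - d + 1) * k :=
              mul_le_mul_of_nonneg_right (by omega) hk.le
            have h6 : k * (k - d + 1) < n * (k - d + 1) := mul_lt_mul_of_pos_right hlt (by omega)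
            have h7 : (k - d + 1) * k = k * (k - d + 1) := by ring
            have h8 := hC.card
            omega
          obtain ⟨a, ha⟩ := ih n' (k - d + 1) _ (by omega) hC.zrel (by omega) hC.dvd hlt' hC.wd
            (hC.expChords hk hd hv hr)
          refine hno ⟨φ a, fun u hu => ?_⟩
          obtain ⟨b, rfl⟩ := hC.hE.surj u ((kp_of_dvd hu).2 (hC.hE.mem a))
          have h1 := ha b ((hC.res a b).2 hu)
          rw [← hC.shift1]; exact h1
      · obtain ⟨x, y, x1, x2, y1, y2, -, -, hxy⟩ := hr s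
        exact hs x y x1 x2 y1 y2 hxy
  exact fun n k r h => main _ n k r le_rfl h

end Cut

/-- Every vertex `i` is passed by a chord with exposed ends: some exposed `i - a` sees some exposed
`i + b`, where `0 < a ≤ views v` and `0 < b ≤ views v`. -/
def ExposedChords {n : ℕ} (v : ZMod n → ℂ) : Prop :=
  ∀ i : ZMod n, ∃ a b : ℕ, 0 < a ∧ a ≤ views v ∧ 0 < b ∧ b ≤ views v ∧
    Exposed v (i - a) ∧ Exposed v (i + b) ∧ Sees v (i - a) (i + b)

variable {n : ℕ}

theorem linked_of_lkd_gen (hn : 3 ≤ n) {v : ZMod n → ℂ} (hR : VisRel (Sees v))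
    (bef : Ag.BoundaryOrder v) (h3 : 3 * views v < n)
    (H : ∀ m : ℕ, views v = m →
      (∀ x y : ℤ, Alike v (x : ZMod n) (y : ZMod n) ↔ (m : ℤ) ∣ y - x) →
      ZRel n (unroll (Sees v)) → 0 < (m : ℤ) → (m : ℤ) ∣ n → (m : ℤ) < n →
      Cut.Wd n m (unroll (Sees v)) →
      Cut.Lkd m (unroll (Sees v))) : Linked v := by
  have hn2 : 2 ≤ n := by omega
  have : NeZero n := ⟨by omega⟩
  obtain ⟨k, hk0, hkn, hk⟩ := Ag.exists_gen (Ag.periods hn2 hR)
  obtain ⟨m, rfl⟩ : ∃ m : ℕ, k = m := ⟨k.toNat, by omega⟩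
  have halike : ∀ a b : ZMod n, Alike v a b ↔ b - a ∈ Ag.periods hn2 hR := fun a b => by
    rw [Ag.alike_iff bef (fun i => Ag.degR_pos hn2 hR i), Ag.E_iff_sub_mem]
  have hm : views v = m := by
    rw [← Ag.ncard_cosets (H := Ag.periods hn2 hR) (k := m) (by omega) hk]
    unfold views
    have e : (fun i : ZMod n => {j | Alike v i j}) =
        fun i => {j | j - i ∈ Ag.periods hn2 hR} := by
      funext a
      ext b
      exact halike a b
    rw [e]
  rw [hm] at h3
  have hE : Ag.E (Sees v) (Sees v) 0 0 := Ag.Eqv.refl _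
  have hF := Ag.fam_of_E hn hR hR hE hk0 hkn hk
  have hz : ZRel n (unroll (Sees v)) := hF.zrel true
  have hw : Cut.Wd n m (unroll (Sees v)) := fun i i' hi => hF.fw true true i i' hi
  have hal2 : ∀ x y : ℤ, Alike v (x : ZMod n) (y : ZMod n) ↔ (m : ℤ) ∣ y - x := by
    intro x y
    rw [halike, ← hk]
    push_cast
    rfl
  have hlkd := H m hm hal2 hz hk0 hkn (by omega) hw
  obtain ⟨c, hc⟩ := hlkd
  refine ⟨(c : ZMod n), fun j l hj hjl hl0 hln hno => ?_⟩
  obtain ⟨u, hu⟩ : ∃ u : ℤ, (u : ZMod n) = j := ⟨(j.val : ℤ), by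
    push_cast; exact ZMod.natCast_zmod_val j⟩
  rw [← hu] at hj hjl hno ⊢
  have h5 := (hal2 c u).1 hj
  have h6 : (m : ℤ) ∣ (u + l) - c := (hal2 c (u + l)).1 (by push_cast; exact hjl)
  have h7 : (m : ℤ) ∣ l := by
    have := dvd_sub h6 h5
    have e : u + (l : ℤ) - c - (u - c) = l := by ring
    rwa [e] at this
  have h8 : (m : ℤ) ≤ l := Int.le_of_dvd (by omega) h7
  have h9 : l = m := by
    by_contra hne
    refine hno m (by omega) (by omega) ?_
    have : Alike v (c : ZMod n) ((u + m : ℤ) : ZMod n) := (hal2 c (u + m)).2 (by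
      have e : u + (m : ℤ) - c = (u - c) + m := by ring
      rw [e]; exact dvd_add h5 (dvd_refl _))
    push_cast at this; exact this
  have := hc u h5
  unfold unroll at this
  rw [h9]
  push_cast at this; exact this


theorem linked_of_expChords (hn : 3 ≤ n) {v : ZMod n → ℂ} (hR : VisRel (Sees v))
    (bef : Ag.BoundaryOrder v) (h3 : 3 * views v < n) (hf : ExposedChords v) : Linked v := by
  refine linked_of_lkd_gen hn hR bef h3 fun m hm hal hz hk0 hkn hlt hw => ?_
  have : NeZero n := ⟨by omega⟩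
  have hrep : ∀ j : ZMod n, ∃ u : ℤ, (u : ZMod n) = j := fun j =>
    ⟨(j.val : ℤ), by push_cast; exact ZMod.natCast_zmod_val j⟩
  have hexp : ∀ f : ℤ, Exposed v (f : ZMod n) → Cut.Exposed (m : ℤ) (unroll (Sees v)) f := by
    intro f hf u w h1 h2 h3
    obtain ⟨a, ha⟩ : ∃ a : ℕ, (a : ℤ) = f - u := ⟨(f - u).toNat, by omega⟩
    obtain ⟨b, hb⟩ : ∃ b : ℕ, (b : ℤ) = w - f := ⟨(w - f).toNat, by omega⟩
    obtain ⟨j, hj, hj'⟩ := hf a b (by omega) (by omega) (by rw [hm]; omega)
    obtain ⟨j, rfl⟩ := hrep j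
    obtain ⟨t, ht⟩ := (hal f j).1 hj
    refine ⟨t, fun hxy => hj' ?_⟩
    have e1 : u + t * m = j - a := by
      have : t * (m : ℤ) = m * t := by ring
      omega
    have e2 : w + t * m = j + b := by
      have : t * (m : ℤ) = m * t := by ring
      omega
    rw [e1, e2] at hxy
    unfold unroll at hxy
    push_cast at hxy
    exact hxy
  refine Cut.linked_of_expChords n m _ hz hk0 hkn hlt hw fun s => ?_
  obtain ⟨a, b, a1, a2, b1, b2, ha, hb, hab⟩ := hf (s : ZMod n)
  rw [hm] at a2 b2
  refine ⟨s - a, s + b, by omega, by omega, by omega, by omega, hexp _ ?_, hexp _ ?_, ?_⟩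
  · push_cast; exact ha
  · push_cast; exact hb
  · unfold unroll
    push_cast
    exact hab

/-- Polygons in which every vertex is passed by a chord with exposed ends can be mapped. -/
theorem maps_exposedChords (n : ℕ) :
    ∃ S : Strategy, ∀ (v : ZMod n → ℂ) (i : ZMod n), IsPolygon v → ExposedChords v →
      ∃ t : ℕ, ∀ (v' : ZMod n → ℂ) (i' : ZMod n), IsPolygon v' →
        (run S v' i' t).1 = (run S v i t).1 → Nonempty (visGraph v' ≃g visGraph v) := by
  have hbef : ∀ (v : ZMod n → ℂ), IsPolygon v → Ag.BoundaryOrder v :=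
    fun v hv i j k hj hk => before_iff hv hj hk
  obtain ⟨S, hS⟩ := maps_linked (n := n) (fun v hv => geoE hv) (fun v hv => hbef v hv)
  refine ⟨S, fun v i hv h => hS v i hv ?_⟩
  rcases le_or_gt (views v) 2 with h2 | h2
  · exact Or.inl h2
  rcases le_or_gt n (3 * views v) with h3 | h3
  · exact Or.inr (Or.inl h3)
  exact Or.inr (Or.inr (Or.inl
    (linked_of_expChords hv.simple.three (geoE hv).rel (hbef v hv) h3 h)))

end VisMap
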