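import Pool.Agent.Lib.MP_9f3af0_lcC.RectOpp

/-!
# MP_9f3af0_lc: rings in which opposite vertices of a class see each other, with a vertex that hides at
most one vertex of a class (helper83)

`Few n k r f g`: the vertex `f` hides at most one vertex of the class of `g`.  `Exposed k r f`: no chord
shorter than `k` over `f` is visible at all vertices of its class.  If `Few` holds for some exposed `f`,
`g`, then some class is linked: exposed vertices survive all cuts, the centre of a widest fat rectangle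
has at least two laps and the least number of laps, and a vertex hides at least one vertex of every class
per lap.
-/

namespace VisMap

namespace Tw

open Tp

section

variable {k B : ℤ} {r : ℤ → ℤ → Prop}

/-- A lap gives a hidden vertex of every class. -/
theorem hid_of_lap (hk : 0 < k) {v y : ℤ} (hy : LapAt k r v y) (g : ℤ) :
    ∃ z, k ∣ z - g ∧ v < z ∧ y - k < z ∧ z ≤ y ∧ ¬ r v z := by
  obtain ⟨h1, s, s1, s2, s3, s4, s5⟩ := hy
  have h2 := Int.emod_nonneg (y - g) hk.ne'
  have h3 := Int.emod_lt_of_pos (y - g) hk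
  have h4 : k ≤ y - s := Int.le_of_dvd (by omega) s5
  refine ⟨y - (y - g) % k, ?_, by omega, by omega, by omega, fun h5 => ?_⟩
  · have e : y - (y - g) % k - g = (y - g) - (y - g) % k := by ring
    rw [e]
    exact Int.dvd_self_sub_emod
  · rcases (show y - (y - g) % k ≤ y by omega).lt_or_eq with h6 | h6
    · exact s4 _ (by omega) h6 h5
    · rw [h6] at h5
      exact h1 h5

/-- Laps are at least `k` apart. -/
theorem lap_sep {v y y' : ℤ} (hy : LapAt k r v y) (hy' : LapAt k r v y')
    (hlt : y < y') : y + k ≤ y' := by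
  obtain ⟨h1, s, s1, s2, s3, s4, s5⟩ := hy
  obtain ⟨g1, t, t1, t2, t3, t4, t5⟩ := hy'
  have h4 : k ≤ y' - t := Int.le_of_dvd (by omega) t5
  rcases lt_trichotomy t y with h5 | h5 | h5
  · have e : s = t := by
      rcases lt_trichotomy s t with h6 | h6 | h6
      · exact (s4 t h6 h5 t3).elim
      · exact h6
      · exact (t4 s h6 (by omega) s3).elim
    subst e
    have h6 : k ∣ y' - y := by
      have := dvd_sub t5 s5
      have e : y' - s - (y - s) = y' - y := by ring
      rwa [e] at this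
    have := Int.le_of_dvd (by omega) h6
    omega
  · rw [h5] at t3
    exact (h1 t3).elim
  · omega

/-- Two forward laps give two hidden vertices of every class. -/
theorem two_fwd (hk : 0 < k) {v g : ℤ} (hl : 2 ≤ lf k B r v) :
    ∃ z z', k ∣ z - g ∧ k ∣ z' - g ∧ v < z ∧ z < z' ∧ ¬ r v z ∧ ¬ r v z' := by
  classical
  have key : ∀ y y', LapAt k r v y → LapAt k r v y' → y < y' →
      ∃ z z', k ∣ z - g ∧ k ∣ z' - g ∧ v < z ∧ z < z' ∧ ¬ r v z ∧ ¬ r v z' := by
    intro y y' hy hy' hlt
    have h1 := lap_sep hy hy' hlt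
    obtain ⟨z, z1, z2, z3, z4, z5⟩ := hid_of_lap hk hy g
    obtain ⟨z', w1, w2, w3, w4, w5⟩ := hid_of_lap hk hy' g
    exact ⟨z, z', z1, w1, z2, by omega, z5, w5⟩
  unfold lf at hl
  obtain ⟨y, hy, y', hy', hne⟩ := Finset.one_lt_card.1 (show 1 < _ from hl)
  rw [Finset.mem_filter] at hy hy'
  rcases lt_or_gt_of_ne hne with h1 | h1
  · exact key y y' hy.2 hy'.2 h1
  · exact key y' y hy'.2 hy.2 h1

/-- One forward lap gives a hidden vertex of every class. -/
theorem one_fwd (hk : 0 < k) {v g : ℤ} (hl : 1 ≤ lf k B r v) :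
    ∃ z, k ∣ z - g ∧ v < z ∧ ¬ r v z := by
  classical
  unfold lf at hl
  obtain ⟨y, hy⟩ := Finset.card_pos.1 (show 0 < _ from hl)
  rw [Finset.mem_filter] at hy
  obtain ⟨z, z1, z2, z3, z4, z5⟩ := hid_of_lap hk hy.2 g
  exact ⟨z, z1, z2, z5⟩

/-- Two laps give two hidden vertices of every class. -/
theorem two_hidden (hk : 0 < k) {v g : ℤ} (hl : 2 ≤ laps k B r v) :
    ∃ z z', k ∣ z - g ∧ k ∣ z' - g ∧ z < z' ∧ z ≠ v ∧ z' ≠ v ∧ ¬ r v z ∧ ¬ r v z' := by
  have hdv : ∀ z, k ∣ z - -g → k ∣ -z - g := fun z hz => by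
    rw [← dvd_neg]
    have e : -(-z - g) = z - -g := by ring
    rw [e]; exact hz
  have hm : ∀ z, ¬ VisMap.mirror r (-v) z → ¬ r v (-z) := fun z hz h1 => by
    refine hz ?_
    show r (- -v) (-z)
    rw [neg_neg]; exact h1
  have e : laps k B r v = lf k B r v + lf k B (VisMap.mirror r) (-v) := rfl
  rcases (show 2 ≤ lf k B r v ∨ 2 ≤ lf k B (VisMap.mirror r) (-v) ∨
      (1 ≤ lf k B r v ∧ 1 ≤ lf k B (VisMap.mirror r) (-v)) by omega) with h1 | h1 | ⟨h1, h2⟩
  · obtain ⟨z, z', z1, z2, z3, z4, z5, z6⟩ := two_fwd hk (g := g) h1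
    exact ⟨z, z', z1, z2, z4, by omega, by omega, z5, z6⟩
  · obtain ⟨z, z', z1, z2, z3, z4, z5, z6⟩ := two_fwd hk (g := -g) h1
    exact ⟨-z', -z, hdv _ z2, hdv _ z1, by omega, by omega, by omega, hm _ z6, hm _ z5⟩
  · obtain ⟨z, z1, z2, z3⟩ := one_fwd hk (g := g) h1
    obtain ⟨z', w1, w2, w3⟩ := one_fwd hk (g := -g) h2
    exact ⟨-z', z, hdv _ w1, z1, by omega, by omega, by omega, hm _ w3, z3⟩

/-- All vertices have at least two laps if there is a widest fat rectangle. -/
theorem FatF.two_laps (h : TZ k B r) {s a b : ℤ} (f : FatF k r s a b) (v : ℤ) :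
    2 ≤ laps k B r v := by
  have hk := h.hk
  rcases lt_or_ge b (2 * k) with hb | hb
  · exact (f.false_of_lt h hb).elim
  have h1 := f.min h v
  have h2 := f.lf_s h
  have h3 : 2 ≤ b / k := by
    rw [Int.le_ediv_iff_mul_le hk]; exact hb
  have e : laps k B r s = lf k B r s + lb k B r s := rfl
  omega

end

section

variable {n : ℕ} {k D : ℤ} {r : ℤ → ℤ → Prop} (hz : ZRel n r) (h3 : ∀ x, r x (x + D)) (hD : 2 ≤ D)
  (hk : 0 < k) (h6 : 2 * D ≤ n)

include hz h3 hD hk h6 in
/-- There is no fat rectangle if some vertex hides at most one vertex of some class. -/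
theorem noFat_few (hkn : k ∣ (n : ℤ)) (hw : Cut.Wd n k r) {f g : ℤ} (hf : Cut.Few n k r f g)
    (s : ℤ) (hs : ∀ a b, s - k ≤ a → a < s → s < b → b ≤ s + k → ¬ r a b) : False := by
  have h := tz3 hz h3 hD hk h6 hw
  have hl : 2 ≤ laps k (D - 1) (rF (D - 1) r) f := by
    rcases exists_fatF hz h3 hD hk h6 hw s hs with ⟨s, a, b, F⟩ | ⟨s, a, b, F⟩
    · exact F.two_laps h f
    · have := F.two_laps h.mirror (-f)
      rwa [laps_mirror'] at this
  obtain ⟨z, z', z1, z2, z3, z4, z5, z6, z7⟩ := two_hidden hk (g := g) hl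
  have hnear : ∀ z, z ≠ f → ¬ rF (D - 1) r f z → z - f ≤ D - 1 ∧ f - z ≤ D - 1 ∧ ¬ r f z := by
    intro z hne hno
    refine ⟨?_, ?_, fun h1 => hno (rF_of (Ne.symm hne) h1)⟩
    · by_contra hc
      exact hno ⟨Ne.symm hne, fun h1 => by omega⟩
    · by_contra hc
      exact hno ⟨Ne.symm hne, fun _ h1 => by omega⟩
  obtain ⟨a1, a2, a3⟩ := hnear z z4 z6
  obtain ⟨b1, b2, b3⟩ := hnear z' z5 z7
  -- a representative in `(f, f + n)`
  have hrep : ∀ z, k ∣ z - g → z ≠ f → z - f ≤ D - 1 → f - z ≤ D - 1 → ¬ r f z →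
      ∃ z0, (z0 = z ∨ z0 = z + n) ∧ k ∣ z0 - g ∧ f < z0 ∧ z0 < f + n ∧ ¬ r f z0 := by
    intro z c1 c2 c3 c4 c5
    rcases lt_or_gt_of_ne c2 with c6 | c6
    · refine ⟨z + n, Or.inr rfl, ?_, by omega, by omega, ?_⟩
      · have e : z + n - g = (z - g) + n := by ring
        rw [e]; exact dvd_add c1 hkn
      · rw [perR hz]; exact c5
    · exact ⟨z, Or.inl rfl, c1, by omega, by omega, c5⟩
  obtain ⟨y, p1, p2, p3, p4, p5⟩ := hrep z z1 z4 a1 a2 a3
  obtain ⟨y', q1, q2, q3, q4, q5⟩ := hrep z' z2 z5 b1 b2 b3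
  have := hf y y' p2 q2 p3 p4 q3 q4 p5 q5
  omega

end

end Tw

namespace Cut

open Dism

/-- No chord of a length below `k` over `f` is visible at all vertices of its class. -/
def Exposed (k : ℤ) (r : ℤ → ℤ → Prop) (f : ℤ) : Prop :=
  ∀ u w : ℤ, u < f → f < w → w < u + k → ∃ j : ℤ, ¬ r (u + j * k) (w + j * k)

variable {n : ℕ} {r : ℤ → ℤ → Prop}

section

variable {n' : ℕ} {k d c : ℤ} {φ : ℤ → ℤ} (hC : CutE n n' k d c r φ)

include hC in
/-- `Exposed` is inherited. -/
theorem CutE.exposed {a : ℤ} (hf : Exposed k r (φ a)) :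
    Exposed (k - d + 1) (fun a b => r (φ a) (φ b)) a := by
  intro u w h1 h2 h3
  have e1 := hC.shift1 u
  have g1 := hC.hE.mono h1
  have g2 := hC.hE.mono h2
  have g3 := hC.hE.mono h3
  obtain ⟨j, hj⟩ := hf (φ u) (φ w) g1 g2 (by omega)
  refine ⟨j, ?_⟩
  show ¬ r (φ (u + j * (k - d + 1))) (φ (w + j * (k - d + 1)))
  rw [hC.shift, hC.shift]
  exact hj

include hC in
/-- An exposed vertex survives. -/
theorem CutE.survive (hk : 0 < k) (hdk : d < k) (hv : ∀ u, k ∣ u - c → r u (u + d)) {f : ℤ}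
    (hf : Exposed k r f) : ∃ a, φ a = f := by
  refine hC.hE.surj f ?_
  by_contra hno
  obtain ⟨u, hu, u1, u2⟩ := exists_between hk hno
  obtain ⟨j, hj⟩ := hf u (u + d) u1 u2 (by omega)
  refine hj ?_
  have e : u + d + j * k = (u + j * k) + d := by ring
  rw [e]
  refine hv _ ?_
  have e2 : u + j * k - c = (u - c) + k * j := by ring
  rw [e2]
  exact dvd_add hu (dvd_mul_right k j)

include hC in
/-- `Few` is inherited. -/
theorem CutE.few {a b : ℤ} (hf : Few n k r (φ a) (φ b)) :
    Few n' (k - d + 1) (fun a b => r (φ a) (φ b)) a b := by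
  intro z z' h1 h2 h3 h4 h5 h6 h7 h8
  have g4 := hC.hE.mono h4
  have g6 := hC.hE.mono h6
  rw [hC.hE.per] at g4 g6
  exact hC.hE.mono.injective (hf (φ z) (φ z') ((hC.res b z).1 h1) ((hC.res b z').1 h2)
    (hC.hE.mono h3) g4 (hC.hE.mono h5) g6 h7 h8)

end

/-- If opposite vertices of a class see each other and some exposed vertex `f` hides at most one vertex of
the class of some exposed vertex `g`, then some class is linked. -/
theorem linked_of_few (n : ℕ) (k : ℤ) (r : ℤ → ℤ → Prop) (f g : ℤ) (h : ZRel n r) (hk : 0 < k)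
    (hkn : k ∣ (n : ℤ)) (hlt : k < n) (hw : Wd n k r) (ho : Opp n k r) (hf : Exposed k r f)
    (hg : Exposed k r g) (hfew : Few n k r f g) : Lkd k r := by
  obtain ⟨m, m1, m2, m3⟩ := id ho
  clear ho
  have main : ∀ N : ℕ, ∀ (n : ℕ) (k : ℤ) (r : ℤ → ℤ → Prop) (f g : ℤ), k.toNat ≤ N → ZRel n r →
      0 < k → k ∣ (n : ℤ) → k < n → Wd n k r → 2 * (m * k) ≤ n → (∀ x, r x (x + m * k)) →
      Exposed k r f → Exposed k r g → Few n k r f g → Lkd k r := by
    intro N
    induction N with
    | zero => intro n k r f g h1 _ h2; omega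
    | succ N ih =>
      intro n k r f g hN h hk hkn hlt hw hm2 hm hf hg hfew
      by_cases hk1 : k = 1
      · subst hk1
        exact ⟨0, fun u _ => h.succ u⟩
      obtain ⟨q, hq⟩ := id hkn
      have hq2 : 2 ≤ q := by
        by_contra hcon
        have : k * q ≤ k * 1 := mul_le_mul_of_nonneg_left (by omega) hk.le
        omega
      have hn4 : 4 ≤ (n : ℤ) := by
        have : k * 2 ≤ k * q := mul_le_mul_of_nonneg_left hq2 hk.le
        omega
      by_cases hn3 : (n : ℤ) ≤ 3 * k
      · exact linked_three h hk hkn hlt (by omega) hn3 hw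
      have hq4 : 4 ≤ q := by
        by_contra hcon
        have : k * q ≤ k * 3 := mul_le_mul_of_nonneg_left (by omega) hk.le
        omega
      have h4k : 4 * k ≤ n := by
        have : k * 4 ≤ k * q := mul_le_mul_of_nonneg_left hq4 hk.le
        omega
      have hmk : 1 * k ≤ m * k := mul_le_mul_of_nonneg_right m1 hk.le
      by_contra hno
      have hNL : Tp.NoWide k r := fun c d d1 d2 hv => by
        rcases eq_or_lt_of_le d2 with hd | hd
        · subst hd
          exact hno ⟨c, hv⟩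
        · obtain ⟨n', φ, hC⟩ := cut_enum h (by omega) hkn hw d1 hd hv
          have hlt' : k - d + 1 < (n' : ℤ) := by
            by_contra hcon
            have h5 : (n' : ℤ) * k ≤ (k - d + 1) * k :=
              mul_le_mul_of_nonneg_right (by omega) hk.le
            have h6 : k * (k - d + 1) < n * (k - d + 1) := mul_lt_mul_of_pos_right hlt (by omega)
            have h7 : (k - d + 1) * k = k * (k - d + 1) := by ring
            have h8 := hC.card
            omega
          have hbig : 2 * (m * (k - d + 1)) ≤ (n' : ℤ) := by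
            have e := hC.big (2 * m) (by linarith)
            linarith
          obtain ⟨f, rfl⟩ := hC.survive hk hd hv hf
          obtain ⟨g, rfl⟩ := hC.survive hk hd hv hg
          obtain ⟨a, ha⟩ := ih n' (k - d + 1) _ f g (by omega) hC.zrel (by omega) hC.dvd hlt' hC.wd
            hbig (fun a => by
              show r (φ a) (φ (a + m * (k - d + 1)))
              rw [hC.shift]; exact hm _) (hC.exposed hf) (hC.exposed hg) (hC.few hfew)
          refine hno ⟨φ a, fun u hu => ?_⟩
          obtain ⟨b, rfl⟩ := hC.hE.surj u ((kp_of_dvd hu).2 (hC.hE.mem a))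
          have h1 := ha b ((hC.res a b).2 hu)
          rw [← hC.shift1]; exact h1
      exact false_of_noFat h (by omega) hkn h4k hw hNL fun s hs =>
        Tw.noFat_few h hm (by omega) hk hm2 hkn hw hfew s hs
  exact main _ n k r f g le_rfl h hk hkn hlt hw m2 m3 hf hg hfew

end Cut

end VisMap
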