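import Pool.Agent.Lib.MP_9f3af0_lcC.FewOpp

/-!
# MP_9f3af0_lc: rings in which opposite vertices of a class see each other, with a vertex that hides few
vertices of a class (helper83)

`Few2 n k r f g`: the vertex `f` hides at most two vertices of the class of `g`.  If an exposed vertex
hides at most one vertex of an exposed class, or if for every class some exposed vertex hides at most two
vertices of it, then some class is linked: the rows of a widest fat rectangle at `s` hide `s + 1`,
`s + k + 1`, `s + 2 k + 1`.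
-/

namespace VisMap

namespace Cut

open Dism

variable {n : ℕ} {k : ℤ} {r : ℤ → ℤ → Prop}

/-- The vertex `f` hides at most two vertices of the class of `g`. -/
def Few2 (n : ℕ) (k : ℤ) (r : ℤ → ℤ → Prop) (f g : ℤ) : Prop :=
  ∀ x y z, k ∣ x - g → k ∣ y - g → k ∣ z - g → f < x → x < f + n → f < y → y < f + n →
    f < z → z < f + n → ¬ r f x → ¬ r f y → ¬ r f z → x = y ∨ x = z ∨ y = z

/-- A mate of `f` hides at most two vertices of the class of `g`, too. -/
theorem Few2.not_three (hw : Wd n k r) {f x g a b c : ℤ} (hf : Few2 n k r f g) (hx : k ∣ x - f)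
    (ha : k ∣ a - g) (hb : k ∣ b - g) (hc : k ∣ c - g) (a1 : x < a) (a2 : a < x + n) (b1 : x < b)
    (b2 : b < x + n) (c1 : x < c) (c2 : c < x + n) (ra : ¬ r x a) (rb : ¬ r x b) (rc : ¬ r x c)
    (hab : a ≠ b) (hac : a ≠ c) (hbc : b ≠ c) : False := by
  classical
  obtain ⟨φ, f1, f2, f3, -⟩ := hw f x hx
  set V : ℤ → Finset ℤ := fun v =>
    (Finset.Ioo (0 : ℤ) n).filter fun o => k ∣ v + o - g ∧ r v (v + o) with hV
  set H : ℤ → Finset ℤ := fun v =>
    (Finset.Ioo (0 : ℤ) n).filter fun o => k ∣ v + o - g ∧ ¬ r v (v + o) with hH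
  set T : ℤ → Finset ℤ := fun v => (Finset.Ioo (0 : ℤ) n).filter fun o => k ∣ v + o - g with hT
  have hcard : ∀ v, (V v).card + (H v).card = (T v).card := by
    intro v
    rw [← Finset.card_union_of_disjoint]
    · congr 1
      ext o
      simp only [hV, hH, hT, Finset.mem_union, Finset.mem_filter]
      tauto
    · rw [Finset.disjoint_left]
      intro o h1 h2
      simp only [hV, hH, Finset.mem_filter] at h1 h2
      exact h2.2.2 h1.2.2
  have hTT : T f = T x := by
    simp only [hT]
    refine Finset.filter_congr fun o _ => ?_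
    have e : x + o - g = (f + o - g) + (x - f) := by ring
    rw [e]
    exact ⟨fun h => dvd_add h hx, fun h => by
      have := dvd_sub h hx
      rwa [add_sub_cancel_right] at this⟩
  have hVV : (V f).card ≤ (V x).card := by
    refine Finset.card_le_card_of_injOn φ ?_ ?_
    · intro o ho
      simp only [hV, Finset.coe_filter, Finset.mem_Ioo, Set.mem_ofPred_eq] at ho ⊢
      obtain ⟨⟨o1, o2⟩, o3, o4⟩ := ho
      obtain ⟨p1, p2, p3⟩ := f1 o ⟨o1, o2, o4⟩
      refine ⟨⟨p1, p2⟩, ?_, p3⟩
      have e : x + φ o - g = (f + o - g) + ((x - f) + (φ o - o)) := by ring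
      rw [e]
      exact dvd_add o3 (dvd_add hx (f2 o ⟨o1, o2, o4⟩))
    · intro o ho o' ho' heq
      simp only [hV, Finset.coe_filter, Finset.mem_Ioo, Set.mem_ofPred_eq] at ho ho'
      have g1 : Fw n r f o := ⟨ho.1.1, ho.1.2, ho.2.2⟩
      have g2 : Fw n r f o' := ⟨ho'.1.1, ho'.1.2, ho'.2.2⟩
      rcases lt_trichotomy o o' with h | h | h
      · have := f3 _ _ g1 g2 h
        omega
      · exact h
      · have := f3 _ _ g2 g1 h
        omega
  have hHH : (H x).card ≤ (H f).card := by
    have h1 := hcard f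
    have h2 := hcard x
    rw [hTT] at h1
    omega
  have hmem : ∀ a, k ∣ a - g → x < a → a < x + n → ¬ r x a → a - x ∈ H x := by
    intro a g1 g2 g3 g4
    simp only [hH, Finset.mem_filter, Finset.mem_Ioo]
    refine ⟨⟨by omega, by omega⟩, ?_, ?_⟩
    · rw [add_sub_cancel]; exact g1
    · rw [add_sub_cancel]; exact g4
  have h3 : 2 < (H x).card := Finset.two_lt_card.2
    ⟨a - x, hmem a ha a1 a2 ra, b - x, hmem b hb b1 b2 rb, c - x, hmem c hc c1 c2 rc,
      by omega, by omega, by omega⟩
  obtain ⟨a, ha, b, hb, c, hc, h4, h5, h6⟩ := Finset.two_lt_card.1 (lt_of_lt_of_le h3 hHH)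
  simp only [hH, Finset.mem_filter, Finset.mem_Ioo] at ha hb hc
  have := hf (f + a) (f + b) (f + c) ha.2.1 hb.2.1 hc.2.1 (by omega) (by omega) (by omega)
    (by omega) (by omega) (by omega) ha.2.2 hb.2.2 hc.2.2
  omega

end Cut

namespace Tw

open Tp

variable {n : ℕ} {k D : ℤ} {r : ℤ → ℤ → Prop} (hz : ZRel n r) (h3 : ∀ x, r x (x + D)) (hD : 2 ≤ D)
  (hk : 0 < k) (h6 : 2 * D ≤ n)

/-- The rows of the widest fat rectangle. -/
theorem FatF.row {B : ℤ} (h : TZ k B r) {s a b : ℤ} (f : FatF k r s a b) (v : ℤ) :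
    ∃ x, k ∣ x - v ∧ s - k ≤ x ∧ x < s ∧ s + 2 * k + 1 - x ≤ B ∧
      ¬ r x (s + 1) ∧ ¬ r x (s + k + 1) ∧ ¬ r x (s + 2 * k + 1) := by
  have hk := h.hk
  have hka := f.ka
  have hB := f.abB h
  have hρ := f.rho_pos h
  have hb1 : 2 * k + 1 ≤ b := by
    rcases lt_or_ge b (2 * k) with hb | hb
    · exact (f.false_of_lt h hb).elim
    · by_contra hne
      have h1 : b = 2 * k := by omega
      rw [h1, Int.mul_emod_left] at hρ
      omega
  have h1 := Int.emod_nonneg (s - 1 - v) hk.ne'
  have h2 := Int.emod_lt_of_pos (s - 1 - v) hk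
  refine ⟨s - 1 - (s - 1 - v) % k, ?_, by omega, by omega, by omega, ?_, ?_, ?_⟩
  · have e : s - 1 - (s - 1 - v) % k - v = (s - 1 - v) - (s - 1 - v) % k := by ring
    rw [e]
    exact Int.dvd_self_sub_emod
  · exact f.hid _ _ (by omega) (by omega) (by omega) (by omega)
  · exact f.hid _ _ (by omega) (by omega) (by omega) (by omega)
  · exact f.hid _ _ (by omega) (by omega) (by omega) (by omega)

include hz h3 hD hk h6 in
/-- There is no fat rectangle if for every class some vertex hides at most two vertices of it. -/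
theorem noFat_few2 (hw : Cut.Wd n k r) (hf : ∀ g, ∃ f, Cut.Few2 n k r f g)
    (s : ℤ) (hs : ∀ a b, s - k ≤ a → a < s → s < b → b ≤ s + k → ¬ r a b) : False := by
  have h := tz3 hz h3 hD hk h6 hw
  have hnear : ∀ a b, a ≠ b → b - a ≤ D - 1 → a - b ≤ D - 1 → ¬ rF (D - 1) r a b → ¬ r a b :=
    fun a b hne _ _ hno h1 => hno (rF_of hne h1)
  have hdv : ∀ g, k ∣ g - g := fun g => by rw [sub_self]; exact dvd_zero k
  rcases exists_fatF hz h3 hD hk h6 hw s hs with ⟨s, a, b, F⟩ | ⟨s, a, b, F⟩
  · obtain ⟨f, hf⟩ := hf (s + 1)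
    obtain ⟨x, x1, x2, x3, x4, x5, x6, x7⟩ := F.row h f
    refine hf.not_three hw (x := x) (a := s + 1) (b := s + k + 1) (c := s + 2 * k + 1) x1
      (hdv _) ⟨1, by ring⟩ ⟨2, by ring⟩ (by omega) (by omega) (by omega) (by omega) (by omega)
      (by omega) (hnear _ _ (by omega) (by omega) (by omega) x5)
      (hnear _ _ (by omega) (by omega) (by omega) x6)
      (hnear _ _ (by omega) (by omega) (by omega) x7) (by omega) (by omega) (by omega)
  · obtain ⟨f, hf⟩ := hf (-s - 1 + n)
    obtain ⟨x, x1, x2, x3, x4, x5, x6, x7⟩ := F.row h.mirror (-f)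
    have hx : k ∣ -x - f := by
      rw [← dvd_neg]
      have e : -(-x - f) = x - -f := by ring
      rw [e]; exact x1
    have hm : ∀ z z' : ℤ, z' = -z + n → x < z → z - x ≤ D - 1 →
        ¬ VisMap.mirror (rF (D - 1) r) x z → ¬ r (-x) z' := by
      rintro z z' rfl g1 g2 hno h1
      rw [perR hz] at h1
      exact hno (rF_of (by omega) h1)
    refine hf.not_three hw (x := -x) (a := -s - 1 + n) (b := -s - k - 1 + n)
      (c := -s - 2 * k - 1 + n) hx
      (hdv _) ⟨-1, by ring⟩ ⟨-2, by ring⟩ (by omega) (by omega) (by omega) (by omega) (by omega)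
      (by omega) (hm (s + 1) _ (by ring) (by omega) (by omega) x5)
      (hm (s + k + 1) _ (by ring) (by omega) (by omega) x6)
      (hm (s + 2 * k + 1) _ (by ring) (by omega) (by omega) x7) (by omega) (by omega) (by omega)

end Tw

namespace Cut

open Dism

variable {n : ℕ} {r : ℤ → ℤ → Prop}

/-- `Few2` is inherited. -/
theorem CutE.few2 {n' : ℕ} {k d c : ℤ} {φ : ℤ → ℤ} (hC : CutE n n' k d c r φ) {a b : ℤ}
    (hf : Few2 n k r (φ a) (φ b)) : Few2 n' (k - d + 1) (fun a b => r (φ a) (φ b)) a b := by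
  intro x y z h1 h2 h3 x1 x2 y1 y2 z1 z2 hx hy hz
  have g1 := hC.hE.mono x2
  have g2 := hC.hE.mono y2
  have g3 := hC.hE.mono z2
  rw [hC.hE.per] at g1 g2 g3
  rcases hf (φ x) (φ y) (φ z) ((hC.res b x).1 h1) ((hC.res b y).1 h2) ((hC.res b z).1 h3)
    (hC.hE.mono x1) g1 (hC.hE.mono y1) g2 (hC.hE.mono z1) g3 hx hy hz with h | h | h
  · exact Or.inl (hC.hE.mono.injective h)
  · exact Or.inr (Or.inl (hC.hE.mono.injective h))
  · exact Or.inr (Or.inr (hC.hE.mono.injective h))

/-- If opposite vertices of a class see each other and some exposed vertex hides at most one vertex of an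
exposed class, or for every class some exposed vertex hides at most two vertices of it, then some class is
linked. -/
theorem linked_of_hides (n : ℕ) (k : ℤ) (r : ℤ → ℤ → Prop) (h : ZRel n r) (hk : 0 < k)
    (hkn : k ∣ (n : ℤ)) (hlt : k < n) (hw : Wd n k r) (ho : Opp n k r)
    (hfew : (∃ f g, Exposed k r f ∧ Exposed k r g ∧ Few n k r f g) ∨
      ∀ g, ∃ f, Exposed k r f ∧ Few2 n k r f g) : Lkd k r := by
  rcases hfew with ⟨f, g, hf, hg, hfew⟩ | hfew
  · exact linked_of_few n k r f g h hk hkn hlt hw ho hf hg hfew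
  obtain ⟨m, m1, m2, m3⟩ := id ho
  clear ho
  have main : ∀ N : ℕ, ∀ (n : ℕ) (k : ℤ) (r : ℤ → ℤ → Prop), k.toNat ≤ N → ZRel n r →
      0 < k → k ∣ (n : ℤ) → k < n → Wd n k r → 2 * (m * k) ≤ n → (∀ x, r x (x + m * k)) →
      (∀ g, ∃ f, Exposed k r f ∧ Few2 n k r f g) → Lkd k r := by
    intro N
    induction N with
    | zero => intro n k r h1 _ h2; omega
    | succ N ih =>
      intro n k r hN h hk hkn hlt hw hm2 hm hfew
      by_cases hk1 : k = 1
      · subst hk1
        exact ⟨0, fun u _ => h.succ u⟩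
      obtain ⟨q, hq⟩ := id hkn
      have hq2 : 2 ≤ q := by
        by_contra hcon
        have : k * q ≤ k * 1 := mul_le_mul_of_nonneg_left (by omega) hk.le
        omega
      have hn4 : 4 ≤ (n : ℤ) := by
        have : k * 2 ≤ k * q := mul_le_mul_of_nonneg_left hq2 hk.le
        omega
      by_cases hn3 : (n : ℤ) ≤ 3 * k
      · exact linked_three h hk hkn hlt (by omega) hn3 hw
      have hq4 : 4 ≤ q := by
        by_contra hcon
        have : k * q ≤ k * 3 := mul_le_mul_of_nonneg_left (by omega) hk.le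
        omega
      have h4k : 4 * k ≤ n := by
        have : k * 4 ≤ k * q := mul_le_mul_of_nonneg_left hq4 hk.le
        omega
      have hmk : 1 * k ≤ m * k := mul_le_mul_of_nonneg_right m1 hk.le
      by_contra hno
      have hNL : Tp.NoWide k r := fun c d d1 d2 hv => by
        rcases eq_or_lt_of_le d2 with hd | hd
        · subst hd
          exact hno ⟨c, hv⟩
        · obtain ⟨n', φ, hC⟩ := cut_enum h (by omega) hkn hw d1 hd hv
          have hlt' : k - d + 1 < (n' : ℤ) := by
            by_contra hcon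
            have h5 : (n' : ℤ) * k ≤ (k - d + 1) * k :=
              mul_le_mul_of_nonneg_right (by omega) hk.le
            have h6 : k * (k - d + 1) < n * (k - d + 1) := mul_lt_mul_of_pos_right hlt (by omega)
            have h7 : (k - d + 1) * k = k * (k - d + 1) := by ring
            have h8 := hC.card
            omega
          have hbig : 2 * (m * (k - d + 1)) ≤ (n' : ℤ) := by
            have e := hC.big (2 * m) (by linarith)
            linarith
          obtain ⟨a, ha⟩ := ih n' (k - d + 1) _ (by omega) hC.zrel (by omega) hC.dvd hlt' hC.wd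
            hbig (fun a => by
              show r (φ a) (φ (a + m * (k - d + 1)))
              rw [hC.shift]; exact hm _) (fun g => by
              obtain ⟨f, hf, hfg⟩ := hfew (φ g)
              obtain ⟨f, rfl⟩ := hC.survive hk hd hv hf
              exact ⟨f, hC.exposed hf, hC.few2 hfg⟩)
          refine hno ⟨φ a, fun u hu => ?_⟩
          obtain ⟨b, rfl⟩ := hC.hE.surj u ((kp_of_dvd hu).2 (hC.hE.mem a))
          have h1 := ha b ((hC.res a b).2 hu)
          rw [← hC.shift1]; exact h1
      exact false_of_noFat h (by omega) hkn h4k hw hNL fun s hs =>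
        Tw.noFat_few2 h hm (by omega) hk hm2 hw (fun g => by
          obtain ⟨f, -, hf⟩ := hfew g
          exact ⟨f, hf⟩) s hs
  exact main _ n k r le_rfl h hk hkn hlt hw m2 m3 hfew

end Cut

end VisMap
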