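import Pool.Agent.Lib.MP_9f3af0_lcC.WOne

/-!
# MP_9f3af0_lc: polygons in which all pairs at a distance of at least `D` see each other (helper55)

If `2 D ≤ n` and every vertex `x` sees `x + D`, the relation `rF (D - 1) r` (two vertices see each
other or have a distance of at least `D`) is a weak `T'`-structure.
-/

namespace VisMap

namespace Tw

open Tp LemB

variable {n : ℕ} {k D : ℤ} {r : ℤ → ℤ → Prop}

theorem lcT_shift (T : ℤ → Prop) (c a b : ℤ) :
    lcT k (fun y => T (y + c)) a b = lcT k T (a + c) (b + c) := by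
  classical
  have key : ∀ (T : ℤ → Prop) (c y : ℤ), LapP k T (y + c) → LapP k (fun y => T (y + c)) y := by
    rintro T c y ⟨h1, s, s1, s2, s3, s4⟩
    refine ⟨h1, s - c, by omega, ?_, fun m m1 m2 => s3 (m + c) (by omega) (by omega), ?_⟩
    · show T (s - c + c)
      rw [sub_add_cancel]; exact s2
    · have e : y - (s - c) = y + c - s := by ring
      rw [e]; exact s4
  have key' : ∀ (y : ℤ), LapP k (fun y => T (y + c)) y → LapP k T (y + c) := by
    intro y hy
    have e1 : (fun z => (fun y => T (y + c)) (z + -c)) = T := by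
      funext z
      show T (z + -c + c) = T z
      congr 1
      ring
    have h2 : LapP k (fun y => T (y + c)) (y + c + -c) := by
      have e : y + c + -c = y := by ring
      rw [e]; exact hy
    have := key (fun y => T (y + c)) (-c) (y + c) h2
    rw [e1] at this
    exact this
  unfold lcT
  refine Finset.card_bij' (fun z _ => z + c) (fun z _ => z - c) ?_ ?_ ?_ ?_
  · intro z hz
    rw [Finset.mem_filter, Finset.mem_Ioc] at hz ⊢
    exact ⟨⟨by omega, by omega⟩, key' z hz.2⟩
  · intro z hz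
    rw [Finset.mem_filter, Finset.mem_Ioc] at hz ⊢
    exact ⟨⟨by omega, by omega⟩, key T c _ (by rw [sub_add_cancel]; exact hz.2)⟩
  · intro z _
    simp
  · intro z _
    simp

theorem lcT_mir (hk : 0 < k) {T : ℤ → Prop} (N : ℕ) : ∀ {a b : ℤ}, b - a ≤ N → a ≤ b → T a → T b →
    lcT k (fun z => T (-z)) (-b) (-a) = lcT k T a b := by
  induction N with
  | zero =>
    intro a b h1 h2 _ _
    have : a = b := by push_cast at h1; omega
    subst this
    rw [lcT_self, lcT_self]
  | succ N ih =>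
    intro a b h1 h2 ha hb
    rcases eq_or_lt_of_le h2 with he | hlt
    · subst he
      rw [lcT_self, lcT_self]
    obtain ⟨c, c1, c2, c3, c4⟩ := exists_last (p := T) (a := a) (b := b - 1) (by omega) ha
    have h3 := ih (a := a) (b := c) (by push_cast at h1; omega) c1 ha c3
    rw [lcT_split (a := -b) (b := -c) (c := -a) (by omega) (by omega), h3,
      lcT_split (k := k) (T := T) (a := a) (b := c) (c := b) c1 (by omega)]
    have h4 := lcT_gap hk (T := T) (a := c) (b := b) (by omega) c3 hb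
      (fun m m1 m2 => c4 m m1 (by omega))
    have h5 := lcT_gap hk (T := fun z => T (-z)) (a := -b) (b := -c) (by omega)
      (by rw [neg_neg]; exact hb) (by rw [neg_neg]; exact c3)
      (fun m m1 m2 => c4 (-m) (by omega) (by omega))
    have e : -c - 1 - -b = b - 1 - c := by ring
    rw [e, ← h4] at h5
    have h6 : lcT k (fun z => T (-z)) (-b) (-c) = lcT k T c b := by exact_mod_cast h5
    rw [h6, Nat.add_comm]

theorem lcT_match (hk : 0 < k) {P Q : ℤ → Prop} (hP : ∀ o, P o → 0 < o) (hQ : ∀ o, Q o → 0 < o)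
    (p1 : P 1) (q1 : Q 1) {φ : ℤ → ℤ} (f1 : ∀ o, P o → Q (φ o)) (f2 : ∀ o, P o → k ∣ φ o - o)
    (f3 : ∀ a b, P a → P b → a < b → φ a < φ b) (f4 : ∀ o', Q o' → ∃ o, P o ∧ φ o = o') (j : ℕ) :
    ∀ o, P o → o ≤ j → φ o - o = k * ((lcT k Q 1 (φ o) : ℤ) - lcT k P 1 o) := by
  have hone : φ 1 = 1 := match_one hP hQ p1 q1 f1 f3 f4
  induction j with
  | zero =>
    intro o ho ho'
    have := hP o ho
    push_cast at ho'
    omega
  | succ j ih =>
    intro o ho ho'
    have ho1 := hP o ho
    rcases (by omega : o = 1 ∨ 1 < o) with he | hlt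
    · rw [he, hone, lcT_self, lcT_self]
      simp
    · obtain ⟨s, s1, s2, s3, s4⟩ := exists_last (p := P) (a := 1) (b := o - 1) (by omega) p1
      have h1 := ih s s3 (by push_cast at ho'; omega)
      have hφs : 1 ≤ φ s := by
        have := hQ _ (f1 s s3)
        omega
      have hφ := f3 _ _ s3 ho (by omega)
      have h2 := lcT_gap hk (T := P) (a := s) (b := o) (by omega) s3 ho
        (fun m m1 m2 => s4 m m1 (by omega))
      have h3 := lcT_gap hk (T := Q) (a := φ s) (b := φ o) hφ (f1 _ s3) (f1 _ ho)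
        (fun m m1 m2 m3 => by
          obtain ⟨o', o1, o2⟩ := f4 m m3
          rcases lt_trichotomy o' s with hl | hl | hl
          · have := f3 _ _ o1 s3 hl; omega
          · rw [hl] at o2; omega
          · rcases lt_trichotomy o' o with hl' | hl' | hl'
            · exact s4 o' hl (by omega) o1
            · rw [hl'] at o2; omega
            · have := f3 _ _ ho o1 hl'; omega)
      rw [lcT_split (k := k) (T := P) (a := 1) (b := s) (c := o) s1 (by omega),
        lcT_split (k := k) (T := Q) (a := 1) (b := φ s) (c := φ o) hφs hφ.le]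
      obtain ⟨x, hx⟩ := f2 _ s3
      obtain ⟨y, hy⟩ := f2 _ ho
      have e1 : φ o - 1 - φ s = (o - 1 - s) + k * (y - x) := by linarith
      rw [e1, Int.add_mul_ediv_left _ _ hk.ne'] at h3
      push_cast
      rw [h3, h2]
      have e2 : ((lcT k Q 1 (φ s) : ℤ) + ((o - 1 - s) / k + (y - x)) -
          (lcT k P 1 s + (o - 1 - s) / k)) =
          (lcT k Q 1 (φ s) - lcT k P 1 s) + (y - x) := by ring
      rw [e2, mul_add, ← h1]
      linarith

/-- Hidden rectangles are short. -/
theorem fh_short (h3 : ∀ x, r x (x + D)) (hD : 2 ≤ D) {v y : ℤ} (hf : FH r v y) :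
    y < v + D := by
  by_contra hc
  obtain ⟨c, c1, c2, c3⟩ := hf
  rcases le_or_gt v (c - D + 1) with hl | hl
  · exact c3 (c - D + 1) (c - D + 1 + D) hl (by omega) (by omega) (by omega) (h3 _)
  · exact c3 v (v + D) le_rfl c1 (by omega) (by omega) (h3 _)

theorem far3 (hz : ZRel n r) (h3 : ∀ x, r x (x + D)) (hD : 2 ≤ D) {a b : ℤ}
    (h1 : a + D ≤ b) (h2 : b + D ≤ a + n) : r a b := by
  by_contra hno
  rcases FH.of_hidden hz (by omega) (by omega) hno with hf | hf
  · have := fh_short h3 hD hf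
    omega
  · have := fh_short h3 hD hf
    omega

theorem vis3 (hz : ZRel n r) (h3 : ∀ x, r x (x + D)) (hD : 2 ≤ D) (h6 : 2 * D ≤ n) {a b : ℤ}
    (hab : a < b) (hb : b < a + D) (h : ¬ FH r a b) : r a b := by
  by_contra hno
  rcases FH.of_hidden hz hab (by omega) hno with hf | hf
  · exact h hf
  · have := fh_short h3 hD hf
    omega

section

variable (hz : ZRel n r) (h3 : ∀ x, r x (x + D)) (hD : 2 ≤ D) (hk : 0 < k) (h6 : 2 * D ≤ n)

include hz in
theorem perR (x y : ℤ) : r x (y + n) ↔ r x y := (ZR.of_zRel hz).perR x y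

include hz h3 in
theorem back3 (x : ℤ) : r x (x - D) := by
  have := h3 (x - D)
  rw [sub_add_cancel] at this
  exact hz.symm _ _ this

include h3 in
theorem rF_le {v z : ℤ} (h1 : v < z) (h2 : z ≤ v + D) : rF (D - 1) r v z ↔ r v z := by
  constructor
  · intro h
    rcases eq_or_lt_of_le h2 with he | hl
    · rw [he]; exact h3 v
    · exact h.2 (by omega) (by omega)
  · exact fun h => rF_of (by omega) h

include h3 hD hk h6 in
/-- Forward laps. -/
theorem lapsF {v o : ℤ} (h1 : 1 ≤ o) (h2 : o ≤ D) (hs : r v (v + 1)) :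
    lcT k (Tf (rF (D - 1) r) v) v (v + o) = lcT k (Fw n r v) 1 o := by
  have e1 := lcT_shift (k := k) (Tf (rF (D - 1) r) v) v 0 o
  rw [zero_add, add_comm o v] at e1
  have hT : ∀ z, 1 ≤ z → z ≤ o → (Tf (rF (D - 1) r) v (z + v) ↔ Fw n r v z) := by
    intro z z1 z2
    have h5 := rF_le h3 (v := v) (z := z + v) (by omega) (by omega)
    unfold Tf Fw
    rw [h5, add_comm z v]
    constructor
    · rintro ⟨a1, a2⟩
      exact ⟨by omega, by omega, a2⟩
    · rintro ⟨a1, a2, a3⟩
      exact ⟨by omega, a3⟩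
  have hw1 : Fw n r v 1 := ⟨one_pos, by omega, hs⟩
  have ht1 : Tf (rF (D - 1) r) v (1 + v) := (hT 1 le_rfl h1).2 hw1
  rw [← e1, lcT_split (a := 0) (b := 1) (c := o) (by omega) h1,
    lcT_eq_zero (a := 0) (b := 1) (fun y y1 y2 y3 => by
      have : y = 1 := by omega
      rw [this] at y3
      exact y3.1 ht1), zero_add]
  refine lcT_congr fun y y1 y2 => ?_
  exact lapP_iff_of (a := 1) y1 ht1 hw1 fun z z1 z2 => hT z z1 (by omega)

include hz h3 hD hk h6 in
/-- Backward laps. -/
theorem lapsB {v o : ℤ} (h1 : 1 ≤ o) (h2 : o ≤ D) (ho : r v (v - o)) :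
    lcT k (Tf (VisMap.mirror (rF (D - 1) r)) (-v)) (-v) (-v + o) =
      lcT k (Fw n r v) (n - o) (n - 1) := by
  have hp := perR hz
  have e1 := lcT_shift (k := k) (Tf (VisMap.mirror (rF (D - 1) r)) (-v)) (-v) 0 o
  rw [zero_add, add_comm o (-v)] at e1
  have hT : ∀ z, 1 ≤ z → z ≤ o →
      (Tf (VisMap.mirror (rF (D - 1) r)) (-v) (z + -v) ↔ Fw n r v (-(z + -n))) := by
    intro z z1 z2
    have h4 : rF (D - 1) r v (v - z) ↔ r v (v - z) := by
      have h5 := rF_le h3 (v := v - z) (z := v) (by omega) (by omega)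
      exact ⟨fun h => hz.symm _ _ (h5.1 (rF_symm hz h)), fun h => rF_symm hz (h5.2 (hz.symm _ _ h))⟩
    have e2 : VisMap.mirror (rF (D - 1) r) (-v) (z + -v) ↔ rF (D - 1) r v (v - z) := by
      show rF (D - 1) r (- -v) (-(z + -v)) ↔ _
      have e3 : -(z + -v) = v - z := by ring
      rw [neg_neg, e3]
    have e4 : v + -(z + -(n : ℤ)) = v - z + n := by ring
    unfold Tf Fw
    rw [e2, h4, e4, hp]
    constructor
    · rintro ⟨a1, a2⟩
      exact ⟨by omega, by omega, a2⟩
    · rintro ⟨a1, a2, a3⟩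
      exact ⟨by omega, a3⟩
  have hpred : r v (v - 1) := by
    have := hz.succ (v - 1)
    rw [sub_add_cancel] at this
    exact hz.symm _ _ this
  have hw1 : Fw n r v (-(1 + -n)) := by
    refine ⟨by omega, by omega, ?_⟩
    have e4 : v + -(1 + -(n : ℤ)) = v - 1 + n := by ring
    rw [e4, hp]; exact hpred
  have ht1 := (hT 1 le_rfl h1).2 hw1
  rw [← e1, lcT_split (a := 0) (b := 1) (c := o) (by omega) h1,
    lcT_eq_zero (a := 0) (b := 1) (fun y y1 y2 y3 => by
      have : y = 1 := by omega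
      rw [this] at y3
      exact y3.1 ht1), zero_add]
  have e5 := lcT_shift (k := k) (fun y => Fw n r v (-y)) (-n) 1 o
  have e6 := lcT_mir hk (T := Fw n r v) (n : ℕ) (a := n - o) (b := n - 1) (by omega) (by omega)
    (by
      refine ⟨by omega, by omega, ?_⟩
      have e4 : v + ((n : ℤ) - o) = v - o + n := by ring
      rw [e4, hp]; exact ho)
    (by
      refine ⟨by omega, by omega, ?_⟩
      have e4 : v + ((n : ℤ) - 1) = v - 1 + n := by ring
      rw [e4, hp]; exact hpred)
  have e7 : -((n : ℤ) - 1) = 1 + -n := by ring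
  have e8 : -((n : ℤ) - o) = o + -n := by ring
  rw [e7, e8] at e6
  rw [← e6, ← e5]
  refine lcT_congr fun y y1 y2 => ?_
  exact lapP_iff_of (a := 1) y1 ht1 hw1 fun z z1 z2 => hT z z1 (by omega)

theorem lapsM (hD : 2 ≤ D) (v M : ℤ) (hM : v + D - 1 ≤ M) :
    lcT k (Tf (rF (D - 1) r) v) v M = lf k (D - 1) (rF (D - 1) r) v := by
  rw [lf_eq_lcT, lcT_split (a := v) (b := v + (D - 1)) (c := M) (by omega) (by omega),
    lcT_eq_zero (a := v + (D - 1)) (b := M) (fun y y1 y2 y3 => y3.1 ⟨by omega,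
      rF_far (by omega) (by omega)⟩), add_zero]

include h3 hD hk h6 in
theorem lf3 {v : ℤ} (hs : r v (v + 1)) : lf k (D - 1) (rF (D - 1) r) v =
    lcT k (Fw n r v) 1 (D) := by
  rw [← lapsM hD v (v + D) (by omega)]
  exact lapsF h3 hD hk h6 (by omega) le_rfl hs

include hz h3 hD hk h6 in
theorem lb3 (v : ℤ) : lb k (D - 1) (rF (D - 1) r) v =
    lcT k (Fw n r v) (n - D) (n - 1) := by
  have h1 := lapsB hz h3 hD hk h6 (v := v) (o := D) (by omega) le_rfl (back3 hz h3 v)
  have h2 : lb k (D - 1) (rF (D - 1) r) v = lf k (D - 1)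
      (rF (D - 1) (VisMap.mirror r)) (-v) := by
    unfold lb
    rw [rF_mirror]
  rw [h2, ← lapsM hD (-v) (-v + D) (by omega), rF_mirror]
  exact h1

include hz h3 hD hk h6 in
/-- All laps of the ring. -/
theorem laps3 (v : ℤ) : laps k (D - 1) (rF (D - 1) r) v = lcT k (Fw n r v) 1 (n - 1) := by
  have h1 := lf3 h3 hD hk h6 (hz.succ v)
  have h2 := lb3 hz h3 hD hk h6 v
  have h4 : lcT k (Fw n r v) (D) (n - D) = 0 := lcT_eq_zero fun y y1 y2 y3 =>
    y3.1 ⟨by omega, by omega, far3 hz h3 hD (by omega) (by omega)⟩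
  unfold laps
  rw [h1, h2, lcT_split (a := 1) (b := D) (c := (n : ℤ) - 1) (by omega) (by omega),
    lcT_split (k := k) (T := Fw n r v) (a := D) (b := n - D) (c := (n : ℤ) - 1) (by omega)
      (by omega), h4, zero_add]

include hz h3 hD hk h6 in
theorem class3 (hw : Cut.Wd n k r) {v v' : ℤ} (hv : k ∣ v' - v) :
    laps k (D - 1) (rF (D - 1) r) v' = laps k (D - 1) (rF (D - 1) r) v := by
  obtain ⟨φ, f1, f2, f3, f4⟩ := hw v v' hv
  have hl : ∀ v, Fw n r v (n - 1) := fun v => by
    refine ⟨by omega, by omega, ?_⟩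
    have e4 : v + ((n : ℤ) - 1) = v - 1 + n := by ring
    rw [e4, perR hz]
    have := hz.succ (v - 1)
    rw [sub_add_cancel] at this
    exact hz.symm _ _ this
  have hlast : φ (n - 1) = n - 1 := by
    obtain ⟨o, o1, o2⟩ := f4 _ (hl v')
    rcases lt_trichotomy o (n - 1) with h | h | h
    · have h1 := f3 _ _ o1 (hl v) h
      have h2 := (f1 _ (hl v)).2.1
      omega
    · rw [h] at o2; exact o2
    · have := o1.2.1
      omega
  have h1 := lcT_match hk (P := Fw n r v) (Q := Fw n r v') (fun o ho => ho.1) (fun o ho => ho.1)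
    ⟨one_pos, by omega, hz.succ v⟩ ⟨one_pos, by omega, hz.succ v'⟩ f1 f2 f3 f4 n (n - 1) (hl v)
    (by omega)
  rw [hlast, sub_self] at h1
  rw [laps3 hz h3 hD hk h6, laps3 hz h3 hD hk h6]
  have h2 := (mul_eq_zero.1 h1.symm).resolve_left hk.ne'
  omega

include hz h3 hD hk h6 in
/-- Transport. -/
theorem tr3 (hw : Cut.Wd n k r) {v v' z : ℤ} (hv : k ∣ v' - v) (h1 : v < z)
    (h2 : z ≤ v + (D - 1) + 1) (h : rF (D - 1) r v z) :
    ∃ z', v' < z' ∧ rF (D - 1) r v' z' ∧
    z' - v' - k * lcT k (Tf (rF (D - 1) r) v') v' z' =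
      z - v - k * lcT k (Tf (rF (D - 1) r) v) v z := by
  obtain ⟨φ, f1, f2, f3, f4⟩ := hw v v' hv
  obtain ⟨o, ho⟩ : ∃ o, o = z - v := ⟨_, rfl⟩
  have hz' : z = v + o := by omega
  subst hz'
  clear ho
  have hr : r v (v + o) := (rF_le h3 h1 (by omega)).1 h
  have hFo : Fw n r v o := ⟨by omega, by omega, hr⟩
  have hFo' := f1 o hFo
  have h5 := lcT_match hk (P := Fw n r v) (Q := Fw n r v') (fun o ho => ho.1) (fun o ho => ho.1)
    ⟨one_pos, by omega, hz.succ v⟩ ⟨one_pos, by omega, hz.succ v'⟩ f1 f2 f3 f4 n o hFo (by omega)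
  rw [lapsF h3 hD hk h6 (by omega) (by omega) (hz.succ v)]
  have ho' := hFo'.1
  rcases le_or_gt (φ o) (D) with hle | hgt
  · refine ⟨v' + φ o, by omega, (rF_le h3 (by omega) (by omega)).2 hFo'.2.2, ?_⟩
    rw [lapsF h3 hD hk h6 (by omega) hle (hz.succ v')]
    linarith
  · have hF3 : Fw n r v' (D) := ⟨by omega, by omega, h3 v'⟩
    have h7 := lcT_lt hk (T := Fw n r v') (a := D) (b := φ o) hgt hF3 hFo'
    have h8 := lcT_split (k := k) (T := Fw n r v') (a := 1) (b := D) (c := φ o) (by omega)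
      hgt.le
    have h9 := lf3 h3 hD hk h6 (hz.succ v')
    have h8' : (lcT k (Fw n r v') 1 (φ o) : ℤ) = lcT k (Fw n r v') 1 (D) +
        lcT k (Fw n r v') (D) (φ o) := by rw [h8]; push_cast; ring
    rw [h8'] at h5
    refine ⟨v' + o - k * lcT k (Fw n r v) 1 o + k * lcT k (Fw n r v') 1 (D), ?_, ?_, ?_⟩
    · linarith
    · exact rF_far (by linarith) (by omega)
    · rw [lapsM hD v' _ (by linarith), h9]
      ring

include hz h3 hD hk h6 in
/-- **The ring is a weak `T'`-structure.** -/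
theorem tz3 (hw : Cut.Wd n k r) : TZ k (D - 1) (rF (D - 1) r) := by
  have hzm : ZRel n (VisMap.mirror r) := Cut.zrel_mir hz
  have hwm : Cut.Wd n k (VisMap.mirror r) := Cut.wd_mir hz hw
  have h3m : ∀ x, VisMap.mirror r x (x + D) := fun x => by
    show r (-x) (-(x + D))
    have e : -(x + D) = -x - D := by ring
    rw [e]
    exact back3 hz h3 _
  have hcn : ∀ (r : ℤ → ℤ → Prop), ZRel n r → (∀ x, r x (x + D)) →
      ∀ i s t : ℤ, i < s → s < t → rF (D - 1) r i s → rF (D - 1) r i t →
      (∀ m, s < m → m < t → ¬ rF (D - 1) r i m) → rF (D - 1) r s t := by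
    intro r hz h3 i s t h4 h5 hs ht hm
    rcases eq_or_lt_of_le (show s + 1 ≤ t by omega) with he | hl
    · rw [← he]
      exact rF_of (by omega) (hz.succ s)
    · have htB : t ≤ i + D := by
        by_contra hc
        exact hm (t - 1) (by omega) (by omega) (rF_far (by omega) (by omega))
      refine rF_of (by omega) ?_
      refine hz.cn i s t h4 h5 (by omega) ((rF_le h3 h4 (by omega)).1 hs)
        ((rF_le h3 (by omega) htB).1 ht) fun m m1 m2 m3 => hm m m1 m2 (rF_of (by omega) m3)
  refine ⟨hk, by omega, fun a b => rF_symm hz, fun a h => h.1 rfl, fun a => rF_of (by omega)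
    (hz.succ a), fun a b h => rF_far h (by omega), hcn r hz h3, ?_, ?_,
    fun v v' hv => class3 hz h3 hD hk h6 hw hv,
    fun v v' z hv h1 h2 h => tr3 hz h3 hD hk h6 hw hv h1 (by omega) h, ?_⟩
  · intro i s t h4 h5 hs ht hm
    have := hcn _ hzm h3m (-i) (-s) (-t) (by omega) (by omega) (by
      rw [rF_mirror]; show rF _ r (- -i) (- -s); rw [neg_neg, neg_neg]; exact hs) (by
      rw [rF_mirror]; show rF _ r (- -i) (- -t); rw [neg_neg, neg_neg]; exact ht) (by
      intro m m1 m2 m3
      rw [rF_mirror] at m3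
      refine hm (-m) (by omega) (by omega) ?_
      have m4 : rF (D - 1) r (- -i) (-m) := m3
      rwa [neg_neg] at m4)
    rw [rF_mirror] at this
    have h6 : rF (D - 1) r (- -s) (- -t) := this
    rwa [neg_neg, neg_neg] at h6
  · intro a b c d h4 h5 h8 h7 h9
    rcases le_or_gt d (a + (D - 1)) with hl | hl
    · refine rF_of (by omega) (vis3 hz h3 hD h6 (by omega) (by omega) fun hf => ?_)
      rcases FH.cross h4 h5 h8 hf with h10 | h10
      · exact h10.not_r (h7.2 (by omega) (by omega))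
      · exact h10.not_r (h9.2 (by omega) (by omega))
    · exact rF_far (by omega) (by omega)
  · intro v v' z hv h1 h2 h
    obtain ⟨z', a1, a2, a3⟩ := tr3 hzm h3m hD hk h6 hwm (v := -v) (v' := -v') (z := -z) (by
      have := (dvd_neg).2 hv
      have e : -v' - -v = -(v' - v) := by ring
      rwa [e]) (by omega) (by omega) (by
      rw [rF_mirror]
      show rF (D - 1) r (- -v) (- -z)
      rw [neg_neg, neg_neg]; exact h)
    refine ⟨-z', by omega, ?_, ?_⟩
    · rw [rF_mirror] at a2
      have a4 : rF (D - 1) r (- -v') (-z') := a2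
      rwa [neg_neg] at a4
    · rw [rF_mirror] at a3
      rw [neg_neg]
      linarith

include hz h3 hD hk h6 in
/-- There is no fat rectangle if every vertex sees one of the next three and one of the previous three
vertices of its class. -/
theorem noFat3 (hk2 : 2 ≤ k) (hw : Cut.Wd n k r)
    (hn : ∀ x, r x (x + k) ∨ r x (x + 2 * k) ∨ r x (x + 3 * k))
    (hp : ∀ x, r x (x - k) ∨ r x (x - 2 * k) ∨ r x (x - 3 * k))
    (s : ℤ) (hs : ∀ a b, s - k ≤ a → a < s → s < b → b ≤ s + k → ¬ r a b) : False := by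
  have key : ∀ (r : ℤ → ℤ → Prop), TZ k (D - 1) r →
      (∀ x, r x (x + k) ∨ r x (x + 2 * k) ∨ r x (x + 3 * k)) → ∀ s a b, FatF k r s a b → False := by
    intro r h hn s a b f
    rcases lt_or_ge b (2 * k) with hb | hb
    · exact f.false_of_lt h hb
    · have h1 := f.rho_pos h
      have h2 := f.ka
      have h3 : 2 * k < b := by
        rcases eq_or_lt_of_le hb with he | hl
        · rw [← he, Int.mul_emod_left] at h1
          omega
        · exact hl
      rcases hn (s - k + 1) with h4 | h4 | h4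
      · exact f.hid _ _ (by omega) (by omega) (by omega) (by omega) h4
      · exact f.hid _ _ (by omega) (by omega) (by omega) (by omega) h4
      · exact f.hid _ _ (by omega) (by omega) (by omega) (by omega) h4
  have h := tz3 hz h3 hD hk h6 hw
  have hnF : ∀ x, rF (D - 1) r x (x + k) ∨ rF (D - 1) r x (x + 2 * k) ∨ rF (D - 1) r x (x + 3 * k) := by
    intro x
    rcases hn x with h4 | h4 | h4
    · exact Or.inl (rF_of (by omega) h4)
    · exact Or.inr (Or.inl (rF_of (by omega) h4))
    · exact Or.inr (Or.inr (rF_of (by omega) h4))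
  have hnM : ∀ x, VisMap.mirror (rF (D - 1) r) x (x + k) ∨
      VisMap.mirror (rF (D - 1) r) x (x + 2 * k) ∨
      VisMap.mirror (rF (D - 1) r) x (x + 3 * k) := by
    intro x
    show rF (D - 1) r (-x) (-(x + k)) ∨ rF (D - 1) r (-x) (-(x + 2 * k)) ∨
      rF (D - 1) r (-x) (-(x + 3 * k))
    have e1 : -(x + k) = -x - k := by ring
    have e2 : -(x + 2 * k) = -x - 2 * k := by ring
    have e3 : -(x + 3 * k) = -x - 3 * k := by ring
    rw [e1, e2, e3]
    rcases hp (-x) with h4 | h4 | h4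
    · exact Or.inl (rF_of (by omega) h4)
    · exact Or.inr (Or.inl (rF_of (by omega) h4))
    · exact Or.inr (Or.inr (rF_of (by omega) h4))
  by_cases hsD : ∃ x y, s - k ≤ x ∧ x < s ∧ s < y ∧ y ≤ s + k ∧ D - 1 < y - x
  · -- a fat rectangle contains no pair at a distance `D`
    obtain ⟨x, y, x1, x2, y1, y2, hxy⟩ := hsD
    rcases le_or_gt (s - D + 1) x with hl | hl
    · exact hs x (x + D) x1 x2 (by omega) (by omega) (h3 _)
    · exact hs (s - D + 1) (s - D + 1 + D) (by omega) (by omega) (by omega) (by omega) (h3 _)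
  have hs' : Hid (rF (D - 1) r) s k k := fun x y h1 h2 h3 h4 h5 => by
    have h6 : y - x ≤ D - 1 := by
      by_contra hc
      exact hsD ⟨x, y, h1, h2, h3, h4, by omega⟩
    exact hs x y h1 h2 h3 h4 (h5.2 h6 (by omega))
  rcases h.exists_fat hs' with ⟨s, a, b, f⟩ | ⟨s, a, b, f⟩
  · exact key _ h hnF s a b f
  · exact key _ h.mirror hnM s a b f

end

end Tw

end VisMap
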