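import Pool.Agent.Lib.MP_9f3af0_lcC.WL

/-!
# MP_9f3af0_lc: the sights of the centre inside the widest fat rectangle
(after helper12, helper14, helper6; Lean by helper59)

`FatF k r s a b` is the widest fat rectangle, `T = s - a - 1`, `t = s + b + 1`.  The sights of `s` in
`(s, t)` have naturals `≤ b % k` (`FatF.nat_le`); `c` is the first sight of `T` in `(s, t)`
(`FatF.exists_c`), every sight `x ≥ c` of `s` before `t` sees `T` (`FatF.T_see`), and
`b / k ≤ lf x + (laps of x in (s, x))` (`FatF.star`).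
-/

namespace VisMap

namespace Tw

open Tp

variable {k B : ℤ} {r : ℤ → ℤ → Prop}

/-- The natural offset is strictly increasing along the sights. -/
theorem TZ.nat_lt (h : TZ k B r) {v y z : ℤ} (hy : v < y) (hyz : y < z) (ry : r v y)
    (rz : r v z) :
    y - v - k * (lcT k (Tf r v) v y : ℤ) < z - v - k * (lcT k (Tf r v) v z : ℤ) := by
  have h1 := lcT_split (k := k) (T := Tf r v) hy.le hyz.le
  have h2 := lcT_lt h.hk (T := Tf r v) hyz ⟨hy, ry⟩ ⟨by omega, rz⟩
  rw [h1]
  push_cast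
  have e : k * ((lcT k (Tf r v) v y : ℤ) + lcT k (Tf r v) y z) =
      k * (lcT k (Tf r v) v y : ℤ) + k * (lcT k (Tf r v) y z : ℤ) := by ring
  omega

/-- The natural offset is positive. -/
theorem TZ.nat_pos (h : TZ k B r) {v y : ℤ} (hy : v < y) (ry : r v y) :
    1 ≤ y - v - k * (lcT k (Tf r v) v y : ℤ) := by
  have h1 := h.lcT_le hy ry
  rw [Int.le_ediv_iff_mul_le h.hk, mul_comm] at h1
  omega

/-- The laps of `x` up to a sight `y ≥ x + 2` : the first neighbour is seen. -/
theorem TZ.lcT_le2 (h : TZ k B r) {x y : ℤ} (hxy : x + 1 < y) (hr : r x y) :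
    (lcT k (Tf r x) x y : ℤ) ≤ (y - 2 - x) / k := by
  rw [Int.le_ediv_iff_mul_le h.hk, mul_comm]
  have h4 : lcT k (Tf r x) x (x + 1) = 0 := lcT_eq_zero fun z z1 z2 z3 => by
    have e : z = x + 1 := by omega
    rw [e] at z3
    exact z3.1 ⟨by omega, h.succ x⟩
  have h2 := lcT_lt h.hk (T := Tf r x) (a := x + 1) (b := y) hxy ⟨by omega, h.succ x⟩
    ⟨by omega, hr⟩
  have h3 := lcT_split (k := k) (T := Tf r x) (a := x) (b := x + 1) (c := y) (by omega) hxy.le
  rw [h3, h4, zero_add]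
  omega

section

variable {s a b : ℤ}

/-- The laps of `s` up to a sight at or beyond `t`. -/
theorem FatF.lc_t (h : TZ k B r) (f : FatF k r s a b) {z : ℤ} (hz : s + b + 1 ≤ z)
    (hr : r s z) : (lcT k (Tf r s) s z : ℤ) = b / k := by
  have hk := h.hk
  have hka := f.ka
  have h1 := f.lc_far h (i := 0) (z := z) le_rfl (by omega) hz (by
    rw [mul_zero, sub_zero]; exact hr)
  rw [mul_zero, sub_zero] at h1
  exact h1

/-- The sights of `s` before `t` have naturals `≤ b % k`. -/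
theorem FatF.nat_le (h : TZ k B r) (f : FatF k r s a b) {x : ℤ} (hx : s < x)
    (hxt : x ≤ s + b) (hr : r s x) :
    x - s - k * (lcT k (Tf r s) s x : ℤ) ≤ b % k := by
  have hk := h.hk
  have hkb := f.kb
  have hb := Int.emod_add_mul_ediv b k
  have h1 := h.nat_lt hx (z := s + b + 1) (by omega) hr (f.st h)
  rw [f.lc_t h le_rfl (f.st h)] at h1
  omega

/-- `k` does not divide `b`. -/
theorem FatF.rho_pos (h : TZ k B r) (f : FatF k r s a b) : 1 ≤ b % k := by
  have hk := h.hk
  have hkb := f.kb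
  have h1 := f.nat_le h (x := s + 1) (by omega) (by omega) (h.succ s)
  have h2 := h.nat_pos (v := s) (y := s + 1) (by omega) (h.succ s)
  omega

/-- Lemma L for the sights of `s` in `(s, t)`. -/
theorem FatF.lemLx (h : TZ k B r) (f : FatF k r s a b) {x : ℤ} (hx : s < x)
    (hxt : x ≤ s + b) (hr : r s x) : (laps k B r s : ℤ) + a / k ≤ laps k B r x :=
  f.lemL h (j := x - s - k * (lcT k (Tf r s) s x : ℤ)) (h.nat_pos hx hr) (f.nat_le h hx hxt hr)
    ⟨lcT k (Tf r s) s x, by ring⟩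

/-- The first sight of `T` in `(s, t)` is a sight of `s`. -/
theorem FatF.exists_c (h : TZ k B r) (f : FatF k r s a b) :
    ∃ c, s < c ∧ c ≤ s + b ∧ r s c ∧ r (s - a - 1) c ∧
      ∀ m, s < m → m < c → ¬ r (s - a - 1) m := by
  have hk := h.hk
  have hka := f.ka
  obtain ⟨y0, y1, y2, y3⟩ := f.maxa
  obtain ⟨c, c1, c2, c3, c4⟩ := exists_first (p := fun y => r (s - a - 1) y) (a := s + 1) (b := y0)
    (by omega) y3
  refine ⟨c, by omega, by omega, ?_, c3, fun m m1 m2 => c4 m (by omega) m2⟩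
  exact h.cn (s - a - 1) s c (by omega) (by omega) (h.symm _ _ (f.sT h)) c3
    fun m m1 m2 => c4 m (by omega) m2

/-- Every sight `x ≥ c` of `s` sees `T`. -/
theorem FatF.T_see (h : TZ k B r) (f : FatF k r s a b) {c x : ℤ} (hsc : s < c)
    (hTc : r (s - a - 1) c) (hcx : c ≤ x) (hx : r s x) : r (s - a - 1) x := by
  have hk := h.hk
  have hka := f.ka
  rcases hcx.lt_or_eq with h1 | h1
  · exact h.X (s - a - 1) s c x (by omega) hsc h1 hTc hx
  · rw [← h1]; exact hTc

/-- The backward laps of a column `x ∈ (s, t)` that sees `s` and `T`. -/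
theorem FatF.lb_x (h : TZ k B r) (f : FatF k r s a b) {x : ℤ} (hx : s < x)
    (hxt : x ≤ s + b) (hr : r s x) (hT : r (s - a - 1) x) :
    (lb k B r x : ℤ) ≤ lcT k (Tf (VisMap.mirror r) (-x)) (-x) (-s) + a / k + lb k B r s := by
  have hk := h.hk
  have hka := f.ka
  have e' : ∀ v m : ℤ, VisMap.mirror r (-v) m ↔ r v (-m) := fun v m => by
    show r (- -v) (-m) ↔ _
    rw [neg_neg]
  set M := max (max (-s + B + 1) (-x + B + 1)) (-(s - a - 1)) with hMdef
  have hM1 : -s + B + 1 ≤ M := le_trans (le_max_left _ _) (le_max_left _ _)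
  have hM2 : -x + B + 1 ≤ M := le_trans (le_max_right _ _) (le_max_left _ _)
  have hM3 : -(s - a - 1) ≤ M := le_max_right _ _
  have h1 : lb k B r x = lcT k (Tf (VisMap.mirror r) (-x)) (-x) (-s) +
      lcT k (Tf (VisMap.mirror r) (-x)) (-s) (-(s - a - 1)) +
      lcT k (Tf (VisMap.mirror r) (-x)) (-(s - a - 1)) M := by
    rw [h.lb_eq (v := x) (M := M) (by omega),
      lcT_split (a := -x) (b := -s) (c := M) (by omega) (by omega),
      lcT_split (a := -s) (b := -(s - a - 1)) (c := M) (by omega) (by omega)]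
    ring
  have h2 : (lcT k (Tf (VisMap.mirror r) (-x)) (-s) (-(s - a - 1)) : ℤ) = a / k := by
    rw [lcT_gap hk (T := Tf (VisMap.mirror r) (-x)) (a := -s) (b := -(s - a - 1)) (by omega)
      ⟨by omega, (mir_iff x s).2 (h.symm _ _ hr)⟩
      ⟨by omega, (mir_iff x (s - a - 1)).2 (h.symm _ _ hT)⟩ fun m m1 m2 m3 => by
        have m4 := (e' x m).1 m3.2
        exact f.hid (-m) x (by omega) (by omega) hx hxt (h.symm _ _ m4)]
    congr 1
    ring
  have h3 : lb k B r s = lcT k (Tf (VisMap.mirror r) (-s)) (-s) (-(s - a - 1)) +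
      lcT k (Tf (VisMap.mirror r) (-s)) (-(s - a - 1)) M := by
    rw [h.lb_eq (v := s) (M := M) (by omega),
      lcT_split (a := -s) (b := -(s - a - 1)) (c := M) (by omega) (by omega)]
  have h4 : lcT k (Tf (VisMap.mirror r) (-x)) (-(s - a - 1)) M ≤
      lcT k (Tf (VisMap.mirror r) (-s)) (-(s - a - 1)) M := by
    refine lcT_mono hk hM3 ⟨by omega, (mir_iff s (s - a - 1)).2 (f.sT h)⟩
      ⟨by omega, (e' s M).2 (h.far' (by omega))⟩ ?_
    rintro z z1 z2 ⟨z3, z4⟩
    have z5 := (e' s z).1 z4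
    refine ⟨by omega, (e' x z).2 ?_⟩
    rcases (show -z ≤ s - a - 1 by omega).lt_or_eq with h5 | h5
    · exact h.symm _ _ (h.X (-z) (s - a - 1) s x h5 (by omega) hx (h.symm _ _ z5) hT)
    · rw [h5]; exact h.symm _ _ hT
  omega

/-- The inequality `(*)`: `b / k ≤ lf x + (laps of x in (s, x))`. -/
theorem FatF.star (h : TZ k B r) (f : FatF k r s a b) {x : ℤ} (hx : s < x)
    (hxt : x ≤ s + b) (hr : r s x) (hT : r (s - a - 1) x) :
    b / k ≤ (lf k B r x : ℤ) + lcT k (Tf (VisMap.mirror r) (-x)) (-x) (-s) := by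
  have h1 := f.lb_x h hx hxt hr hT
  have h2 := f.lemLx h hx hxt hr
  have h3 := f.lf_s h
  have e1 : laps k B r s = lf k B r s + lb k B r s := rfl
  have e2 : laps k B r x = lf k B r x + lb k B r x := rfl
  omega

/-- The laps of the column `x` in `(s, x)`. -/
theorem FatF.lcb_le (h : TZ k B r) {x : ℤ} (hx : s + 1 < x) (hr : r s x) :
    (lcT k (Tf (VisMap.mirror r) (-x)) (-x) (-s) : ℤ) ≤ (x - 2 - s) / k := by
  have h1 := h.mirror.lcT_le2 (k := k) (x := -x) (y := -s) (by omega)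
    ((mir_iff x s).2 (h.symm _ _ hr))
  have e : -s - 2 - -x = x - 2 - s := by ring
  rw [e] at h1
  exact h1

/-- The last sight of `s` before `t` sees `s`, `T` and `t`. -/
theorem FatF.exists_e (h : TZ k B r) (f : FatF k r s a b) :
    ∃ e, s < e ∧ e ≤ s + b ∧ r s e ∧ r (s - a - 1) e ∧ r e (s + b + 1) ∧
      ∀ m, e < m → m < s + b + 1 → ¬ r s m := by
  have hk := h.hk
  have hkb := f.kb
  obtain ⟨c, c1, c2, c3, c4, -⟩ := f.exists_c h
  obtain ⟨e, e1, e2, e3, e4⟩ := exists_last (p := fun z => r s z) (a := c) (b := s + b)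
    (by omega) c3
  refine ⟨e, by omega, e2, e3, f.T_see h c1 c4 e1 e3, ?_, fun m m1 m2 => e4 m m1 (by omega)⟩
  exact h.cn s e (s + b + 1) (by omega) (by omega) e3 (f.st h) fun m m1 m2 => e4 m m1 (by omega)

/-- The equality case for the last sight `e` of `s` before `t` if `e` has no laps beyond `t`. -/
theorem FatF.e_eq (h : TZ k B r) (f : FatF k r s a b) {e : ℤ} (he : s < e)
    (het : e ≤ s + b) (hr : r s e) (hT : r (s - a - 1) e) (ht : r e (s + b + 1))
    (hn : (lf k B r e : ℤ) = lcT k (Tf r e) e (s + b + 1)) :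
    (e = s + b ∨ e - s - k * (lcT k (Tf r s) s e : ℤ) < b % k) ∧
    (e = s + 1 ∨ 2 ≤ e - s - k * (lcT k (Tf r s) s e : ℤ)) ∧
    (lcT k (Tf (VisMap.mirror r) (-e)) (-e) (-s) : ℤ) = lcT k (Tf r s) s e ∧
    (lf k B r e : ℤ) = b / k - lcT k (Tf r s) s e := by
  have hk := h.hk
  have hkb := f.kb
  have hb := Int.emod_add_mul_ediv b k
  have hb' := Int.emod_lt_of_pos b hk
  have h1 := f.star h he het hr hT
  have h2 := f.nat_le h he het hr
  have h3 := h.nat_pos he hr
  generalize hL : lcT k (Tf r s) s e = L at h2 h3 ⊢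
  generalize hX : lcT k (Tf (VisMap.mirror r) (-e)) (-e) (-s) = X at h1 ⊢
  have hX1 : k * (X : ℤ) ≤ e - s - 1 := by
    have h4 := h.mirror.lcT_le (k := k) (x := -e) (y := -s) (by omega)
      ((mir_iff e s).2 (h.symm _ _ hr))
    rw [hX, Int.le_ediv_iff_mul_le hk, mul_comm] at h4
    omega
  have hX2 : e = s + 1 ∨ k * (X : ℤ) ≤ e - 2 - s := by
    rcases (show s + 1 ≤ e by omega).lt_or_eq with h5 | h5
    · have h4 := FatF.lcb_le (k := k) h h5 hr
      rw [hX, Int.le_ediv_iff_mul_le hk, mul_comm] at h4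
      exact Or.inr h4
    · exact Or.inl h5.symm
  have hF0 : k * (lf k B r e : ℤ) ≤ s + b - e := by
    have h4 := h.lcT_le (k := k) (x := e) (y := s + b + 1) (by omega) ht
    rw [← hn, Int.le_ediv_iff_mul_le hk, mul_comm] at h4
    omega
  have hF1 : e = s + b ∨ k * (lf k B r e : ℤ) ≤ s + b - 1 - e := by
    rcases het.lt_or_eq with h5 | h5
    · have h4 := h.lcT_le2 (k := k) (x := e) (y := s + b + 1) (by omega) ht
      rw [← hn, Int.le_ediv_iff_mul_le hk, mul_comm] at h4
      exact Or.inr (by omega)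
    · exact Or.inl h5
  have h6 : k * (b / k) ≤ k * (lf k B r e : ℤ) + k * (X : ℤ) := by
    rw [← mul_add]
    exact mul_le_mul_of_nonneg_left h1 hk.le
  have hXL : (X : ℤ) ≤ L := by
    by_contra hc
    have h7 : k * ((L : ℤ) + 1) ≤ k * (X : ℤ) := mul_le_mul_of_nonneg_left (by omega) hk.le
    have h8 : k * ((L : ℤ) + 1) = k * L + k := by ring
    omega
  have hFL : (lf k B r e : ℤ) ≤ b / k - L := by
    by_contra hc
    have h7 : k * (b / k - L + 1) ≤ k * (lf k B r e : ℤ) :=
      mul_le_mul_of_nonneg_left (by omega) hk.le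
    have h8 : k * (b / k - L + 1) = k * (b / k) - k * L + k := by ring
    omega
  have hXe : (X : ℤ) = L := by omega
  have hFe : (lf k B r e : ℤ) = b / k - L := by omega
  have h9 : k * (lf k B r e : ℤ) = k * (b / k) - k * L := by rw [hFe]; ring
  have h10 : k * (X : ℤ) = k * L := by rw [hXe]
  refine ⟨?_, ?_, hXe, hFe⟩
  · rcases hF1 with h5 | h5
    · exact Or.inl h5
    · right; omega
  · rcases hX2 with h5 | h5
    · exact Or.inl h5
    · right; omega

end

end Tw

end VisMap
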