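import Pool.Agent.Lib.MP_9f3af0_lcC.WKill3c
import Pool.Agent.Lib.MP_9f3af0_lcC.WRed3

/-!
# MP_9f3af0_lc: the facing picture for `k = 3` (helper80), step (6) and the end
-/

namespace VisMap

namespace Tw

open Tp

variable {k B : ℤ} {r : ℤ → ℤ → Prop} {c : ℕ} {l s lam T T' y : ℤ}

/-- (6a) -/
theorem Side3.sixa (h : TZ 3 B r) (S1 : Side3 B r c l s y T lam)
    (S2 : Side3 B (VisMap.mirror r) c l (-(s + 3 * lam + 3)) (-s) (-T') lam)
    (hT' : s + 3 * lam + 3 + 3 < T') (rHT : r (s + 3 * lam + 3) T')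
    (hH0 : lcT 3 (Tf r (s + 3 * lam + 3)) (s + 3 * lam + 3) T' = 0) (hm : (3 : ℤ) ∣ T' - s) :
    r (T' - 3) T' := by
  have hlam := S1.lam1
  by_contra hc
  -- the laps of `T' - 3`
  obtain ⟨j, hj⟩ : ∃ j : ℕ, (j : ℤ) = (T' - (s + 3 * lam + 3) - 1) / 3 :=
    ⟨((T' - (s + 3 * lam + 3) - 1) / 3).toNat, by omega⟩
  obtain ⟨-, g2, g3, -, -⟩ := S2.mate h.mirror j (by omega) (by omega)
  have ev : -(s + 3 * lam + 3) - 3 * (j : ℤ) = -(T' - 3) := by omega
  rw [ev] at g2 g3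
  rw [laps_mirror'] at g3
  have g4 : lf 3 B (VisMap.mirror r) (-(T' - 3)) = lb 3 B r (T' - 3) := rfl
  have g5 : laps 3 B r (T' - 3) = lf 3 B r (T' - 3) + lb 3 B r (T' - 3) := rfl
  have f1 := S2.hp
  rw [laps_mirror'] at f1
  have f2 := S2.lfp
  have f3 : lf 3 B (VisMap.mirror r) (-(s + 3 * lam + 3)) = lb 3 B r (s + 3 * lam + 3) := rfl
  have f4 : laps 3 B r (s + 3 * lam + 3) =
    lf 3 B r (s + 3 * lam + 3) + lb 3 B r (s + 3 * lam + 3) := rfl
  obtain ⟨z', z1, z2, z3⟩ := h.transport (v := s) (v' := T' - 3) (z := s + 3 * lam + 3)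
    (by omega) (by omega) (by
      have hnr := (h.mirror.near (S2.hid (-T' + 1) (-s - 1) (by omega) (by omega) (by omega)
        (by omega))).1
      omega) S1.hq
  rw [S1.lcp] at z3
  have hz : z' ≠ T' := fun h1 => hc (by rw [← h1]; rw [h1] at z2; rw [h1]; exact z2)
  have hz2 : T' < z' := by omega
  obtain ⟨q, q1, q2, q3, -⟩ := h.next (v := T' - 3) (a := T') (by omega)
  have hqz : q ≤ z' := by
    by_contra hc2
    exact q3 z' hz2 (by omega) z2
  have hq : q - (T' - 3) - 3 * (lcT 3 (Tf r (T' - 3)) (T' - 3) q : ℤ) ≤ 3 := by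
    rcases hqz.lt_or_eq with h1 | h1
    · have := h.nat_lt (v := T' - 3) (y := q) (z := z') (by omega) h1 q2 z2
      omega
    · rw [h1]
      omega
  have e1 := h.lfx_le (u := T' - 3) (v := s + 3 * lam + 3) (q := q) (T := T') (by omega) q2
    (by omega) rHT q1 (fun z z1 z2 => h.X (s + 3 * lam + 3) (T' - 3) T' z (by omega) (by omega) z1
      rHT z2)
  have e2 := h.lf_split (v := s + 3 * lam + 3) (a := T') (by omega)
  have e3 := h.lf_split (v := T' - 3) (a := q) (by omega)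
  omega

/-- (6b) -/
theorem Side3.sixb (h : TZ 3 B r)
    (S2 : Side3 B (VisMap.mirror r) c l (-(s + 3 * lam + 3)) (-s) (-T') lam)
    (hT' : s + 3 * lam + 3 + 3 < T') (hm : (3 : ℤ) ∣ T' - s) (h3 : r (T' - 3) T') :
    ¬ r T' (s + 3 * lam + 4) := by
  have hlam := S2.lam1
  intro hr
  have e' : ∀ v m : ℤ, VisMap.mirror r (-v) (-m) ↔ r v m := fun v m => mir_iff v m
  have h3' : VisMap.mirror r (-T') (-(T' - 3)) := (e' _ _).2 (h.symm _ _ h3)
  have hr' : VisMap.mirror r (-T') (-(s + 3 * lam + 4)) := (e' _ _).2 hr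
  have e1 := h.mirror.lcT_le (x := -T') (y := -(T' - 3)) (by omega) h3'
  have e2 := h.mirror.nat_lt (v := -T') (y := -(T' - 3)) (z := -(s + 3 * lam + 4)) (by omega)
    (by omega) h3' hr'
  refine S2.hole h.mirror (v := -T') (z := -(s + 3 * lam + 4))
    (j := (T' - (s + 3 * lam + 3) - 1) / 3 -
      lcT 3 (Tf (VisMap.mirror r) (-T')) (-T') (-(s + 3 * lam + 4))) (e := 2)
    (by omega) (by omega) hr' (by omega) (by omega) (by omega) (by omega) (by omega) (by
      have hnr := (h.mirror.near (S2.hid (-T' + 1) (-s - 1) (by omega) (by omega) (by omega)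
        (by omega))).1
      omega)

/-- Step (6). -/
theorem Side3.six (h : TZ 3 B r) (S1 : Side3 B r c l s y T lam)
    (S2 : Side3 B (VisMap.mirror r) c l (-(s + 3 * lam + 3)) (-s) (-T') lam)
    (hT : T + 3 < s) (hT' : s + 3 * lam + 3 + 3 < T') (rHT : r (s + 3 * lam + 3) T')
    (hH0 : lcT 3 (Tf r (s + 3 * lam + 3)) (s + 3 * lam + 3) T' = 0) (hm : (3 : ℤ) ∣ T' - s) :
    lam + (s - T - 1) / 3 + (T' - (s + 3 * lam + 3) - 1) / 3 +
      (lf 3 B r (s + 3 * lam + 3) : ℤ) ≤ laps 3 B r (s + 3 * lam + 4) := by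
  have hlam := S1.lam1
  have hy1 := S1.y1
  have h3 := S1.sixa h S2 hT' rHT hH0 hm
  have h4 := Side3.sixb h S2 hT' hm h3
  -- `H + 1` hides the mates
  have hmate : ∀ i : ℤ, 2 ≤ i → s + 3 * lam + 3 + 3 * i < T' →
      ¬ r (s + 3 * lam + 3 + 3 * i) (s + 3 * lam + 4) := by
    intro i i1 i2
    have e1 := S2.hide_e h.mirror (i := i) (e := 2) i1 (by omega) (by omega) le_rfl (by omega)
    have e2 : -(s + 3 * lam + 3) - 3 * i = -(s + 3 * lam + 3 + 3 * i) := by ring
    have e3 : -(s + 3 * lam + 3) - 3 + 2 = -(s + 3 * lam + 4) := by ring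
    rw [e2, e3, mir_iff] at e1
    exact e1
  have hadj : ∀ i : ℤ, 0 ≤ i → s + 3 * lam + 3 + 3 * (i + 1) < T' →
      r (s + 3 * lam + 3 + 3 * i) (s + 3 * lam + 3 + 3 * (i + 1)) := by
    intro i i1 i2
    have e1 := S2.adj h.mirror (i := i) i1 (by omega)
    have e2 : -(s + 3 * lam + 3) - 3 * i = -(s + 3 * lam + 3 + 3 * i) := by ring
    have e3 : -(s + 3 * lam + 3) - 3 * (i + 1) = -(s + 3 * lam + 3 + 3 * (i + 1)) := by ring
    rw [e2, e3, mir_iff] at e1
    exact h.symm _ _ e1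
  have hhid : ∀ x, s + 3 * lam + 7 ≤ x → x ≤ T' → ¬ r (s + 3 * lam + 4) x := by
    intro x x1 x2 hr
    rcases x2.lt_or_eq with hx | hx
    · obtain ⟨i, hi⟩ : ∃ i, i = (x - (s + 3 * lam + 3)) / 3 := ⟨_, rfl⟩
      have i1 : s + 3 * lam + 3 + 3 * i ≤ x := by omega
      have i2 : x < s + 3 * lam + 3 + 3 * (i + 1) := by omega
      have i3 : 1 ≤ i := by omega
      rcases i1.lt_or_eq with h1 | h1
      · rcases (show s + 3 * lam + 3 + 3 * (i + 1) ≤ T' by omega).lt_or_eq with h2 | h2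
        · exact hmate (i + 1) (by omega) h2 (h.symm _ _
            (h.X _ (s + 3 * lam + 3 + 3 * i) x _ (by omega) h1 i2 hr (hadj i (by omega) h2)))
        · have e : s + 3 * lam + 3 + 3 * i = T' - 3 := by omega
          refine h4 (h.symm _ _ (h.X _ (T' - 3) x T' (by omega) (by omega) (by omega) hr h3))
      · rw [← h1] at hr
        exact hmate i (by omega) (by omega) (h.symm _ _ hr)
    · rw [hx] at hr
      exact h4 (h.symm _ _ hr)
  -- the forward laps of `H + 1`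
  obtain ⟨x, x1, x2, x3, x4⟩ := h.last (v := s + 3 * lam + 4) (a := s + 3 * lam + 6) (by omega)
  obtain ⟨q, q1, q2, q3, -⟩ := h.next (v := s + 3 * lam + 4) (a := s + 3 * lam + 6) (by omega)
  have hq : T' < q := by
    by_contra hc
    exact hhid q (by omega) (by omega) q2
  have hg : Tp.Gp r (s + 3 * lam + 4) x q := ⟨x1, by omega, x3, q2, fun m m1 m2 => by
    rcases le_or_gt m (s + 3 * lam + 6) with h1 | h1
    · exact x4 m m1 h1
    · exact q3 m h1 m2⟩
  have a1 := h.lf_ge_of (u := s + 3 * lam + 4) (v := s + 3 * lam + 3) (T := T') hg (by omega)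
    (by omega) rHT (fun z z1 z2 => h.X (s + 3 * lam + 3) (s + 3 * lam + 4) T' z (by omega)
      (by omega) z1 rHT z2)
  have a2 : min (q - 1) T' = T' := min_eq_right (by omega)
  rw [a2] at a1
  have a3 := h.lf_split (v := s + 3 * lam + 3) (a := T') (by omega)
  -- the backward laps of `H + 1`
  obtain ⟨R, hR⟩ : ∃ R, R = (s - T - 1) / 3 := ⟨_, rfl⟩
  have b1 := S1.seeH h (i := R - 1) (by omega) (by omega)
  have b2 := S1.holeFar h (i := R - 1) (e := 1) (by omega) (by omega) le_rfl (by omega)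
  have b3 : s + 3 * lam + 3 + 1 = s + 3 * lam + 4 := by ring
  rw [b3] at b2
  have hp : r (s + 3 * lam + 4) (s + 3 * lam + 3) := by
    have := h.pred (s + 3 * lam + 4)
    have e : s + 3 * lam + 4 - 1 = s + 3 * lam + 3 := by ring
    rw [e] at this
    exact this
  obtain ⟨w, w1, w2, w3, -⟩ := h.next' (v := s + 3 * lam + 4) (a := s + 3 * lam + 3) (by omega)
  have hw : w < s - 3 * (R - 1) := by
    by_contra hc
    exact h.hide (v := s - 3 * (R - 1)) (x := w) (p := s + 3 * lam + 3) (y := s + 3 * lam + 4)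
      (by omega) w1 (by omega) b1 b2 (h.symm _ _ w2)
  have b4 := h.lb_ge w1 (by omega) hp w2 w3
  unfold laps
  push_cast
  rw [← hR]
  omega

/-- The frame of the longest terminal gap is impossible for `k = 3`. -/
theorem TermF.not3 (h : TZ 3 B r) {v g t : ℤ} (F : TermF 3 B r c l v g t) : False :=
  F.false3 (fun _ _ _ _ _ _ _ h F => F.pic3 h)
    (fun _ _ _ _ _ _ _ _ _ h S1 S2 h1 h2 h3 h4 h5 => S1.six h S2 h1 h2 h3 h4 h5) h

end Tw

end VisMap
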