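import Pool.Agent.Lib.MP_9f3af0_lcC.WNot2
import Pool.Agent.Lib.MP_9f3af0_lcC.WSix3b
import Pool.Agent.Lib.MP_9f3af0_lcC.WOpp

/-!
# MP_9f3af0_lc: rings in which opposite vertices of a class see each other, further cases (helper55)

With at most three classes (after helper80 and helper31) a distance `d` with `2 ≤ d ≤ k` is visible at
all vertices of a class.  Without hidden pairs at a distance above `3 k` there is no fat rectangle.
-/

namespace VisMap

namespace Tw

open Tp

section

variable {n : ℕ} {k D : ℤ} {r : ℤ → ℤ → Prop} (hz : ZRel n r) (h3 : ∀ x, r x (x + D)) (hD : 2 ≤ D)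
  (hk : 0 < k) (h6 : 2 * D ≤ n)

/-- A weak `T'`-structure with two or three classes has a distance between `2` and `k` that is
visible at all vertices of a class. -/
theorem TZ.false_three {B : ℤ} {r : ℤ → ℤ → Prop} (h : TZ k B r) (hk2 : 2 ≤ k) (hk3 : k ≤ 3)
    (hc : NoWide k r) : False := by
  obtain ⟨r', h', -, c, l, v, g, t, F⟩ := h.exists_term hk2 hc
  obtain rfl | rfl : k = 2 ∨ k = 3 := by omega
  · exact F.not2 h'
  · exact F.not3 h'

include hz h3 hD hk h6 in
/-- The same for rings in which opposite vertices see each other. -/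
theorem ring_three (hk2 : 2 ≤ k) (hk3 : k ≤ 3) (hkD : k ≤ D) (hw : Cut.Wd n k r)
    (hc : NoWide k r) : False :=
  (tz3 hz h3 hD hk h6 hw).false_three hk2 hk3 fun c d d1 d2 hv =>
    hc c d d1 d2 fun u hu => (rF_le h3 (by omega) (by omega)).1 (hv u hu)

include hz h3 hD hk h6 in
/-- There is no fat rectangle if all pairs at a distance above `3 k` see each other. -/
theorem noFat_far (hk2 : 2 ≤ k) (hw : Cut.Wd n k r)
    (hf : ∀ a b, a + 3 * k < b → b ≤ a + D → r a b)
    (s : ℤ) (hs : ∀ a b, s - k ≤ a → a < s → s < b → b ≤ s + k → ¬ r a b) : False := by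
  have key : ∀ (r : ℤ → ℤ → Prop), TZ k (D - 1) r → (∀ a b, a + 3 * k < b → r a b) →
      ∀ s a b, FatF k r s a b → False := by
    intro r h hf s a b f
    rcases lt_or_ge b (2 * k) with hb | hb
    · exact f.false_of_lt h hb
    · have hka := f.ka
      have h1 : b = 2 * k := by
        by_contra hne
        exact f.hid (s - a) (s + b) (by omega) (by omega) (by omega) (by omega)
          (hf _ _ (by omega))
      have h2 := f.rho_pos h
      rw [h1, Int.mul_emod_left] at h2
      omega
  have h := tz3 hz h3 hD hk h6 hw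
  have hfF : ∀ a b, a + 3 * k < b → rF (D - 1) r a b := by
    intro a b hab
    rcases le_or_gt b (a + D) with h1 | h1
    · exact rF_of (by omega) (hf a b hab h1)
    · exact h.far _ _ (by omega)
  by_cases hsD : ∃ x y, s - k ≤ x ∧ x < s ∧ s < y ∧ y ≤ s + k ∧ D - 1 < y - x
  · -- a fat rectangle contains no pair at a distance `D`
    obtain ⟨x, y, x1, x2, y1, y2, hxy⟩ := hsD
    rcases le_or_gt (s - D + 1) x with hl | hl
    · exact hs x (x + D) x1 x2 (by omega) (by omega) (h3 _)
    · exact hs (s - D + 1) (s - D + 1 + D) (by omega) (by omega) (by omega) (by omega) (h3 _)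
  have hs' : Hid (rF (D - 1) r) s k k := fun x y h1 h2 h3 h4 h5 => by
    have h6 : y - x ≤ D - 1 := by
      by_contra hc
      exact hsD ⟨x, y, h1, h2, h3, h4, by omega⟩
    exact hs x y h1 h2 h3 h4 (h5.2 h6 (by omega))
  rcases h.exists_fat hs' with ⟨s, a, b, f⟩ | ⟨s, a, b, f⟩
  · exact key _ h hfF s a b f
  · exact key _ h.mirror (fun a b hab => h.symm _ _ (hfF _ _ (by omega))) s a b f

end

end Tw

end VisMap
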