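import Pool.Agent.Lib.MP_9f3af0_lc.FatEar
import Pool.Agent.Lib.MP_9f3af0_lcC.WLink

/-!
# MP_9f3af0_lc: rings in which opposite vertices of a class see each other (helper55)

`Opp n k r`: for some `m ≥ 1` with `2 m k ≤ n` every vertex `x` sees `x + m k`.  `OneThree k r`: every
vertex sees one of the next three and one of the previous three vertices of its class.  `Far3 n k r`:
all pairs at a distance above `3 k` see each other.  All are inherited by the cut structures.  If `Opp`
holds and `k ≤ 3` or `OneThree` or `Far3` holds, some class is linked.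
-/

namespace VisMap

namespace Cut

open Dism

/-- For some `m ≥ 1` with `2 m k ≤ n` every vertex `x` sees `x + m k`. -/
def Opp (n : ℕ) (k : ℤ) (r : ℤ → ℤ → Prop) : Prop :=
  ∃ m : ℤ, 1 ≤ m ∧ 2 * (m * k) ≤ n ∧ ∀ x, r x (x + m * k)

/-- Every vertex sees one of the next three and one of the previous three vertices of its class. -/
structure OneThree (k : ℤ) (r : ℤ → ℤ → Prop) : Prop where
  nx : ∀ x, r x (x + k) ∨ r x (x + 2 * k) ∨ r x (x + 3 * k)
  pv : ∀ x, r x (x - k) ∨ r x (x - 2 * k) ∨ r x (x - 3 * k)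

/-- All pairs at a distance above `3 k` on the ring see each other. -/
def Far3 (n : ℕ) (k : ℤ) (r : ℤ → ℤ → Prop) : Prop :=
  ∀ a b, a + 3 * k < b → b < a + n - 3 * k → r a b

variable {n : ℕ} {r : ℤ → ℤ → Prop}

/-- **The cut**, which inherits `Opp`, `OneThree` and `Far3`. -/
theorem cut_opp {k d c : ℤ} (h : ZRel n r) (hn : 0 < n) (hk : k ∣ n) (hw : Wd n k r) (h2 : 2 ≤ d)
    (hdk : d < k) (hv : ∀ u, k ∣ u - c → r u (u + d)) (ho : Opp n k r) :
    ∃ (n' : ℕ) (r' : ℤ → ℤ → Prop), ZRel n' r' ∧ (k - d + 1) ∣ (n' : ℤ) ∧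
      (n' : ℤ) * k = n * (k - d + 1) ∧ Wd n' (k - d + 1) r' ∧ Opp n' (k - d + 1) r' ∧
      (OneThree k r → OneThree (k - d + 1) r') ∧ (Far3 n k r → Far3 n' (k - d + 1) r') ∧
      (Lkd (k - d + 1) r' → Lkd k r) := by
  have hS := sr_kp h hn hk h2 hdk hv
  obtain ⟨q, hq⟩ := hk
  have hq0 : 0 < q := by
    by_contra hlt
    have : k * q ≤ 0 := mul_nonpos_of_nonneg_of_nonpos (by omega) (by omega)
    omega
  obtain ⟨q, rfl⟩ : ∃ m : ℕ, q = m := ⟨q.toNat, by omega⟩
  have hk'q : 0 ≤ (k - d + 1) * (q : ℤ) := mul_nonneg (by omega) (by omega)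
  obtain ⟨n', hn'⟩ : ∃ n' : ℕ, (n' : ℤ) = (k - d + 1) * q :=
    ⟨((k - d + 1) * (q : ℤ)).toNat, by omega⟩
  have hE : Enum n n' (Kp k d c) (ph (k - d + 1) k d c) := enum_ph hq h2 hdk hn'
  have hph : ∀ a j : ℤ, ph (k - d + 1) k d c (a + j * (k - d + 1)) =
      ph (k - d + 1) k d c a + j * k := by
    intro a j
    have := ph_add (k' := k - d + 1) (k := k) (d := d) (c := c) (by omega) a j
    rwa [mul_comm (k - d + 1) j, mul_comm k j] at this
  have hph1 : ∀ a : ℤ, ph (k - d + 1) k d c (a + (k - d + 1)) = ph (k - d + 1) k d c a + k := by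
    intro a
    have := hph a 1
    rwa [one_mul, one_mul] at this
  have hphm : ∀ a j : ℤ, ph (k - d + 1) k d c (a - j * (k - d + 1)) =
      ph (k - d + 1) k d c a - j * k := by
    intro a j
    have := hph a (-j)
    have e1 : a + -j * (k - d + 1) = a - j * (k - d + 1) := by ring
    have e2 : ph (k - d + 1) k d c a + -j * k = ph (k - d + 1) k d c a - j * k := by ring
    rwa [e1, e2] at this
  have hphm1 : ∀ a : ℤ, ph (k - d + 1) k d c (a - (k - d + 1)) = ph (k - d + 1) k d c a - k := by
    intro a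
    have := hphm a 1
    rwa [one_mul, one_mul] at this
  refine ⟨n', _, hE.zrel hS ?_, ⟨q, hn'⟩, by rw [hn', hq]; ring,
    hE.wd hw (fun z z' hz => kp_of_dvd hz) (ph_res h2 hdk), ?_,
    fun ht => ⟨fun a => ?_, fun a => ?_⟩, fun hf a b hab hab2 => hf _ _ ?_ ?_, ?_⟩
  · have : (k - d + 1) * 1 ≤ (k - d + 1) * (q : ℤ) :=
      mul_le_mul_of_nonneg_left (by omega) (by omega)
    omega
  · obtain ⟨m, m1, m2, m3⟩ := ho
    refine ⟨m, m1, ?_, fun a => ?_⟩
    · have h5 : k * (2 * m) ≤ k * q := by
        have e : k * (2 * m) = 2 * (m * k) := by ring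
        rw [e]; omega
      have h6 : 2 * m ≤ (q : ℤ) := le_of_mul_le_mul_left h5 (by omega)
      have h7 : (k - d + 1) * (2 * m) ≤ (k - d + 1) * (q : ℤ) :=
        mul_le_mul_of_nonneg_left h6 (by omega)
      have e : 2 * (m * (k - d + 1)) = (k - d + 1) * (2 * m) := by ring
      rw [e]; omega
    · show r (ph (k - d + 1) k d c a) (ph (k - d + 1) k d c (a + m * (k - d + 1)))
      rw [hph]; exact m3 _
  · show r (ph (k - d + 1) k d c a) (ph (k - d + 1) k d c (a + (k - d + 1))) ∨
      r (ph (k - d + 1) k d c a) (ph (k - d + 1) k d c (a + 2 * (k - d + 1))) ∨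
      r (ph (k - d + 1) k d c a) (ph (k - d + 1) k d c (a + 3 * (k - d + 1)))
    rw [hph, hph, hph1]; exact ht.nx _
  · show r (ph (k - d + 1) k d c a) (ph (k - d + 1) k d c (a - (k - d + 1))) ∨
      r (ph (k - d + 1) k d c a) (ph (k - d + 1) k d c (a - 2 * (k - d + 1))) ∨
      r (ph (k - d + 1) k d c a) (ph (k - d + 1) k d c (a - 3 * (k - d + 1)))
    rw [hphm, hphm, hphm1]; exact ht.pv _
  · have h5 := hE.mono hab
    rwa [hph] at h5
  · have h5 := hE.mono hab2
    have e : a + (n' : ℤ) - 3 * (k - d + 1) = a + (q - 3) * (k - d + 1) := by rw [hn']; ring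
    rw [e, hph] at h5
    have e2 : ((q : ℤ) - 3) * k = n - 3 * k := by rw [hq]; ring
    rw [e2] at h5
    linarith
  · rintro ⟨a, ha⟩
    refine ⟨ph (k - d + 1) k d c a, fun u hu => ?_⟩
    obtain ⟨b, rfl⟩ := hE.surj u ((kp_of_dvd hu).2 (hE.mem a))
    have h1 := ha b ((ph_res h2 hdk a b).2 hu)
    rw [← hph1]; exact h1

/-- If opposite vertices of a class see each other and there are at most three classes, or every vertex
sees one of the next three and one of the previous three vertices of its class, or all pairs at a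
distance above `3 k` see each other, then some class is linked. -/
theorem linked_of_opp : ∀ (n : ℕ) (k : ℤ) (r : ℤ → ℤ → Prop), ZRel n r → 0 < k → k ∣ (n : ℤ) →
    k < n → Wd n k r → Opp n k r → (k ≤ 3 ∨ OneThree k r ∨ Far3 n k r) → Lkd k r := by
  have main : ∀ N : ℕ, ∀ (n : ℕ) (k : ℤ) (r : ℤ → ℤ → Prop), k.toNat ≤ N → ZRel n r → 0 < k →
      k ∣ (n : ℤ) → k < n → Wd n k r → Opp n k r → (k ≤ 3 ∨ OneThree k r ∨ Far3 n k r) →
      Lkd k r := by
    intro N
    induction N with
    | zero => intro n k r h1 _ h2; omega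
    | succ N ih =>
      intro n k r hN h hk hkn hlt hw ho ht
      by_cases hk1 : k = 1
      · subst hk1
        exact ⟨0, fun u _ => h.succ u⟩
      obtain ⟨q, hq⟩ := id hkn
      have hq2 : 2 ≤ q := by
        by_contra hcon
        have : k * q ≤ k * 1 := mul_le_mul_of_nonneg_left (by omega) hk.le
        omega
      have hn4 : 4 ≤ (n : ℤ) := by
        have : k * 2 ≤ k * q := mul_le_mul_of_nonneg_left hq2 hk.le
        omega
      by_cases hn3 : (n : ℤ) ≤ 3 * k
      · exact linked_three h hk hkn hlt (by omega) hn3 hw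
      have hq4 : 4 ≤ q := by
        by_contra hcon
        have : k * q ≤ k * 3 := mul_le_mul_of_nonneg_left (by omega) hk.le
        omega
      have h4k : 4 * k ≤ n := by
        have : k * 4 ≤ k * q := mul_le_mul_of_nonneg_left hq4 hk.le
        omega
      by_contra hno
      have hNL : Tp.NoWide k r := fun c d d1 d2 hv => by
        rcases eq_or_lt_of_le d2 with hd | hd
        · subst hd
          exact hno ⟨c, hv⟩
        · obtain ⟨n', r', p1, p2, p3, p4, p5, p6, p7, p8⟩ := cut_opp h (by omega) hkn hw d1 hd hv ho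
          refine hno (p8 (ih n' (k - d + 1) r' (by omega) p1 (by omega) p2 ?_ p4 p5 ?_))
          · by_contra hcon
            have h5 : (n' : ℤ) * k ≤ (k - d + 1) * k :=
              mul_le_mul_of_nonneg_right (by omega) hk.le
            have h6 : k * (k - d + 1) < n * (k - d + 1) := mul_lt_mul_of_pos_right hlt (by omega)
            have h7 : (k - d + 1) * k = k * (k - d + 1) := by ring
            omega
          · rcases ht with h5 | h5 | h5
            · exact Or.inl (by omega)
            · exact Or.inr (Or.inl (p6 h5))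
            · exact Or.inr (Or.inr (p7 h5))
      obtain ⟨m, m1, m2, m3⟩ := ho
      have hkD : k ≤ m * k := by
        have : 1 * k ≤ m * k := mul_le_mul_of_nonneg_right m1 hk.le
        omega
      rcases ht with h5 | h5 | h5
      · exact Tw.ring_three h m3 (by omega) hk m2 (by omega) h5 hkD hw hNL
      · exact false_of_noFat h (by omega) hkn h4k hw hNL fun s hs =>
          Tw.noFat3 h m3 (by omega) hk m2 (by omega) hw h5.nx h5.pv s hs
      · exact false_of_noFat h (by omega) hkn h4k hw hNL fun s hs =>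
          Tw.noFat_far h m3 (by omega) hk m2 (by omega) hw (fun a b hab hab2 =>
            h5 a b hab (by omega)) s hs
  exact fun n k r h => main _ n k r le_rfl h

end Cut

end VisMap
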