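import Pool.Agent.Lib.MP_9f3af0_lc.AgLink
import Pool.Agent.Lib.MP_9f3af0_lc.GeoE
import Pool.Agent.Lib.MP_9f3af0_lc.Ord
import Pool.Agent.Lib.MP_9f3af0_lcC.NextOpp

/-!
# MP_9f3af0_lc: polygons in which opposite vertices that look alike see each other (helper55)

Such a polygon can be mapped if it has at most three views, or if every vertex sees one of the next
three and one of the previous three vertices that look like it, or if all vertices at a boundary
distance above `3 * views v` see each other: it has a linked class or at least `n / 3` views.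
-/

namespace VisMap

/-- Opposite vertices that look alike see each other: there is a number `D ≤ n / 2` such that every
vertex looks like the vertex `D` steps further on the boundary, and sees it. -/
def SeesOpposite {n : ℕ} (v : ZMod n → ℂ) : Prop :=
  ∃ D : ℕ, 2 * D ≤ n ∧ ∀ i : ZMod n, Alike v i (i + D) ∧ Sees v i (i + D)

/-- Every vertex sees at least one of the next three vertices that look like it (counter-clockwise on
the boundary, if there are three before the boundary closes up). -/
def SeesNextThree {n : ℕ} (v : ZMod n → ℂ) : Prop :=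
  ∀ (i : ZMod n) (l m p : ℕ), 0 < l → l < m → m < p → p < n → Alike v i (i + l) →
    Alike v i (i + m) → Alike v i (i + p) →
    (∀ j : ℕ, 0 < j → j < p → Alike v i (i + j) → j = l ∨ j = m) →
    Sees v i (i + l) ∨ Sees v i (i + m) ∨ Sees v i (i + p)

/-- Every vertex sees at least one of the previous three vertices that look like it (clockwise on the
boundary, if there are three before the boundary closes up). -/
def SeesPrevThree {n : ℕ} (v : ZMod n → ℂ) : Prop :=
  ∀ (i : ZMod n) (l m p : ℕ), 0 < l → l < m → m < p → p < n → Alike v i (i - l) →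
    Alike v i (i - m) → Alike v i (i - p) →
    (∀ j : ℕ, 0 < j → j < p → Alike v i (i - j) → j = l ∨ j = m) →
    Sees v i (i - l) ∨ Sees v i (i - m) ∨ Sees v i (i - p)

/-- Vertices at a boundary distance above `3 * views v` see each other. -/
def SeesFar {n : ℕ} (v : ZMod n → ℂ) : Prop :=
  ∀ (i : ZMod n) (m : ℕ), 3 * views v < m → m + 3 * views v < n → Sees v i (i + m)

variable {n : ℕ}

theorem linked_of_opposite (hn : 3 ≤ n) {v : ZMod n → ℂ} (hR : VisRel (Sees v))
    (bef : Ag.BoundaryOrder v) (h2 : 2 < views v) (h3 : 3 * views v < n)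
    (ho : SeesOpposite v)
    (hf : views v ≤ 3 ∨ (SeesNextThree v ∧ SeesPrevThree v) ∨ SeesFar v) : Linked v := by
  have hn2 : 2 ≤ n := by omega
  have : NeZero n := ⟨by omega⟩
  obtain ⟨k, hk0, hkn, hk⟩ := Ag.exists_gen (Ag.periods hn2 hR)
  obtain ⟨m, rfl⟩ : ∃ m : ℕ, k = m := ⟨k.toNat, by omega⟩
  have halike : ∀ a b : ZMod n, Alike v a b ↔ b - a ∈ Ag.periods hn2 hR := fun a b => by
    rw [Ag.alike_iff bef (fun i => Ag.degR_pos hn2 hR i), Ag.E_iff_sub_mem]
  have hm : views v = m := by
    rw [← Ag.ncard_cosets (H := Ag.periods hn2 hR) (k := m) (by omega) hk]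
    unfold views
    have e : (fun i : ZMod n => {j | Alike v i j}) =
        fun i => {j | j - i ∈ Ag.periods hn2 hR} := by
      funext a
      ext b
      exact halike a b
    rw [e]
  rw [hm] at h2 h3
  have hE : Ag.E (Sees v) (Sees v) 0 0 := Ag.Eqv.refl _
  have hF := Ag.fam_of_E hn hR hR hE hk0 hkn hk
  have hz : ZRel n (unroll (Sees v)) := hF.zrel true
  have hw : Cut.Wd n m (unroll (Sees v)) := fun i i' hi => hF.fw true true i i' hi
  obtain ⟨q, hq⟩ := id hkn
  have hq4 : 4 ≤ q := by
    by_contra hcon
    have : (m : ℤ) * q ≤ m * 3 := mul_le_mul_of_nonneg_left (by omega) hk0.le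
    omega
  have h4 : 4 * (m : ℤ) ≤ n := by
    have : (m : ℤ) * 4 ≤ m * q := mul_le_mul_of_nonneg_left hq4 hk0.le
    omega
  have hal : ∀ (x : ℤ) (j : ℕ), Alike v (x : ZMod n) ((x : ZMod n) + j) ↔ (m : ℤ) ∣ j := by
    intro x j
    rw [halike, ← hk]
    push_cast
    rw [add_sub_cancel_left]
  have hal' : ∀ (x : ℤ) (j : ℕ), Alike v (x : ZMod n) ((x : ZMod n) - j) ↔ (m : ℤ) ∣ j := by
    intro x j
    rw [halike, ← dvd_neg, ← hk]
    push_cast
    rw [sub_sub_cancel_left]
  have hone : ∀ j : ℕ, 0 < j → j < 3 * m → (m : ℤ) ∣ j → j = m ∨ j = 2 * m := by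
    rintro j j1 j2 ⟨t, ht⟩
    have t1 : 0 < t := by
      by_contra hc
      have : (m : ℤ) * t ≤ 0 := mul_nonpos_of_nonneg_of_nonpos (by omega) (by omega)
      omega
    have t2 : t < 3 := by
      by_contra hc
      have : (m : ℤ) * 3 ≤ m * t := mul_le_mul_of_nonneg_left (by omega) (by omega)
      omega
    rcases (show t = 1 ∨ t = 2 by omega) with t3 | t3
    · left
      rw [t3] at ht
      omega
    · right
      rw [t3] at ht
      omega
  have hOpp : Cut.Opp n (m : ℤ) (unroll (Sees v)) := by
    obtain ⟨D, hD, hDi⟩ := ho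
    obtain ⟨t, ht⟩ := (hal 0 D).1 (by
      have := (hDi ((0 : ℤ) : ZMod n)).1
      exact this)
    have hD0 : 0 < D := by
      rcases Nat.eq_zero_or_pos D with h0 | h0
      · exfalso
        have := (hDi 0).2
        rw [h0, Nat.cast_zero, add_zero] at this
        exact hR.irrefl _ this
      · exact h0
    have t1 : 0 < t := by
      by_contra hc
      have : (m : ℤ) * t ≤ 0 := mul_nonpos_of_nonneg_of_nonpos (by omega) (by omega)
      omega
    have hDt : t * m = (D : ℤ) := by rw [ht]; ring
    refine ⟨t, by omega, by rw [hDt]; omega, fun x => ?_⟩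
    rw [hDt]
    have h5 := (hDi (x : ZMod n)).2
    unfold unroll
    push_cast
    exact h5
  have hlkd : Cut.Lkd (m : ℤ) (unroll (Sees v)) := by
    refine Cut.linked_of_opp n m _ hz hk0 hkn (by omega) hw hOpp ?_
    rcases hf with hf | ⟨hf, hf'⟩ | hf
    · exact Or.inl (by rw [hm] at hf; exact_mod_cast hf)
    · refine Or.inr (Or.inl ⟨fun x => ?_, fun x => ?_⟩)
      · have h5 := hf (x : ZMod n) m (2 * m) (3 * m) (by omega) (by omega) (by omega) (by omega)
          ((hal x m).2 (dvd_refl _)) ((hal x (2 * m)).2 ⟨2, by push_cast; ring⟩)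
          ((hal x (3 * m)).2 ⟨3, by push_cast; ring⟩) (fun j j1 j2 j3 =>
            hone j j1 j2 ((hal x j).1 j3))
        unfold unroll
        push_cast at h5 ⊢
        exact h5
      · have h5 := hf' (x : ZMod n) m (2 * m) (3 * m) (by omega) (by omega) (by omega) (by omega)
          ((hal' x m).2 (dvd_refl _)) ((hal' x (2 * m)).2 ⟨2, by push_cast; ring⟩)
          ((hal' x (3 * m)).2 ⟨3, by push_cast; ring⟩) (fun j j1 j2 j3 =>
            hone j j1 j2 ((hal' x j).1 j3))
        unfold unroll
        push_cast at h5 ⊢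
        exact h5
    · refine Or.inr (Or.inr fun a b hab hab2 => ?_)
      obtain ⟨l, hl⟩ : ∃ l : ℕ, (l : ℤ) = b - a := ⟨(b - a).toNat, by omega⟩
      have h5 := hf (a : ZMod n) l (by rw [hm]; omega) (by rw [hm]; omega)
      have e : b = a + l := by omega
      rw [e]
      unfold unroll
      push_cast
      exact h5
  obtain ⟨c, hc⟩ := hlkd
  refine ⟨(c : ZMod n), fun j l hj hjl hl0 hln hno => ?_⟩
  obtain ⟨u, hu⟩ : ∃ u : ℤ, (u : ZMod n) = j := ⟨(j.val : ℤ), by
    push_cast; exact ZMod.natCast_zmod_val j⟩
  rw [← hu] at hj hjl hno ⊢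
  have hcls : ∀ x : ℤ, Alike v (c : ZMod n) (x : ZMod n) ↔ (m : ℤ) ∣ x - c := by
    intro x
    rw [halike, ← hk]
    push_cast
    rfl
  have h5 := (hcls u).1 hj
  have h6 : (m : ℤ) ∣ (u + l) - c := (hcls (u + l)).1 (by push_cast; exact hjl)
  have h7 : (m : ℤ) ∣ l := by
    have := dvd_sub h6 h5
    have e : u + (l : ℤ) - c - (u - c) = l := by ring
    rwa [e] at this
  have h8 : (m : ℤ) ≤ l := Int.le_of_dvd (by omega) h7
  have h9 : l = m := by
    by_contra hne
    refine hno m (by omega) (by omega) ?_
    have : Alike v (c : ZMod n) ((u + m : ℤ) : ZMod n) := (hcls (u + m)).2 (by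
      have e : u + (m : ℤ) - c = (u - c) + m := by ring
      rw [e]; exact dvd_add h5 (dvd_refl _))
    push_cast at this; exact this
  have := hc u h5
  unfold unroll at this
  rw [h9]
  push_cast at this; exact this

/-- Polygons in which opposite vertices that look alike see each other can be mapped, if they have at
most three views, or every vertex sees one of the next three and one of the previous three vertices
that look like it, or vertices at a boundary distance above `3 * views v` see each other. -/
theorem maps_seesOpposite (n : ℕ) :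
    ∃ S : Strategy, ∀ (v : ZMod n → ℂ) (i : ZMod n), IsPolygon v →
      (views v ≤ 2 ∨ n ≤ 3 * views v ∨ Linked v ∨ Turning v ∨
        (SeesOpposite v ∧
          (views v ≤ 3 ∨ (SeesNextThree v ∧ SeesPrevThree v) ∨ SeesFar v))) →
      ∃ t : ℕ, ∀ (v' : ZMod n → ℂ) (i' : ZMod n), IsPolygon v' →
        (run S v' i' t).1 = (run S v i t).1 → Nonempty (visGraph v' ≃g visGraph v) := by
  have hbef : ∀ (v : ZMod n → ℂ), IsPolygon v → Ag.BoundaryOrder v :=
    fun v hv i j k hj hk => before_iff hv hj hk
  obtain ⟨S, hS⟩ := maps_linked (n := n) (fun v hv => geoE hv) (fun v hv => hbef v hv)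
  refine ⟨S, fun v i hv h => hS v i hv ?_⟩
  rcases h with h | h | h | h | ⟨h, h'⟩
  · exact Or.inl h
  · exact Or.inr (Or.inl h)
  · exact Or.inr (Or.inr (Or.inl h))
  · exact Or.inr (Or.inr (Or.inr h))
  · rcases le_or_gt (views v) 2 with h2 | h2
    · exact Or.inl h2
    rcases le_or_gt n (3 * views v) with h3 | h3
    · exact Or.inr (Or.inl h3)
    exact Or.inr (Or.inr (Or.inl (linked_of_opposite hv.simple.three (geoE hv).rel (hbef v hv)
      h2 h3 h h')))

end VisMap
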