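import Mathlib

/-!
# Minimisers of a quadratic form on the simplex

`exists_min`: a minimiser of `w^T G w` on the simplex with the least support; first and second order
conditions.
-/

namespace VisMap

namespace Qd

open Finset

variable {ι : Type*} [Fintype ι]

/-- The bilinear form. -/
def Bf (G : ι → ι → ℝ) (x y : ι → ℝ) : ℝ := ∑ i, x i * ∑ j, G i j * y j

/-- The quadratic form. -/
def Qf (G : ι → ι → ℝ) (x : ι → ℝ) : ℝ := Bf G x x

theorem Bf_add_left (G : ι → ι → ℝ) (x x' y : ι → ℝ) : Bf G (x + x') y = Bf G x y + Bf G x' y := by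
  simp only [Bf, Pi.add_apply, add_mul, sum_add_distrib]

theorem Bf_smul_left (G : ι → ι → ℝ) (a : ℝ) (x y : ι → ℝ) : Bf G (a • x) y = a * Bf G x y := by
  simp only [Bf, Pi.smul_apply, smul_eq_mul, mul_assoc, ← mul_sum]

theorem Bf_symm {G : ι → ι → ℝ} (hG : ∀ i j, G i j = G j i) (x y : ι → ℝ) :
    Bf G x y = Bf G y x := by
  simp only [Bf, mul_sum]
  rw [sum_comm]
  refine sum_congr rfl fun i _ => sum_congr rfl fun j _ => ?_
  rw [hG j i]
  ring

theorem Qf_add {G : ι → ι → ℝ} (hG : ∀ i j, G i j = G j i) (a : ℝ) (x d : ι → ℝ) :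
    Qf G (x + a • d) = Qf G x + 2 * a * Bf G d x + a ^ 2 * Qf G d := by
  unfold Qf
  rw [Bf_add_left, Bf_smul_left, Bf_symm hG x, Bf_symm hG d (x + a • d), Bf_add_left, Bf_add_left,
    Bf_smul_left, Bf_smul_left, Bf_symm hG x d]
  ring

theorem Bf_single [DecidableEq ι] (G : ι → ι → ℝ) (i : ι) (y : ι → ℝ) :
    Bf G (Pi.single i 1) y = ∑ j, G i j * y j := by
  unfold Bf
  rw [sum_eq_single i]
  · rw [Pi.single_eq_same, one_mul]
  · intro j _ hj
    rw [Pi.single_eq_of_ne hj, zero_mul]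
  · intro h
    exact absurd (mem_univ i) h

theorem Bf_neg_left (G : ι → ι → ℝ) (x y : ι → ℝ) : Bf G (-x) y = -Bf G x y := by
  have := Bf_smul_left G (-1) x y
  rw [neg_one_smul] at this
  rw [this]
  ring

theorem Bf_sub_left (G : ι → ι → ℝ) (x x' y : ι → ℝ) : Bf G (x - x') y = Bf G x y - Bf G x' y := by
  rw [sub_eq_add_neg, Bf_add_left, Bf_neg_left, sub_eq_add_neg]

/-- The support. -/
noncomputable def sp (w : ι → ℝ) : Finset ι := open Classical in univ.filter fun i => w i ≠ 0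

theorem mem_sp {w : ι → ℝ} {i : ι} : i ∈ sp w ↔ w i ≠ 0 := by
  simp [sp]

/-- `w` is a minimiser of least support. -/
structure IsMn (G : ι → ι → ℝ) (w : ι → ℝ) : Prop where
  mem : w ∈ stdSimplex ℝ ι
  mn : ∀ w' ∈ stdSimplex ℝ ι, Qf G w ≤ Qf G w'
  sup : ∀ w' ∈ stdSimplex ℝ ι, Qf G w' = Qf G w → (sp w).card ≤ (sp w').card

theorem exists_min [Nonempty ι] (G : ι → ι → ℝ) : ∃ w, IsMn G w := by
  classical
  have hc : Continuous (Qf G) := by
    unfold Qf Bf
    fun_prop
  obtain ⟨w0, h0, h1⟩ := (isCompact_stdSimplex ℝ ι).exists_isMinOn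
    ⟨_, single_mem_stdSimplex ℝ (Classical.arbitrary ι)⟩ hc.continuousOn
  have hex : ∃ c : ℕ, ∃ w ∈ stdSimplex ℝ ι, Qf G w = Qf G w0 ∧ (sp w).card = c :=
    ⟨_, w0, h0, rfl, rfl⟩
  obtain ⟨w, hw, hw2, hw3⟩ := Nat.find_spec hex
  refine ⟨w, hw, fun w' hw' => ?_, fun w' hw' he => ?_⟩
  · rw [hw2]
    exact h1 hw'
  · rw [hw3]
    exact Nat.find_min' hex ⟨w', hw', he.trans hw2, rfl⟩

variable {G : ι → ι → ℝ} {w : ι → ℝ}

theorem IsMn.nonneg (h : IsMn G w) (i : ι) : 0 ≤ w i := h.mem.1 i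

theorem IsMn.kkt (h : IsMn G w) (hG : ∀ i j, G i j = G j i) (i : ι) :
    Qf G w ≤ ∑ j, G i j * w j := by
  classical
  by_contra hcon
  push Not at hcon
  set D := Qf G w - ∑ j, G i j * w j with hD
  have hDpos : 0 < D := by rw [hD]; linarith
  set q := Qf G (Pi.single i 1 - w) with hq
  -- a small step towards the vertex `i`
  have key : ∀ a : ℝ, 0 ≤ a → a ≤ 1 → 0 ≤ -2 * a * D + a ^ 2 * q := by
    intro a ha0 ha1
    have h1 : w + a • (Pi.single i 1 - w) ∈ stdSimplex ℝ ι := by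
      have e : w + a • (Pi.single i 1 - w) = (1 - a) • w + a • Pi.single i (1 : ℝ) := by
        rw [smul_sub, sub_smul, one_smul]
        abel
      rw [e]
      exact (convex_stdSimplex ℝ ι) h.mem (single_mem_stdSimplex ℝ i) (by linarith) ha0 (by ring)
    have h2 := h.mn _ h1
    rw [Qf_add hG, Bf_sub_left, Bf_single] at h2
    have h3 : Bf G w w = Qf G w := rfl
    rw [h3] at h2
    rw [hD]
    nlinarith
  rcases le_or_gt q 0 with hq0 | hq0
  · have := key 1 zero_le_one le_rfl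
    nlinarith
  · have ha : 0 < min 1 (D / q) := lt_min one_pos (div_pos hDpos hq0)
    have h1 := key (min 1 (D / q)) ha.le (min_le_left _ _)
    have h2 : min 1 (D / q) * q ≤ D := by
      have := mul_le_mul_of_nonneg_right (min_le_right 1 (D / q)) hq0.le
      rwa [div_mul_cancel₀ _ hq0.ne'] at this
    nlinarith

theorem IsMn.kkt_eq (h : IsMn G w) (hG : ∀ i j, G i j = G j i) {i : ι} (hi : w i ≠ 0) :
    ∑ j, G i j * w j = Qf G w := by
  have h1 : ∑ i, w i * (∑ j, G i j * w j - Qf G w) = 0 := by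
    simp only [mul_sub, sum_sub_distrib, ← sum_mul]
    rw [h.mem.2, one_mul]
    exact sub_self _
  have h2 : ∀ i ∈ univ, 0 ≤ w i * (∑ j, G i j * w j - Qf G w) := fun i _ =>
    mul_nonneg (h.nonneg i) (sub_nonneg.2 (h.kkt hG i))
  have h3 := (sum_eq_zero_iff_of_nonneg h2).1 h1 i (mem_univ i)
  rcases mul_eq_zero.1 h3 with h4 | h4
  · exact absurd h4 hi
  · linarith

/-- A shift of weight from `j` to `i`. -/
theorem IsMn.shift_mem [DecidableEq ι] (h : IsMn G w) {i j : ι} (hij : i ≠ j) {a : ℝ} (ha : 0 ≤ a)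
    (haj : a ≤ w j) : w + a • (Pi.single i 1 - Pi.single j 1) ∈ stdSimplex ℝ ι := by
  refine ⟨fun l => ?_, ?_⟩
  · rw [Pi.add_apply, Pi.smul_apply, Pi.sub_apply, smul_eq_mul]
    have h0 := h.nonneg l
    by_cases h1 : l = i
    · rw [h1, Pi.single_eq_same, Pi.single_eq_of_ne hij, sub_zero, mul_one]
      rw [h1] at h0
      linarith
    · by_cases h2 : l = j
      · rw [h2, Pi.single_eq_same, Pi.single_eq_of_ne (Ne.symm hij)]
        linarith
      · rw [Pi.single_eq_of_ne h1, Pi.single_eq_of_ne h2, sub_zero, mul_zero, add_zero]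
        exact h0
  · simp only [Pi.add_apply, Pi.smul_apply, Pi.sub_apply, smul_eq_mul, sum_add_distrib, ← mul_sum,
      sum_sub_distrib, sum_pi_single', mem_univ, if_true]
    rw [h.mem.2]
    ring

theorem Qf_diff [DecidableEq ι] (hG : ∀ i j, G i j = G j i) (i j : ι) :
    Qf G (Pi.single i 1 - Pi.single j 1) = G i i - 2 * G i j + G j j := by
  have e : ∀ a b : ι, Bf G (Pi.single a 1) (Pi.single b 1) = G a b := fun a b => by
    rw [Bf_single, sum_eq_single b]
    · rw [Pi.single_eq_same, mul_one]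
    · intro l _ hl
      rw [Pi.single_eq_of_ne hl, mul_zero]
    · intro h
      exact absurd (mem_univ b) h
  unfold Qf
  rw [Bf_sub_left, Bf_symm hG (Pi.single i 1), Bf_symm hG (Pi.single j 1), Bf_sub_left, Bf_sub_left,
    e, e, e, e, hG j i]
  ring

/-- The second order condition. -/
theorem IsMn.second (h : IsMn G w) (hG : ∀ i j, G i j = G j i) {i j : ι} (hj : w j ≠ 0)
    (hi : ∑ l, G i l * w l = Qf G w) : 0 ≤ G i i - 2 * G i j + G j j := by
  classical
  rcases eq_or_ne i j with hij | hij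
  · rw [hij]
    linarith
  · have hjp : 0 < w j := lt_of_le_of_ne (h.nonneg j) (Ne.symm hj)
    have h1 := h.mn _ (h.shift_mem hij hjp.le le_rfl)
    rw [Qf_add hG, Qf_diff hG, Bf_sub_left, Bf_single, Bf_single, hi, h.kkt_eq hG hj] at h1
    have h2 : 0 ≤ w j ^ 2 * (G i i - 2 * G i j + G j j) := by linarith
    exact nonneg_of_mul_nonneg_right h2 (by positivity)

/-- On a minimiser of least support the form is positive on the differences. -/
theorem IsMn.strict (h : IsMn G w) (hG : ∀ i j, G i j = G j i) {i j : ι} (hij : i ≠ j)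
    (hi : w i ≠ 0) (hj : w j ≠ 0) : 0 < G i i - 2 * G i j + G j j := by
  classical
  refine lt_of_le_of_ne (h.second hG hj (h.kkt_eq hG hi)) fun he => ?_
  have hjp : 0 < w j := lt_of_le_of_ne (h.nonneg j) (Ne.symm hj)
  have h1 : Qf G (w + w j • (Pi.single i 1 - Pi.single j 1)) = Qf G w := by
    rw [Qf_add hG, Qf_diff hG, Bf_sub_left, Bf_single, Bf_single, h.kkt_eq hG hi, h.kkt_eq hG hj,
      ← he]
    ring
  have h2 := h.sup _ (h.shift_mem hij hjp.le le_rfl) h1
  have h3 : sp (w + w j • (Pi.single i 1 - Pi.single j 1)) ⊂ sp w := by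
    rw [Finset.ssubset_iff_of_subset]
    · refine ⟨j, mem_sp.2 hj, fun h4 => ?_⟩
      rw [mem_sp, Pi.add_apply, Pi.smul_apply, Pi.sub_apply, Pi.single_eq_same,
        Pi.single_eq_of_ne (Ne.symm hij), smul_eq_mul] at h4
      exact h4 (by ring)
    · intro l hl
      rw [mem_sp] at hl ⊢
      intro h4
      apply hl
      have h5 : l ≠ i := fun h6 => hi (by rw [← h6]; exact h4)
      have h6 : l ≠ j := fun h6 => hj (by rw [← h6]; exact h4)
      rw [Pi.add_apply, Pi.smul_apply, Pi.sub_apply, Pi.single_eq_of_ne h5, Pi.single_eq_of_ne h6,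
        h4]
      simp
  exact absurd h2 (not_le_of_gt (Finset.card_lt_card h3))

end Qd

end VisMap
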