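import Pool.Agent.Lib.MP_9f3af0_lcC.OppMaps
import Pool.Agent.Lib.MP_9f3af0_lcC.FewTwo

/-!
# MP_9f3af0_lc: polygons in which opposite vertices that look alike see each other (helper83)

Such a polygon can be mapped if there is a short chord around every vertex, or if exposed vertices hide few
vertices of a class: it has a linked class or at least `n / 3` views.
-/

namespace VisMap

/-- Around every vertex `i` there is a short chord, in both directions, where `k = views v`: some `i - a`
with `0 < a ≤ k` sees some `i + b` with `0 < b ≤ 2 k + 1`, or `i` sees `i + k` or `i + 2 k`, or some vertex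
`j` that looks like `i` sees `j + k + 1`; and the same with `+` and `-` exchanged. -/
def SeesAcross {n : ℕ} (v : ZMod n → ℂ) : Prop :=
  ∀ i : ZMod n,
    ((∃ a b : ℕ, 0 < a ∧ a ≤ views v ∧ 0 < b ∧ b ≤ 2 * views v + 1 ∧ Sees v (i - a) (i + b)) ∨
      Sees v i (i + views v) ∨ Sees v i (i + 2 * views v) ∨
      ∃ j, Alike v i j ∧ Sees v j (j + views v + 1)) ∧
    ((∃ a b : ℕ, 0 < a ∧ a ≤ 2 * views v + 1 ∧ 0 < b ∧ b ≤ views v ∧ Sees v (i - a) (i + b)) ∨
      Sees v i (i - views v) ∨ Sees v i (i - 2 * views v) ∨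
      ∃ j, Alike v i j ∧ Sees v j (j - views v - 1))

/-- For all `a`, `b > 0` with `a + b < views v` some vertex `j` that looks like `i` is such that `j - a`
does not see `j + b`. -/
def Exposed {n : ℕ} (v : ZMod n → ℂ) (i : ZMod n) : Prop :=
  ∀ a b : ℕ, 0 < a → 0 < b → a + b < views v → ∃ j, Alike v i j ∧ ¬ Sees v (j - a) (j + b)

/-- The number of the vertices `x ≠ i` that look like `j` and are not seen by `i`. -/
noncomputable def hides {n : ℕ} (v : ZMod n → ℂ) (i j : ZMod n) : ℕ :=
  Set.ncard {x : ZMod n | Alike v j x ∧ x ≠ i ∧ ¬ Sees v i x}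

/-- Some exposed vertex `i` hides at most one vertex that looks like some exposed vertex `j`, or for every
vertex `j` some exposed vertex `i` hides at most two vertices that look like `j`. -/
def HidesFew {n : ℕ} (v : ZMod n → ℂ) : Prop :=
  (∃ i j : ZMod n, Exposed v i ∧ Exposed v j ∧ hides v i j ≤ 1) ∨
    ∀ j : ZMod n, ∃ i : ZMod n, Exposed v i ∧ hides v i j ≤ 2

variable {n : ℕ}

theorem linked_of_lkd (hn : 3 ≤ n) {v : ZMod n → ℂ} (hR : VisRel (Sees v))
    (bef : Ag.BoundaryOrder v) (h3 : 3 * views v < n) (ho : SeesOpposite v)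
    (H : ∀ m : ℕ, views v = m →
      (∀ x y : ℤ, Alike v (x : ZMod n) (y : ZMod n) ↔ (m : ℤ) ∣ y - x) →
      ZRel n (unroll (Sees v)) → 0 < (m : ℤ) → (m : ℤ) ∣ n → (m : ℤ) < n →
      Cut.Wd n m (unroll (Sees v)) → Cut.Opp n m (unroll (Sees v)) →
      Cut.Lkd m (unroll (Sees v))) : Linked v := by
  have hn2 : 2 ≤ n := by omega
  have : NeZero n := ⟨by omega⟩
  obtain ⟨k, hk0, hkn, hk⟩ := Ag.exists_gen (Ag.periods hn2 hR)
  obtain ⟨m, rfl⟩ : ∃ m : ℕ, k = m := ⟨k.toNat, by omega⟩
  have halike : ∀ a b : ZMod n, Alike v a b ↔ b - a ∈ Ag.periods hn2 hR := fun a b => by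
    rw [Ag.alike_iff bef (fun i => Ag.degR_pos hn2 hR i), Ag.E_iff_sub_mem]
  have hm : views v = m := by
    rw [← Ag.ncard_cosets (H := Ag.periods hn2 hR) (k := m) (by omega) hk]
    unfold views
    have e : (fun i : ZMod n => {j | Alike v i j}) =
        fun i => {j | j - i ∈ Ag.periods hn2 hR} := by
      funext a
      ext b
      exact halike a b
    rw [e]
  rw [hm] at h3
  have hE : Ag.E (Sees v) (Sees v) 0 0 := Ag.Eqv.refl _
  have hF := Ag.fam_of_E hn hR hR hE hk0 hkn hk
  have hz : ZRel n (unroll (Sees v)) := hF.zrel true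
  have hw : Cut.Wd n m (unroll (Sees v)) := fun i i' hi => hF.fw true true i i' hi
  have hal2 : ∀ x y : ℤ, Alike v (x : ZMod n) (y : ZMod n) ↔ (m : ℤ) ∣ y - x := by
    intro x y
    rw [halike, ← hk]
    push_cast
    rfl
  have hOpp : Cut.Opp n (m : ℤ) (unroll (Sees v)) := by
    obtain ⟨D, hD, hDi⟩ := ho
    obtain ⟨t, ht⟩ := (hal2 0 D).1 (by
      have := (hDi ((0 : ℤ) : ZMod n)).1
      push_cast at this ⊢
      rwa [zero_add] at this)
    rw [sub_zero] at ht
    have hD0 : 0 < D := by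
      rcases Nat.eq_zero_or_pos D with h0 | h0
      · exfalso
        have := (hDi 0).2
        rw [h0, Nat.cast_zero, add_zero] at this
        exact hR.irrefl _ this
      · exact h0
    have t1 : 0 < t := by
      by_contra hc
      have : (m : ℤ) * t ≤ 0 := mul_nonpos_of_nonneg_of_nonpos (by omega) (by omega)
      omega
    have hDt : t * m = (D : ℤ) := by rw [ht]; ring
    refine ⟨t, by omega, by rw [hDt]; omega, fun x => ?_⟩
    rw [hDt]
    have h5 := (hDi (x : ZMod n)).2
    unfold unroll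
    push_cast
    exact h5
  have hlkd := H m hm hal2 hz hk0 hkn (by omega) hw hOpp
  obtain ⟨c, hc⟩ := hlkd
  refine ⟨(c : ZMod n), fun j l hj hjl hl0 hln hno => ?_⟩
  obtain ⟨u, hu⟩ : ∃ u : ℤ, (u : ZMod n) = j := ⟨(j.val : ℤ), by
    push_cast; exact ZMod.natCast_zmod_val j⟩
  rw [← hu] at hj hjl hno ⊢
  have h5 := (hal2 c u).1 hj
  have h6 : (m : ℤ) ∣ (u + l) - c := (hal2 c (u + l)).1 (by push_cast; exact hjl)
  have h7 : (m : ℤ) ∣ l := by
    have := dvd_sub h6 h5
    have e : u + (l : ℤ) - c - (u - c) = l := by ring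
    rwa [e] at this
  have h8 : (m : ℤ) ≤ l := Int.le_of_dvd (by omega) h7
  have h9 : l = m := by
    by_contra hne
    refine hno m (by omega) (by omega) ?_
    have : Alike v (c : ZMod n) ((u + m : ℤ) : ZMod n) := (hal2 c (u + m)).2 (by
      have e : u + (m : ℤ) - c = (u - c) + m := by ring
      rw [e]; exact dvd_add h5 (dvd_refl _))
    push_cast at this; exact this
  have := hc u h5
  unfold unroll at this
  rw [h9]
  push_cast at this; exact this

theorem linked_of_across (hn : 3 ≤ n) {v : ZMod n → ℂ} (hR : VisRel (Sees v))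
    (bef : Ag.BoundaryOrder v) (h3 : 3 * views v < n) (ho : SeesOpposite v)
    (hf : SeesAcross v) : Linked v := by
  refine linked_of_lkd hn hR bef h3 ho fun m hm hal hz hk0 hkn hlt hw hOpp =>
    Cut.linked_of_rect n m _ hz hk0 hkn hlt hw hOpp ?_
  have hrep : ∀ j : ZMod n, ∃ u : ℤ, (u : ZMod n) = j := fun j => by
    have : NeZero n := ⟨by omega⟩
    exact ⟨(j.val : ℤ), by push_cast; exact ZMod.natCast_zmod_val j⟩
  refine ⟨fun s => ?_, fun s => ?_⟩
  · rcases (hf (s : ZMod n)).1 with ⟨a, b, a1, a2, b1, b2, hab⟩ | hs | hs | ⟨j, hj, hs⟩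
    · rw [hm] at a2 b2
      refine Or.inl ⟨s - a, s + b, by omega, by omega, by omega, by omega, ?_⟩
      unfold unroll
      push_cast
      exact hab
    · rw [hm] at hs
      refine Or.inr (Or.inl ?_)
      unfold unroll
      push_cast
      exact hs
    · rw [hm] at hs
      refine Or.inr (Or.inr (Or.inl ?_))
      unfold unroll
      push_cast
      exact hs
    · rw [hm] at hs
      obtain ⟨u, rfl⟩ := hrep j
      refine Or.inr (Or.inr (Or.inr ⟨u, (hal s u).1 hj, ?_⟩))
      unfold unroll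
      push_cast
      exact hs
  · rcases (hf (s : ZMod n)).2 with ⟨a, b, a1, a2, b1, b2, hab⟩ | hs | hs | ⟨j, hj, hs⟩
    · rw [hm] at a2 b2
      refine Or.inl ⟨s - a, s + b, by omega, by omega, by omega, by omega, ?_⟩
      unfold unroll
      push_cast
      exact hab
    · rw [hm] at hs
      refine Or.inr (Or.inl ?_)
      unfold unroll
      push_cast
      exact hs
    · rw [hm] at hs
      refine Or.inr (Or.inr (Or.inl ?_))
      unfold unroll
      push_cast
      exact hs
    · rw [hm] at hs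
      obtain ⟨u, rfl⟩ := hrep j
      refine Or.inr (Or.inr (Or.inr ⟨u, (hal s u).1 hj, ?_⟩))
      unfold unroll
      push_cast
      exact hs

theorem linked_of_hidesFew (hn : 3 ≤ n) {v : ZMod n → ℂ} (hR : VisRel (Sees v))
    (bef : Ag.BoundaryOrder v) (h3 : 3 * views v < n) (ho : SeesOpposite v)
    (hf : HidesFew v) : Linked v := by
  refine linked_of_lkd hn hR bef h3 ho fun m hm hal hz hk0 hkn hlt hw hOpp => ?_
  have : NeZero n := ⟨by omega⟩
  have hrep : ∀ j : ZMod n, ∃ u : ℤ, (u : ZMod n) = j := fun j =>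
    ⟨(j.val : ℤ), by push_cast; exact ZMod.natCast_zmod_val j⟩
  have hexp : ∀ f : ℤ, Exposed v (f : ZMod n) → Cut.Exposed (m : ℤ) (unroll (Sees v)) f := by
    intro f hf u w h1 h2 h3
    obtain ⟨a, ha⟩ : ∃ a : ℕ, (a : ℤ) = f - u := ⟨(f - u).toNat, by omega⟩
    obtain ⟨b, hb⟩ : ∃ b : ℕ, (b : ℤ) = w - f := ⟨(w - f).toNat, by omega⟩
    obtain ⟨j, hj, hj'⟩ := hf a b (by omega) (by omega) (by rw [hm]; omega)
    obtain ⟨j, rfl⟩ := hrep j
    obtain ⟨t, ht⟩ := (hal f j).1 hj
    refine ⟨t, fun hxy => hj' ?_⟩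
    have e1 : u + t * m = j - a := by
      have : t * (m : ℤ) = m * t := by ring
      omega
    have e2 : w + t * m = j + b := by
      have : t * (m : ℤ) = m * t := by ring
      omega
    rw [e1, e2] at hxy
    unfold unroll at hxy
    push_cast at hxy
    exact hxy
  have hinj : ∀ {f x y : ℤ}, f < x → x < f + n → f < y → y < f + n →
      (x : ZMod n) = (y : ZMod n) → x = y := by
    intro f x y x1 x2 y1 y2 hxy
    rw [ZMod.intCast_eq_intCast_iff_dvd_sub] at hxy
    obtain ⟨t, ht⟩ := hxy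
    have t0 : t = 0 := by
      rcases lt_trichotomy t 0 with h | h | h
      · have : (n : ℤ) * t ≤ n * (-1) := mul_le_mul_of_nonneg_left (by omega) (by omega)
        omega
      · exact h
      · have : (n : ℤ) * 1 ≤ n * t := mul_le_mul_of_nonneg_left (by omega) (by omega)
        omega
    rw [t0, mul_zero] at ht
    omega
  have hmem : ∀ {f g x : ℤ}, (m : ℤ) ∣ x - g → f < x → x < f + n → ¬ unroll (Sees v) f x →
      (x : ZMod n) ∈ {x : ZMod n | Alike v (g : ZMod n) x ∧ x ≠ (f : ZMod n) ∧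
        ¬ Sees v (f : ZMod n) x} := by
    intro f g x h1 h2 h3 h4
    refine ⟨(hal g x).2 h1, fun h5 => ?_, h4⟩
    rw [ZMod.intCast_eq_intCast_iff_dvd_sub] at h5
    have h6 : (n : ℤ) ∣ x - f := by
      rw [← dvd_neg]
      have e : -(x - f) = f - x := by ring
      rw [e]; exact h5
    have := Int.le_of_dvd (by omega) h6
    omega
  refine Cut.linked_of_hides n m _ hz hk0 hkn hlt hw hOpp ?_
  rcases hf with ⟨i, j, hi, hj, hij⟩ | hf
  · left
    obtain ⟨f, rfl⟩ := hrep i
    obtain ⟨g, rfl⟩ := hrep j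
    refine ⟨f, g, hexp f hi, hexp g hj, ?_⟩
    intro z z' h1 h2 g3 h4 h5 h6 h7 h8
    exact hinj g3 h4 h5 h6 ((Set.ncard_le_one (Set.toFinite _)).1 hij _ (hmem h1 g3 h4 h7) _
      (hmem h2 h5 h6 h8))
  · right
    intro g
    obtain ⟨i, hi, hij⟩ := hf (g : ZMod n)
    obtain ⟨f, rfl⟩ := hrep i
    refine ⟨f, hexp f hi, ?_⟩
    intro x y z h1 h2 h3 x1 x2 y1 y2 z1 z2 hx hy hz
    by_contra hcon
    push Not at hcon
    obtain ⟨c1, c2, c3⟩ := hcon
    have : 2 < hides v (f : ZMod n) (g : ZMod n) := by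
      unfold hides
      rw [Set.two_lt_ncard_iff (Set.toFinite _)]
      exact ⟨_, _, _, hmem h1 x1 x2 hx, hmem h2 y1 y2 hy, hmem h3 z1 z2 hz,
        fun e => c1 (hinj x1 x2 y1 y2 e), fun e => c2 (hinj x1 x2 z1 z2 e),
        fun e => c3 (hinj y1 y2 z1 z2 e)⟩
    omega

/-- Polygons in which opposite vertices that look alike see each other can be mapped, if they have at
most three views or there are short chords around every vertex. -/
theorem maps_seesAcross (n : ℕ) :
    ∃ S : Strategy, ∀ (v : ZMod n → ℂ) (i : ZMod n), IsPolygon v →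
      SeesOpposite v → (views v ≤ 3 ∨ SeesAcross v) →
      ∃ t : ℕ, ∀ (v' : ZMod n → ℂ) (i' : ZMod n), IsPolygon v' →
        (run S v' i' t).1 = (run S v i t).1 → Nonempty (visGraph v' ≃g visGraph v) := by
  have hbef : ∀ (v : ZMod n → ℂ), IsPolygon v → Ag.BoundaryOrder v :=
    fun v hv i j k hj hk => before_iff hv hj hk
  obtain ⟨S, hS⟩ := maps_linked (n := n) (fun v hv => geoE hv) (fun v hv => hbef v hv)
  refine ⟨S, fun v i hv h h' => hS v i hv ?_⟩
  rcases le_or_gt (views v) 2 with h2 | h2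
  · exact Or.inl h2
  rcases le_or_gt n (3 * views v) with h3 | h3
  · exact Or.inr (Or.inl h3)
  refine Or.inr (Or.inr (Or.inl ?_))
  rcases h' with h' | h'
  · exact linked_of_opposite hv.simple.three (geoE hv).rel (hbef v hv) h2 h3 h (Or.inl h')
  · exact linked_of_across hv.simple.three (geoE hv).rel (hbef v hv) h3 h h'

/-- Polygons in which opposite vertices that look alike see each other can be mapped, if exposed vertices
hide few vertices of a class (`HidesFew`). -/
theorem maps_hidesFew (n : ℕ) :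
    ∃ S : Strategy, ∀ (v : ZMod n → ℂ) (i : ZMod n), IsPolygon v →
      SeesOpposite v → HidesFew v →
      ∃ t : ℕ, ∀ (v' : ZMod n → ℂ) (i' : ZMod n), IsPolygon v' →
        (run S v' i' t).1 = (run S v i t).1 → Nonempty (visGraph v' ≃g visGraph v) := by
  have hbef : ∀ (v : ZMod n → ℂ), IsPolygon v → Ag.BoundaryOrder v :=
    fun v hv i j k hj hk => before_iff hv hj hk
  obtain ⟨S, hS⟩ := maps_linked (n := n) (fun v hv => geoE hv) (fun v hv => hbef v hv)
  refine ⟨S, fun v i hv h h' => hS v i hv ?_⟩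
  rcases le_or_gt (views v) 2 with h2 | h2
  · exact Or.inl h2
  rcases le_or_gt n (3 * views v) with h3 | h3
  · exact Or.inr (Or.inl h3)
  exact Or.inr (Or.inr (Or.inl
    (linked_of_hidesFew hv.simple.three (geoE hv).rel (hbef v hv) h3 h h')))

end VisMap
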