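import Pool.Agent.Lib.MP_9f3af0_lcC.NextOpp

/-!
# MP_9f3af0_lc: rings in which opposite vertices of a class see each other, with short chords
(helper83)

`Rect k r`: around every vertex there are short chords (see below).  This condition is inherited by the
cut structures, and together with `Opp` it gives a linked class.  `Few n k r f g`: the vertex `f` hides at
most one vertex of the class of `g` (used in the next file).
-/

namespace VisMap

namespace Cut

open Dism

/-- Around every vertex `s` there is a short chord: some `x ∈ [s - k, s)` sees some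
`y ∈ (s, s + 2 k + 1]`, or `s` sees `s + k` or `s + 2 k`, or some vertex `v` of the class of `s` sees
`v + k + 1`; and the same with the directions exchanged. -/
structure Rect (k : ℤ) (r : ℤ → ℤ → Prop) : Prop where
  up : ∀ s, (∃ x y, s - k ≤ x ∧ x < s ∧ s < y ∧ y ≤ s + 2 * k + 1 ∧ r x y) ∨
    r s (s + k) ∨ r s (s + 2 * k) ∨ ∃ v, k ∣ v - s ∧ r v (v + k + 1)
  dn : ∀ s, (∃ x y, s - 2 * k - 1 ≤ x ∧ x < s ∧ s < y ∧ y ≤ s + k ∧ r x y) ∨
    r s (s - k) ∨ r s (s - 2 * k) ∨ ∃ v, k ∣ v - s ∧ r v (v - k - 1)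

/-- The vertex `f` hides at most one vertex of the class of `g`. -/
def Few (n : ℕ) (k : ℤ) (r : ℤ → ℤ → Prop) (f g : ℤ) : Prop :=
  ∀ z z', k ∣ z - g → k ∣ z' - g → f < z → z < f + n → f < z' → z' < f + n →
    ¬ r f z → ¬ r f z' → z = z'

end Cut

namespace Tw

open Tp

section

variable {k B : ℤ} {r : ℤ → ℤ → Prop} {s a b : ℤ}

/-- The centre of the widest fat rectangle does not see the next two vertices of its class, and no vertex
of its class has the natural `k + 1`. -/
theorem FatF.false_of_up (h : TZ k B r) (f : FatF k r s a b)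
    (hf : (∃ x y, s - k ≤ x ∧ x < s ∧ s < y ∧ y ≤ s + 2 * k + 1 ∧ r x y) ∨
      r s (s + k) ∨ r s (s + 2 * k) ∨ ∃ v, k ∣ v - s ∧ r v (v + k + 1)) : False := by
  have hk := h.hk
  rcases lt_or_ge b (2 * k) with hb | hb
  · exact f.false_of_lt h hb
  have hka := f.ka
  have hρ := f.rho_pos h
  have hρ' := Int.emod_lt_of_pos b hk
  have hb1 : 2 * k + 1 ≤ b := by
    by_contra hne
    have h1 : b = 2 * k := by omega
    rw [h1, Int.mul_emod_left] at hρ
    omega
  have hk2 : 2 ≤ k := by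
    by_contra hc
    have e : k = 1 := by omega
    rw [e, Int.emod_one] at hρ
    omega
  rcases hf with ⟨x, y, x1, x2, y1, y2, hxy⟩ | hf | hf | ⟨v, hv, hf⟩
  · exact f.hid x y (by omega) (by omega) (by omega) (by omega) hxy
  · have h1 := f.nat_le h (x := s + k) (by omega) (by omega) hf
    have h2 := h.lcT_le2 (k := k) (x := s) (y := s + k) (by omega) hf
    have h3 : (s + k - 2 - s) / k = 0 := Int.ediv_eq_zero_of_lt (by omega) (by omega)
    have h4 : (lcT k (Tf r s) s (s + k) : ℤ) = 0 := by omega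
    rw [h4] at h1
    omega
  · have h1 := f.nat_le h (x := s + 2 * k) (by omega) (by omega) hf
    have h2 := h.lcT_le2 (k := k) (x := s) (y := s + 2 * k) (by omega) hf
    have h3 : (s + 2 * k - 2 - s) / k < 2 := by
      rw [Int.ediv_lt_iff_lt_mul hk]; omega
    have h4 : k * (lcT k (Tf r s) s (s + 2 * k) : ℤ) ≤ k * 1 :=
      mul_le_mul_of_nonneg_left (by omega) hk.le
    omega
  · have habB := f.abB h
    obtain ⟨z, z1, z2, z3⟩ := h.transport (v := v) (v' := s) (z := v + k + 1)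
      (by rw [← dvd_neg]; have e : -(s - v) = v - s := by ring
          rw [e]; exact hv) (by omega) (by omega) hf
    have h2 := h.lcT_le2 (k := k) (x := v) (y := v + k + 1) (by omega) hf
    have h3 : (v + k + 1 - 2 - v) / k = 0 := Int.ediv_eq_zero_of_lt (by omega) (by omega)
    have h4 : (lcT k (Tf r v) v (v + k + 1) : ℤ) = 0 := by omega
    rw [h4] at z3
    rcases le_or_gt z (s + b) with h5 | h5
    · have h6 := f.nat_le h (x := z) z1 h5 z2
      omega
    · have h6 := f.lc_t h (z := z) (by omega) z2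
      rw [h6] at z3
      have hb2 := Int.emod_add_mul_ediv b k
      have e1 : k * (b / k + 1) = k * (b / k) + k := by ring
      refine f.hole h (i := 0) (q := b / k + 1) (j := 1) le_rfl (by omega) le_rfl hρ (by omega)
        ?_ (by omega) ?_
      · have e : s + 1 + k * (b / k + 1) = z := by omega
        rw [mul_zero, sub_zero, e]
        exact z2
      · have e : b / k + 1 - b / k + 0 = 1 := by ring
        rw [e, mul_one]
        exact hka

end

section

variable {n : ℕ} {k D : ℤ} {r : ℤ → ℤ → Prop} (hz : ZRel n r) (h3 : ∀ x, r x (x + D)) (hD : 2 ≤ D)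
  (hk : 0 < k) (h6 : 2 * D ≤ n)

include hz h3 hD hk h6 in
/-- A fat rectangle gives a widest fat rectangle. -/
theorem exists_fatF (hw : Cut.Wd n k r)
    (s : ℤ) (hs : ∀ a b, s - k ≤ a → a < s → s < b → b ≤ s + k → ¬ r a b) :
    (∃ s a b, FatF k (rF (D - 1) r) s a b) ∨
      ∃ s a b, FatF k (VisMap.mirror (rF (D - 1) r)) s a b := by
  have h := tz3 hz h3 hD hk h6 hw
  by_cases hsD : ∃ x y, s - k ≤ x ∧ x < s ∧ s < y ∧ y ≤ s + k ∧ D - 1 < y - x
  · -- a fat rectangle contains no pair at a distance `D`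
    exfalso
    obtain ⟨x, y, x1, x2, y1, y2, hxy⟩ := hsD
    rcases le_or_gt (s - D + 1) x with hl | hl
    · exact hs x (x + D) x1 x2 (by omega) (by omega) (h3 _)
    · exact hs (s - D + 1) (s - D + 1 + D) (by omega) (by omega) (by omega) (by omega) (h3 _)
  have hs' : Hid (rF (D - 1) r) s k k := fun x y h1 h2 h3 h4 h5 => by
    have h6 : y - x ≤ D - 1 := by
      by_contra hc
      exact hsD ⟨x, y, h1, h2, h3, h4, by omega⟩
    exact hs x y h1 h2 h3 h4 (h5.2 h6 (by omega))
  exact h.exists_fat hs'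

include hz h3 hD hk h6 in
/-- There is no fat rectangle under `Rect`. -/
theorem noFat_rect (hw : Cut.Wd n k r) (hr : Cut.Rect k r)
    (s : ℤ) (hs : ∀ a b, s - k ≤ a → a < s → s < b → b ≤ s + k → ¬ r a b) : False := by
  have h := tz3 hz h3 hD hk h6 hw
  rcases exists_fatF hz h3 hD hk h6 hw s hs with ⟨s, a, b, f⟩ | ⟨s, a, b, f⟩
  · refine f.false_of_up h ?_
    rcases hr.up s with ⟨x, y, x1, x2, y1, y2, hxy⟩ | hxy | hxy | ⟨v, hv, hxy⟩
    · exact Or.inl ⟨x, y, x1, x2, y1, y2, rF_of (by omega) hxy⟩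
    · exact Or.inr (Or.inl (rF_of (by omega) hxy))
    · exact Or.inr (Or.inr (Or.inl (rF_of (by omega) hxy)))
    · exact Or.inr (Or.inr (Or.inr ⟨v, hv, rF_of (by omega) hxy⟩))
  · refine f.false_of_up h.mirror ?_
    have key : ∀ x y x' y' : ℤ, x = -x' → y = -y' → r x y → x ≠ y →
        VisMap.mirror (rF (D - 1) r) x' y' := by
      rintro x y x' y' rfl rfl hxy hne
      exact rF_of hne hxy
    rcases hr.dn (-s) with ⟨x, y, x1, x2, y1, y2, hxy⟩ | hxy | hxy | ⟨v, hv, hxy⟩
    · exact Or.inl ⟨-y, -x, by omega, by omega, by omega, by omega,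
        key y x _ _ (by ring) (by ring) (hz.symm _ _ hxy) (by omega)⟩
    · exact Or.inr (Or.inl (key _ _ _ _ (by ring) (by ring) hxy (by omega)))
    · exact Or.inr (Or.inr (Or.inl (key _ _ _ _ (by ring) (by ring) hxy (by omega))))
    · refine Or.inr (Or.inr (Or.inr ⟨-v, ?_, key _ _ _ _ (by ring) (by ring) hxy (by omega)⟩))
      rw [← dvd_neg]
      have e : -(-v - s) = v - -s := by ring
      rw [e]
      exact hv

include hz h3 hD hk h6 in
/-- The `X` property at distances up to `D`. -/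
theorem ring_X (hw : Cut.Wd n k r) {a b c d : ℤ} (h1 : a < b) (h2 : b < c) (h4 : c < d)
    (hd : d ≤ a + D) (hac : r a c) (hbd : r b d) : r a d := by
  have h := tz3 hz h3 hD hk h6 hw
  have h5 := h.X a b c d h1 h2 h4 (rF_of (by omega) hac) (rF_of (by omega) hbd)
  exact (rF_le h3 (by omega) hd).1 h5

end

end Tw

namespace Cut

open Dism

variable {n : ℕ} {r : ℤ → ℤ → Prop}

/-- No surviving vertex lies strictly between `u` and `u + d`. -/
theorem kp_not_between {k d c u z : ℤ} (hdk : d < k) (hu : k ∣ u - c) (hz : Kp k d c z)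
    (h1 : u < z) (h2 : z < u + d) : False := by
  obtain ⟨t, ht⟩ := hu
  have e : z - c = (z - u) + k * t := by omega
  have h3 : (z - c) % k = z - u := by
    rw [e, Int.add_mul_emod_self_left, Int.emod_eq_of_lt (by omega) (by omega)]
  unfold Kp at hz
  rw [h3] at hz
  rcases hz with h | h <;> omega

/-- A vertex which does not survive lies between `u` and `u + d` for a vertex `u` of the class `c`. -/
theorem exists_between {k d c z : ℤ} (hk : 0 < k) (hz : ¬ Kp k d c z) :
    ∃ u, k ∣ u - c ∧ u < z ∧ z < u + d := by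
  unfold Kp at hz
  push Not at hz
  obtain ⟨h1, h2⟩ := hz
  have h3 := Int.emod_nonneg (z - c) hk.ne'
  refine ⟨z - (z - c) % k, ?_, by omega, by omega⟩
  have e : z - (z - c) % k - c = (z - c) - (z - c) % k := by ring
  rw [e]
  exact Int.dvd_self_sub_emod

theorem kp_self {k d c u : ℤ} (hu : k ∣ u - c) : Kp k d c u :=
  Or.inl (Int.emod_eq_zero_of_dvd hu)

theorem kp_end {k d c u : ℤ} (h2 : 2 ≤ d) (hdk : d < k) (hu : k ∣ u - c) : Kp k d c (u + d) := by
  obtain ⟨t, ht⟩ := hu
  right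
  have e : u + d - c = d + k * t := by omega
  rw [e, Int.add_mul_emod_self_left, Int.emod_eq_of_lt (by omega) (by omega)]

/-- A short visible chord around a surviving vertex gives one with surviving ends. -/
theorem exists_kept {k d c D : ℤ} (h : ZRel n r) (h3 : ∀ x, r x (x + D)) (hD : 2 ≤ D)
    (h6 : 2 * D ≤ n) (hw : Wd n k r) (h2 : 2 ≤ d) (hdk : d < k)
    (hv : ∀ u, k ∣ u - c → r u (u + d)) {L s U x y : ℤ} (hL : Kp k d c L) (hs : Kp k d c s)
    (hU : Kp k d c U) (hLU : U ≤ L + D) (h4 : L ≤ x) (h5 : x < s) (h7 : s < y) (h8 : y ≤ U)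
    (hxy : r x y) :
    ∃ x' y', Kp k d c x' ∧ Kp k d c y' ∧ L ≤ x' ∧ x' < s ∧ s < y' ∧ y' ≤ U ∧ r x' y' := by
  have hk : 0 < k := by omega
  -- the lower end
  obtain ⟨x', hx1, hx2, hx3, hx4⟩ : ∃ x', Kp k d c x' ∧ L ≤ x' ∧ x' < s ∧ r x' y := by
    by_cases hx : Kp k d c x
    · exact ⟨x, hx, h4, h5, hxy⟩
    obtain ⟨u, hu, u1, u2⟩ := exists_between hk hx
    have u3 : L ≤ u := by
      by_contra hc
      exact kp_not_between hdk hu hL (by omega) (by omega)
    have u4 : u + d ≤ s := by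
      by_contra hc
      exact kp_not_between hdk hu hs (by omega) (by omega)
    exact ⟨u, kp_self hu, u3, by omega,
      Tw.ring_X h h3 hD hk h6 hw u1 u2 (by omega) (by omega) (hv u hu) hxy⟩
  by_cases hy : Kp k d c y
  · exact ⟨x', y, hx1, hy, hx2, hx3, h7, h8, hx4⟩
  obtain ⟨w, hw', w1, w2⟩ := exists_between hk hy
  have w3 : s ≤ w := by
    by_contra hc
    exact kp_not_between hdk hw' hs (by omega) (by omega)
  have w4 : w + d ≤ U := by
    by_contra hc
    exact kp_not_between hdk hw' hU (by omega) (by omega)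
  exact ⟨x', w + d, hx1, kp_end h2 hdk hw', hx2, hx3, by omega, w4,
    Tw.ring_X h h3 hD hk h6 hw (by omega) w1 w2 (by omega) hx4 (hv w hw')⟩

/-- An enumeration `φ` of the surviving vertices. -/
structure CutE (n n' : ℕ) (k d c : ℤ) (r : ℤ → ℤ → Prop) (φ : ℤ → ℤ) : Prop where
  hE : Enum n n' (Kp k d c) φ
  shift : ∀ a j : ℤ, φ (a + j * (k - d + 1)) = φ a + j * k
  res : ∀ a b, k - d + 1 ∣ b - a ↔ k ∣ φ b - φ a
  dvd : (k - d + 1) ∣ (n' : ℤ)
  card : (n' : ℤ) * k = n * (k - d + 1)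
  zrel : ZRel n' (fun a b => r (φ a) (φ b))
  wd : Wd n' (k - d + 1) (fun a b => r (φ a) (φ b))
  big : ∀ m : ℤ, m * k ≤ n → m * (k - d + 1) ≤ n'

/-- **The cut.** -/
theorem cut_enum {k d c : ℤ} (h : ZRel n r) (hn : 0 < n) (hk : k ∣ n) (hw : Wd n k r) (h2 : 2 ≤ d)
    (hdk : d < k) (hv : ∀ u, k ∣ u - c → r u (u + d)) :
    ∃ (n' : ℕ) (φ : ℤ → ℤ), CutE n n' k d c r φ := by
  have hS := sr_kp h hn hk h2 hdk hv
  obtain ⟨q, hq⟩ := hk
  have hq0 : 0 < q := by
    by_contra hlt
    have : k * q ≤ 0 := mul_nonpos_of_nonneg_of_nonpos (by omega) (by omega)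
    omega
  obtain ⟨q, rfl⟩ : ∃ m : ℕ, q = m := ⟨q.toNat, by omega⟩
  have hk'q : 0 ≤ (k - d + 1) * (q : ℤ) := mul_nonneg (by omega) (by omega)
  obtain ⟨n', hn'⟩ : ∃ n' : ℕ, (n' : ℤ) = (k - d + 1) * q :=
    ⟨((k - d + 1) * (q : ℤ)).toNat, by omega⟩
  have hE : Enum n n' (Kp k d c) (ph (k - d + 1) k d c) := enum_ph hq h2 hdk hn'
  refine ⟨n', ph (k - d + 1) k d c, hE, fun a j => ?_, ph_res h2 hdk, ⟨q, hn'⟩,
    by rw [hn', hq]; ring, hE.zrel hS ?_, hE.wd hw (fun z z' hz => kp_of_dvd hz) (ph_res h2 hdk),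
    fun m hm => ?_⟩
  · have := ph_add (k' := k - d + 1) (k := k) (d := d) (c := c) (by omega) a j
    rwa [mul_comm (k - d + 1) j, mul_comm k j] at this
  · have : (k - d + 1) * 1 ≤ (k - d + 1) * (q : ℤ) :=
      mul_le_mul_of_nonneg_left (by omega) (by omega)
    omega
  · have h5 : k * m ≤ k * q := by rw [mul_comm]; omega
    have h6 : m ≤ (q : ℤ) := le_of_mul_le_mul_left h5 (by omega)
    rw [hn', mul_comm]
    exact mul_le_mul_of_nonneg_left h6 (by omega)

section

variable {n' : ℕ} {k d c : ℤ} {φ : ℤ → ℤ} (hC : CutE n n' k d c r φ)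

include hC in
theorem CutE.shift1 (a : ℤ) : φ (a + (k - d + 1)) = φ a + k := by
  have := hC.shift a 1
  rwa [one_mul, one_mul] at this

include hC in
theorem CutE.shiftm (a j : ℤ) : φ (a - j * (k - d + 1)) = φ a - j * k := by
  have := hC.shift a (-j)
  have e1 : a + -j * (k - d + 1) = a - j * (k - d + 1) := by ring
  have e2 : φ a + -j * k = φ a - j * k := by ring
  rwa [e1, e2] at this

include hC in
theorem CutE.shiftm1 (a : ℤ) : φ (a - (k - d + 1)) = φ a - k := by
  have := hC.shiftm a 1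
  rwa [one_mul, one_mul] at this

include hC in
/-- The next surviving vertex: either the next vertex, or the end of the next chord. -/
theorem CutE.next (h2 : 2 ≤ d) (hdk : d < k) (a : ℤ) :
    φ (a + 1) = φ a + 1 ∨ (φ (a + 1) = φ a + d ∧ k ∣ φ a - c) := by
  have hlt := hC.hE.mono (show a < a + 1 by omega)
  have hmin : ∀ z, Kp k d c z → φ a < z → φ (a + 1) ≤ z := by
    intro z hz h1
    obtain ⟨b, rfl⟩ := hC.hE.surj z hz
    exact hC.hE.mono.monotone (by have := hC.hE.mono.lt_iff_lt.1 h1; omega)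
  by_cases hz : Kp k d c (φ a + 1)
  · left
    have := hmin _ hz (by omega)
    omega
  · right
    obtain ⟨u, hu, u1, u2⟩ := exists_between (by omega) hz
    have hua : u = φ a := by
      rcases lt_or_ge u (φ a) with h | h
      · exact (kp_not_between hdk hu (hC.hE.mem a) h (by omega)).elim
      · omega
    subst hua
    have h3 := hmin _ (kp_end h2 hdk hu) (by omega)
    refine ⟨?_, hu⟩
    by_contra hne
    exact kp_not_between hdk hu (hC.hE.mem (a + 1)) hlt (by omega)

include hC in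
/-- The previous surviving vertex. -/
theorem CutE.prev (h2 : 2 ≤ d) (hdk : d < k) (a : ℤ) :
    φ (a - 1) = φ a - 1 ∨ (φ (a - 1) = φ a - d ∧ k ∣ φ (a - 1) - c) := by
  have := hC.next h2 hdk (a - 1)
  rw [sub_add_cancel] at this
  rcases this with h | ⟨h, h'⟩
  · left; omega
  · right; exact ⟨by omega, h'⟩

include hC in
/-- `Rect` is inherited. -/
theorem CutE.rect (h : ZRel n r) (hw : Wd n k r) (h2 : 2 ≤ d)
    (hdk : d < k) (hv : ∀ u, k ∣ u - c → r u (u + d)) {m : ℤ} (hm4 : 4 ≤ m)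
    (hm2 : 2 * (m * k) ≤ n) (hm : ∀ x, r x (x + m * k)) (hr : Rect k r) :
    Rect (k - d + 1) (fun a b => r (φ a) (φ b)) := by
  have hE := hC.hE
  have hmk : 4 * k ≤ m * k := mul_le_mul_of_nonneg_right hm4 (by omega)
  have hX : ∀ {a b c' d' : ℤ}, a < b → b < c' → c' < d' → d' ≤ a + m * k → r a c' → r b d' →
      r a d' := fun h1 h3 h4 h5 h6 h7 =>
    Tw.ring_X h hm (by omega) (by omega) hm2 hw h1 h3 h4 h5 h6 h7
  have hrect : ∀ a a1 a2 x y : ℤ, φ a2 ≤ φ a1 + m * k → φ a1 ≤ x → x < φ a → φ a < y →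
      y ≤ φ a2 → r x y → ∃ x' y', a1 ≤ x' ∧ x' < a ∧ a < y' ∧ y' ≤ a2 ∧ r (φ x') (φ y') := by
    intro a a1 a2 x y g0 g1 g2 g3 g4 hxy
    obtain ⟨x', y', p1, p2, p3, p4, p5, p6, p7⟩ := exists_kept h hm (by omega) hm2 hw h2 hdk hv
      (hE.mem a1) (hE.mem a) (hE.mem a2) g0 g1 g2 g3 g4 hxy
    obtain ⟨x', rfl⟩ := hE.surj x' p1
    obtain ⟨y', rfl⟩ := hE.surj y' p2
    exact ⟨x', y', hE.mono.le_iff_le.1 p3, hE.mono.lt_iff_lt.1 p4, hE.mono.lt_iff_lt.1 p5,
      hE.mono.le_iff_le.1 p6, p7⟩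
  have hclass : ∀ v a, k ∣ v - φ a → ∃ b, φ b = v ∧ k - d + 1 ∣ b - a := by
    intro v a hva
    obtain ⟨b, rfl⟩ := hE.surj v ((kp_of_dvd hva).2 (hE.mem a))
    exact ⟨b, rfl, (hC.res a b).2 hva⟩
  refine ⟨fun a => ?_, fun a => ?_⟩
  · rcases hr.up (φ a) with ⟨x, y, x1, x2, y1, y2, hxy⟩ | hxy | hxy | ⟨v, hva, hxy⟩
    · have e1 := hC.shiftm1 a
      have e2 := hC.shift a 2
      have e3 := hC.next h2 hdk (a + 2 * (k - d + 1))
      exact Or.inl (hrect a (a - (k - d + 1)) (a + 2 * (k - d + 1) + 1) x y (by omega) (by omega)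
        x2 y1 (by omega) hxy)
    · refine Or.inr (Or.inl ?_)
      show r (φ a) (φ (a + (k - d + 1)))
      rw [hC.shift1]; exact hxy
    · refine Or.inr (Or.inr (Or.inl ?_))
      show r (φ a) (φ (a + 2 * (k - d + 1)))
      rw [hC.shift]; exact hxy
    · refine Or.inr (Or.inr (Or.inr ?_))
      obtain ⟨b, rfl, hb⟩ := hclass v a hva
      refine ⟨b, hb, ?_⟩
      show r (φ b) (φ (b + (k - d + 1) + 1))
      have e1 := hC.shift1 b
      rcases hC.next h2 hdk (b + (k - d + 1)) with e2 | ⟨e2, e3⟩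
      · rw [e2, e1]; exact hxy
      · rw [e2, e1]
        rw [e1] at e3
        exact hX (show φ b < φ b + k by omega) (show φ b + k < φ b + k + 1 by omega) (by omega)
          (by omega) hxy (hv _ e3)
  · rcases hr.dn (φ a) with ⟨x, y, x1, x2, y1, y2, hxy⟩ | hxy | hxy | ⟨v, hva, hxy⟩
    · have e1 := hC.shift1 a
      have e2 := hC.shiftm a 2
      have e3 := hC.prev h2 hdk (a - 2 * (k - d + 1))
      exact Or.inl (hrect a (a - 2 * (k - d + 1) - 1) (a + (k - d + 1)) x y (by omega) (by omega)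
        x2 y1 (by omega) hxy)
    · refine Or.inr (Or.inl ?_)
      show r (φ a) (φ (a - (k - d + 1)))
      rw [hC.shiftm1]; exact hxy
    · refine Or.inr (Or.inr (Or.inl ?_))
      show r (φ a) (φ (a - 2 * (k - d + 1)))
      rw [hC.shiftm]; exact hxy
    · refine Or.inr (Or.inr (Or.inr ?_))
      obtain ⟨b, rfl, hb⟩ := hclass v a hva
      refine ⟨b, hb, ?_⟩
      show r (φ b) (φ (b - (k - d + 1) - 1))
      have e1 := hC.shiftm1 b
      rcases hC.prev h2 hdk (b - (k - d + 1)) with e2 | ⟨e2, e3⟩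
      · rw [e2, e1]; exact hxy
      · rw [e2, e1]
        rw [e2, e1] at e3
        have h5 := hv _ e3
        rw [sub_add_cancel] at h5
        exact h.symm _ _ (hX (show φ b - k - d < φ b - k - 1 by omega)
          (show φ b - k - 1 < φ b - k by omega) (show φ b - k < φ b by omega) (by omega) h5
          (h.symm _ _ hxy))

end

/-- If opposite vertices of a class see each other and `Rect` holds, then some class is linked. -/
theorem linked_of_rect (n : ℕ) (k : ℤ) (r : ℤ → ℤ → Prop) (h : ZRel n r) (hk : 0 < k)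
    (hkn : k ∣ (n : ℤ)) (hlt : k < n) (hw : Wd n k r) (ho : Opp n k r) (hr : Rect k r) :
    Lkd k r := by
  obtain ⟨m, m1, m2, m3⟩ := id ho
  rcases lt_or_ge m 4 with hm4 | hm4
  · refine linked_of_opp n k r h hk hkn hlt hw ho (Or.inr (Or.inl ⟨fun x => ?_, fun x => ?_⟩))
    · have h5 := m3 x
      obtain rfl | rfl | rfl : m = 1 ∨ m = 2 ∨ m = 3 := by omega
      · rw [one_mul] at h5; exact Or.inl h5
      · exact Or.inr (Or.inl h5)
      · exact Or.inr (Or.inr h5)
    · have h5 := h.symm _ _ (m3 (x - m * k))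
      rw [sub_add_cancel] at h5
      obtain rfl | rfl | rfl : m = 1 ∨ m = 2 ∨ m = 3 := by omega
      · rw [one_mul] at h5; exact Or.inl h5
      · exact Or.inr (Or.inl h5)
      · exact Or.inr (Or.inr h5)
  clear ho m1
  have main : ∀ N : ℕ, ∀ (n : ℕ) (k : ℤ) (r : ℤ → ℤ → Prop), k.toNat ≤ N → ZRel n r → 0 < k →
      k ∣ (n : ℤ) → k < n → Wd n k r → 2 * (m * k) ≤ n → (∀ x, r x (x + m * k)) → Rect k r →
      Lkd k r := by
    intro N
    induction N with
    | zero => intro n k r h1 _ h2; omega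
    | succ N ih =>
      intro n k r hN h hk hkn hlt hw hm2 hm hr
      by_cases hk1 : k = 1
      · subst hk1
        exact ⟨0, fun u _ => h.succ u⟩
      have hmk : 4 * k ≤ m * k := mul_le_mul_of_nonneg_right hm4 hk.le
      by_contra hno
      have hNL : Tp.NoWide k r := fun c d d1 d2 hv => by
        rcases eq_or_lt_of_le d2 with hd | hd
        · subst hd
          exact hno ⟨c, hv⟩
        · obtain ⟨n', φ, hC⟩ := cut_enum h (by omega) hkn hw d1 hd hv
          have hlt' : k - d + 1 < (n' : ℤ) := by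
            by_contra hcon
            have h5 : (n' : ℤ) * k ≤ (k - d + 1) * k :=
              mul_le_mul_of_nonneg_right (by omega) hk.le
            have h6 : k * (k - d + 1) < n * (k - d + 1) := mul_lt_mul_of_pos_right hlt (by omega)
            have h7 : (k - d + 1) * k = k * (k - d + 1) := by ring
            have h8 := hC.card
            omega
          have hbig : 2 * (m * (k - d + 1)) ≤ (n' : ℤ) := by
            have e := hC.big (2 * m) (by linarith)
            linarith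
          obtain ⟨a, ha⟩ := ih n' (k - d + 1) _ (by omega) hC.zrel (by omega) hC.dvd hlt' hC.wd
            hbig (fun a => by
              show r (φ a) (φ (a + m * (k - d + 1)))
              rw [hC.shift]; exact hm _) (hC.rect h hw d1 hd hv hm4 hm2 hm hr)
          refine hno ⟨φ a, fun u hu => ?_⟩
          obtain ⟨b, rfl⟩ := hC.hE.surj u ((kp_of_dvd hu).2 (hC.hE.mem a))
          have h1 := ha b ((hC.res a b).2 hu)
          rw [← hC.shift1]; exact h1
      exact false_of_noFat h (by omega) hkn (by omega) hw hNL fun s hs =>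
        Tw.noFat_rect h hm (by omega) hk hm2 hw hr s hs
  exact main _ n k r le_rfl h hk hkn hlt hw m2 m3 hr

end Cut

end VisMap
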