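import Pool.Agent.Lib.MP_9f3af0_lcB.Far
import Pool.Agent.Lib.MP_9f3af0_lcB.ThmA
import Pool.Agent.Lib.MP_9f3af0_lcB.NoFat

/-!
# MP_9f3af0_lc: weak `T'`-structures (helper55, after helper37)

A weak `T'`-structure is a relation on the integers in which all pairs at a distance of more than `B`
see each other, with the crossing rule and the neighbour rules, in which the number of the laps is a
class function and sights at a distance of at most `B + 1` are transported to the mates.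
-/

namespace VisMap

namespace Tw

open Tp

/-- A weak `T'`-structure. -/
structure TZ (k B : ℤ) (r : ℤ → ℤ → Prop) : Prop where
  hk : 0 < k
  hB : 0 ≤ B
  symm : ∀ a b, r a b → r b a
  irrefl : ∀ a, ¬ r a a
  succ : ∀ a, r a (a + 1)
  far : ∀ a b, a + B < b → r a b
  cn : ∀ i s t : ℤ, i < s → s < t → r i s → r i t → (∀ m, s < m → m < t → ¬ r i m) → r s t
  cn' : ∀ i s t : ℤ, t < s → s < i → r i s → r i t → (∀ m, t < m → m < s → ¬ r i m) → r s t
  X : ∀ a b c d : ℤ, a < b → b < c → c < d → r a c → r b d → r a d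
  laps_class' : ∀ v v', k ∣ v' - v → laps k B r v' = laps k B r v
  tr : ∀ v v' z, k ∣ v' - v → v < z → z ≤ v + B + 1 → r v z → ∃ z', v' < z' ∧ r v' z' ∧
    z' - v' - k * lcT k (Tf r v') v' z' = z - v - k * lcT k (Tf r v) v z
  tr' : ∀ v v' z, k ∣ v' - v → z < v → v - B - 1 ≤ z → r v z → ∃ z', z' < v' ∧ r v' z' ∧
    v' - z' - k * lcT k (Tf (VisMap.mirror r) (-v')) (-v') (-z') =
      v - z - k * lcT k (Tf (VisMap.mirror r) (-v)) (-v) (-z)

variable {k B : ℤ} {r : ℤ → ℤ → Prop}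

theorem TZ.laps_class (h : TZ k B r) {v v' : ℤ} (hv : k ∣ v' - v) :
    laps k B r v' = laps k B r v := h.laps_class' _ _ hv

theorem TZ.comm (h : TZ k B r) (a b : ℤ) : r a b ↔ r b a := ⟨h.symm _ _, h.symm _ _⟩

theorem TZ.pred (h : TZ k B r) (a : ℤ) : r a (a - 1) := by
  have := h.succ (a - 1)
  rw [sub_add_cancel] at this
  exact h.symm _ _ this

theorem TZ.far' (h : TZ k B r) {a b : ℤ} (hab : b + B < a) : r a b := h.symm _ _ (h.far _ _ hab)

theorem TZ.near (h : TZ k B r) {a b : ℤ} (hab : ¬ r a b) : b ≤ a + B ∧ a ≤ b + B := by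
  refine ⟨?_, ?_⟩
  · by_contra hc
    exact hab (h.far _ _ (by omega))
  · by_contra hc
    exact hab (h.far' (by omega))

/-- If `v` sees `p` and not `y > p`, then all vertices in `[v, p)` hide `y`. -/
theorem TZ.hide (h : TZ k B r) {v x p y : ℤ} (h1 : v ≤ x) (h2 : x < p) (h3 : p < y)
    (hp : r v p) (hy : ¬ r v y) : ¬ r x y := by
  intro hxy
  rcases h1.lt_or_eq with hl | he
  · exact hy (h.X v x p y hl h2 h3 hp hxy)
  · rw [he] at hy
    exact hy hxy

/-- If `y` sees `p` and not `v < p`, then all vertices in `(p, y]` hide `v`. -/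
theorem TZ.hide' (h : TZ k B r) {v x p y : ℤ} (h1 : v < p) (h2 : p < x) (h3 : x ≤ y)
    (hp : r y p) (hy : ¬ r y v) : ¬ r x v := by
  intro hxy
  rcases h3.lt_or_eq with hl | he
  · exact hy (h.symm _ _ (h.X v p x y h1 h2 hl (h.symm _ _ hxy) (h.symm _ _ hp)))
  · rw [← he] at hy
    exact hy hxy

/-- The next sight beyond `a`. -/
theorem TZ.next (h : TZ k B r) {v a : ℤ} (hva : v ≤ a) :
    ∃ t, a < t ∧ r v t ∧ (∀ m, a < m → m < t → ¬ r v m) ∧ (t = a + 1 ∨ t ≤ v + B + 1) := by
  obtain ⟨t, t1, t2, t3, t4⟩ := exists_first (p := fun z => r v z) (a := a + 1)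
    (b := max (a + 1) (v + B + 1)) (le_max_left _ _) (h.far _ _ (by
      have := le_max_right (a + 1) (v + B + 1)
      omega))
  refine ⟨t, by omega, t3, fun m m1 m2 => t4 m (by omega) m2, ?_⟩
  rcases le_or_gt (v + B + 1) (a + 1) with hl | hl
  · rw [max_eq_left hl] at t2
    left; omega
  · rw [max_eq_right hl.le] at t2
    right; omega

/-- The last sight in `(v, a]`. -/
theorem TZ.last (h : TZ k B r) {v a : ℤ} (hva : v < a) :
    ∃ s, v < s ∧ s ≤ a ∧ r v s ∧ ∀ m, s < m → m ≤ a → ¬ r v m := by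
  obtain ⟨s, s1, s2, s3, s4⟩ := exists_last (p := fun z => r v z) (a := v + 1) (b := a)
    (by omega) (h.succ v)
  exact ⟨s, by omega, s2, s3, s4⟩

/-- The next sight behind `a`. -/
theorem TZ.next' (h : TZ k B r) {v a : ℤ} (hva : a ≤ v) :
    ∃ t, t < a ∧ r v t ∧ (∀ m, t < m → m < a → ¬ r v m) ∧ (t = a - 1 ∨ v - B - 1 ≤ t) := by
  obtain ⟨t, t1, t2, t3, t4⟩ := exists_last (p := fun z => r v z) (b := a - 1)
    (a := min (a - 1) (v - B - 1)) (min_le_left _ _) (h.far' (by
      have := min_le_right (a - 1) (v - B - 1)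
      omega))
  refine ⟨t, by omega, t3, fun m m1 m2 => t4 m m1 (by omega), ?_⟩
  rcases le_or_gt (a - 1) (v - B - 1) with hl | hl
  · rw [min_eq_left hl] at t1
    left; omega
  · rw [min_eq_right hl.le] at t1
    right; omega

/-- The first sight in `[a, v)`. -/
theorem TZ.last' (h : TZ k B r) {v a : ℤ} (hva : a < v) :
    ∃ s, a ≤ s ∧ s < v ∧ r v s ∧ ∀ m, a ≤ m → m < s → ¬ r v m := by
  obtain ⟨s, s1, s2, s3, s4⟩ := exists_first (p := fun z => r v z) (b := v - 1) (a := a)
    (by omega) (h.pred v)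
  exact ⟨s, s1, by omega, s3, s4⟩


private theorem wb_mm (r : ℤ → ℤ → Prop) : VisMap.mirror (VisMap.mirror r) = r := by
  funext a b
  show r (- -a) (- -b) = r a b
  rw [neg_neg, neg_neg]

private theorem wb_laps (v : ℤ) : laps k B (VisMap.mirror r) v = laps k B r (-v) := by
  unfold laps lb
  rw [wb_mm, neg_neg]
  exact Nat.add_comm _ _

/-- The mirror image of a weak `T'`-structure. -/
theorem TZ.mirror (h : TZ k B r) : TZ k B (VisMap.mirror r) where
  hk := h.hk
  hB := h.hB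
  symm a b hab := h.symm _ _ hab
  irrefl a := h.irrefl _
  succ a := by
    show r (-a) (-(a + 1))
    have e1 : -(a + 1) = -a - 1 := by ring
    rw [e1]
    exact h.pred _
  far a b hab := h.far' (by omega)
  cn i s t h1 h2 hs ht hm := h.cn' (-i) (-s) (-t) (by omega) (by omega) hs ht
    fun m m1 m2 m3 => hm (-m) (by omega) (by omega) (by
      show r (-i) (- -m)
      rw [neg_neg]
      exact m3)
  cn' i s t h1 h2 hs ht hm := h.cn (-i) (-s) (-t) (by omega) (by omega) hs ht
    fun m m1 m2 m3 => hm (-m) (by omega) (by omega) (by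
      show r (-i) (- -m)
      rw [neg_neg]
      exact m3)
  X a b c d h1 h2 h3 hac hbd := h.symm _ _ (h.X (-d) (-c) (-b) (-a) (by omega) (by omega) (by omega)
    (h.symm _ _ hbd) (h.symm _ _ hac))
  laps_class' v v' hv := by
    rw [wb_laps, wb_laps]
    refine h.laps_class' _ _ ?_
    have e1 : -v' - -v = -(v' - v) := by ring
    rw [e1]
    exact (dvd_neg).2 hv
  tr v v' z hv h1 h2 h3 := by
    obtain ⟨z', a1, a2, a3⟩ := h.tr' (-v) (-v') (-z) (by
      have e1 : -v' - -v = -(v' - v) := by ring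
      rw [e1]
      exact (dvd_neg).2 hv) (by omega) (by omega) h3
    refine ⟨-z', by omega, ?_, ?_⟩
    · show r (-v') (- -z')
      rw [neg_neg]; exact a2
    · rw [neg_neg, neg_neg, neg_neg] at a3
      linarith
  tr' v v' z hv h1 h2 h3 := by
    obtain ⟨z', a1, a2, a3⟩ := h.tr (-v) (-v') (-z) (by
      have e1 : -v' - -v = -(v' - v) := by ring
      rw [e1]
      exact (dvd_neg).2 hv) (by omega) (by omega) h3
    refine ⟨-z', by omega, ?_, ?_⟩
    · show r (-v') (- -z')
      rw [neg_neg]; exact a2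
    · rw [wb_mm, neg_neg]
      linarith

theorem TZ.lf_eq (h : TZ k B r) {v M : ℤ} (hM : v + B ≤ M) :
    lf k B r v = lcT k (Tf r v) v M := by
  have hB := h.hB
  rw [lf_eq_lcT, lcT_split (a := v) (b := v + B) (c := M) (by omega) hM,
    lcT_eq_zero (a := v + B) (b := M) (fun y y1 y2 y3 => y3.1 ⟨by omega, h.far _ _ (by omega)⟩),
    add_zero]

/-- A lap lies in a gap with laps. -/
theorem TZ.gap_of_lap (h : TZ k B r) {v z : ℤ} (hz : LapP k (Tf r v) z) :
    ∃ a b, Tp.Gp r v a b ∧ a < z ∧ z < b ∧ a + k ≤ z := by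
  obtain ⟨h1, s, s1, ⟨s2, s3⟩, s4, s5⟩ := hz
  have hvz : v < z := by omega
  have hnz : ¬ r v z := fun h2 => h1 ⟨hvz, h2⟩
  obtain ⟨b, b1, b2, b3, -⟩ := h.next (v := v) (a := z) hvz.le
  refine ⟨s, b, ⟨s2, by omega, s3, b2, fun m m1 m2 => ?_⟩, s1, b1, ?_⟩
  · rcases lt_trichotomy m z with hm | hm | hm
    · exact fun h2 => s4 m m1 hm ⟨by omega, h2⟩
    · rw [hm]; exact hnz
    · exact b3 m hm m2
  · have := Int.le_of_dvd (by omega) s5
    omega

end Tw

end VisMap
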