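import Pool.Agent.Lib.MP_9f3af0_lcC.WDescent

/-!
# MP_9f3af0_lc: the local chain frame (helper65; Lean by helper31)

`CF k B r lam u s t`: `u` and `s` have the least number of laps, `lf u = lf s = lam`, `(s, t)` is a gap
of `u`, which is at most `k` before `s`, and `k * lam + 1 < t - s ≤ k * lam + k`.  Nothing is assumed
on the other gaps.  `false_of_S` reduces the theorem to the four local statements (S1), ..., (S4) on
the first gap `(x, y)` of `s` with a lap.
-/

namespace VisMap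

namespace Tw

open Tp

/-- The local chain frame. -/
structure CF (k B : ℤ) (r : ℤ → ℤ → Prop) (lam : ℕ) (u s t : ℤ) : Prop where
  g : Tp.Gp r u s t
  us : s - k ≤ u
  lo : k * lam + 1 < t - s
  hi : t - s ≤ k * lam + k
  l1 : 1 ≤ lam
  mu : Mn k B r u
  ms : Mn k B r s
  lfu : lf k B r u = lam
  lfs : lf k B r s = lam

/-- `(x, y)` is the first gap of row `s` with a lap. -/
structure FG (k : ℤ) (r : ℤ → ℤ → Prop) (s x y : ℤ) : Prop where
  g : Tp.Gp r s x y
  lt : x + k < y
  z : lcT k (Tf r s) s x = 0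

variable {k B : ℤ} {r : ℤ → ℤ → Prop} {lam : ℕ} {u v s t x y : ℤ}

/-- From the frame of the longest gap. -/
theorem MF.exists_CF (h : TZ k B r) (hst : k < t - s) (M : MF k B r v s t) :
    ∃ lam u, CF k B r lam u s t := by
  obtain ⟨lam, u, W⟩ := M.exists_WF h hst
  have h1 := M.rho h hst
  have h2 := (M.eqs h).1
  rw [W.lfs] at h2
  have h3 := Int.emod_add_mul_ediv (t - 1 - s) k
  rw [← h2] at h3
  exact ⟨lam, u, ⟨W.g, W.us, by omega, W.le, W.l1, W.mu, W.ms, W.lfu, W.lfs⟩⟩

/-- The first gap of `s` with a lap. -/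
theorem CF.exists_FG (h : TZ k B r) (W : CF k B r lam u s t) : ∃ x y, FG k r s x y := by
  classical
  have hk := h.hk
  have hpos : ∃ z, s < z ∧ LapP k (Tf r s) z := by
    by_contra hc
    have h1 : lf k B r s = 0 := by
      rw [h.lf_eq (v := s) (M := s + B) le_rfl]
      exact lcT_eq_zero fun z z1 z2 z3 => hc ⟨z, z1, z3⟩
    have := W.lfs
    have := W.l1
    omega
  obtain ⟨z, ⟨z1, z2⟩, hmin⟩ := Int.exists_least_of_bdd
    (P := fun z => s < z ∧ LapP k (Tf r s) z) ⟨s, fun z hz => hz.1.le⟩ hpos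
  obtain ⟨a, b, g, a1, a2, a3⟩ := h.gap_of_lap z2
  refine ⟨a, b, g, by omega, lcT_eq_zero fun w w1 w2 w3 => ?_⟩
  have := hmin w ⟨w1, w3⟩
  omega

/-- One step of the descent. -/
theorem CF.step (h : TZ k B r) (W : CF k B r lam u s t) (G : FG k r s x y)
    (S1 : ∀ z, t < z → ¬ LapP k (Tf r s) z) (S2 : ∀ z, y < z → ¬ LapP k (Tf r s) z)
    (S3 : laps k B r x ≤ laps k B r s)
    (S4 : Mn k B r x → lf k B r x = lam ∧ (k * lam < y - x → k * lam + 1 < y - x)) :
    CF k B r lam s x y ∧ y - x < t - s := by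
  have hk := h.hk
  obtain ⟨g1, g2, g3, g4, g5⟩ := G.g
  have hl := G.lt
  have hst := h.gapA_st W.g
  have hst' : s < t := W.g.2.1
  have hlap : LapP k (Tf r s) (x + k) :=
    ⟨fun h1 => g5 (x + k) (by omega) hl h1.2, x, by omega, ⟨g1, g3⟩,
      fun m m1 m2 m3 => g5 m m1 (by omega) m3.2, ⟨1, by ring⟩⟩
  have hxt : x + k ≤ t := by
    by_contra hc
    exact S1 (x + k) (by omega) hlap
  have hyt : y ≤ t := by
    by_contra hc
    exact g5 t (by omega) (by omega) hst
  have hs1 : lf k B r s = lcT k (Tf r s) x y := by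
    rw [h.lf_eq (v := s) (M := max (s + B) y) (le_max_left _ _),
      lcT_split (a := s) (b := y) (c := max (s + B) y) (by omega) (le_max_right _ _),
      lcT_eq_zero (a := y) (fun z z1 _ => S2 z z1), add_zero,
      lcT_split (a := s) (b := x) (c := y) g1.le g2.le, G.z, zero_add]
  have hs2 := lcT_lt hk (T := Tf r s) (a := x) (b := y) g2 ⟨g1, g3⟩ ⟨by omega, g4⟩
  rw [← hs1, W.lfs] at hs2
  have hmx : Mn k B r x := fun z => S3.trans (W.ms z)
  obtain ⟨e1, e2⟩ := S4 hmx
  have hlo := e2 (by omega)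
  have hhi := W.hi
  exact ⟨⟨G.g, by omega, hlo, by omega, W.l1, W.ms, hmx, W.lfs, e1⟩, by omega⟩

/-- The four local statements finish. -/
theorem false_of_S
    (S1 : ∀ (k B : ℤ) (r : ℤ → ℤ → Prop) (lam : ℕ) (u s t : ℤ), TZ k B r → 2 ≤ k → NoWide k r →
      CF k B r lam u s t → ∀ z, t < z → ¬ LapP k (Tf r s) z)
    (S2 : ∀ (k B : ℤ) (r : ℤ → ℤ → Prop) (lam : ℕ) (u s t x y : ℤ), TZ k B r → 2 ≤ k →
      NoWide k r → CF k B r lam u s t → FG k r s x y → ∀ z, y < z → ¬ LapP k (Tf r s) z)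
    (S3 : ∀ (k B : ℤ) (r : ℤ → ℤ → Prop) (lam : ℕ) (u s t x y : ℤ), TZ k B r → 2 ≤ k →
      NoWide k r → CF k B r lam u s t → FG k r s x y → laps k B r x ≤ laps k B r s)
    (S4 : ∀ (k B : ℤ) (r : ℤ → ℤ → Prop) (lam : ℕ) (u s t x y : ℤ), TZ k B r → 2 ≤ k →
      NoWide k r → CF k B r lam u s t → FG k r s x y → Mn k B r x →
      lf k B r x = lam ∧ (k * lam < y - x → k * lam + 1 < y - x))
    (h : TZ k B r) (hk : 2 ≤ k) (hc : NoWide k r) : False := by
  refine false_of_MF (fun k B r v s t h hk hc hst M => ?_) h hk hc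
  obtain ⟨lam, u, W⟩ := M.exists_CF h hst
  have key : ∀ N : ℕ, ∀ u s t, CF k B r lam u s t → t - s ≤ N → False := by
    intro N
    induction N with
    | zero =>
      intro u s t W hN
      have := W.g.2.1
      push_cast at hN
      omega
    | succ N ih =>
      intro u s t W hN
      obtain ⟨x, y, G⟩ := W.exists_FG h
      obtain ⟨W', hlt⟩ := W.step h G (S1 k B r lam u s t h hk hc W)
        (S2 k B r lam u s t x y h hk hc W G) (S3 k B r lam u s t x y h hk hc W G)
        (S4 k B r lam u s t x y h hk hc W G)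
      exact ih s x y W' (by push_cast at hN; omega)
  exact key (t - s).toNat u s t W (by have := W.g.2.1; omega)

end Tw

end VisMap
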