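import Pool.Agent.Lib.MP_9f3af0_lcC.WE

/-!
# MP_9f3af0_lc: walls in `T'`-structures without class-wide chords (helper37)

In a `T'`-structure without chords `(u, u + d)`, `2 ≤ d ≤ k`, at all vertices `u` of one class, every
class contains a vertex whose first forward gap has a lap and a vertex whose first backward gap has a
lap.
-/

namespace VisMap

namespace Tw

open Tp

variable {k B : ℤ} {r : ℤ → ℤ → Prop}

theorem noWide_mirror (hs : ∀ a b, r a b → r b a) (hc : NoWide k r) :
    NoWide k (VisMap.mirror r) := by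
  intro c d d1 d2 hv
  refine hc (-c - d) d d1 d2 fun u hu => ?_
  have h1 : r (- (-u - d)) (-(-u - d + d)) := hv (-u - d) (by
    have e : -u - d - c = -(u - (-c - d)) := by ring
    rw [e]; exact (dvd_neg).2 hu)
  have e1 : -(-u - d) = u + d := by ring
  have e2 : -(-u - d + d) = u := by ring
  rw [e1, e2] at h1
  exact hs _ _ h1

/-- The second sight of a vertex. -/
theorem TZ.second (h : TZ k B r) (v : ℤ) :
    ∃ d, 1 < d ∧ r v (v + d) ∧ ∀ m, 1 < m → m < d → ¬ r v (v + m) := by
  have hB := h.hB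
  obtain ⟨d, ⟨d1, d2⟩, d3⟩ := Int.exists_least_of_bdd (P := fun d => 1 < d ∧ r v (v + d))
    ⟨1, fun z hz => hz.1.le⟩ ⟨B + 2, by omega, h.far _ _ (by omega)⟩
  exact ⟨d, d1, d2, fun z z1 z2 z3 => by have := d3 z ⟨z1, z3⟩; omega⟩

/-- The second sights of mates are congruent. -/
theorem TZ.second_dvd (h : TZ k B r) {v v' d d' : ℤ} (hv : k ∣ v' - v) (hd : 1 < d)
    (hr : r v (v + d)) (hh : ∀ m, 1 < m → m < d → ¬ r v (v + m)) (hd' : 1 < d')
    (hr' : r v' (v' + d')) (hh' : ∀ m, 1 < m → m < d' → ¬ r v' (v' + m)) : k ∣ d' - d := by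
  have key : ∀ {v v' d d' : ℤ}, k ∣ v' - v → 1 < d → r v (v + d) → 1 < d' →
      (∀ m, 1 < m → m < d' → ¬ r v' (v' + m)) → r v' (v' + d') → d ≤ B + 1 →
      d' - k * (lcT k (Tf r v') v' (v' + d') : ℤ) ≤ d - k * (lcT k (Tf r v) v (v + d) : ℤ) := by
    intro v v' d d' hv hd hr hd' hh' hr' hdB
    obtain ⟨z', z1, z2, z3⟩ := h.tr v v' (v + d) hv (by omega) (by omega) hr
    have h1 := h.nat_lt (v := v) (y := v + 1) (z := v + d) (by omega) (by omega) (h.succ v) hr
    have h2 : lcT k (Tf r v) v (v + 1) = 0 := by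
      refine lcT_eq_zero fun y y1 y2 y3 => y3.1 ⟨y1, ?_⟩
      have : y = v + 1 := by omega
      rw [this]; exact h.succ v
    have h2' : lcT k (Tf r v') v' (v' + 1) = 0 := by
      refine lcT_eq_zero fun y y1 y2 y3 => y3.1 ⟨y1, ?_⟩
      have : y = v' + 1 := by omega
      rw [this]; exact h.succ v'
    rw [h2] at h1
    push_cast at h1
    have h3 : v' + d' ≤ z' := by
      rcases lt_trichotomy z' (v' + 1) with h4 | h4 | h4
      · omega
      · rw [h4, h2'] at z3
        push_cast at z3
        omega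
      · by_contra hc
        refine hh' (z' - v') (by omega) (by omega) ?_
        have e : v' + (z' - v') = z' := by ring
        rw [e]; exact z2
    rcases eq_or_lt_of_le h3 with he | hl
    · rw [← he] at z3
      omega
    · have h4 := h.nat_lt (v := v') (y := v' + d') (z := z') (by omega) hl hr' z2
      omega
  rcases le_or_gt (B + 2) d with hB | hB
  · have h1 : d = 2 := by
      rcases (show d = 2 ∨ 2 < d by omega) with h2 | h2
      · exact h2
      · exact absurd (h.far v (v + (d - 1)) (by omega)) (hh (d - 1) (by omega) (by omega))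
    have h2 : d' = 2 := by
      rcases (show d' = 2 ∨ 2 < d' by omega) with h2 | h2
      · exact h2
      · exact absurd (h.far v' (v' + 2) (by omega)) (hh' 2 (by omega) (by omega))
    rw [h1, h2]
    simp
  rcases le_or_gt (B + 2) d' with hB' | hB'
  · have h1 : d' = 2 := by
      rcases (show d' = 2 ∨ 2 < d' by omega) with h2 | h2
      · exact h2
      · exact absurd (h.far v' (v' + (d' - 1)) (by omega)) (hh' (d' - 1) (by omega) (by omega))
    have h2 : d = 2 := by
      rcases (show d = 2 ∨ 2 < d by omega) with h2 | h2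
      · exact h2
      · exact absurd (h.far v (v + 2) (by omega)) (hh 2 (by omega) (by omega))
    rw [h1, h2]
    simp
  have hv' : k ∣ v - v' := by
    have e : v - v' = -(v' - v) := by ring
    rw [e]; exact (dvd_neg).2 hv
  have k1 := key hv hd hr hd' hh' hr' (by omega)
  have k2 := key hv' hd' hr' hd hh hr (by omega)
  refine ⟨(lcT k (Tf r v') v' (v' + d') : ℤ) - lcT k (Tf r v) v (v + d), ?_⟩
  linarith

/-- Without class-wide chords every class contains a vertex whose first forward gap has a lap. -/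
theorem TZ.wall (h : TZ k B r) (hk : 2 ≤ k) (hc : NoWide k r) (c : ℤ) :
    ∃ v, k ∣ v - c ∧ ∀ m, v + 1 < m → m ≤ v + k + 1 → ¬ r v m := by
  by_contra hcon
  have hex : ∀ v, k ∣ v - c → ∃ d, 1 < d ∧ d ≤ k + 1 ∧ r v (v + d) ∧
      ∀ m, 1 < m → m < d → ¬ r v (v + m) := by
    intro v hv
    obtain ⟨d, d1, d2, d3⟩ := h.second v
    refine ⟨d, d1, ?_, d2, d3⟩
    by_contra hlt
    refine hcon ⟨v, hv, fun m m1 m2 m3 => d3 (m - v) (by omega) (by omega) ?_⟩
    rw [add_sub_cancel]; exact m3
  obtain ⟨d, d1, d2, d3, d4⟩ := hex c (by simp)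
  have hall : ∀ u, k ∣ u - c → r u (u + d) ∧ ∀ m, 1 < m → m < d → ¬ r u (u + m) := by
    intro u hu
    obtain ⟨d', e1, e2, e3, e4⟩ := hex u hu
    have := h.second_dvd hu d1 d3 d4 e1 e3 e4
    have h0 : d' - d = 0 := Int.eq_zero_of_abs_lt_dvd this (by
      rw [abs_lt]; constructor <;> omega)
    have e : d = d' := by omega
    rw [e]; exact ⟨e3, e4⟩
  rcases eq_or_lt_of_le d2 with hd | hd
  · refine hc (c + 1) k hk le_rfl fun u hu => ?_
    obtain ⟨h5, h6⟩ := hall (u - 1) (by
      have e : u - 1 - c = u - (c + 1) := by ring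
      rw [e]; exact hu)
    have h7 := h.succ (u - 1)
    rw [sub_add_cancel] at h7
    rw [hd] at h5
    have e : u - 1 + (k + 1) = u + k := by ring
    rw [e] at h5
    exact h.cn (u - 1) u (u + k) (by omega) (by omega) h7 h5 fun m m1 m2 m3 =>
      h6 (m - (u - 1)) (by omega) (by omega) (by
        have e : u - 1 + (m - (u - 1)) = m := by ring
        rw [e]; exact m3)
  · exact hc c d (by omega) (by omega) fun u hu => (hall u hu).1

/-- The mirror image of `TZ.wall`. -/
theorem TZ.wall' (h : TZ k B r) (hk : 2 ≤ k) (hc : NoWide k r) (c : ℤ) :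
    ∃ v, k ∣ v - c ∧ ∀ m, v - k - 1 ≤ m → m < v - 1 → ¬ r v m := by
  obtain ⟨v, hv, hv2⟩ := h.mirror.wall hk (noWide_mirror h.symm hc) (-c)
  refine ⟨-v, by
    have e : -v - c = -(v - -c) := by ring
    rw [e]; exact (dvd_neg).2 hv, fun m m1 m2 m3 => hv2 (-m) (by omega) (by omega) ?_⟩
  show r (-v) (- -m)
  rwa [neg_neg]

end Tw

end VisMap
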