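import Pool.Agent.Lib.MP_9f3af0_lcC.WL
import Pool.Agent.Lib.MP_9f3af0_lcC.WWalls

/-!
# MP_9f3af0_lc: the closure theorem (helper83; Lean by helper70)

`M` is the set of the vertices with the minimal number `c` of laps.  `Cl k B r c l`: every gap of
length `> l` (`l ≥ k`) of a vertex of `M` has its near corner in `M`.  Then all laps of the near corner
of such a gap lie in the gap (`TZ.f5`), and a vertex of `M` has no lap gap whose near corner is at a
distance of at least `l` (`TZ.nb`).  So there is a lap gap of a vertex of `M` with near corner outside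
`M` (`TZ.exists_term`).
-/

namespace VisMap

namespace Tw

open Tp

/-- The rows of `(T, s)` hide the columns of `(s, t)`. -/
def Rc (r : ℤ → ℤ → Prop) (T s t : ℤ) : Prop :=
  ∀ x y, T < x → x < s → s < y → y < t → ¬ r x y

/-- The near corners of the forward gaps of length `> l` of the vertices with `c` laps have `c` laps. -/
def NT (k B : ℤ) (r : ℤ → ℤ → Prop) (c : ℕ) (l : ℤ) : Prop :=
  ∀ u x y, laps k B r u = c → Tp.Gp r u x y → l < y - x → laps k B r x = c

/-- The closure condition. -/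
structure Cl (k B : ℤ) (r : ℤ → ℤ → Prop) (c : ℕ) (l : ℤ) : Prop where
  kl : k ≤ l
  min : ∀ w, c ≤ laps k B r w
  ex : ∃ v, laps k B r v = c
  nf : NT k B r c l
  nb : NT k B (VisMap.mirror r) c l

/-- The frame `S`. -/
structure SF (k B : ℤ) (r : ℤ → ℤ → Prop) (c : ℕ) (l T s t : ℤ) : Prop where
  hs : laps k B r s = c
  hT : T + k < s
  ht : s + l < t
  rc : Rc r T s t
  sT : r s T
  st : r s t
  seeT : ∃ w, s < w ∧ w < t ∧ r T w
  seet : ∃ w, T < w ∧ w < s ∧ r w t

/-- No vertex of `M` inside the long side is seen by the centre. -/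
def ClosC (k B : ℤ) (c : ℕ) (l L : ℤ) : Prop :=
  ∀ r, TZ k B r → Cl k B r c l → ∀ T s t, SF k B r c l T s t → L < t - s →
    ∀ x, s < x → x < t → laps k B r x = c → ¬ r s x

variable {k B : ℤ} {r : ℤ → ℤ → Prop} {c : ℕ} {l L : ℤ}

theorem Rc.mir (h : TZ k B r) {T s t : ℤ} (hc : Rc r T s t) :
    Rc (VisMap.mirror r) (-t) (-s) (-T) := by
  intro x y h1 h2 h3 h4 h5
  exact hc (-y) (-x) (by omega) (by omega) (by omega) (by omega) (h.symm _ _ h5)

private theorem mirror_mirror_c (r : ℤ → ℤ → Prop) : VisMap.mirror (VisMap.mirror r) = r := by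
  funext a b
  show r (- -a) (- -b) = r a b
  rw [neg_neg, neg_neg]

theorem Cl.mir (h : Cl k B r c l) : Cl k B (VisMap.mirror r) c l where
  kl := h.kl
  min w := by
    have := h.min (-w)
    rw [← laps_mirror', neg_neg] at this
    exact this
  ex := by
    obtain ⟨v, hv⟩ := h.ex
    exact ⟨-v, by rw [laps_mirror', hv]⟩
  nf := h.nb
  nb := by
    rw [mirror_mirror_c]
    exact h.nf

/-- A vertex of `M` in every block of `k` vertices. -/
theorem Cl.block (h : TZ k B r) (C : Cl k B r c l) (a : ℤ) :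
    ∃ y, a < y ∧ y ≤ a + k ∧ laps k B r y = c := by
  obtain ⟨v, hv⟩ := C.ex
  obtain ⟨y, y1, y2, y3⟩ := meets_cls h.hk v a
  exact ⟨y, y1, y2, by rw [h.laps_class y3, hv]⟩

/-- The gap of a row `x ∈ (T, s)` over `(s, t)`. -/
theorem Rc.gap (h : TZ k B r) {T s t x : ℤ} (hc : Rc r T s t) (hst : s < t) (h1 : T < x)
    (h2 : x < s) : ∃ x1 x2, x1 ≤ s ∧ t ≤ x2 ∧ Tp.Gp r x x1 x2 := by
  obtain ⟨x1, a1, a2, a3, a4⟩ := h.last (v := x) (a := s) h2
  obtain ⟨x2, b1, b2, b3, -⟩ := h.next (v := x) (a := t - 1) (by omega)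
  refine ⟨x1, x2, a2, by omega, a1, by omega, a3, b2, fun m m1 m2 => ?_⟩
  rcases lt_or_ge s m with h3 | h3
  · rcases lt_or_ge (t - 1) m with h4 | h4
    · exact b3 m h4 m2
    · exact hc x m h1 h2 h3 (by omega)
  · exact a4 m m1 h3

/-- The corner of a hidden rectangle with a side `≥ l`. -/
theorem Cl.corner (h : TZ k B r) (C : Cl k B r c l) {T s t : ℤ} (hc : Rc r T s t)
    (hT : T + k < s) (ht : s + l < t) : laps k B r s = c := by
  have hk := h.hk
  have hkl := C.kl
  have main : ∀ j : ℕ, ∀ x, T < x → x ≤ s → s - x ≤ j → laps k B r x = c → laps k B r s = c := by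
    intro j
    induction j with
    | zero =>
      intro x x1 x2 x3 x4
      have e : x = s := by push_cast at x3; omega
      rw [← e]; exact x4
    | succ j ih =>
      intro x x1 x2 x3 x4
      rcases x2.lt_or_eq with h1 | h1
      · obtain ⟨p, q, p1, p2, p3⟩ := hc.gap h (by omega) x1 h1
        have hp := C.nf x p q x4 p3 (by omega)
        have := p3.1
        exact ih p (by omega) p1 (by push_cast at x3; omega) hp
      · rw [← h1]; exact x4
  obtain ⟨y, y1, y2, y3⟩ := C.block h (s - k - 1)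
  exact main (s - y).toNat y (by omega) (by omega) (by omega) y3

/-- The first column beyond `s` that is seen from the rows `(T, s)`. -/
theorem TZ.exists_t (h : TZ k B r) {T s : ℤ} (hTs : T + 1 < s) :
    ∃ t, s < t ∧ r s t ∧ (∃ w, T < w ∧ w < s ∧ r w t) ∧ Rc r T s t := by
  obtain ⟨t, t1, t2, ⟨w, w1, w2, w3⟩, t4⟩ := h.mirror.exists_T (x := -s) (y := -T) (by omega)
  have e : ∀ a b : ℤ, VisMap.mirror r a b ↔ r (-a) (-b) := fun a b => Iff.rfl
  refine ⟨-t, by omega, ?_, ⟨-w, by omega, by omega, ?_⟩, ?_⟩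
  · have := (e _ _).1 t2
    rw [neg_neg] at this
    exact this
  · exact h.symm _ _ ((e _ _).1 w3)
  · intro x y x1 x2 x3 x4 x5
    refine t4 (-y) (-x) (by omega) (by omega) (by omega) (by omega) ?_
    rw [e, neg_neg, neg_neg]
    exact h.symm _ _ x5

/-- The frame `S` at the corner of a hidden rectangle. -/
theorem Cl.mk' (h : TZ k B r) (C : Cl k B r c l) {a s b : ℤ} (hc : Rc r a s b)
    (ha : a + k < s) (hb : s + l < b) : ∃ T t, T ≤ a ∧ b ≤ t ∧ SF k B r c l T s t := by
  have hk := h.hk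
  have hkl := C.kl
  have hs := C.corner h hc ha hb
  obtain ⟨T, T1, T2, ⟨w, w1, w2, w3⟩, T4⟩ := h.exists_T (x := s) (y := b) (by omega)
  have hTa : T ≤ a := by
    by_contra hcon
    exact hc T w (by omega) T1 w1 w2 w3
  obtain ⟨t, t1, t2, ⟨z, z1, z2, z3⟩, t4⟩ := h.exists_t (T := T) (s := s) (by omega)
  have hbt : b ≤ t := by
    by_contra hcon
    exact T4 z t z1 z2 t1 (by omega) z3
  exact ⟨T, t, hTa, hbt, hs, by omega, by omega, t4, T2, t2, ⟨w, w1, by omega, w3⟩,
    ⟨z, z1, z2, z3⟩⟩

/-- `(b)`: a vertex of `M` has no lap gap whose near corner is far. -/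
theorem TZ.nb (hC : ClosC k B c l L) (h : TZ k B r) (C : Cl k B r c l) {p q q' : ℤ}
    (hp : laps k B r p = c) (hg : Tp.Gp r p q q') (hkq : q + k < q') (hl : l ≤ q - p)
    (hL : L ≤ q - p) : False := by
  obtain ⟨g1, g2, g3, g4, g5⟩ := hg
  have hrc : Rc (VisMap.mirror r) (-q') (-q) (-p + 1) := by
    intro x y x1 x2 x3 x4 x5
    exact h.hide (v := p) (x := -y) (p := q) (y := -x) (by omega) (by omega) (by omega) g3
      (g5 (-x) (by omega) (by omega)) (h.symm _ _ x5)
  obtain ⟨T, t, T1, t1, S⟩ := C.mir.mk' h.mirror hrc (by omega) (by omega)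
  refine hC _ h.mirror C.mir T (-q) t S (by omega) (-p) (by omega) (by omega) ?_ ?_
  · rw [laps_mirror', hp]
  · rw [mir_iff]
    exact h.symm _ _ g3

/-- `(b)`: no laps beyond a far sight. -/
theorem TZ.nolap_b (hC : ClosC k B c l L) (h : TZ k B r) (C : Cl k B r c l) {p q z : ℤ}
    (hp : laps k B r p = c) (hpq : p < q) (hr : r p q) (hl : l ≤ q - p) (hL : L ≤ q - p)
    (hz : q < z) : ¬ LapP k (Tf r p) z := by
  rintro ⟨h1, s, s1, ⟨s2, s3⟩, s4, s5⟩
  have hnz : ¬ r p z := fun h2 => h1 ⟨by omega, h2⟩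
  obtain ⟨b, b1, b2, b3, -⟩ := h.next (v := p) (a := z) (by omega)
  have hqs : q ≤ s := by
    by_contra hc
    exact s4 q (by omega) hz ⟨hpq, hr⟩
  have hkz := Int.le_of_dvd (by omega) s5
  refine h.nb hC C (p := p) (q := s) (q' := b) hp ⟨s2, by omega, s3, b2, fun m m1 m2 => ?_⟩
    (by omega) (by omega) (by omega)
  rcases lt_trichotomy m z with hm | hm | hm
  · exact fun h2 => s4 m m1 hm ⟨by omega, h2⟩
  · rw [hm]; exact hnz
  · exact b3 m hm m2

/-- `(a)`: no backward laps inside a hidden rectangle with a long side. -/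
theorem TZ.nolap_a (hC : ClosC k B c l L) (h : TZ k B r) (C : Cl k B r c l) {T p q z : ℤ}
    (hp : laps k B r p = c) (hpT : r p T) (hrc : Rc r T p q) (hl : l < q - p)
    (hL : L ≤ q - p) (hz : -p < z) (hzT : z ≤ -T) :
    ¬ LapP k (Tf (VisMap.mirror r) (-p)) z := by
  rintro ⟨h1, s, s1, ⟨s2, s3⟩, s4, s5⟩
  have hnz : ¬ VisMap.mirror r (-p) z := fun h2 => h1 ⟨hz, h2⟩
  have hkz := Int.le_of_dvd (by omega) s5
  -- the near corner is `-s`; the rows `[-z, -s)` are hidden from `p`
  have e' : ∀ m : ℤ, VisMap.mirror r (-p) m ↔ r p (-m) := fun m => by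
    show r (- -p) (-m) ↔ _
    rw [neg_neg]
  have hps : r p (-s) := (e' s).1 s3
  have hhid : ∀ m, -z ≤ m → m < -s → ¬ r p m := by
    intro m m1 m2 m3
    rcases (show -m ≤ z by omega).lt_or_eq with h3 | h3
    · exact s4 (-m) (by omega) h3 ⟨by omega, (e' (-m)).2 (by rw [neg_neg]; exact m3)⟩
    · refine hnz ((e' z).2 ?_)
      rw [← h3, neg_neg]
      exact m3
  have hTz : T < -z := by
    rcases (show T ≤ -z by omega).lt_or_eq with h3 | h3
    · exact h3
    · exact absurd hpT (hhid T (by omega) (by omega))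
  have hrc' : Rc r (-z - 1) (-s) q := by
    intro x y x1 x2 x3 x4
    have hx : ¬ r p x := hhid x (by omega) x2
    rcases lt_or_ge p y with h3 | h3
    · exact hrc x y (by omega) (by omega) h3 x4
    · have := h.hide' (v := x) (x := y) (p := -s) (y := p) x2 x3 h3 hps hx
      exact fun h4 => this (h.symm _ _ h4)
  have hk := h.hk
  have hkl := C.kl
  obtain ⟨T', t', T1, t1, S⟩ := C.mk' h hrc' (by omega) (by omega)
  exact hC _ h C T' (-s) t' S (by omega) p (by omega) (by omega) hp (h.symm _ _ hps)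

/-- `(F5*)`: all laps of the near corner of a long gap lie in the gap. -/
theorem TZ.f5 (hC : ClosC k B c l L) (h : TZ k B r) (C : Cl k B r c l) {z p q : ℤ}
    (hz : laps k B r z = c) (hg : Tp.Gp r z p q) (hl : l < q - p) (hL : L ≤ q - p) :
    laps k B r p = c ∧ (lf k B r p : ℤ) = (q - 1 - p) / k ∧ lf k B r p = lf k B r z ∧
      lb k B r p = lb k B r z := by
  have hk := h.hk
  have hkl := C.kl
  have hp := C.nf z p q hz hg hl
  have hge := h.lf_ge hg
  obtain ⟨g1, g2, g3, g4, g5⟩ := hg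
  obtain ⟨T, T1, T2, ⟨w, w1, w2, w3⟩, T4⟩ := h.exists_T (x := p) (y := q) (by omega)
  have hTz : T < z := by
    by_contra hc
    exact h.hide (v := z) (x := T) (p := p) (y := w) (by omega) T1 w1 g3 (g5 w w1 w2) w3
  have hlb : lb k B r p ≤ lb k B r z :=
    h.lb_le_of hTz g1 T2 (fun y y1 y2 =>
      h.symm _ _ (h.X y T z p y1 hTz g1 (h.symm _ _ y2) (h.symm _ _ T2)))
      (lcT_eq_zero fun y y1 y2 => h.nolap_a hC C hp T2 T4 hl hL y1 y2)
  have hpq := h.cn z p q g1 g2 g3 g4 g5
  have hlf : (lf k B r p : ℤ) ≤ (q - 1 - p) / k := by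
    rw [h.lf_eq (v := p) (M := max (p + B) q) (le_max_left _ _),
      lcT_split (a := p) (b := q) (c := max (p + B) q) g2.le (le_max_right _ _),
      lcT_eq_zero (a := q) (fun y y1 _ => h.nolap_b hC C hp g2 hpq hl.le hL y1), add_zero]
    exact h.lcT_le g2 hpq
  have e1 : laps k B r p = lf k B r p + lb k B r p := rfl
  have e2 : laps k B r z = lf k B r z + lb k B r z := rfl
  refine ⟨hp, by omega, by omega, by omega⟩

/-- The mirror image of `TZ.f5`. -/
theorem TZ.f5' (hC : ClosC k B c l L) (h : TZ k B r) (C : Cl k B r c l) {z p q : ℤ}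
    (hz : laps k B r z = c) (h1 : q < p) (h2 : p < z) (hp : r z p) (hq : r z q)
    (hm : ∀ m, q < m → m < p → ¬ r z m) (hl : l < p - q) (hL : L ≤ p - q) :
    laps k B r p = c ∧ (lb k B r p : ℤ) = (p - 1 - q) / k ∧ lb k B r p = lb k B r z ∧
      lf k B r p = lf k B r z := by
  have h3 := h.mirror.f5 hC C.mir (z := -z) (p := -p) (q := -q) (by rw [laps_mirror', hz])
    (gp_mirror h1 h2 hp hq hm) (by omega) (by omega)
  rw [laps_mirror', lf_mirror', lf_mirror', lb_mirror', lb_mirror'] at h3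
  have e : -q - 1 - -p = p - 1 - q := by ring
  rw [e] at h3
  exact h3

section

variable {T s t : ℤ}

/-- The `M`-rows above a frame whose long side is critical. -/
theorem SF.row (hC : ClosC k B c l L) (h : TZ k B r) (C : Cl k B r c l)
    (S : SF k B r c l T s t) (hL : L ≤ t - s) {u : ℤ} (h1 : T < u) (h2 : u < s)
    (hu : laps k B r u = c) : lf k B r u = lf k B r s ∧ lb k B r u = lb k B r s := by
  obtain ⟨j, hj⟩ : ∃ j : ℕ, s - u ≤ j := ⟨(s - u).toNat, by omega⟩
  have hk := h.hk
  have hkl := C.kl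
  have hst := S.ht
  induction j generalizing u with
  | zero => omega
  | succ j ih =>
    obtain ⟨x1, x2, a1, a2, a3⟩ := S.rc.gap h (by omega) h1 h2
    obtain ⟨b1, b2, b3, b4⟩ := h.f5 hC C hu a3 (by omega) (by omega)
    have a4 := a3.1
    rcases a1.lt_or_eq with h3 | h3
    · obtain ⟨d1, d2⟩ := ih (u := x1) (by omega) h3 b1 (by push_cast at hj; omega)
      omega
    · rw [h3] at b3 b4
      omega

/-- The forward laps of the centre. -/
theorem SF.lf_s (hC : ClosC k B c l L) (h : TZ k B r) (C : Cl k B r c l)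
    (S : SF k B r c l T s t) (hL : L ≤ t - s) : (lf k B r s : ℤ) = (t - 1 - s) / k ∧
      lf k B r s = lcT k (Tf r s) s t := by
  have hk := h.hk
  have hkl := C.kl
  have hst := S.ht
  have hTs := S.hT
  have e : lf k B r s = lcT k (Tf r s) s t := by
    rw [h.lf_eq (v := s) (M := max (s + B) t) (le_max_left _ _),
      lcT_split (a := s) (b := t) (c := max (s + B) t) (by omega) (le_max_right _ _),
      lcT_eq_zero (a := t) (fun y y1 _ => h.nolap_b hC C S.hs (by omega) S.st (by omega) hL y1),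
      add_zero]
  have h1 := h.lcT_le (k := k) (x := s) (y := t) (by omega) S.st
  rw [← e] at h1
  have hM : laps k B r (s - k) = c := by
    rw [h.laps_class (v := s) (v' := s - k) ⟨-1, by ring⟩]
    exact S.hs
  obtain ⟨x1, x2, a1, a2, a3⟩ := S.rc.gap h (x := s - k) (by omega) (by omega) (by omega)
  have h2 := h.lf_ge a3
  rw [(S.row hC h C hL (u := s - k) (by omega) (by omega) hM).1] at h2
  have h4 : (t - 1 - s) / k ≤ (x2 - 1 - x1) / k := Int.ediv_le_ediv hk (by omega)
  exact ⟨by omega, e⟩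

/-- The induction step. -/
theorem closC_step (hC : ClosC k B c l L) : ClosC k B c l (L - 1) := by
  intro r h C T s t S hLt x hsx hxt hx hr
  rcases (show L ≤ t - s by omega).lt_or_eq with hlt | hLe
  · exact hC r h C T s t S hlt x hsx hxt hx hr
  have hL : L ≤ t - s := hLe.le
  have hk := h.hk
  have hkl := C.kl
  have hst := S.ht
  have hTs := S.hT
  obtain ⟨hlf, hlft⟩ := S.lf_s hC h C hL
  set τ := (t - 1 - s) / k with hτ
  have hdm := Int.emod_add_mul_ediv (t - 1 - s) k
  have hm0 := Int.emod_nonneg (t - 1 - s) hk.ne'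
  have hmk := Int.emod_lt_of_pos (t - 1 - s) hk
  rw [← hτ] at hdm
  have hτ0 : 0 ≤ τ := by
    rw [hτ]
    exact Int.ediv_nonneg (by omega) hk.le
  -- the natural letter `j` of `x`
  have hx1 := h.lcT_le (k := k) (x := s) (y := x) hsx hr
  have hx2 : k * ((lcT k (Tf r s) s x : ℕ) : ℤ) ≤ x - 1 - s := by
    have := mul_le_mul_of_nonneg_left hx1 hk.le
    exact this.trans (Int.mul_ediv_self_le hk.ne')
  have hx3 := lcT_lt hk (T := Tf r s) (a := x) (b := t) hxt ⟨hsx, hr⟩ ⟨by omega, S.st⟩
  have hx4 := lcT_split (k := k) (T := Tf r s) (a := s) (b := x) (c := t) hsx.le hxt.le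
  generalize hA : lcT k (Tf r s) s x = A at hx1 hx2 hx4
  generalize hA' : lcT k (Tf r s) x t = A' at hx3 hx4
  obtain ⟨j, hj⟩ : ∃ j, j = x - s - k * A := ⟨_, rfl⟩
  have hkA : k * (A : ℤ) + k * (A' : ℤ) = k * τ := by
    have e : (A : ℤ) + A' = τ := by omega
    rw [← mul_add, e]
  have hj1 : 1 ≤ j := by omega
  have hj2 : j < t - s - k * τ := by omega
  have eo : k * (τ + 1) = k * τ + k := by ring
  -- the holes of the word of `s`
  have hM : laps k B r (s - k) = c := by
    rw [h.laps_class (v := s) (v' := s - k) ⟨-1, by ring⟩]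
    exact S.hs
  have hrowM := S.row hC h C hL (u := s - k) (by omega) (by omega) hM
  have hole : ∀ i, 0 < i → i < t - s - k * τ → ¬ r s (s + k * (τ + 1) + i) := by
    intro i i1 i2 i3
    have hkτ : 0 ≤ k * τ := mul_nonneg hk.le hτ0
    obtain ⟨z', z1, z2, z3⟩ := h.transport (v := s) (v' := s - k) (z := s + k * (τ + 1) + i)
      ⟨-1, by ring⟩ (by omega) (by
        have hnr := (h.near (S.rc (s - k) (t - 1) (by omega) (by omega) (by omega) (by omega))).1
        omega) i3
    have h1 := h.lcT_le_lf (v := s) (z := s + k * (τ + 1) + i) (by omega)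
    have h2 := lcT_split (k := k) (T := Tf r s) (a := s) (b := t) (c := s + k * (τ + 1) + i)
      (by omega) (by omega)
    have h3 := h.lcT_le_lf (v := s - k) (z := z') z1.le
    rw [hrowM.1] at h3
    have h4 : (lcT k (Tf r s) s (s + k * (τ + 1) + i) : ℤ) = τ := by omega
    rw [h4] at z3
    generalize hQ : lcT k (Tf r (s - k)) (s - k) z' = Q at z3 h3
    have h5 : k * (Q : ℤ) ≤ k * τ := mul_le_mul_of_nonneg_left (by omega) hk.le
    have h6 : 0 ≤ k * (Q : ℤ) := mul_nonneg hk.le (Int.natCast_nonneg _)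
    exact S.rc (s - k) z' (by omega) (by omega) (by omega) (by omega) z2
  obtain ⟨s0, s1, s2, s3, s4⟩ := exists_last (p := fun z => r s z) (a := t)
    (b := s + k * (τ + 1)) (by omega) S.st
  set w := s + k * (τ + 1) + j with hw
  have hs0 : ∀ z, s0 < z → z ≤ w → ¬ r s z := by
    intro z z1 z2
    rcases le_or_gt z (s + k * (τ + 1)) with h1 | h1
    · exact s4 z z1 h1
    · have h2 := hole (z - (s + k * (τ + 1))) (by omega) (by omega)
      have e : s + k * (τ + 1) + (z - (s + k * (τ + 1))) = z := by ring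
      rw [e] at h2
      exact h2
  have hMw : laps k B r w = c := by
    rw [← hx]
    refine h.laps_class (v := x) (v' := w) ⟨τ + 1 - A, ?_⟩
    rw [hw, hj]
    ring
  -- the gap of a vertex of `(s0, w]` over `s`
  have gp : ∀ z, s0 < z → z ≤ w → ∃ p q, s0 ≤ p ∧ p < z ∧ q < s ∧ r z p ∧ r z q ∧
      ∀ m, q < m → m < p → ¬ r z m := by
    intro z z1 z2
    have hz := hs0 z z1 z2
    obtain ⟨p, p1, p2, p3, p4⟩ := h.last' (v := z) (a := s) (by omega)
    obtain ⟨q, q1, q2, q3, -⟩ := h.next' (v := z) (a := s) (by omega)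
    have hps : s0 ≤ p := by
      by_contra hc
      exact h.hide (v := s) (x := p) (p := s0) (y := z) p1 (by omega) z1 s3 hz
        (h.symm _ _ p3)
    refine ⟨p, q, hps, p2, q1, p3, q2, fun m m1 m2 => ?_⟩
    rcases lt_or_ge m s with h3 | h3
    · exact q3 m m1 h3
    · exact p4 m h3 m2
  have chain : ∀ J : ℕ, ∀ z, s0 ≤ z → z ≤ w → z - s0 ≤ J → laps k B r z = c →
      laps k B r s0 = c ∧ lb k B r s0 = lb k B r z := by
    intro J
    induction J with
    | zero =>
      intro z z1 z2 z3 z4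
      have e : z = s0 := by push_cast at z3; omega
      rw [← e]
      exact ⟨z4, rfl⟩
    | succ J ih =>
      intro z z1 z2 z3 z4
      rcases z1.lt_or_eq with h1 | h1
      · obtain ⟨p, q, p1, p2, p3, p4, p5, p6⟩ := gp z h1 z2
        obtain ⟨b1, b2, b3, b4⟩ := h.f5' hC C z4 (by omega) p2 p4 p5 p6 (by omega) (by omega)
        obtain ⟨c1, c2⟩ := ih p p1 (by omega) (by push_cast at z3; omega) b1
        exact ⟨c1, by omega⟩
      · rw [← h1] at z4 ⊢
        exact ⟨z4, rfl⟩
  obtain ⟨hMs0, hlbs0⟩ := chain (w - s0).toNat w (by omega) le_rfl (by omega) hMw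
  -- `s0` has at most `τ` backward laps
  have hlb0 : (lb k B r s0 : ℤ) ≤ τ := by
    have hss : VisMap.mirror r (-s0) (-s) := (mir_iff s0 s).2 (h.symm _ _ s3)
    have e1 : lb k B r s0 = lcT k (Tf (VisMap.mirror r) (-s0)) (-s0) (-s) := by
      rw [h.lb_eq (v := s0) (M := max (-s0 + B) (-s)) (le_max_left _ _),
        lcT_split (a := -s0) (b := -s) (c := max (-s0 + B) (-s)) (by omega) (le_max_right _ _),
        lcT_eq_zero (a := -s) (fun y y1 _ => h.mirror.nolap_b hC C.mir
          (by rw [laps_mirror', hMs0]) (by omega) hss (by omega) (by omega) y1), add_zero]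
    have h2 := h.mirror.lcT_le (k := k) (x := -s0) (y := -s) (by omega) hss
    rw [← e1] at h2
    have h3 : (-s - 1 - -s0) / k < τ + 1 := by
      rw [Int.ediv_lt_iff_lt_mul hk, mul_comm]
      omega
    omega
  obtain ⟨p, q, p1, p2, p3, p4, p5, p6⟩ := gp w (by omega) le_rfl
  obtain ⟨b1, b2, b3, b4⟩ := h.f5' hC C hMw (by omega) p2 p4 p5 p6 (by omega) (by omega)
  rcases le_or_gt (s + k * (τ + 1)) p with hpo | hpo
  · have h1 : τ + 1 ≤ (p - 1 - q) / k := by
      rw [Int.le_ediv_iff_mul_le hk, mul_comm]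
      omega
    omega
  · -- transport from `p` to `s - (o - p)`
    set g := s + k * (τ + 1) - p with hg
    obtain ⟨z', z1, z2, z3⟩ := h.transport (v := p) (v' := s - g) (z := w)
      ⟨-(τ + 1), by rw [hg]; ring⟩ p2 (by
        have hnr := (h.near (S.rc (s - k) (t - 1) (by omega) (by omega) (by omega) (by omega))).1
        omega) (h.symm _ _ p4)
    have hl0 := h.lcT_le (k := k) (x := p) (y := w) p2 (h.symm _ _ p4)
    have hl1 : (w - 1 - p) / k = 0 := Int.ediv_eq_zero_of_lt (by omega) (by omega)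
    have hl2 : (lcT k (Tf r p) p w : ℤ) = 0 := by omega
    rw [hl2, mul_zero, sub_zero] at z3
    have hMg : laps k B r (s - g) = c := by
      rw [← b1]
      exact h.laps_class (v := p) (v' := s - g) ⟨-(τ + 1), by rw [hg]; ring⟩
    have hrg := S.row hC h C hL (u := s - g) (by omega) (by omega) hMg
    have h3 := h.lcT_le_lf (v := s - g) (z := z') z1.le
    rw [hrg.1] at h3
    generalize hQ : lcT k (Tf r (s - g)) (s - g) z' = Q at z3 h3
    have h5 : k * (Q : ℤ) ≤ k * τ := mul_le_mul_of_nonneg_left (by omega) hk.le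
    have h6 : 0 ≤ k * (Q : ℤ) := mul_nonneg hk.le (Int.natCast_nonneg _)
    exact S.rc (s - g) z' (by omega) (by omega) (by omega) (by omega) z2

/-- The frame is too long to exist. -/
theorem closC_top : ClosC k B c l B := by
  intro r h C T s t S hLt x hsx hxt hx hr
  have hk := h.hk
  have hkl := C.kl
  have hst := S.ht
  have hTs := S.hT
  exact S.rc (s - 1) (t - 1) (by omega) (by omega) (by omega) (by omega) (h.far _ _ (by omega))

/-- **The closure theorem**: `(c)` holds for all frames. -/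
theorem closC (L : ℤ) : ClosC k B c l L := by
  have main : ∀ j : ℕ, ClosC k B c l (B - j) := by
    intro j
    induction j with
    | zero =>
      have e : B - ((0 : ℕ) : ℤ) = B := by simp
      rw [e]
      exact closC_top
    | succ j ih =>
      have e : B - ((j + 1 : ℕ) : ℤ) = B - j - 1 := by push_cast; ring
      rw [e]
      exact closC_step ih
  intro r h C T s t S hLt
  exact main (B - L).toNat r h C T s t S (by omega)

end

/-- `(b)` without the length condition. -/
theorem Cl.nofar (h : TZ k B r) (C : Cl k B r c l) {p q q' : ℤ} (hp : laps k B r p = c)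
    (hg : Tp.Gp r p q q') (hkq : q + k < q') : q - p < l := by
  by_contra hcon
  exact h.nb (closC l) C hp hg hkq (by omega) (by omega)

/-- The centre of a frame does not see the vertices of `M` inside the long side. -/
theorem SF.noM (h : TZ k B r) (C : Cl k B r c l) {T s t : ℤ} (S : SF k B r c l T s t) {x : ℤ}
    (h1 : s < x) (h2 : x < t) (hx : laps k B r x = c) : ¬ r s x :=
  closC (c := c) (l := l) (t - s - 1) r h C T s t S (by omega) x h1 h2 hx

/-- `(F5*)`. -/
theorem Cl.f5 (h : TZ k B r) (C : Cl k B r c l) {z p q : ℤ}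
    (hz : laps k B r z = c) (hg : Tp.Gp r z p q) (hl : l < q - p) :
    laps k B r p = c ∧ (lf k B r p : ℤ) = (q - 1 - p) / k ∧ lf k B r p = lf k B r z ∧
      lb k B r p = lb k B r z :=
  h.f5 (closC l) C hz hg hl hl.le

/-- Without terminal gaps the vertices of `M` have no forward lap gaps. -/
theorem Cl.descent (h : TZ k B r) (C : Cl k B r c k) (N : ℕ) :
    ∀ u x y, laps k B r u = c → Tp.Gp r u x y → x + k < y → y - x ≤ N → False := by
  induction N with
  | zero =>
    intro u x y _ hg _ hN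
    have := hg.2.1
    push_cast at hN
    omega
  | succ N ih =>
    intro u x y hu hg hl hN
    have hk := h.hk
    obtain ⟨h1, h2, h3, h4⟩ := C.f5 h hu hg (by omega)
    have h5 : 1 ≤ (y - 1 - x) / k := by
      rw [Int.le_ediv_iff_mul_le hk]
      omega
    have h8 : 1 ≤ lf k B r x := by omega
    rw [lf_eq_lcT] at h8
    have h9 : ∃ z, LapP k (Tf r x) z := by
      by_contra hcon
      rw [lcT_eq_zero fun z _ _ hz => hcon ⟨z, hz⟩] at h8
      omega
    obtain ⟨z, ⟨z1, s, s1, ⟨s2, s3⟩, s4, s5⟩⟩ := h9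
    have hnz : ¬ r x z := fun h2 => z1 ⟨by omega, h2⟩
    obtain ⟨b, b1, b2, b3, -⟩ := h.next (v := x) (a := z) (by omega)
    have hkz := Int.le_of_dvd (by omega) s5
    have g : Tp.Gp r x s b := ⟨s2, by omega, s3, b2, fun m m1 m2 => by
      rcases lt_trichotomy m z with hm | hm | hm
      · exact fun h2 => s4 m m1 hm ⟨by omega, h2⟩
      · rw [hm]; exact hnz
      · exact b3 m hm m2⟩
    have hxy := h.cn u x y hg.1 hg.2.1 hg.2.2.1 hg.2.2.2.1 hg.2.2.2.2
    have h11 : b ≤ y := by
      by_contra hcon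
      rcases lt_or_ge s y with h12 | h12
      · exact g.2.2.2.2 y h12 (by omega) hxy
      · have := C.nofar h h1 g (by omega)
        have := hg.2.1
        omega
    exact ih x s b h1 g (by omega) (by push_cast at hN; omega)

theorem Cl.lf_zero (h : TZ k B r) (C : Cl k B r c k) {v : ℤ} (hv : laps k B r v = c) :
    lf k B r v = 0 := by
  rw [lf_eq_lcT]
  refine lcT_eq_zero fun z _ _ hz => ?_
  obtain ⟨z1, s, s1, ⟨s2, s3⟩, s4, s5⟩ := hz
  have hnz : ¬ r v z := fun h2 => z1 ⟨by omega, h2⟩
  obtain ⟨b, b1, b2, b3, -⟩ := h.next (v := v) (a := z) (by omega)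
  have hkz := Int.le_of_dvd (by omega) s5
  have g : Tp.Gp r v s b := ⟨s2, by omega, s3, b2, fun m m1 m2 => by
    rcases lt_trichotomy m z with hm | hm | hm
    · exact fun h2 => s4 m m1 hm ⟨by omega, h2⟩
    · rw [hm]; exact hnz
    · exact b3 m hm m2⟩
  exact C.descent h (b - s).toNat v s b hv g (by omega) (by omega)

/-- Without class-wide chords there is a vertex of the class of `c` with laps. -/
theorem TZ.laps_pos (h : TZ k B r) (hk : 2 ≤ k) (hc : NoWide k r) (v : ℤ) :
    1 ≤ laps k B r v := by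
  by_contra hcon
  obtain ⟨u, hu, hu2⟩ := h.wall hk hc v
  have h1 := h.laps_class hu
  unfold laps at h1 hcon
  have h2 : lf k B r u = 0 := by omega
  rw [h.lf_eq (v := u) (M := max (u + B) (u + 1 + k)) (le_max_left _ _)] at h2
  refine lcT_zero h2 (y := u + 1 + k) (by omega) (le_max_right _ _)
    ⟨fun h3 => hu2 (u + 1 + k) (by omega) (by omega) h3.2, u + 1, by omega,
      ⟨by omega, h.succ u⟩, fun m m1 m2 m3 => hu2 m m1 (by omega) m3.2, by simp⟩

/-- A terminal gap of a vertex of `M`: the near corner is not in `M`. -/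
def Term (k B : ℤ) (r : ℤ → ℤ → Prop) (c : ℕ) (u x y : ℤ) : Prop :=
  laps k B r u = c ∧ Tp.Gp r u x y ∧ x + k < y ∧ laps k B r x ≠ c

/-- The frame of the longest terminal gap. -/
structure TermF (k B : ℤ) (r : ℤ → ℤ → Prop) (c : ℕ) (l v g t : ℤ) : Prop where
  cl : Cl k B r c l
  kl : k < l
  c1 : 1 ≤ c
  hv : laps k B r v = c
  gap : Tp.Gp r v g t
  len : t - g = l
  hg : c < laps k B r g
  nomid : ∀ x, v < x → x ≤ g → c < laps k B r x
  vg : g - v < k

/-- There is a longest terminal gap. -/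
theorem TZ.exists_term (h : TZ k B r) (hk : 2 ≤ k) (hc : NoWide k r) :
    ∃ r', TZ k B r' ∧ NoWide k r' ∧ ∃ c l v g t, TermF k B r' c l v g t := by
  classical
  have hk0 := h.hk
  have hB := h.hB
  have hex : ∃ c : ℕ, ∃ v, laps k B r v = c := ⟨_, 0, rfl⟩
  obtain ⟨v0, hv0⟩ := Nat.find_spec hex
  have hmin : ∀ w, Nat.find hex ≤ laps k B r w := fun w => Nat.find_min' hex ⟨w, rfl⟩
  generalize Nat.find hex = c at hv0 hmin
  have hc1 : 1 ≤ c := by rw [← hv0]; exact h.laps_pos hk hc v0
  have hmin' : ∀ w, c ≤ laps k B (VisMap.mirror r) w := fun w => by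
    have := hmin (-w)
    rw [← laps_mirror', neg_neg] at this
    exact this
  -- the terminal gaps are short
  have hbd : ∀ {r : ℤ → ℤ → Prop}, TZ k B r → ∀ {u x y : ℤ}, Term k B r c u x y →
      y - x ≤ B + 1 := by
    intro r h u x y hT
    by_contra hcon
    have := hT.2.1.1
    exact hT.2.1.2.2.2.2 (x + B + 1) (by omega) (by omega) (h.far _ _ (by omega))
  by_cases hT : ∃ u x y, Term k B r c u x y ∨ Term k B (VisMap.mirror r) c u x y
  · obtain ⟨u0, x0, y0, hT0⟩ := hT
    obtain ⟨l, ⟨u, x, y, hl, hT⟩, hmax⟩ := Int.exists_greatest_of_bdd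
      (P := fun l => ∃ u x y, y - x = l ∧ (Term k B r c u x y ∨ Term k B (VisMap.mirror r) c u x y))
      ⟨B + 1, fun l hl => by
        obtain ⟨u, x, y, h1, h2 | h2⟩ := hl
        · have := hbd h h2; omega
        · have := hbd h.mirror h2; omega⟩ ⟨_, u0, x0, y0, rfl, hT0⟩
    have hkl : k < l := by
      rcases hT with h1 | h1
      · have := h1.2.2.1; omega
      · have := h1.2.2.1; omega
    have C : Cl k B r c l := by
      refine ⟨hkl.le, hmin, ⟨v0, hv0⟩, fun u x y h1 h2 h3 => ?_, fun u x y h1 h2 h3 => ?_⟩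
      · by_contra hcon
        have := hmax (y - x) ⟨u, x, y, rfl, Or.inl ⟨h1, h2, by omega, hcon⟩⟩
        omega
      · by_contra hcon
        have := hmax (y - x) ⟨u, x, y, rfl, Or.inr ⟨h1, h2, by omega, hcon⟩⟩
        omega
    -- the frame
    have key : ∀ {r : ℤ → ℤ → Prop}, TZ k B r → Cl k B r c l → Term k B r c u x y →
        ∃ v g t, TermF k B r c l v g t := by
      intro r h C hT
      obtain ⟨t1, ⟨g1, g2, g3, g4, g5⟩, t3, t4⟩ := hT
      obtain ⟨v, v1, v2, v3, v4⟩ := exists_last (p := fun z => laps k B r z = c) (a := u)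
        (b := x) g1.le t1
      have hvx : v < x := by
        rcases v2.lt_or_eq with h1 | h1
        · exact h1
        · rw [h1] at v3; exact absurd v3 t4
      have hhid : ∀ m, x < m → m < y → ¬ r v m := fun m m1 m2 =>
        h.hide (v := u) (x := v) (p := x) (y := m) v1 hvx m1 g3 (g5 m m1 m2)
      have hx : c < laps k B r x := by
        have := C.min x
        omega
      obtain ⟨p, p1, p2, p3, p4⟩ := h.last (v := v) (a := x) hvx
      obtain ⟨q, q1, q2, q3, -⟩ := h.next (v := v) (a := y - 1) (by omega)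
      have hgp : Tp.Gp r v p q := by
        refine ⟨p1, by omega, p3, q2, fun m m1 m2 => ?_⟩
        rcases le_or_gt m x with h3 | h3
        · exact p4 m m1 h3
        · rcases lt_or_ge (y - 1) m with h4 | h4
          · exact q3 m h4 m2
          · exact hhid m h3 (by omega)
      have hpx : p = x := by
        by_contra hcon
        have := C.nf v p q v3 hgp (by omega)
        exact v4 p p1 (by omega) this
      have hqy : q = y := by
        by_contra hcon
        have := C.nf v p q v3 hgp (by omega)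
        rw [hpx] at this
        omega
      rw [hpx, hqy] at hgp
      refine ⟨v, x, y, C, hkl, hc1, v3, hgp, hl, hx, fun z z1 z2 => ?_, ?_⟩
      · have h3 := C.min z
        have h4 := v4 z z1 z2
        omega
      · by_contra hcon
        refine v4 (v + k) (by omega) (by omega) ?_
        rw [← v3]
        exact h.laps_class ⟨1, by ring⟩
    rcases hT with h1 | h1
    · exact ⟨r, h, hc, c, l, key h C h1⟩
    · exact ⟨VisMap.mirror r, h.mirror, hc.mirror h.symm, c, l, key h.mirror C.mir h1⟩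
  · -- no terminal gap: `M` has no laps
    exfalso
    have C : Cl k B r c k := by
      refine ⟨le_rfl, hmin, ⟨v0, hv0⟩, fun u x y h1 h2 h3 => ?_, fun u x y h1 h2 h3 => ?_⟩
      · by_contra hcon
        exact hT ⟨u, x, y, Or.inl ⟨h1, h2, by omega, hcon⟩⟩
      · by_contra hcon
        exact hT ⟨u, x, y, Or.inr ⟨h1, h2, by omega, hcon⟩⟩
    have h1 := C.lf_zero h hv0
    have h2 := C.mir.lf_zero h.mirror (v := -v0) (by rw [laps_mirror', hv0])
    rw [lf_mirror'] at h2
    have e : laps k B r v0 = lf k B r v0 + lb k B r v0 := rfl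
    omega

/-- The viewer of a frame `TermF` has no laps beyond `t` and none before `g`. -/
theorem TermF.lf_v (h : TZ k B r) {v g t : ℤ} (F : TermF k B r c l v g t) :
    (lf k B r v : ℤ) = (t - 1 - g) / k := by
  have hk := h.hk
  have hkl := F.kl
  have hlen := F.len
  have hvg := F.vg
  obtain ⟨g1, g2, g3, g4, g5⟩ := F.gap
  have e := h.lcT_le (k := k) (x := v) (y := g) g1 g3
  have e2 : (g - 1 - v) / k = 0 := Int.ediv_eq_zero_of_lt (by omega) (by omega)
  rw [h.lf_eq (v := v) (M := max (v + B) t) (le_max_left _ _),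
    lcT_split (a := v) (b := g) (c := max (v + B) t) g1.le
      (by have := le_max_right (v + B) t; omega),
    lcT_split (a := g) (b := t) (c := max (v + B) t) g2.le (le_max_right _ _),
    lcT_eq_zero (a := t) (fun y y1 _ => h.nolap_b (closC l) F.cl F.hv (by omega) g4 (by omega)
      (by omega) y1)]
  push_cast
  rw [lcT_gap hk g2 ⟨g1, g3⟩ ⟨by omega, g4⟩ fun m m1 m2 m3 => g5 m m1 m2 m3.2]
  omega

end Tw

end VisMap
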