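import Pool.Agent.Lib.MP_9f3af0_lcC.WFrame

/-!
# MP_9f3af0_lc: the corner of a gap of length `≥ b + 1` (after helper39, helper91; Lean by helper59)

`FatF k r s a b` is the widest fat rectangle.  The corner `x` of a gap `(u; x, y)` with
`y - x ≥ b + 1` has at most as many backward laps and at most as many forward laps as `u`
(`Wide.lb_le`, `Wide.lf_le`).  So `s` has the minimal number of laps (`FatF.min`).
-/

namespace VisMap

namespace Tw

open Tp

variable {k B : ℤ} {r : ℤ → ℤ → Prop}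

/-- Comparison of the backward laps of two rows `u < x`. -/
theorem TZ.lb_le_of (h : TZ k B r) {T u x : ℤ} (hTu : T < u) (hux : u < x) (hxT : r x T)
    (hsub : ∀ z, z < T → r u z → r x z)
    (h0 : lcT k (Tf (VisMap.mirror r) (-x)) (-x) (-T) = 0) : lb k B r x ≤ lb k B r u := by
  have hk := h.hk
  have e : ∀ v m : ℤ, VisMap.mirror r (-v) (-m) ↔ r v m := fun v m => by
    show r (- -v) (- -m) ↔ _
    rw [neg_neg, neg_neg]
  have e' : ∀ v m : ℤ, VisMap.mirror r (-v) m ↔ r v (-m) := fun v m => by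
    show r (- -v) (-m) ↔ _
    rw [neg_neg]
  -- `c` = the first sight of `u` at or below `T`
  obtain ⟨c, c1, c2, c3, -⟩ := h.next' (v := u) (a := T + 1) (by omega)
  set M := max (max (-u + B + 1) (-x + B + 1)) (max (-T) (-c)) with hMdef
  have hM1 : -u + B + 1 ≤ M := le_trans (le_max_left _ _) (le_max_left _ _)
  have hM2 : -x + B + 1 ≤ M := le_trans (le_max_right _ _) (le_max_left _ _)
  have hM3 : -T ≤ M := le_trans (le_max_left _ _) (le_max_right _ _)
  have hM4 : -c ≤ M := le_trans (le_max_right _ _) (le_max_right _ _)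
  have hxc : r x c := by
    rcases (show c ≤ T by omega).lt_or_eq with h1 | h1
    · exact hsub c h1 c2
    · rw [h1]; exact hxT
  have mono : lcT k (Tf (VisMap.mirror r) (-x)) (-c) M ≤
      lcT k (Tf (VisMap.mirror r) (-u)) (-c) M := by
    refine lcT_mono hk hM4 ⟨by omega, (e u c).2 c2⟩
      ⟨by omega, (e' u M).2 (h.far' (by omega))⟩ ?_
    rintro z z1 z2 ⟨z3, z4⟩
    refine ⟨by omega, (e' x z).2 ?_⟩
    have z5 := (e' u z).1 z4
    rcases (show -z ≤ T by omega).lt_or_eq with h1 | h1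
    · exact hsub _ h1 z5
    · rw [h1]; exact hxT
  have hx1 : lb k B r x = lcT k (Tf (VisMap.mirror r) (-x)) (-T) (-c) +
      lcT k (Tf (VisMap.mirror r) (-x)) (-c) M := by
    rw [h.lb_eq (v := x) (M := M) (by omega), lcT_split (a := -x) (b := -T) (c := M) (by omega) hM3,
      h0, zero_add, lcT_split (a := -T) (b := -c) (c := M) (by omega) hM4]
  have hu1 : lb k B r u = lcT k (Tf (VisMap.mirror r) (-u)) (-u) (-c) +
      lcT k (Tf (VisMap.mirror r) (-u)) (-c) M := by
    rw [h.lb_eq (v := u) (M := M) (by omega), lcT_split (a := -u) (b := -c) (c := M) (by omega) hM4]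
  have key : lcT k (Tf (VisMap.mirror r) (-x)) (-T) (-c) ≤
      lcT k (Tf (VisMap.mirror r) (-u)) (-u) (-c) := by
    rcases (show c ≤ T by omega).lt_or_eq with h1 | h1
    · -- the gap of `u` around `T`
      have hTu1 : T < u - 1 := by
        rcases (show T ≤ u - 1 by omega).lt_or_eq with h2 | h2
        · exact h2
        · refine absurd (h.pred u) ?_
          rw [← h2]
          exact c3 T h1 (by omega)
      obtain ⟨p, p1, p2, p3, p4⟩ := h.last' (v := u) (a := T + 1) (by omega)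
      have hg := lcT_gap hk (T := Tf (VisMap.mirror r) (-u)) (a := -p) (b := -c) (by omega)
        ⟨by omega, (e u p).2 p3⟩ ⟨by omega, (e u c).2 c2⟩ fun m m1 m2 m3 => by
          have m4 := (e' u m).1 m3.2
          rcases lt_or_ge T (-m) with h3 | h3
          · exact p4 (-m) (by omega) (by omega) m4
          · exact c3 (-m) (by omega) (by omega) m4
      have hl := lcT_lt hk (T := Tf (VisMap.mirror r) (-x)) (a := -T) (b := -c) (by omega)
        ⟨by omega, (e x T).2 hxT⟩ ⟨by omega, (e x c).2 hxc⟩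
      have h5 : (lcT k (Tf (VisMap.mirror r) (-x)) (-T) (-c) : ℤ) ≤ (-c - 1 - -p) / k := by
        rw [Int.le_ediv_iff_mul_le hk, mul_comm]
        omega
      have h6 := lcT_split (k := k) (T := Tf (VisMap.mirror r) (-u)) (a := -u) (b := -p) (c := -c)
        (by omega) (by omega)
      rw [← hg] at h5
      omega
    · rw [h1, lcT_self]
      exact Nat.zero_le _
  rw [hx1, hu1]
  omega

section

variable {b : ℤ}

/-- The last row below `x` that sees into `(x, y)` is seen by `x`. -/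
theorem TZ.exists_T (h : TZ k B r) {x y : ℤ} (hxy : x + 1 < y) :
    ∃ T, T < x ∧ r x T ∧ (∃ w, x < w ∧ w < y ∧ r T w) ∧
      ∀ x' y', T < x' → x' < x → x < y' → y' < y → ¬ r x' y' := by
  obtain ⟨T, ⟨hTx, w0, w1, w2, w3⟩, hmax⟩ := Int.exists_greatest_of_bdd
    (P := fun T => T < x ∧ ∃ w, x < w ∧ w < y ∧ r T w) ⟨x, fun T hT => hT.1.le⟩
    ⟨x - 1 - B, by have := h.hB; omega, x + 1, by omega, hxy, h.far _ _ (by have := h.hB; omega)⟩
  have hh : ∀ x' y', T < x' → x' < x → x < y' → y' < y → ¬ r x' y' := by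
    intro x' y' h1 h2 h3 h4 h5
    have := hmax x' ⟨h2, y', h3, h4, h5⟩
    omega
  refine ⟨T, hTx, ?_, ⟨w0, w1, w2, w3⟩, hh⟩
  obtain ⟨w, v1, v2, v3, v4⟩ := exists_first (p := fun w => r T w) (a := x + 1) (b := w0)
    (by omega) w3
  obtain ⟨z, z1, z2, z3, z4⟩ := h.last' (v := w) (a := T + 1) (by omega)
  have hxz : x ≤ z := by
    by_contra hc
    exact hh z w (by omega) (by omega) (by omega) (by omega) (h.symm _ _ z3)
  have hc := h.cn' w z T (by omega) z2 z3 (h.symm _ _ v3) fun m m1 m2 => z4 m (by omega) m2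
  rcases hxz.lt_or_eq with h1 | h1
  · exact absurd (h.symm _ _ hc) (v4 z (by omega) z2)
  · rw [← h1] at hc; exact hc

/-- The corner of a gap of length `≥ b + 1` has at most as many backward laps. -/
theorem Wide.lb_le (h : TZ k B r) (hw : Wide k r b) (hb : 0 < b) {u x y : ℤ}
    (hg : Tp.Gp r u x y) (hl : x + b + 1 ≤ y) : lb k B r x ≤ lb k B r u := by
  obtain ⟨g1, g2, g3, g4, g5⟩ := hg
  obtain ⟨T, T1, T2, ⟨w, w1, w2, w3⟩, T4⟩ := h.exists_T (x := x) (y := y) (by omega)
  have hTu : T < u := by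
    by_contra hc
    exact h.hide (v := u) (x := T) (p := x) (y := w) (by omega) T1 w1 g3 (g5 w w1 w2) w3
  refine h.lb_le_of hTu g1 T2 (fun z z1 z2 => ?_) (lcT_eq_zero fun z z1 z2 =>
    hw.nolapT h T1 T2 hl T4 z1 z2)
  exact h.symm _ _ (h.X z T u x z1 hTu g1 (h.symm _ _ z2) (h.symm _ _ T2))

/-- The forward laps of `x` are those up to a sight at a distance of more than `b`. -/
theorem Wide.lf_eq (h : TZ k B r) (hw : Wide k r b) {x y : ℤ} (hxy : x < y) (hr : r x y)
    (hl : x + b + 1 ≤ y) : lf k B r x = lcT k (Tf r x) x y := by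
  rw [h.lf_eq (v := x) (M := max (x + B) y) (le_max_left _ _),
    lcT_split (a := x) (b := y) (c := max (x + B) y) hxy.le (le_max_right _ _),
    lcT_eq_zero (a := y) (fun z z1 _ => hw.nolap h (by omega) hxy hr z1), add_zero]

/-- The laps of `x` up to a sight `y`. -/
theorem TZ.lcT_le (h : TZ k B r) {x y : ℤ} (hxy : x < y) (hr : r x y) :
    (lcT k (Tf r x) x y : ℤ) ≤ (y - 1 - x) / k := by
  rw [Int.le_ediv_iff_mul_le h.hk, mul_comm]
  have h4 : lcT k (Tf r x) x (x + 1) = 0 := lcT_eq_zero fun z z1 z2 z3 => by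
    have e : z = x + 1 := by omega
    rw [e] at z3
    exact z3.1 ⟨by omega, h.succ x⟩
  rcases (show x + 1 ≤ y by omega).lt_or_eq with h1 | h1
  · have h2 := lcT_lt h.hk (T := Tf r x) (a := x + 1) (b := y) h1 ⟨by omega, h.succ x⟩ ⟨hxy, hr⟩
    have h3 := lcT_split (k := k) (T := Tf r x) (a := x) (b := x + 1) (c := y) (by omega) h1.le
    rw [h3, h4, zero_add]
    omega
  · rw [← h1, h4]
    push_cast
    omega

/-- The corner of a gap of length `≥ b + 1` has at most the forward laps of the gap. -/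
theorem Wide.lf_le (h : TZ k B r) (hw : Wide k r b) {u x y : ℤ}
    (hg : Tp.Gp r u x y) (hl : x + b + 1 ≤ y) : (lf k B r x : ℤ) ≤ (y - 1 - x) / k := by
  obtain ⟨g1, g2, g3, g4, g5⟩ := hg
  have hxy := h.cn u x y g1 g2 g3 g4 g5
  rw [hw.lf_eq h g2 hxy hl]
  exact h.lcT_le g2 hxy

/-- The forward laps of the viewer of a gap. -/
theorem TZ.lf_ge (h : TZ k B r) {u x y : ℤ} (hg : Tp.Gp r u x y) :
    (y - 1 - x) / k ≤ (lf k B r u : ℤ) := by
  obtain ⟨g1, g2, g3, g4, g5⟩ := hg
  rw [h.lf_eq (v := u) (M := max (u + B) y) (le_max_left _ _),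
    lcT_split (a := u) (b := x) (c := max (u + B) y) g1.le
      (by have := le_max_right (u + B) y; omega),
    lcT_split (a := x) (b := y) (c := max (u + B) y) g2.le (le_max_right _ _)]
  push_cast
  rw [lcT_gap h.hk g2 ⟨g1, g3⟩ ⟨by omega, g4⟩ fun m m1 m2 m3 => g5 m m1 m2 m3.2]
  omega

theorem Wide.laps_le (h : TZ k B r) (hw : Wide k r b) (hb : 0 < b) {u x y : ℤ}
    (hg : Tp.Gp r u x y) (hl : x + b + 1 ≤ y) :
    lf k B r x ≤ lf k B r u ∧ lb k B r x ≤ lb k B r u ∧ laps k B r x ≤ laps k B r u := by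
  have h1 := hw.lf_le h hg hl
  have h2 := h.lf_ge hg
  have h3 := hw.lb_le h hb hg hl
  unfold laps
  omega

end

section

variable {s a b : ℤ}

/-- The gap of a row `x ∈ (T, s)` over `(s, t)`. -/
theorem FatF.gap (h : TZ k B r) (f : FatF k r s a b) {x : ℤ} (h1 : s - a ≤ x) (h2 : x < s) :
    ∃ x1 x2, x1 ≤ s ∧ s + b + 1 ≤ x2 ∧ Tp.Gp r x x1 x2 := by
  have hk := h.hk
  have hkb := f.kb
  obtain ⟨x1, a1, a2, a3, a4⟩ := h.last (v := x) (a := s) h2
  obtain ⟨x2, b1, b2, b3, -⟩ := h.next (v := x) (a := s + b) (by omega)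
  refine ⟨x1, x2, a2, by omega, a1, by omega, a3, b2, fun m m1 m2 => ?_⟩
  rcases lt_or_ge s m with h3 | h3
  · rcases lt_or_ge (s + b) m with h4 | h4
    · exact b3 m h4 m2
    · exact f.hid x m h1 h2 h3 h4
  · exact a4 m m1 h3

/-- The corners of the gaps over `(s, t)`: the laps decrease down to `s`. -/
theorem FatF.chain (h : TZ k B r) (f : FatF k r s a b) {x : ℤ} (h1 : s - a ≤ x) (h2 : x < s) :
    lf k B r s ≤ lf k B r x ∧ lb k B r s ≤ lb k B r x := by
  obtain ⟨j, hj⟩ : ∃ j : ℕ, s - x ≤ j := ⟨(s - x).toNat, by omega⟩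
  induction j generalizing x with
  | zero => omega
  | succ j ih =>
    obtain ⟨x1, x2, a1, a2, a3⟩ := f.gap h h1 h2
    have hk := h.hk
    have hkb := f.kb
    obtain ⟨c1, c2, -⟩ := f.wide.laps_le h (by omega) a3 (by omega)
    have a4 := a3.1
    rcases a1.lt_or_eq with h3 | h3
    · obtain ⟨d1, d2⟩ := ih (x := x1) (by omega) h3 (by push_cast at hj; omega)
      exact ⟨d1.trans c1, d2.trans c2⟩
    · rw [h3] at c1 c2
      exact ⟨c1, c2⟩

/-- `s` has the minimal number of laps. -/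
theorem FatF.min (h : TZ k B r) (f : FatF k r s a b) (v : ℤ) : laps k B r s ≤ laps k B r v := by
  have hk := h.hk
  have hka := f.ka
  -- a mate of `v` in `[s - k, s)`
  have h1 := Int.emod_nonneg (s - 1 - v) hk.ne'
  have h2 := Int.emod_lt_of_pos (s - 1 - v) hk
  have h3 := Int.emod_add_mul_ediv (s - 1 - v) k
  have hx : k ∣ s - 1 - (s - 1 - v) % k - v := ⟨(s - 1 - v) / k, by linarith⟩
  rw [← h.laps_class hx]
  obtain ⟨c1, c2⟩ := f.chain h (x := s - 1 - (s - 1 - v) % k) (by omega) (by omega)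
  unfold laps
  omega

/-- The mates of `s` in `(T, s)` have the forward and the backward laps of `s`. -/
theorem FatF.mate (h : TZ k B r) (f : FatF k r s a b) {x : ℤ} (h1 : s - a ≤ x) (h2 : x < s)
    (hx : k ∣ x - s) : lf k B r x = lf k B r s ∧ lb k B r x = lb k B r s := by
  obtain ⟨c1, c2⟩ := f.chain h h1 h2
  have h3 := h.laps_class hx
  unfold laps at h3
  omega

/-- The forward laps of `s`: `τ = b / k`. -/
theorem FatF.lf_s (h : TZ k B r) (f : FatF k r s a b) : (lf k B r s : ℤ) = b / k := by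
  have hk := h.hk
  have hka := f.ka
  have hkb := f.kb
  have h1 := h.lcT_le (k := k) (x := s) (y := s + b + 1) (by omega) (f.st h)
  rw [← f.wide.lf_eq h (x := s) (y := s + b + 1) (by omega) (f.st h) (by omega)] at h1
  obtain ⟨x1, x2, a1, a2, a3⟩ := f.gap h (x := s - k) (by omega) (by omega)
  have h2 := h.lf_ge a3
  rw [(f.mate h (x := s - k) (by omega) (by omega) ⟨-1, by ring⟩).1] at h2
  have e1 : s + b + 1 - 1 - s = b := by ring
  rw [e1] at h1
  have h4 : b / k ≤ (x2 - 1 - x1) / k := Int.ediv_le_ediv hk (by omega)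
  omega

/-- `s` has no laps beyond `t`. -/
theorem FatF.nolap_t (h : TZ k B r) (f : FatF k r s a b) {z : ℤ} (hz : s + b + 1 < z) :
    ¬ LapP k (Tf r s) z := by
  have hk := h.hk
  have hkb := f.kb
  exact f.wide.nolap h (p := s + b + 1) (by omega) (by omega) (f.st h) hz

/-- `s` has no laps in `[T, s]`. -/
theorem FatF.nolap_T (h : TZ k B r) (f : FatF k r s a b) {z : ℤ} (hz : -s < z)
    (hzT : z ≤ -(s - a - 1)) : ¬ LapP k (Tf (VisMap.mirror r) (-s)) z := by
  have hk := h.hk
  have hka := f.ka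
  exact f.wide.nolapT h (T := s - a - 1) (x := s) (y := s + b + 1) (by omega) (f.sT h) (by omega)
    (fun x' y' h1 h2 h3 h4 => f.hid x' y' (by omega) h2 h3 (by omega)) hz hzT

end

end Tw

end VisMap
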