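import Pool.Agent.Lib.MP_9f3af0_lcC.WMFrame

/-!
# MP_9f3af0_lc: the descent of the frames of one rank (helper62, helper4; Lean by helper47)

`WF k B r lam u s t`: all gaps of the vertices with the least number of laps have length at most
`k * lam + k`; `u` and `s` are such vertices with `lf u = lf s = lam`, `(s, t)` is a gap of `u`, which
is at most `k` before `s`, with `lam` laps, and `s` has no lap beyond `t`.  If the first gap `(x, y)`
of `s` with a lap has the properties (K1) and (K2), then `(s; x, y)` is a shorter frame of this kind.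
-/

namespace VisMap

namespace Tw

open Tp

/-- The frame of rank `lam`. -/
structure WF (k B : ℤ) (r : ℤ → ℤ → Prop) (lam : ℕ) (u s t : ℤ) : Prop where
  gf : GapF r (Mn k B r) (k * lam + k)
  gb : GapB r (Mn k B r) (k * lam + k)
  g : Tp.Gp r u s t
  us : s - k ≤ u
  lt : k * lam < t - s
  l1 : 1 ≤ lam
  mu : Mn k B r u
  ms : Mn k B r s
  lfu : lf k B r u = lam
  lfs : lf k B r s = lam
  nl : ∀ y, t < y → ¬ LapP k (Tf r s) y

variable {k B : ℤ} {r : ℤ → ℤ → Prop} {lam : ℕ} {u v s t x y : ℤ}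

/-- The length of the gap. -/
theorem WF.le (W : WF k B r lam u s t) : t - s ≤ k * lam + k :=
  W.gf u s t W.mu W.g.1 W.g.2.1 W.g.2.2.1 W.g.2.2.2.1 W.g.2.2.2.2

/-- From the frame of the longest gap. -/
theorem MF.exists_WF (h : TZ k B r) (hst : k < t - s) (M : MF k B r v s t) :
    ∃ lam u, WF k B r lam u s t := by
  have hk := h.hk
  -- the viewer at a distance of at most `k`
  obtain ⟨u, hu, M'⟩ : ∃ u, s - k ≤ u ∧ MF k B r u s t := by
    rcases le_or_gt (s - k) v with h1 | h1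
    · exact ⟨v, h1, M⟩
    · obtain ⟨z, z1, z2, z3⟩ := h.meets_Mn (s - k - 1)
      refine ⟨z, by omega, M.viewer h z3 (by omega) (fun m m1 m2 => ?_) (by omega)⟩
      exact h.hide (v := v) (x := z) (p := s) (y := m) (by omega) (by omega) m1 M.g.2.2.1
        (M.g.2.2.2.2 m m1 m2)
  obtain ⟨e1, e2, e3, e4, e5⟩ := M'.eqs h
  have h3 := Int.emod_add_mul_ediv (t - 1 - s) k
  have h4 := Int.emod_nonneg (t - 1 - s) hk.ne'
  have h5 := Int.emod_lt_of_pos (t - 1 - s) hk
  have hle : t - s ≤ k * ((lf k B r s : ℕ) : ℤ) + k := by rw [e1]; omega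
  refine ⟨lf k B r s, u, ⟨fun y a b q1 q2 q3 q4 q5 q6 => (M'.gf y a b q1 q2 q3 q4 q5 q6).trans hle,
    fun y a b q1 q2 q3 q4 q5 q6 => (M'.gb y a b q1 q2 q3 q4 q5 q6).trans hle, M'.g, hu, ?_, ?_, M'.mv,
    M'.ms h, e2, rfl, fun y hy => (M'.nolap h hy).1⟩⟩
  · rw [e1]; omega
  · have h6 : (1 : ℤ) ≤ (lf k B r s : ℤ) := by
      rw [e1, Int.le_ediv_iff_mul_le hk]
      omega
    omega

/-- The first gap of `s` with a lap. -/
theorem WF.exists_gap (h : TZ k B r) (W : WF k B r lam u s t) :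
    ∃ x y, Tp.Gp r s x y ∧ x + k < y ∧ lcT k (Tf r s) s x = 0 := by
  classical
  have hk := h.hk
  have hpos : ∃ z, s < z ∧ LapP k (Tf r s) z := by
    by_contra hc
    have h1 : lf k B r s = 0 := by
      rw [h.lf_eq (v := s) (M := s + B) le_rfl]
      exact lcT_eq_zero fun z z1 z2 z3 => hc ⟨z, z1, z3⟩
    have := W.lfs
    have := W.l1
    omega
  obtain ⟨z, ⟨z1, z2⟩, hmin⟩ := Int.exists_least_of_bdd
    (P := fun z => s < z ∧ LapP k (Tf r s) z) ⟨s, fun z hz => hz.1.le⟩ hpos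
  obtain ⟨a, b, g, a1, a2, a3⟩ := h.gap_of_lap z2
  refine ⟨a, b, g, by omega, lcT_eq_zero fun w w1 w2 w3 => ?_⟩
  have := hmin w ⟨w1, w3⟩
  omega

/-- One step of the descent. -/
theorem WF.step (h : TZ k B r) (W : WF k B r lam u s t) (g : Tp.Gp r s x y) (hl : x + k < y)
    (h0 : lcT k (Tf r s) s x = 0) (K1 : ∃ p, s - k ≤ p ∧ p < s ∧ r x p)
    (K2 : ∀ z, y < z → ¬ LapP k (Tf r x) z) : WF k B r lam s x y ∧ y - x < t - s := by
  have hk := h.hk
  obtain ⟨g1, g2, g3, g4, g5⟩ := g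
  have hst := h.gapA_st W.g
  have hst' : s < t := W.g.2.1
  have hxy := h.cn s x y g1 g2 g3 g4 g5
  -- `x < t`
  have hlap : LapP k (Tf r s) (x + k) :=
    ⟨fun h1 => g5 (x + k) (by omega) hl h1.2, x, by omega, ⟨g1, g3⟩,
      fun m m1 m2 m3 => g5 m m1 (by omega) m3.2, ⟨1, by ring⟩⟩
  have hxt : x + k ≤ t := by
    by_contra hc
    exact W.nl (x + k) (by omega) hlap
  have hyt : y ≤ t := by
    by_contra hc
    exact g5 t (by omega) (by omega) hst
  -- all laps of `s` are in `(x, t]`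
  have hs1 : lf k B r s = lcT k (Tf r s) x t := by
    rw [h.lf_eq (v := s) (M := max (s + B) t) (le_max_left _ _),
      lcT_split (a := s) (b := t) (c := max (s + B) t) hst'.le (le_max_right _ _),
      lcT_eq_zero (a := t) (fun z z1 _ => W.nl z z1), add_zero,
      lcT_split (a := s) (b := x) (c := t) g1.le (by omega), h0, zero_add]
  have hs2 := lcT_lt hk (T := Tf r s) (a := x) (b := t) (by omega) ⟨g1, g3⟩ ⟨hst', hst⟩
  rw [← hs1, W.lfs] at hs2
  have hle := W.le
  have hxs : x < s + k := by omega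
  -- the backward laps
  obtain ⟨p0, p01, p02, p03⟩ := K1
  obtain ⟨T, T1, T2, T3, -⟩ := h.next' (v := x) (a := s) (by omega)
  have hTp : s - k ≤ T := by
    by_contra hc
    exact T3 p0 (by omega) p02 p03
  have hlb : lb k B r x ≤ lb k B r s := by
    refine h.lb_le_of T1 g1 T2 (fun z z1 z2 => h.symm _ _ (h.X z T s x z1 T1 g1 (h.symm _ _ z2)
      (h.symm _ _ T2))) (lcT_eq_zero ?_)
    rintro z z1 z2 ⟨z3, q, q1, ⟨q2, q3⟩, q4, q5⟩
    have hq : k ≤ z - q := Int.le_of_dvd (by omega) q5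
    have hsx : Tf (VisMap.mirror r) (-x) (-s) := ⟨by omega, (mir_iff x s).2 (h.symm _ _ g3)⟩
    have hTx : Tf (VisMap.mirror r) (-x) (-T) := ⟨by omega, (mir_iff x T).2 T2⟩
    rcases lt_or_ge q (-s) with h1 | h1
    · rcases lt_trichotomy z (-s) with h2 | h2 | h2
      · omega
      · rw [h2] at z3; exact z3 hsx
      · exact q4 (-s) h1 h2 hsx
    · rcases (show z ≤ -T by omega).lt_or_eq with h2 | h2
      · omega
      · rw [h2] at z3; exact z3 hTx
  -- the forward laps
  have hx1 : lf k B r x = lcT k (Tf r x) x y := by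
    rw [h.lf_eq (v := x) (M := max (x + B) y) (le_max_left _ _),
      lcT_split (a := x) (b := y) (c := max (x + B) y) g2.le (le_max_right _ _),
      lcT_eq_zero (a := y) (fun z z1 _ => K2 z z1), add_zero]
  have hx2 := h.lcT_le g2 hxy
  rw [← hx1] at hx2
  have hs3 := h.lf_ge (u := s) (x := x) (y := y) ⟨g1, g2, g3, g4, g5⟩
  rw [W.lfs] at hs3
  have hms := W.ms x
  have e1 : laps k B r x = lf k B r x + lb k B r x := rfl
  have e2 : laps k B r s = lf k B r s + lb k B r s := rfl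
  have hlfs := W.lfs
  have hfx : lf k B r x = lam := by omega
  have hlx : laps k B r x = laps k B r s := by omega
  have hlen : k * lam ≤ y - 1 - x := by
    rw [hfx, Int.le_ediv_iff_mul_le hk, mul_comm] at hx2
    exact hx2
  refine ⟨⟨W.gf, W.gb, ⟨g1, g2, g3, g4, g5⟩, by omega, by omega, W.l1, W.ms, fun z => ?_, W.lfs,
    hfx, K2⟩, by omega⟩
  rw [hlx]
  exact W.ms z

/-- (K1) and (K2) finish. -/
theorem false_of_K
    (K1 : ∀ (k B : ℤ) (r : ℤ → ℤ → Prop) (lam : ℕ) (u s t x y : ℤ), TZ k B r → 2 ≤ k →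
      WF k B r lam u s t → Tp.Gp r s x y → x + k < y → lcT k (Tf r s) s x = 0 →
      ∃ p, s - k ≤ p ∧ p < s ∧ r x p)
    (K2 : ∀ (k B : ℤ) (r : ℤ → ℤ → Prop) (lam : ℕ) (u s t x y : ℤ), TZ k B r → 2 ≤ k →
      WF k B r lam u s t → Tp.Gp r s x y → x + k < y → lcT k (Tf r s) s x = 0 →
      ∀ z, y < z → ¬ LapP k (Tf r x) z)
    (h : TZ k B r) (hk : 2 ≤ k) (hc : NoWide k r) : False := by
  refine false_of_MF (fun k B r v s t h hk hc hst M => ?_) h hk hc
  obtain ⟨lam, u, W⟩ := M.exists_WF h hst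
  have key : ∀ N : ℕ, ∀ u s t, WF k B r lam u s t → t - s ≤ N → False := by
    intro N
    induction N with
    | zero =>
      intro u s t W hN
      have := W.g.2.1
      push_cast at hN
      omega
    | succ N ih =>
      intro u s t W hN
      obtain ⟨x, y, g, g1, g2⟩ := W.exists_gap h
      obtain ⟨W', hlt⟩ := W.step h g g1 g2 (K1 k B r lam u s t x y h hk W g g1 g2)
        (K2 k B r lam u s t x y h hk W g g1 g2)
      exact ih s x y W' (by push_cast at hN; omega)
  exact key (t - s).toNat u s t W (by have := W.g.2.1; omega)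

end Tw

end VisMap
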