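import Pool.Agent.Lib.MP_9f3af0_lcC.WBase

/-!
# MP_9f3af0_lc: the failure of (K1) is a fat rectangle (hand proof of helper27; Lean by helper10)
-/

namespace VisMap

namespace Tw

open Tp

variable {k B : ℤ} {r : ℤ → ℤ → Prop} {s x y p : ℤ}

/-- If `(x, y)` is a gap of `s` and the column `x` hides `(p, s)`, then the rows of `(p, s)` hide
`(s, y)`. -/
theorem TZ.fat_of_hid (h : TZ k B r) (g : Tp.Gp r s x y) (hp : ∀ q, p < q → q < s → ¬ r x q)
    {q m : ℤ} (h1 : p < q) (h2 : q < s) (h3 : s < m) (h4 : m < y) : ¬ r q m := by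
  obtain ⟨g1, g2, g3, g4, g5⟩ := g
  -- no sights in `(s, x]`
  have a1 : ∀ q m : ℤ, p < q → q < s → s < m → m ≤ x → ¬ r q m := by
    intro q m h1 h2 h3 h4 hqm
    rcases h4.lt_or_eq with h5 | h5
    · exact hp q h1 h2 (h.symm _ _ (h.X q s m x h2 h3 h5 hqm g3))
    · rw [h5] at hqm
      exact hp q h1 h2 (h.symm _ _ hqm)
  -- downward induction on the row
  have key : ∀ (n : ℕ) (q m : ℤ), s - q ≤ n → p < q → q < s → x < m → m < y → ¬ r q m := by
    intro n
    induction n with
    | zero => intro q m h1 _ h2; omega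
    | succ n ih =>
      intro q m h1 h2 h3 h4 h5 hqm
      -- the first sight of `q` in `(x, m]`
      obtain ⟨b, b1, b2, b3, b4⟩ := exists_first (p := fun z => r q z) (a := x + 1) (b := m)
        (by omega) hqm
      obtain ⟨a, a2, a3, a4, a5⟩ := h.last (v := q) (a := b - 1) (by omega)
      have hax : a ≤ x := by
        by_contra hc
        exact b4 a (by omega) (by omega) a4
      have has : a ≤ s := by
        by_contra hc
        exact a1 q a h2 h3 (by omega) hax a4
      have hab : r a b := h.cn q a b a2 (by omega) a4 b3 (fun m m1 m2 => a5 m m1 (by omega))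
      rcases has.lt_or_eq with hl | he
      · exact ih a b (by omega) (by omega) hl (by omega) (by omega) hab
      · rw [he] at hab
        exact g5 b (by omega) (by omega) hab
  rcases lt_or_ge x m with h5 | h5
  · exact key (s - q).toNat q m (by omega) h1 h2 h5 h4
  · exact a1 q m h1 h2 h3 h5

end Tw

end VisMap
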