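import Pool.Agent.Lib.MP_9f3af0_lcC.WDescent
import Pool.Agent.Lib.MP_9f3af0_lcC.WK1fat

/-!
# MP_9f3af0_lc: the dichotomy (helper55, helper4; Lean by helper10)

Let `lam` be the rank of the longest gap of the vertices with the least number of laps.  If there is
no fat interval of rank at least `lam` then (K1) and (K2) follow from (S2): row `s` of a frame has all
its laps in one gap.  Otherwise the widest fat rectangle has rank at least `lam`.
-/

namespace VisMap

namespace Tw

open Tp

/-- There is no fat interval (of either type) of a rank of at least `lam`. -/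
def NoFatR (k : ℤ) (r : ℤ → ℤ → Prop) (lam : ℕ) : Prop :=
  ∀ s, ¬ Hid r s k (k * lam) ∧ ¬ Hid r s (k * lam) k

variable {k B : ℤ} {r : ℤ → ℤ → Prop} {lam : ℕ} {u v s t x y : ℤ}

/-- (K1) if there is no fat interval of rank `lam`. -/
theorem NoFatR.K1 (h : TZ k B r) (hN : NoFatR k r lam) (g : Tp.Gp r s x y)
    (hxy : k * lam < y - x) : ∃ p, s - k ≤ p ∧ p < s ∧ r x p := by
  by_contra hcon
  push Not at hcon
  have g1 := g.1
  exact (hN s).1 fun q m h1 h2 h3 h4 => h.fat_of_hid g (p := s - k - 1)
    (fun q q1 q2 => hcon q (by omega) q2) (by omega) h2 h3 (by omega)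

/-- (K2) if there is no fat interval of rank `lam`. -/
theorem NoFatR.K2 (h : TZ k B r) (hN : NoFatR k r lam) (g : Tp.Gp r s x y)
    (hxy : k * lam < y - x) : ∀ z, y < z → ¬ LapP k (Tf r x) z := by
  intro z hz hl
  obtain ⟨n, n', g', a1, a2, a3⟩ := h.gap_of_lap hl
  obtain ⟨g1, g2, g3, g4, g5⟩ := g
  have hr : r x y := h.cn s x y g1 g2 g3 g4 g5
  have hn : y ≤ n := by
    by_contra hc
    exact g'.2.2.2.2 y (by omega) (by omega) hr
  exact (hN n).2 fun q m h1 h2 h3 h4 => h.hide (v := x) (p := n) (by omega) h2 h3 g'.2.2.1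
    (g'.2.2.2.2 m h3 (by omega))

/-- The descent without fat intervals of rank `lam`. -/
theorem NoFatR.false_of_S2 (h : TZ k B r) (hN : NoFatR k r lam)
    (S2 : ∀ u s t x y : ℤ, WF k B r lam u s t → Tp.Gp r s x y → x + k < y →
      lcT k (Tf r s) s x = 0 → k * lam < y - x) : ¬ WF k B r lam u s t := by
  have key : ∀ N : ℕ, ∀ u s t, WF k B r lam u s t → t - s ≤ N → False := by
    intro N
    induction N with
    | zero =>
      intro u s t W hN
      have h1 := W.lt
      have hk := h.hk
      have h2 : 0 ≤ k * (lam : ℤ) := by positivity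
      push_cast at hN
      omega
    | succ N ih =>
      intro u s t W hle
      obtain ⟨x, y, g, hl, h0⟩ := W.exists_gap h
      have h2 := S2 u s t x y W g hl h0
      have h3 := W.step h g hl h0 (hN.K1 h g h2) (hN.K2 h g h2)
      push_cast at hle
      exact ih s x y h3.1 (by omega)
  intro W
  exact key (t - s).toNat u s t W (by omega)

/-- The dichotomy: what is left is (S2) without fat intervals of rank `lam`, and the widest fat
rectangle with the bound on the gaps of the vertices with the least number of laps. -/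
theorem false_of_S2_FAT
    (S2 : ∀ (k B : ℤ) (r : ℤ → ℤ → Prop) (lam : ℕ) (u s t x y : ℤ), TZ k B r → 2 ≤ k →
      NoWide k r → NoFatR k r lam → WF k B r lam u s t → Tp.Gp r s x y → x + k < y →
      lcT k (Tf r s) s x = 0 → k * lam < y - x)
    (FAT : ∀ (k B : ℤ) (r : ℤ → ℤ → Prop) (s a b : ℤ), TZ k B r → 2 ≤ k → NoWide k r →
      FatF k r s a b → GapF r (Mn k B r) (k * (b / k) + k) → GapB r (Mn k B r) (k * (b / k) + k) →
      False)
    (h : TZ k B r) (hk : 2 ≤ k) (hc : NoWide k r) : False := by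
  refine false_of_MF (fun k B r v s t h hk hc hst M => ?_) h hk hc
  obtain ⟨lam, u, W⟩ := M.exists_WF h hst
  by_cases hN : NoFatR k r lam
  · exact hN.false_of_S2 h (fun u s t x y W g hl h0 => S2 k B r lam u s t x y h hk hc hN W g hl h0) W
  have hk0 := h.hk
  have hkl : k ≤ k * (lam : ℤ) := by
    have h1 : k * 1 ≤ k * (lam : ℤ) := mul_le_mul_of_nonneg_left (by exact_mod_cast W.l1) hk0.le
    omega
  unfold NoFatR at hN
  push Not at hN
  obtain ⟨c, hcN⟩ := hN
  have hH : Hid r c k (k * lam) ∨ Hid r c (k * lam) k := by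
    by_cases h1 : Hid r c k (k * lam)
    · exact Or.inl h1
    · exact Or.inr (hcN h1)
  have hkk : Hid r c k k := by
    rcases hH with h1 | h1
    · exact h1.mono le_rfl hkl
    · exact h1.mono hkl le_rfl
  have hle : ∀ b : ℤ, k * (lam : ℤ) ≤ b → k * (lam : ℤ) + k ≤ k * (b / k) + k := by
    intro b hb
    have h1 : (lam : ℤ) ≤ b / k := by
      rw [Int.le_ediv_iff_mul_le hk0, mul_comm]
      exact hb
    have h2 := mul_le_mul_of_nonneg_left h1 hk0.le
    omega
  rcases h.exists_fat hkk with ⟨s, a, b, f⟩ | ⟨s, a, b, f⟩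
  · have hb : k * (lam : ℤ) ≤ b := by
      by_contra hb
      rcases hH with h1 | h1
      · exact f.wide.ew c (h1.mono le_rfl (by omega))
      · exact f.wide.eh c (h1.mono (by omega) le_rfl)
    exact FAT k B r s a b h hk hc f
      (fun y a b q1 q2 q3 q4 q5 q6 => (W.gf y a b q1 q2 q3 q4 q5 q6).trans (hle _ hb))
      (fun y a b q1 q2 q3 q4 q5 q6 => (W.gb y a b q1 q2 q3 q4 q5 q6).trans (hle _ hb))
  · have hb : k * (lam : ℤ) ≤ b := by
      by_contra hb
      rcases hH with h1 | h1
      · exact f.wide.eh (-c) ((h1.mir h).mono (by omega) le_rfl)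
      · exact f.wide.ew (-c) ((h1.mir h).mono le_rfl (by omega))
    exact FAT k B _ s a b h.mirror hk (hc.mirror h.symm) f
      (GapF.mirror fun y a b q1 q2 q3 q4 q5 q6 => (W.gb y a b q1 q2 q3 q4 q5 q6).trans (hle _ hb))
      (GapB.mirror fun y a b q1 q2 q3 q4 q5 q6 => (W.gf y a b q1 q2 q3 q4 q5 q6).trans (hle _ hb))

end Tw

end VisMap
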