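import Pool.Agent.Lib.MP_9f3af0_lcC.WThmA

/-!
# MP_9f3af0_lc: the widest fat rectangle (after helper39, helper91; Lean by helper59)

`Hid r s a b`: the rectangle of the rows `[s - a, s)` and the columns `(s, s + b]` is hidden.
`Wide k r b`: no hidden rectangle of this kind has one side `≥ b + 1` and the other side `≥ k`.
`FatF k r s a b`: the widest fat rectangle at the centre `s`.
-/

namespace VisMap

namespace Tw

open Tp

/-- The rectangle `[s - a, s) × (s, s + b]` is hidden. -/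
def Hid (r : ℤ → ℤ → Prop) (s a b : ℤ) : Prop :=
  ∀ x y, s - a ≤ x → x < s → s < y → y ≤ s + b → ¬ r x y

/-- There is no fat rectangle with a side of length `b + 1`. -/
structure Wide (k : ℤ) (r : ℤ → ℤ → Prop) (b : ℤ) : Prop where
  ew : ∀ s, ¬ Hid r s k (b + 1)
  eh : ∀ s, ¬ Hid r s (b + 1) k

/-- The widest fat rectangle. -/
structure FatF (k : ℤ) (r : ℤ → ℤ → Prop) (s a b : ℤ) : Prop where
  ka : k ≤ a
  ab : a ≤ b
  hid : Hid r s a b
  wide : Wide k r b
  maxa : ∃ y, s < y ∧ y ≤ s + b ∧ r (s - a - 1) y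

theorem Hid.mono {r : ℤ → ℤ → Prop} {s a b a' b' : ℤ} (h : Hid r s a b) (ha : a' ≤ a)
    (hb : b' ≤ b) : Hid r s a' b' :=
  fun x y h1 h2 h3 h4 => h x y (by omega) h2 h3 (by omega)

variable {k B : ℤ} {r : ℤ → ℤ → Prop}

theorem Hid.mir (h : TZ k B r) {s a b : ℤ} (hh : Hid r s a b) :
    Hid (VisMap.mirror r) (-s) b a := by
  intro x y h1 h2 h3 h4 h5
  exact hh (-y) (-x) (by omega) (by omega) (by omega) (by omega) (h.symm _ _ h5)

theorem Hid.mir' (h : TZ k B r) {s a b : ℤ} (hh : Hid (VisMap.mirror r) s a b) :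
    Hid r (-s) b a := by
  intro x y h1 h2 h3 h4 h5
  refine hh (-y) (-x) (by omega) (by omega) (by omega) (by omega) ?_
  show r (- -y) (- -x)
  rw [neg_neg, neg_neg]
  exact h.symm _ _ h5

theorem Wide.mirror (h : TZ k B r) {b : ℤ} (hw : Wide k r b) : Wide k (VisMap.mirror r) b where
  ew s hs := hw.eh (-s) (Hid.mir' h hs)
  eh s hs := hw.ew (-s) (Hid.mir' h hs)

/-- Existence of the widest fat rectangle. -/
theorem TZ.exists_fat (h : TZ k B r) {s : ℤ} (hs : Hid r s k k) :
    (∃ s a b, FatF k r s a b) ∨ ∃ s a b, FatF k (VisMap.mirror r) s a b := by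
  have hk := h.hk
  have hB := h.hB
  have hbd : ∀ {r : ℤ → ℤ → Prop}, TZ k B r → ∀ {s a b : ℤ}, 0 < a → 0 < b → Hid r s a b →
      b ≤ B := by
    intro r h s a b ha hb hh
    by_contra hc
    exact hh (s - 1) (s + b) (by omega) (by omega) (by omega) le_rfl (h.far _ _ (by omega))
  obtain ⟨b, ⟨hkb, s, hs'⟩, hmax⟩ := Int.exists_greatest_of_bdd
    (P := fun b => k ≤ b ∧ ∃ s, Hid r s k b ∨ Hid r s b k) ⟨B, fun b hb => by
      obtain ⟨h1, s, h2 | h2⟩ := hb
      · exact hbd h hk (by omega) h2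
      · exact hbd h.mirror hk (by omega) (Hid.mir h h2)⟩ ⟨k, le_rfl, s, Or.inl hs⟩
  have hw : Wide k r b := by
    refine ⟨fun s hs => ?_, fun s hs => ?_⟩
    · have := hmax (b + 1) ⟨by omega, s, Or.inl hs⟩
      omega
    · have := hmax (b + 1) ⟨by omega, s, Or.inr hs⟩
      omega
  have key : ∀ {r : ℤ → ℤ → Prop}, TZ k B r → Wide k r b → ∀ {s : ℤ}, Hid r s k b →
      ∃ s a b, FatF k r s a b := by
    intro r h hw s hs
    obtain ⟨a, ⟨hka, ha⟩, hamax⟩ := Int.exists_greatest_of_bdd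
      (P := fun a => k ≤ a ∧ Hid r s a b) ⟨b, fun a ha => by
        by_contra hc
        exact hw.eh s (ha.2.mono (by omega) hkb)⟩ ⟨k, le_rfl, hs⟩
    refine ⟨s, a, b, hka, ?_, ha, hw, ?_⟩
    · by_contra hc
      exact hw.eh s (ha.mono (by omega) hkb)
    · by_contra hc
      have h1 : Hid r s (a + 1) b := by
        intro x y h1 h2 h3 h4 h5
        rcases (show s - a - 1 ≤ x by omega).lt_or_eq with h6 | h6
        · exact ha x y (by omega) h2 h3 h4 h5
        · exact hc ⟨y, h3, h4, by rw [h6]; exact h5⟩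
      have := hamax (a + 1) ⟨by omega, h1⟩
      omega
  rcases hs' with h1 | h1
  · exact Or.inl (key h hw h1)
  · exact Or.inr (key h.mirror (Wide.mirror h hw) (Hid.mir h h1))

section

variable {s a b : ℤ}

/-- A row of `[s - k, s)` sees `t = s + b + 1`. -/
theorem FatF.maxb (f : FatF k r s a b) : ∃ x, s - k ≤ x ∧ x < s ∧ r x (s + b + 1) := by
  by_contra hc
  refine f.wide.ew s ?_
  intro x y h1 h2 h3 h4 h5
  rcases (show y ≤ s + b + 1 by omega).lt_or_eq with h6 | h6
  · exact f.hid x y (by have := f.ka; omega) h2 h3 (by omega) h5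
  · exact hc ⟨x, h1, h2, by rw [← h6]; exact h5⟩

theorem FatF.kb (f : FatF k r s a b) : k ≤ b := f.ka.trans f.ab

/-- `s ~ t`. -/
theorem FatF.st (h : TZ k B r) (f : FatF k r s a b) : r s (s + b + 1) := by
  have hk := h.hk
  have hka := f.ka
  have hkb := f.kb
  obtain ⟨x0, x1, x2, x3⟩ := f.maxb
  obtain ⟨x, y1, y2, y3, y4⟩ := exists_last (p := fun x => r x (s + b + 1)) (a := x0) (b := s - 1)
    (by omega) x3
  obtain ⟨z, z1, z2, z3, z4⟩ := h.last (v := x) (a := s + b) (by omega)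
  have hzs : z ≤ s := by
    by_contra hc
    exact f.hid x z (by omega) (by omega) (by omega) (by omega) z3
  have hc := h.cn x z (s + b + 1) z1 (by omega) z3 y3 fun m m1 m2 => z4 m m1 (by omega)
  rcases hzs.lt_or_eq with h1 | h1
  · exact absurd hc (y4 z z1 (by omega))
  · rw [h1] at hc; exact hc

/-- `s ~ T`. -/
theorem FatF.sT (h : TZ k B r) (f : FatF k r s a b) : r s (s - a - 1) := by
  have hk := h.hk
  have hka := f.ka
  obtain ⟨y0, y1, y2, y3⟩ := f.maxa
  obtain ⟨y, w1, w2, w3, w4⟩ := exists_first (p := fun y => r (s - a - 1) y) (a := s + 1) (b := y0)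
    (by omega) y3
  obtain ⟨z, z1, z2, z3, z4⟩ := h.last' (v := y) (a := s - a) (by omega)
  have hzs : s ≤ z := by
    by_contra hc
    exact f.hid z y (by omega) (by omega) (by omega) (by omega) (h.symm _ _ z3)
  have hc := h.cn' y z (s - a - 1) (by omega) z2 z3 (h.symm _ _ w3)
    fun m m1 m2 => z4 m (by omega) m2
  rcases hzs.lt_or_eq with h1 | h1
  · exact absurd (h.symm _ _ hc) (w4 z (by omega) z2)
  · rw [← h1] at hc; exact hc

/-- `T ~ t`. -/
theorem FatF.Tt (h : TZ k B r) (f : FatF k r s a b) : r (s - a - 1) (s + b + 1) := by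
  have hk := h.hk
  have hka := f.ka
  obtain ⟨y, y1, y2, y3⟩ := f.maxa
  exact h.X (s - a - 1) s y (s + b + 1) (by omega) y1 (by omega) y3 (f.st h)

end

section

variable {b : ℤ}

/-- The near end of a gap of length `≥ k + 1` is at distance at most `b`. -/
theorem Wide.near (h : TZ k B r) (hw : Wide k r b) {u x y : ℤ} (hux : u < x)
    (hr : r u x) (hy : x + k < y) (hm : ∀ m, x < m → m < y → ¬ r u m) : x - u ≤ b := by
  by_contra hc
  refine hw.eh x ?_
  intro x' y' h1 h2 h3 h4
  exact h.hide (v := u) (x := x') (p := x) (y := y') (by omega) h2 h3 hr (hm y' h3 (by omega))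

/-- The near end of a gap of length `≥ b + 2` is at distance at most `k - 1`. -/
theorem Wide.near' (h : TZ k B r) (hw : Wide k r b) {u x y : ℤ} (hux : u < x)
    (hr : r u x) (hy : x + b + 1 < y) (hm : ∀ m, x < m → m < y → ¬ r u m) : x - u < k := by
  by_contra hc
  refine hw.ew x ?_
  intro x' y' h1 h2 h3 h4
  exact h.hide (v := u) (x := x') (p := x) (y := y') (by omega) h2 h3 hr (hm y' h3 (by omega))

/-- There is no forward lap of `u` at a distance of more than `b` from the sight `p` before it. -/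
theorem Wide.nolap (h : TZ k B r) (hw : Wide k r b) {u p : ℤ} (hp : u + b < p) (hup : u < p)
    (hr : r u p) {z : ℤ} (hz : p < z) : ¬ LapP k (Tf r u) z := by
  rintro ⟨h1, q, q1, q2, q3, q4⟩
  have hpq : p ≤ q := by
    by_contra hc
    exact q3 p (by omega) hz ⟨hup, hr⟩
  have hkz : k ≤ z - q := Int.le_of_dvd (by omega) q4
  have h2 := hw.near h (u := u) (x := q) (y := z + 1) q2.1 q2.2 (by omega) fun m m1 m2 m3 => by
    rcases (show m ≤ z by omega).lt_or_eq with h3 | h3
    · exact q3 m m1 h3 ⟨by have := q2.1; omega, m3⟩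
    · rw [h3] at m3
      exact h1 ⟨by have := q2.1; omega, m3⟩
  omega

/-- No lap of the corner `x` of a hidden strip inside `[T, x]`: the rows `(T, x)` hide `(x, y)`,
`y - x ≥ b + 1`, and `x ~ T`. -/
theorem Wide.nolapT (h : TZ k B r) (hw : Wide k r b) {T x y : ℤ} (hTx : T < x)
    (hxT : r x T) (hy : x + b + 1 ≤ y)
    (hh : ∀ x' y', T < x' → x' < x → x < y' → y' < y → ¬ r x' y') {z : ℤ} (hz : -x < z)
    (hzT : z ≤ -T) : ¬ LapP k (Tf (VisMap.mirror r) (-x)) z := by
  rintro ⟨h1, q, q1, q2, q3, q4⟩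
  have hkz : k ≤ z - q := Int.le_of_dvd (by omega) q4
  have hk := h.hk
  have e : ∀ m : ℤ, VisMap.mirror r (-x) (-m) ↔ r x m := fun m => by
    show r (- -x) (- -m) ↔ _
    rw [neg_neg, neg_neg]
  have e' : ∀ m : ℤ, VisMap.mirror r (-x) m ↔ r x (-m) := fun m => by
    show r (- -x) (-m) ↔ _
    rw [neg_neg]
  have hqx : r x (-q) := (e' q).1 q2.2
  have hqx1 := q2.1
  -- the vertices of `[-z, -q)` are hidden from `x`
  have hhid : ∀ m, -z ≤ m → m < -q → ¬ r x m := by
    intro m m1 m2 m3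
    rcases (show -m ≤ z by omega).lt_or_eq with h3 | h3
    · exact q3 (-m) (by omega) h3 ⟨by omega, (e m).2 m3⟩
    · refine h1 ⟨by omega, ?_⟩
      rw [← h3]
      exact (e m).2 m3
  have hTz : T < -z := by
    rcases (show T ≤ -z by omega).lt_or_eq with h3 | h3
    · exact h3
    · exact absurd hxT (hhid T (by omega) (by omega))
  refine hw.ew (-q) ?_
  intro x' y' a1 a2 a3 a4
  have hx' : ¬ r x x' := hhid x' (by omega) a2
  rcases lt_or_ge x y' with h3 | h3
  · exact hh x' y' (by omega) (by omega) h3 (by omega)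
  · have := h.hide' (v := x') (x := y') (p := -q) (y := x) a2 a3 h3 hqx hx'
    exact fun h4 => this (h.symm _ _ h4)

end

end Tw

end VisMap
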