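import Pool.Agent.Lib.MP_9f3af0_lcC.WTop

/-!
# MP_9f3af0_lc: hills and hidden rectangles (helper95, helper96, helper78, helper42)

Only the crossing rule and the neighbour rules are used, and for `alpha` and `beta` the periodicity
of the pairs at a distance of more than `d`.
-/

namespace VisMap

namespace Tw

open Tp

variable {k B : ℤ} {r : ℤ → ℤ → Prop}

/-- helper95's hill lemma: if `x` sees `y` and hides `(y, t)` and `y` hides `(w, x)`, then
`(w, x) × (y, t)` is hidden. -/
theorem TZ.hill (h : TZ k B r) {w x y t : ℤ} (hxy : x < y) (hv : r x y)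
    (hx : ∀ z, y < z → z < t → ¬ r x z) (hy : ∀ z, w < z → z < x → ¬ r z y) {z1 z2 : ℤ}
    (h1 : w < z1) (h2 : z1 < x) (h3 : y < z2) (h4 : z2 < t) : ¬ r z1 z2 := by
  intro hr
  -- the least `z2`
  obtain ⟨b, ⟨b1, b2, a0, a01, a02, a03⟩, hbmin⟩ := Int.exists_least_of_bdd
    (P := fun b => y < b ∧ b < t ∧ ∃ a, w < a ∧ a < x ∧ r a b) ⟨y, fun z hz => hz.1.le⟩
    ⟨z2, h3, h4, z1, h1, h2, hr⟩
  -- the greatest `z1`
  obtain ⟨a, ⟨a1, a2, a3⟩, hamax⟩ := Int.exists_greatest_of_bdd
    (P := fun a => w < a ∧ a < x ∧ r a b) ⟨x, fun z hz => hz.2.1.le⟩ ⟨a0, a01, a02, a03⟩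
  -- the next sight of `b` above `a`
  obtain ⟨p, p1, p2, p3, p4⟩ := exists_first (p := fun z => r b z) (a := a + 1) (b := b - 1)
    (by omega) (h.pred b)
  have hpa : r p a := h.cn' b p a (by omega) (by omega) p3 (h.symm _ _ a3)
    fun m m1 m2 => p4 m (by omega) m2
  rcases lt_trichotomy p x with hp | hp | hp
  · have := hamax p ⟨by omega, hp, h.symm _ _ p3⟩
    omega
  · rw [hp] at p3
    exact hx b b1 b2 (h.symm _ _ p3)
  · rcases lt_trichotomy p y with hq | hq | hq
    · exact hx b b1 b2 (h.X x p y b hp hq b1 hv (h.symm _ _ p3))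
    · rw [hq] at hpa
      exact hy a a1 a2 (h.symm _ _ hpa)
    · have := hbmin p ⟨hq, by omega, a, a1, a2, h.symm _ _ hpa⟩
      omega

/-- helper96's (T1): `p` sees `t`, `u` sees `y`, `y` hides `[p, u)`; then `u` sees something in
`(y, t]`. -/
theorem TZ.t1 (h : TZ k B r) {p u y t : ℤ} (hpu : p < u) (huy : u < y) (hyt : y < t) (hpt : r p t)
    (huv : r u y) (hy : ∀ z, p ≤ z → z < u → ¬ r z y) : ∃ z, y < z ∧ z ≤ t ∧ r u z := by
  obtain ⟨c, ⟨c1, c2, z, z1, z2, z3⟩, hcmax⟩ := Int.exists_greatest_of_bdd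
    (P := fun c => p ≤ c ∧ c ≤ u ∧ ∃ z, y < z ∧ z ≤ t ∧ r c z) ⟨u, fun z hz => hz.2.1⟩
    ⟨p, le_rfl, hpu.le, t, hyt, le_rfl, hpt⟩
  rcases c2.lt_or_eq with hc | hc
  · exfalso
    have hcy := hy c c1 hc
    -- the gap of `c` over `y`
    obtain ⟨e, e1, e2, e3, e4⟩ := h.last (v := c) (a := y) (by omega)
    obtain ⟨f, f1, f2, f3, f4⟩ := exists_first (p := fun z => r c z) (a := y + 1) (b := z)
      (by omega) z3
    have hey : e ≠ y := fun he => hcy (by rw [← he]; exact e3)
    have hef : r e f := h.cn c e f e1 (by omega) e3 f3 fun m m1 m2 => by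
      rcases le_or_gt m y with hm | hm
      · exact e4 m m1 hm
      · exact f4 m (by omega) m2
    rcases le_or_gt e u with heu | heu
    · have := hcmax e ⟨by omega, heu, f, by omega, by omega, hef⟩
      omega
    · exact h.hide (v := c) (x := u) (p := e) (y := y) hc.le heu (by omega) e3 hcy huv
  · rw [hc] at z3
    exact ⟨z, z1, z2, z3⟩

/-- The mirror image of (T1). -/
theorem TZ.t1' (h : TZ k B r) {p u y t : ℤ} (hpu : u < p) (huy : y < u) (hyt : t < y) (hpt : r p t)
    (huv : r u y) (hy : ∀ z, u < z → z ≤ p → ¬ r z y) : ∃ z, t ≤ z ∧ z < y ∧ r u z := by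
  obtain ⟨z, z1, z2, z3⟩ := h.mirror.t1 (p := -p) (u := -u) (y := -y) (t := -t) (by omega) (by omega)
    (by omega) ((mir_iff p t).2 hpt) ((mir_iff u y).2 huv) (fun z z1 z2 z3 => by
      have e : z = - -z := by ring
      rw [e] at z3
      exact hy (-z) (by omega) (by omega) ((mir_iff (-z) y).1 z3))
  refine ⟨-z, by omega, by omega, ?_⟩
  have e : z = - -z := by ring
  rw [e] at z3
  exact (mir_iff u (-z)).1 z3

theorem PerAt.mirror {d : ℤ} (hs : ∀ a b, r a b → r b a) (hp : PerAt k r d) :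
    PerAt k (VisMap.mirror r) d := by
  intro x
  have h1 := hp (-x - d - k)
  have e1 : -x - d - k + d = -x - k := by ring
  have e2 : -x - d - k + k = -x - d := by ring
  have e3 : -x - d - k + k + d = -x := by ring
  rw [e1, e3, e2] at h1
  have e4 : x + d = - (-x - d) := by ring
  have e5 : x + k + d = - (-x - d - k) := by ring
  have e6 : x + k = - (-x - k) := by ring
  have e7 : x = - -x := by ring
  constructor
  · intro h2
    rw [e5, e6]
    refine (mir_iff _ _).2 (hs _ _ (h1.2 (hs _ _ ?_)))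
    rw [e4] at h2
    nth_rewrite 1 [e7] at h2
    exact (mir_iff _ _).1 h2
  · intro h2
    rw [e5, e6] at h2
    rw [e4]
    nth_rewrite 1 [e7]
    exact (mir_iff _ _).2 (hs _ _ (h1.1 (hs _ _ ((mir_iff _ _).1 h2))))

/-- helper42's (alpha): if all pairs at a distance of more than `d` are periodic, no row has a gap
`(s, t)` with `d ≤ s - v` and `k < t - s`. -/
theorem TZ.alpha (h : TZ k B r) {d v s : ℤ} (hp : ∀ e, d < e → PerAt k r e) (hkd : k ≤ d)
    (hs : d ≤ s - v) (hv : r v s) : ∃ t, s < t ∧ t ≤ s + k ∧ r v t := by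
  have hk := h.hk
  by_contra hcon
  push Not at hcon
  obtain ⟨t, t1, t2, t3, -⟩ := h.next (v := v) (a := s) (by omega)
  have hts : s + k < t := by
    by_contra hc
    exact hcon t t1 (by omega) t2
  -- the column `t - k`
  have hy0 : ¬ r v (t - k) := t3 _ (by omega) (by omega)
  have hy1 : r (v - k) (t - k) := (PerAt.pair hp (x := v) (y := t) (by omega) ⟨-1, by ring⟩
    (by ring)).1 t2
  obtain ⟨p, p1, p2, p3⟩ := exists_last (p := fun z => r (t - k) z) (a := v - k) (b := v - 1)
    (by omega) (h.symm _ _ hy1)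
  obtain ⟨p4, p5⟩ := p3
  obtain ⟨q, q1, q2, q3, q4⟩ := exists_first (p := fun z => r (t - k) z) (a := v + 1)
    (b := t - k - 1) (by omega) (h.pred (t - k))
  have hsq : s ≤ q := by
    by_contra hc
    exact h.hide' (v := v) (x := s) (p := q) (y := t - k) (by omega) (by omega) (by omega) q3
      (fun h2 => hy0 (h.symm _ _ h2)) (h.symm _ _ hv)
  have hpq : r q p := h.cn' (t - k) q p (by omega) (by omega) q3 p4 fun m m1 m2 m3 => by
    rcases lt_trichotomy m v with hm | hm | hm
    · exact p5 m m1 (by omega) m3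
    · rw [hm] at m3
      exact hy0 (h.symm _ _ m3)
    · exact q4 m (by omega) m2 m3
  have h3 : r (p + k) (q + k) := (PerAt.pair hp (x := p) (y := q) (by omega) ⟨1, by ring⟩
    (by ring)).1 (h.symm _ _ hpq)
  have h4 : r v (q + k) := by
    rcases (show v ≤ p + k by omega).lt_or_eq with hl | he
    · exact h.X v (p + k) s (q + k) hl (by omega) (by omega) hv h3
    · rw [he]
      exact h3
  exact t3 (q + k) (by omega) (by omega) h4

/-- The mirror image of (alpha). -/
theorem TZ.alpha' (h : TZ k B r) {d v s : ℤ} (hp : ∀ e, d < e → PerAt k r e) (hkd : k ≤ d)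
    (hs : d ≤ v - s) (hv : r v s) : ∃ t, s - k ≤ t ∧ t < s ∧ r v t := by
  obtain ⟨t, t1, t2, t3⟩ := h.mirror.alpha (d := d) (v := -v) (s := -s)
    (fun e he => (hp e he).mirror h.symm) hkd (by omega) ((mir_iff v s).2 hv)
  refine ⟨-t, by omega, by omega, ?_⟩
  have e : t = - -t := by ring
  rw [e] at t3
  exact (mir_iff v (-t)).1 t3

/-- helper42's (beta), first step. -/
theorem TZ.beta1 (h : TZ k B r) {d v : ℤ} (hp : ∀ e, d < e → PerAt k r e) (hkd : k ≤ d)
    (hv : r v (v + d)) : r v (v + d + k) := by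
  have hk := h.hk
  obtain ⟨t, t1, t2, t3⟩ := h.alpha (s := v + d) hp hkd (by omega) hv
  rcases t2.lt_or_eq with hl | he
  · have h1 : r (v - k) (t - k) := (PerAt.pair hp (x := v) (y := t) (by omega) ⟨-1, by ring⟩
      (by ring)).1 t3
    have h2 : r (v - k) (v + d) := h.X (v - k) v (t - k) (v + d) (by omega) (by omega) (by omega) h1 hv
    exact (PerAt.pair hp (x := v - k) (y := v + d) (by omega) ⟨1, by ring⟩ (by ring)).1 h2
  · rw [← he]
    exact t3

/-- helper42's (beta): if `v` sees `v + d`, it sees all `v + d + k b`. -/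
theorem TZ.beta (h : TZ k B r) {d v : ℤ} (hp : ∀ e, d < e → PerAt k r e) (hkd : k ≤ d)
    (hv : r v (v + d)) (b : ℕ) : r v (v + d + k * b) := by
  have hk := h.hk
  have key : ∀ b : ℕ, r v (v + d + k * (b + 1 : ℕ)) := by
    intro b
    induction b with
    | zero =>
      have := h.beta1 hp hkd hv
      simpa using this
    | succ b ih =>
      have hb : 0 ≤ k * (b : ℤ) := by positivity
      have e0 : v + d + k * ((b + 1 : ℕ) : ℤ) = v + d + k * b + k := by push_cast; ring
      have e1 : v + d + k * ((b + 1 + 1 : ℕ) : ℤ) = v + d + k * b + k + k := by push_cast; ring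
      rw [e0] at ih
      rw [e1]
      have h1 : r (v + k) (v + d + k * b + k + k) :=
        (PerAt.pair hp (x := v) (y := v + d + k * b + k) (by omega) ⟨1, by ring⟩ (by ring)).1 ih
      exact h.X v (v + k) (v + d + k * b + k) (v + d + k * b + k + k) (by omega) (by omega) (by omega)
        ih h1
  rcases b with - | b
  · simpa using hv
  · exact key b

end Tw

end VisMap
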