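import Pool.Agent.Lib.MP_9f3af0_lcC.WSide3
import Pool.Agent.Lib.MP_9f3af0_lcC.WOne

/-!
# MP_9f3af0_lc: the facing picture for `k = 3` (helper80), first part
-/

namespace VisMap

namespace Tw

open Tp

variable {k B : ℤ} {r : ℤ → ℤ → Prop} {c : ℕ} {l s lam T T' y : ℤ}

/-- The laps of a row that sees `v + 1` and then `q`. -/
theorem TZ.lcT_one (h : TZ k B r) {v q : ℤ} (hq : v + 1 < q) (rq : r v q)
    (hid : ∀ m, v + 1 < m → m < q → ¬ r v m) :
    (lcT k (Tf r v) v q : ℤ) = (q - 2 - v) / k := by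
  rw [lcT_split (a := v) (b := v + 1) (c := q) (by omega) hq.le,
    lcT_seen (T := Tf r v) ⟨by omega, h.succ v⟩, zero_add,
    lcT_gap h.hk hq ⟨by omega, h.succ v⟩ ⟨by omega, rq⟩ (fun m m1 m2 m3 => hid m m1 m2 m3.2)]
  congr 1
  ring

theorem Pic3.mod (h : TZ 3 B r) (P : Pic3 B r c l s lam T') {v : ℤ}
    (hv : laps 3 B r v = c) : (3 : ℤ) ∣ v - s := by
  have h1 := P.h1
  have h2 := P.h2
  by_contra hc
  rcases (show (3 : ℤ) ∣ v - (s + 1) ∨ (3 : ℤ) ∣ v - (s + 2) by omega) with h3 | h3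
  · rw [← h.laps_class h3, hv] at h1
    omega
  · rw [← h.laps_class h3, hv] at h2
    omega

theorem Pic3.hcol (h : TZ 3 B r) (P : Pic3 B r c l s lam T') {x z : ℤ} (h1 : s < x)
    (h2 : x < s + 3 * lam + 3) (h3 : s + 3 * lam + 3 < z) (h4 : z < T') : ¬ r x z :=
  h.hide (v := s + 1) (x := x) (p := s + 3 * lam + 3) (y := z) (by omega) h2 h3
    (h.symm _ _ P.Hg) (P.ghid z h3 h4)

/-- The laps of `s`. -/
theorem Pic3.lf_s (h : TZ 3 B r) (P : Pic3 B r c l s lam T') :
    (lcT 3 (Tf r s) s (s + 3 * lam + 3) : ℤ) = lam ∧ (lf 3 B r s : ℤ) = lam := by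
  have hlam := P.lam1
  have hlen := P.len
  have e0 : (lcT 3 (Tf r s) s (s + 3 * lam + 3) : ℤ) = lam := by
    rcases P.len with ⟨l1, l2⟩ | ⟨l1, l2⟩
    · rw [h.lcT_one (by omega) P.sH (fun m m1 m2 => by
        rcases (show m ≤ s + 3 * lam + 2 by omega).lt_or_eq with h1 | h1
        · exact P.shid m m1 h1
        · rw [h1]; exact l2)]
      omega
    · have e1 := lcT_split (k := 3) (T := Tf r s) (a := s) (b := s + 3 * lam + 2)
        (c := s + 3 * lam + 3) (by omega) (by omega)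
      have e2 := h.lcT_one (v := s) (q := s + 3 * lam + 2) (by omega) l2 P.shid
      have e3 := lcT_seen (k := 3) (T := Tf r s) (a := s + 3 * lam + 2) (by
        have e : s + 3 * lam + 2 + 1 = s + 3 * lam + 3 := by ring
        rw [e]
        exact ⟨by omega, P.sH⟩)
      have e : s + 3 * lam + 2 + 1 = s + 3 * lam + 3 := by ring
      rw [e] at e3
      omega
  refine ⟨e0, ?_⟩
  have e1 := h.lf_split (v := s) (a := s + 3 * lam + 3) (by omega)
  have e2 : lfx 3 B r s (s + 3 * lam + 3) = 0 := by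
    unfold lfx
    exact lcT_eq_zero fun z z1 _ => h.nolap_b (closC l) P.cl P.hs (by omega) P.sH (by omega)
      (by omega) z1
  omega

/-- The side of the columns. -/
theorem Pic3.side2 (h : TZ 3 B r) (P : Pic3 B r c l s lam T') :
    Side3 B (VisMap.mirror r) c l (-(s + 3 * lam + 3)) (-s) (-T') lam := by
  have hlam := P.lam1
  have hlen := P.len
  have hH : laps 3 B r (s + 3 * lam + 3) = c := by
    rw [h.laps_class (v := s) (v' := s + 3 * lam + 3) ⟨lam + 1, by ring⟩]
    exact P.hs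
  have e' : ∀ m : ℤ, VisMap.mirror r (-(s + 3 * lam + 3)) m ↔ r (s + 3 * lam + 3) (-m) :=
    fun m => by
      show r (- -(s + 3 * lam + 3)) (-m) ↔ _
      rw [neg_neg]
  have e0 : (lcT 3 (Tf (VisMap.mirror r) (-(s + 3 * lam + 3))) (-(s + 3 * lam + 3)) (-s) : ℤ)
      = lam := by
    have e1 := lcT_split (k := 3) (T := Tf (VisMap.mirror r) (-(s + 3 * lam + 3)))
      (a := -(s + 3 * lam + 3)) (b := -(s + 1)) (c := -s) (by omega) (by omega)
    have e2 := h.mirror.lcT_one (v := -(s + 3 * lam + 3)) (q := -(s + 1)) (by omega)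
      ((e' _).2 (by rw [neg_neg]; exact P.Hg)) (fun m m1 m2 m3 => by
        exact P.Hhid (-m) (by omega) (by omega) ((e' _).1 m3))
    have e3 := lcT_seen (k := 3) (T := Tf (VisMap.mirror r) (-(s + 3 * lam + 3)))
      (a := -(s + 1)) (by
        have e : -(s + 1) + 1 = -s := by ring
        rw [e]
        exact ⟨by omega, (e' _).2 (by rw [neg_neg]; exact h.symm _ _ P.sH)⟩)
    have e : -(s + 1) + 1 = -s := by ring
    rw [e] at e3
    omega
  refine ⟨P.cl.mir, hlam, by rw [laps_mirror', hH], fun v hv => ?_, fun x z x1 x2 z1 z2 hr => ?_,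
    by omega, by omega, by omega, ?_, ?_, ?_⟩
  · have h1 : laps 3 B r (-v) = c := by
      rw [← laps_mirror', neg_neg]
      exact hv
    have h2 := P.mod h h1
    omega
  · exact P.hcol h (x := -z) (z := -x) (by omega) (by omega) (by omega) (by omega)
      (h.symm _ _ hr)
  · have e1 := h.mirror.lf_split (v := -(s + 3 * lam + 3)) (a := -s) (by omega)
    have e2 : lfx 3 B (VisMap.mirror r) (-(s + 3 * lam + 3)) (-s) = 0 := by
      unfold lfx
      exact lcT_eq_zero fun z z1 _ => h.mirror.nolap_b (closC l) P.cl.mir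
        (by rw [laps_mirror', hH]) (by omega)
        ((e' _).2 (by rw [neg_neg]; exact h.symm _ _ P.sH)) (by omega) (by omega) z1
    omega
  · have e : -(s + 3 * lam + 3) + 3 * lam + 3 = -s := by ring
    rw [e]
    exact e0
  · have e : -(s + 3 * lam + 3) + 3 * lam + 3 = -s := by ring
    rw [e]
    exact (e' _).2 (by rw [neg_neg]; exact h.symm _ _ P.sH)

/-- The rows `s - 1`, `s - 2` hide `(s, H + 3 i]`. -/
theorem Pic3.hid2 (h : TZ 3 B r) (P : Pic3 B r c l s lam T') {i e : ℤ} (hi : 0 ≤ i)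
    (hT : s + 3 * lam + 3 + 3 * (i + 1) < T') (he : 1 ≤ e) (he2 : e ≤ 2) {x : ℤ} (h1 : s < x)
    (h2 : x ≤ s + 3 * lam + 3 + 3 * i) : ¬ r (s - e) x := by
  have hlam := P.lam1
  have S := P.side2 h
  have f1 := S.holeFar h.mirror (i := i) (e := e) hi (by omega) he (by omega)
  have f2 := S.seeH h.mirror (i := i) hi (by omega)
  have e1 : -(s + 3 * lam + 3) - 3 * i = -(s + 3 * lam + 3 + 3 * i) := by ring
  have e2 : -(s + 3 * lam + 3) + 3 * lam + 3 + e = -(s - e) := by ring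
  have e3 : -(s + 3 * lam + 3) + 3 * lam + 3 = -s := by ring
  rw [e1, e2, mir_iff] at f1
  rw [e1, e3, mir_iff] at f2
  exact fun h3 => h.hide' (v := s - e) (x := x) (p := s) (y := s + 3 * lam + 3 + 3 * i)
    (by omega) h1 h2 f2 f1 (h.symm _ _ h3)

/-- `s ~ s - 3`. -/
theorem Pic3.s3 (h : TZ 3 B r) (P : Pic3 B r c l s lam T') : r (s - 3) s := by
  have hlam := P.lam1
  have hlen := P.len
  have hT' := P.T'3
  have hid : ∀ e x, 1 ≤ e → e ≤ 2 → s < x → x ≤ s + 3 * lam + 3 → ¬ r (s - e) x := by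
    intro e x e1 e2 x1 x2
    exact P.hid2 h (i := 0) le_rfl (by omega) e1 e2 x1 (by omega)
  by_contra hc
  obtain ⟨u, u1, u2, u3, u4⟩ := h.last (v := s - 3) (a := s) (by omega)
  obtain ⟨q, q1, q2, q3, -⟩ := h.next (v := s - 3) (a := s) (by omega)
  have hu : u < s := by
    rcases u2.lt_or_eq with h1 | h1
    · exact h1
    · rw [h1] at u3; exact absurd u3 hc
  have hg : Tp.Gp r (s - 3) u q := ⟨u1, by omega, u3, q2, fun m m1 m2 => by
    rcases le_or_gt m s with h1 | h1
    · exact u4 m m1 h1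
    · exact q3 m h1 m2⟩
  have huq := h.cn (s - 3) u q hg.1 hg.2.1 hg.2.2.1 hg.2.2.2.1 hg.2.2.2.2
  have hq : s + 3 * lam + 3 < q := by
    by_contra hc2
    have := hid (s - u) q (by omega) (by omega) q1 (by omega)
    rw [sub_sub_cancel] at this
    exact this huq
  have hc3 : laps 3 B r (s - 3) = c := by
    rw [h.laps_class (v := s) (v' := s - 3) ⟨-1, by ring⟩]
    exact P.hs
  have := P.mod h (P.cl.nf _ _ _ hc3 hg (by omega))
  omega

/-- No laps of `s + 1` beyond `T'`. -/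
theorem Pic3.nolap (h : TZ 3 B r) (P : Pic3 B r c l s lam T') :
    lfx 3 B r (s + 1) T' = 0 := by
  have hlam := P.lam1
  have hlen := P.len
  have hT' := P.T'3
  unfold lfx
  refine lcT_eq_zero fun z z1 _ => ?_
  rintro ⟨n1, p, p1, ⟨p2, p3⟩, p4, p5⟩
  have hkz := Int.le_of_dvd (by omega) p5
  have hTp : T' ≤ p := by
    by_contra hc
    exact p4 T' (by omega) z1 ⟨by omega, P.gT'⟩
  -- the rows `[s + 1, p)` hide `(p, z]`
  have hrect : ∀ x m, s + 1 ≤ x → x < p → p < m → m ≤ z → ¬ r x m := by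
    intro x m x1 x2 m1 m2
    refine h.hide (v := s + 1) (x := x) (p := p) (y := m) x1 x2 m1 p3 ?_
    rcases m2.lt_or_eq with h1 | h1
    · exact fun h2 => p4 m m1 h1 ⟨by omega, h2⟩
    · rw [h1]
      exact fun h2 => n1 ⟨by omega, h2⟩
  obtain ⟨w, w1, w2, w3⟩ := P.cl.block h p
  obtain ⟨y0, a1, a2, a3, a4⟩ := h.last' (v := w) (a := s + 1) (by omega)
  obtain ⟨x, b1, b2, b3, -⟩ := h.next' (v := w) (a := s + 1) (by omega)
  have hy0 : p ≤ y0 := by
    by_contra hc
    exact hrect y0 w a1 (by omega) w1 (by omega) (h.symm _ _ a3)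
  have hm : ∀ m, x < m → m < y0 → ¬ r w m := by
    intro m m1 m2
    rcases lt_or_ge m (s + 1) with h3 | h3
    · exact b3 m m1 h3
    · exact a4 m h3 m2
  obtain ⟨f1, f2, f3, f4⟩ := h.f5' (closC l) P.cl w3 (by omega) a2 a3 b2 hm (by omega) (by omega)
  have d1 := P.mod h w3
  have d2 := P.mod h f1
  have hyp : y0 = p := by omega
  subst hyp
  -- all laps of the column `y0` are above `s + 1`
  have e' : ∀ m : ℤ, VisMap.mirror r (-y0) m ↔ r y0 (-m) := fun m => by
    show r (- -y0) (-m) ↔ _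
    rw [neg_neg]
  have g1 := h.mirror.lf_split (v := -y0) (a := -(s + 1)) (by omega)
  have g2 : lfx 3 B (VisMap.mirror r) (-y0) (-(s + 1)) = 0 := by
    unfold lfx
    exact lcT_eq_zero fun z z1 _ => h.mirror.nolap_b (closC l) P.cl.mir
      (by rw [laps_mirror', f1]) (by omega)
      ((e' _).2 (by rw [neg_neg]; exact h.symm _ _ p3)) (by omega) (by omega) z1
  have g3 : lf 3 B (VisMap.mirror r) (-y0) = lb 3 B r y0 := rfl
  obtain ⟨w', c1, c2, c3, -⟩ := h.next' (v := y0) (a := y0 - 1) (by omega)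
  have hw' : s + 1 ≤ w' := by
    by_contra hc
    exact c3 (s + 1) (by omega) (by omega) (h.symm _ _ p3)
  rcases hw'.lt_or_eq with h1 | h1
  · -- a sight inside
    have k1 := lcT_split (k := 3) (T := Tf (VisMap.mirror r) (-y0)) (a := -y0) (b := -(y0 - 1))
      (c := -(s + 1)) (by omega) (by omega)
    have k2 := lcT_split (k := 3) (T := Tf (VisMap.mirror r) (-y0)) (a := -(y0 - 1)) (b := -w')
      (c := -(s + 1)) (by omega) (by omega)
    have k3 : lcT 3 (Tf (VisMap.mirror r) (-y0)) (-y0) (-(y0 - 1)) = 0 := by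
      have e : -(y0 - 1) = -y0 + 1 := by ring
      rw [e]
      exact lcT_seen ⟨by omega, (e' _).2 (by
        have e2 : -(-y0 + 1) = y0 - 1 := by ring
        rw [e2]; exact h.pred y0)⟩
    have k4 := lcT_lt h.hk (T := Tf (VisMap.mirror r) (-y0)) (a := -(y0 - 1)) (b := -w')
      (by omega) ⟨by omega, (e' _).2 (by rw [neg_neg]; exact h.pred y0)⟩
      ⟨by omega, (e' _).2 (by rw [neg_neg]; exact c2)⟩
    have k5 := lcT_lt h.hk (T := Tf (VisMap.mirror r) (-y0)) (a := -w') (b := -(s + 1))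
      (by omega) ⟨by omega, (e' _).2 (by rw [neg_neg]; exact c2)⟩
      ⟨by omega, (e' _).2 (by rw [neg_neg]; exact h.symm _ _ p3)⟩
    omega
  · -- the gap `(s + 1, y0 - 1)`
    subst h1
    have k1 := P.cl.nb _ _ _ (by rw [laps_mirror', f1])
      (gp_mirror (r := r) (z := y0) (p := y0 - 1) (q := s + 1) (by omega) (by omega) (h.pred y0)
        (h.symm _ _ p3) c3) (by omega)
    rw [laps_mirror'] at k1
    have d3 := P.mod h k1
    omega

end Tw

end VisMap
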