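import Pool.Agent.Lib.MP_9f3af0_lcC.WCorner

/-!
# MP_9f3af0_lc: helper5's Lemma L (Lean by helper59)

`FatF k r s a b` is the widest fat rectangle, `τ = b / k`, `ν - 1 = b % k`, `R = a / k`.  The classes
`s + 1, ..., s + ν - 1` have at least `laps s + R` laps (`FatF.lemL`).
-/

namespace VisMap

namespace Tw

open Tp

variable {k B s a b : ℤ} {r : ℤ → ℤ → Prop}

/-- Transport of a sight to a mate: the natural offset is the same. -/
theorem TZ.transport (h : TZ k B r) {v v' z : ℤ} (hv : k ∣ v' - v) (hz : v < z)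
    (hzB : z ≤ v + B + 1) (hr : r v z) :
    ∃ z', v' < z' ∧ r v' z' ∧
      z' - v' - k * lcT k (Tf r v') v' z' = z - v - k * lcT k (Tf r v) v z :=
  h.tr v v' z hv hz hzB hr

/-- The sides of a fat rectangle. -/
theorem FatF.abB (h : TZ k B r) (f : FatF k r s a b) : a + b ≤ B := by
  have hk := h.hk
  have hka := f.ka
  have hkb := f.kb
  have := (h.near (f.hid (s - a) (s + b) le_rfl (by omega) (by omega) le_rfl)).1
  omega

/-- The laps up to `z` are at most all forward laps. -/
theorem TZ.lcT_le_lf (h : TZ k B r) {v z : ℤ} (hz : v ≤ z) :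
    lcT k (Tf r v) v z ≤ lf k B r v := by
  rw [h.lf_eq (v := v) (M := max (v + B) z) (le_max_left _ _),
    lcT_split (a := v) (b := z) (c := max (v + B) z) hz (le_max_right _ _)]
  exact Nat.le_add_right _ _

private theorem mirror_mirror (r : ℤ → ℤ → Prop) : VisMap.mirror (VisMap.mirror r) = r := by
  funext a b
  show r (- -a) (- -b) = r a b
  rw [neg_neg, neg_neg]

theorem lb_mirror' (v : ℤ) : lb k B (VisMap.mirror r) (-v) = lf k B r v := by
  unfold lb
  rw [mirror_mirror, neg_neg]

theorem lf_mirror' (v : ℤ) : lf k B (VisMap.mirror r) (-v) = lb k B r v := rfl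

theorem laps_mirror' (v : ℤ) : laps k B (VisMap.mirror r) (-v) = laps k B r v := by
  unfold laps
  rw [lb_mirror', lf_mirror', add_comm]

theorem mir_iff (a b : ℤ) : VisMap.mirror r (-a) (-b) ↔ r a b := by
  show r (- -a) (- -b) ↔ _
  rw [neg_neg, neg_neg]

/-- Backward gaps are the forward gaps of the mirror image. -/
theorem gp_mirror {z p q : ℤ} (h1 : q < p) (h2 : p < z) (hp : r z p) (hq : r z q)
    (hm : ∀ m, q < m → m < p → ¬ r z m) : Tp.Gp (VisMap.mirror r) (-z) (-p) (-q) :=
  ⟨by omega, by omega, (mir_iff z p).2 hp, (mir_iff z q).2 hq, fun m m1 m2 m3 => by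
    have e : m = -(-m) := (neg_neg m).symm
    rw [e, mir_iff] at m3
    exact hm (-m) (by omega) (by omega) m3⟩

theorem Wide.laps_le' (h : TZ k B r) {b : ℤ} (hw : Wide k r b) (hb : 0 < b) {z p q : ℤ}
    (h1 : q + b + 1 ≤ p) (h2 : p < z) (hp : r z p) (hq : r z q)
    (hm : ∀ m, q < m → m < p → ¬ r z m) :
    lf k B r p ≤ lf k B r z ∧ lb k B r p ≤ lb k B r z ∧ laps k B r p ≤ laps k B r z := by
  have h3 := (Wide.mirror h hw).laps_le h.mirror hb (gp_mirror (by omega) h2 hp hq hm) (by omega)
  rw [lf_mirror', lf_mirror', lb_mirror', lb_mirror', laps_mirror', laps_mirror'] at h3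
  exact ⟨h3.2.1, h3.1, h3.2.2⟩

theorem TZ.lb_ge (h : TZ k B r) {z p q : ℤ} (h1 : q < p) (h2 : p < z) (hp : r z p) (hq : r z q)
    (hm : ∀ m, q < m → m < p → ¬ r z m) : (p - 1 - q) / k ≤ (lb k B r z : ℤ) := by
  have h3 := h.mirror.lf_ge (gp_mirror h1 h2 hp hq hm)
  rw [lf_mirror'] at h3
  have e : -q - 1 - -p = p - 1 - q := by ring
  rw [e] at h3
  exact h3

section

variable {s a b : ℤ}

/-- All laps of a mate of `s` in `(T, s]` are before its sights beyond `t`. -/
theorem FatF.lc_far (h : TZ k B r) (f : FatF k r s a b) {i z : ℤ} (hi : 0 ≤ i) (hia : k * i ≤ a)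
    (hz : s + b + 1 ≤ z) (hr : r (s - k * i) z) :
    (lcT k (Tf r (s - k * i)) (s - k * i) z : ℤ) = b / k := by
  have hk := h.hk
  have hka := f.ka
  have hkb := f.kb
  have hlf := f.lf_s h
  have hki : 0 ≤ k * i := mul_nonneg hk.le hi
  have h1 := h.lcT_le_lf (v := s - k * i) (z := z) (by omega)
  rcases hi.lt_or_eq with h2 | h2
  · have hki' : 0 < k * i := mul_pos hk h2
    rw [(f.mate h (x := s - k * i) (by omega) (by omega) ⟨-i, by ring⟩).1] at h1
    obtain ⟨x1, x2, a1, a2, a3, a4, a5, a6, a7⟩ := f.gap h (x := s - k * i) (by omega) (by omega)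
    have hx2 : x2 ≤ z := by
      by_contra hc
      exact a7 z (by omega) (by omega) hr
    have h3 := lcT_gap hk (T := Tf r (s - k * i)) (a := x1) (b := x2) a4 ⟨a3, a5⟩ ⟨by omega, a6⟩
      fun m m1 m2 m3 => a7 m m1 m2 m3.2
    have h4 := lcT_split (k := k) (T := Tf r (s - k * i)) (a := s - k * i) (b := x1) (c := z)
      a3.le (by omega)
    have h5 := lcT_split (k := k) (T := Tf r (s - k * i)) (a := x1) (b := x2) (c := z)
      a4.le hx2
    have h6 : b / k ≤ (x2 - 1 - x1) / k := Int.ediv_le_ediv hk (by omega)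
    omega
  · rw [← h2] at h1 ⊢
    have e : s - k * 0 = s := by ring
    rw [e] at h1 ⊢
    have h3 := f.wide.lf_eq h (x := s) (y := s + b + 1) (by omega) (f.st h) (by omega)
    have h4 := lcT_split (k := k) (T := Tf r s) (a := s) (b := s + b + 1) (c := z) (by omega) hz
    omega

/-- The natural holes of the word of `s`. -/
theorem FatF.hole (h : TZ k B r) (f : FatF k r s a b) {i q j : ℤ} (hi : 0 ≤ i) (hia : k * i ≤ a)
    (hj : 1 ≤ j) (hj' : j ≤ b % k) (hz : b + 1 ≤ j + k * q) (hr : r (s - k * i) (s + j + k * q))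
    (h1 : 1 ≤ q - b / k + i) (h2 : k * (q - b / k + i) ≤ a) : False := by
  have hk := h.hk
  have hka := f.ka
  have hkb := f.kb
  have hb := Int.emod_add_mul_ediv b k
  have hki : 0 ≤ k * i := mul_nonneg hk.le hi
  have hlc := f.lc_far h (i := i) (z := s + j + k * q) hi hia (by omega) hr
  set i' := q - b / k + i with hi'
  have hki' : k ≤ k * i' := le_mul_of_one_le_right hk.le h1
  have hdiv : k ∣ s - k * i' - (s - k * i) := ⟨i - i', by ring⟩
  have habB := f.abB h
  have hexp : k * i' = k * q - k * (b / k) + k * i := by rw [hi']; ring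
  obtain ⟨z', z1, z2, z3⟩ := h.transport hdiv (by omega) (by omega) hr
  rw [hlc] at z3
  have hlf := h.lcT_le_lf (v := s - k * i') (z := z') z1.le
  rw [(f.mate h (x := s - k * i') (by omega) (by omega) ⟨-i', by ring⟩).1] at hlf
  have hlf' := f.lf_s h
  generalize hL : lcT k (Tf r (s - k * i')) (s - k * i') z' = L at z3 hlf
  have hL0 : 0 ≤ k * (L : ℤ) := mul_nonneg hk.le (Int.natCast_nonneg _)
  have hL1 : k * (L : ℤ) ≤ k * (b / k) := mul_le_mul_of_nonneg_left (by omega) hk.le
  have e : z' = s + j + k * L := by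
    have e1 : k * i' = k * q - k * (b / k) + k * i := by rw [hi']; ring
    linarith
  exact f.hid (s - k * i') z' (by omega) (by omega) (by omega) (by omega) z2

/-- The far end of the gap of a mate of `s` in `(T, s)`. -/
theorem FatF.gap_far (h : TZ k B r) (f : FatF k r s a b) {i : ℤ} (hi : 1 ≤ i) (hia : k * i ≤ a) :
    ∃ x2, s + b + 1 ≤ x2 ∧ x2 ≤ s + k * (b / k + 1) ∧ r (s - k * i) x2 := by
  have hk := h.hk
  have hki' : k ≤ k * i := le_mul_of_one_le_right hk.le hi
  obtain ⟨x1, x2, a1, a2, a3⟩ := f.gap h (x := s - k * i) (by omega) (by omega)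
  refine ⟨x2, a2, ?_, a3.2.2.2.1⟩
  have h1 := h.lf_ge a3
  rw [(f.mate h (x := s - k * i) (by omega) (by omega) ⟨-i, by ring⟩).1, f.lf_s h] at h1
  have h2 : (x2 - 1 - x1) / k < b / k + 1 := by omega
  rw [Int.ediv_lt_iff_lt_mul hk, mul_comm] at h2
  omega

/-- Lemma L (helper5). -/
theorem FatF.lemL (h : TZ k B r) (f : FatF k r s a b) {j : ℤ} (hj : 1 ≤ j) (hj' : j ≤ b % k)
    {v : ℤ} (hv : k ∣ v - (s + j)) : (laps k B r s : ℤ) + a / k ≤ laps k B r v := by
  have hk := h.hk
  have hka := f.ka
  have hkb := f.kb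
  have hb := Int.emod_add_mul_ediv b k
  have hb' := Int.emod_lt_of_pos b hk
  have ha := Int.emod_add_mul_ediv a k
  have ha' := Int.emod_lt_of_pos a hk
  have ha0 := Int.emod_nonneg a hk.ne'
  set τ := b / k with hτ
  set R := a / k with hR
  have hR1 : 1 ≤ R := by
    rw [hR, Int.le_ediv_iff_mul_le hk]; omega
  have hkR : k * R ≤ a := by omega
  have hτ1 : 1 ≤ τ := by
    rw [hτ, Int.le_ediv_iff_mul_le hk]; omega
  have eo : k * (τ + 1) = k * τ + k := by ring
  have hlf := f.lf_s h
  -- the vertices `o + j'`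
  have hw : ∀ j', 1 ≤ j' → j' ≤ b % k → ¬ r s (s + j' + k * (τ + 1)) := by
    intro j' h1 h2 h3
    refine f.hole h (i := 0) (q := τ + 1) (j := j') le_rfl (by omega) h1 h2 (by omega) ?_
      (by omega) ?_
    · rw [mul_zero, sub_zero]; exact h3
    · have e : τ + 1 - τ + 0 = 1 := by ring
      rw [← hτ, e, mul_one]; exact hka
  obtain ⟨s0, s1, s2, s3, s4⟩ := exists_last (p := fun z => r s z) (a := s + b + 1)
    (b := s + k * (τ + 1)) (by omega) (f.st h)
  have hs0 : ∀ z, s0 < z → z ≤ s + j + k * (τ + 1) → ¬ r s z := by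
    intro z z1 z2
    rcases le_or_gt z (s + k * (τ + 1)) with h1 | h1
    · exact s4 z z1 h1
    · have h2 := hw (z - s - k * (τ + 1)) (by omega) (by omega)
      have e : s + (z - s - k * (τ + 1)) + k * (τ + 1) = z := by ring
      rw [e] at h2
      exact h2
  -- the chain down to `s0`
  have chain : ∀ J : ℕ, ∀ z, s0 ≤ z → z ≤ s + j + k * (τ + 1) → z - s0 ≤ J →
      lf k B r s0 ≤ lf k B r z ∧ laps k B r s0 ≤ laps k B r z := by
    intro J
    induction J with
    | zero =>
      intro z z1 z2 z3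
      have e : z = s0 := by push_cast at z3; omega
      rw [e]
      exact ⟨le_rfl, le_rfl⟩
    | succ J ih =>
      intro z z1 z2 z3
      rcases z1.lt_or_eq with h1 | h1
      · have hz := hs0 z h1 z2
        obtain ⟨p, p1, p2, p3, p4⟩ := h.last' (v := z) (a := s) (by omega)
        obtain ⟨q, q1, q2, q3, -⟩ := h.next' (v := z) (a := s) (by omega)
        have hps : s0 ≤ p := by
          by_contra hc
          exact h.hide (v := s) (x := p) (p := s0) (y := z) p1 (by omega) h1 s3 hz
            (h.symm _ _ p3)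
        have h2 := f.wide.laps_le' h (by omega) (z := z) (p := p) (q := q) (by omega) p2 p3 q2
          fun m m1 m2 => by
            rcases lt_or_ge m s with h3 | h3
            · exact q3 m m1 h3
            · exact p4 m h3 m2
        have h3 := ih p hps (by omega) (by push_cast at z3; omega)
        exact ⟨h3.1.trans h2.1, h3.2.trans h2.2.2⟩
      · rw [← h1]
        exact ⟨le_rfl, le_rfl⟩
  -- the backward laps of `s0`
  have hlb0 : (lb k B r s0 : ℤ) ≤ τ := by
    have h1 := (Wide.mirror h f.wide).lf_eq h.mirror (x := -s0) (y := -s) (by omega)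
      ((mir_iff s0 s).2 (h.symm _ _ s3)) (by omega)
    have h2 := h.mirror.lcT_le (k := k) (x := -s0) (y := -s) (by omega)
      ((mir_iff s0 s).2 (h.symm _ _ s3))
    rw [← h1, lf_mirror'] at h2
    have h3 : (-s - 1 - -s0) / k < τ + 1 := by
      rw [Int.ediv_lt_iff_lt_mul hk, mul_comm]
      omega
    omega
  have hmin0 := f.min h s0
  have hlf0 : (laps k B r s : ℤ) - τ ≤ lf k B r s0 := by
    have e : laps k B r s0 = lf k B r s0 + lb k B r s0 := rfl
    omega
  -- the vertex `w`
  set w := s + j + k * (τ + 1) with hwdef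
  have hsw : ¬ r s w := hs0 w (by omega) le_rfl
  have hclass : laps k B r v = laps k B r w := by
    refine h.laps_class (v := w) (v' := v) ?_
    obtain ⟨c, hc⟩ := hv
    exact ⟨c - (τ + 1), by rw [hwdef]; linarith⟩
  rw [hclass]
  -- `w` hides `[s - (R - 1) k, s0)`
  have hkR1 : 0 ≤ k * (R - 1) := mul_nonneg hk.le (by omega)
  have hkR2 : k * (R - 1) = k * R - k := by ring
  have hide1 : ∀ x, s - k * (R - 1) ≤ x → x < s0 → ¬ r x w := by
    intro x x1 x2
    rcases le_or_gt s x with h1 | h1
    · exact h.hide (v := s) (x := x) (p := s0) (y := w) h1 x2 (by omega) s3 hsw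
    · have hR2 : 1 ≤ R - 1 := by
        by_contra hc
        have e : R = 1 := by omega
        rw [e] at x1
        have e2 : k * ((1 : ℤ) - 1) = 0 := by ring
        omega
      obtain ⟨x2', c1, c2, c3⟩ := f.gap_far h (i := R - 1) hR2 (by omega)
      rw [← hτ] at c2
      have h2 : ¬ r (s - k * (R - 1)) w := by
        intro h3
        refine f.hole h (i := R - 1) (q := τ + 1) (j := j) (by omega) (by omega) hj hj' (by omega)
          h3 (by omega) ?_
        have e : τ + 1 - τ + (R - 1) = R := by ring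
        rw [← hτ, e]
        exact hkR
      exact h.hide (v := s - k * (R - 1)) (x := x) (p := x2') (y := w) x1 (by omega) (by omega) c3 h2
  obtain ⟨p, p1, p2, p3, p4⟩ := h.last' (v := w) (a := s) (by omega)
  obtain ⟨q, q1, q2, q3, -⟩ := h.next' (v := w) (a := s) (by omega)
  have hps : s0 ≤ p := by
    by_contra hc
    exact hide1 p (by omega) (by omega) (h.symm _ _ p3)
  have hq : q < s - k * (R - 1) := by
    by_contra hc
    exact hide1 q (by omega) (by omega) (h.symm _ _ q2)
  have hm : ∀ m, q < m → m < p → ¬ r w m := by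
    intro m m1 m2
    rcases lt_or_ge m s with h3 | h3
    · exact q3 m m1 h3
    · exact p4 m h3 m2
  obtain ⟨d1, d2⟩ := chain (w - s0).toNat w (by omega) le_rfl (by omega)
  rcases le_or_gt (s + k * (τ + 1)) p with hpo | hpo
  · -- case (A)
    have h1 := h.lb_ge (by omega) p2 p3 q2 hm
    have h2 : τ + R ≤ (p - 1 - q) / k := by
      rw [Int.le_ediv_iff_mul_le hk, mul_comm]
      have e : k * (τ + R) = k * τ + k * R := by ring
      omega
    have e : laps k B r w = lf k B r w + lb k B r w := rfl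
    omega
  · -- case (B)
    have h0 := f.wide.laps_le' h (by omega) (z := w) (p := p) (q := q) (by omega) p2 p3 q2 hm
    set g := s + k * (τ + 1) - p with hg
    have hx : k ∣ s - g - p := ⟨-(τ + 1), by rw [hg]; ring⟩
    obtain ⟨z', z1, z2, z3⟩ := h.transport hx p2 (by have := f.abB h; omega) (h.symm _ _ p3)
    have hl0 : (lcT k (Tf r p) p w : ℤ) ≤ (w - 1 - p) / k := h.lcT_le p2 (h.symm _ _ p3)
    have hl1 : (w - 1 - p) / k = 0 := Int.ediv_eq_zero_of_lt (by omega) (by omega)
    have hl2 : (lcT k (Tf r p) p w : ℤ) = 0 := by omega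
    rw [hl2, mul_zero, sub_zero] at z3
    have hLlf := h.lcT_le_lf (v := s - g) (z := z') z1.le
    generalize hL : lcT k (Tf r (s - g)) (s - g) z' = L at z3 hLlf
    have ez : z' = s + j + k * L := by
      have e1 : w - p = j + g := by rw [hg, hwdef]; ring
      linarith
    have hL0 : 0 ≤ k * (L : ℤ) := mul_nonneg hk.le (Int.natCast_nonneg _)
    have hzt : s + b + 1 ≤ z' := by
      by_contra hc
      exact f.hid (s - g) z' (by omega) (by omega) (by omega) (by omega) z2
    have hLτ : τ + 1 ≤ (L : ℤ) := by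
      have h3 : k * τ < k * (L : ℤ) := by omega
      have := lt_of_mul_lt_mul_left h3 hk.le
      omega
    have hkL : k * (τ + 1) ≤ k * (L : ℤ) := mul_le_mul_of_nonneg_left hLτ hk.le
    obtain ⟨t1, c1, c2, c3⟩ := f.gap_far h (i := 1) le_rfl (by rw [mul_one]; exact hka)
    rw [mul_one] at c3
    rw [← hτ] at c2
    have h4 := h.X (s - k) (s - g) t1 z' (by omega) (by omega) (by omega) c3 z2
    have hRL : R < (L : ℤ) - τ + 1 := by
      by_contra hc
      refine f.hole h (i := 1) (q := L) (j := j) (by omega) (by omega) hj hj' (by omega) ?_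
        (by omega) ?_
      · rw [mul_one, ← ez]; exact h4
      · have h5 : k * ((L : ℤ) - τ + 1) ≤ k * R := mul_le_mul_of_nonneg_left (by omega) hk.le
        rw [← hτ]
        omega
    have hcl := h.laps_class hx
    have hch := f.chain h (x := s - g) (by omega) (by omega)
    have e1 : laps k B r (s - g) = lf k B r (s - g) + lb k B r (s - g) := rfl
    have e2 : laps k B r s = lf k B r s + lb k B r s := rfl
    omega

end

end Tw

end VisMap
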