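import Pool.Agent.Lib.MP_9f3af0_lcC.WHill

/-!
# MP_9f3af0_lc: walls (helper31, helper22)

`x` is a vertex, `P` its second sight.  If `x + 1` sees `y` and `x` does not, then `x` is a wall
(it does not see `x + 2`) and `y < P`, and `x + 1` sees `P`.  If some mate of `x` sees the second
vertex after it, then `P` is congruent to `x + 2`.
-/

namespace VisMap

namespace Tw

open Tp

variable {k B : ℤ} {r : ℤ → ℤ → Prop}

theorem TZ.cn1 (h : TZ k B r) {x P : ℤ} (hP : x + 1 < P) (rP : r x P)
    (gP : ∀ m, x + 1 < m → m < P → ¬ r x m) : r (x + 1) P :=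
  h.cn x (x + 1) P (by omega) hP (h.succ x) rP gP

/-- helper31's tool (A), the local part. -/
theorem TZ.tool1 (h : TZ k B r) {x y P : ℤ} (hy : x + 1 < y) (h1 : r (x + 1) y) (h2 : ¬ r x y)
    (hP : x + 1 < P) (rP : r x P) (gP : ∀ m, x + 1 < m → m < P → ¬ r x m) :
    y < P ∧ ¬ r x (x + 2) := by
  have hyP : y < P := by
    by_contra hc
    rcases (show P ≤ y by omega).lt_or_eq with hl | he
    · exact h2 (h.X x (x + 1) P y (by omega) hP hl rP h1)
    · rw [he] at rP
      exact h2 rP
  exact ⟨hyP, gP (x + 2) (by omega) (by omega)⟩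

/-- Beyond the second sight of `x` all sights of `x + 1` are sights of `x`. -/
theorem TZ.sub_beyond (h : TZ k B r) {x y P : ℤ} (hP : x + 1 < P) (rP : r x P) (hy : P ≤ y)
    (h1 : r (x + 1) y) : r x y := by
  rcases hy.lt_or_eq with hl | he
  · exact h.X x (x + 1) P y (by omega) hP hl rP h1
  · rw [← he]
    exact rP

/-- The label of a vertex in a row. -/
noncomputable def lab (k : ℤ) (r : ℤ → ℤ → Prop) (v z : ℤ) : ℤ :=
  z - v - k * (lcT k (Tf r v) v z : ℤ)

theorem TZ.lab_lt (h : TZ k B r) {v y z : ℤ} (hv : v < y) (hyz : y < z) (hy : r v y) (hz : r v z) :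
    lab k r v y < lab k r v z := by
  have h1 := lcT_split (k := k) (T := Tf r v) (a := v) (b := y) (c := z) hv.le hyz.le
  have h2 := lcT_lt h.hk (T := Tf r v) hyz ⟨hv, hy⟩ ⟨hv.trans hyz, hz⟩
  unfold lab
  rw [h1]
  push_cast
  rw [mul_add]
  omega

theorem TZ.lab_succ (h : TZ k B r) (v : ℤ) : lab k r v (v + 1) = 1 := by
  unfold lab
  rw [lcT_eq_zero (a := v) (b := v + 1) (fun y y1 y2 y3 => by
    have e : y = v + 1 := by omega
    rw [e] at y3
    exact y3.1 ⟨by omega, h.succ v⟩)]
  push_cast
  ring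

/-- The label of the second sight. -/
theorem TZ.lab_second (h : TZ k B r) {x P : ℤ} (hP : x + 1 < P) (rP : r x P)
    (gP : ∀ m, x + 1 < m → m < P → ¬ r x m) : lab k r x P = 2 + (P - 2 - x) % k := by
  have h0 := h.lab_succ x
  have h1 := lcT_split (k := k) (T := Tf r x) (a := x) (b := x + 1) (c := P) (by omega) hP.le
  have h2 := lcT_gap h.hk (T := Tf r x) hP ⟨by omega, h.succ x⟩ ⟨by omega, rP⟩
    fun m m1 m2 m3 => gP m m1 m2 m3.2
  have h3 := Int.emod_add_mul_ediv (P - 2 - x) k
  have e : P - 1 - (x + 1) = P - 2 - x := by ring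
  rw [e] at h2
  unfold lab at h0 ⊢
  rw [h1]
  push_cast
  rw [mul_add, h2]
  omega

/-- If a mate of `x` sees the second vertex after it, the second sight of `x` is congruent to
`x + 2`. -/
theorem TZ.second_mod (h : TZ k B r) {x0 x P : ℤ} (hx : k ∣ x - x0) (h0 : r x0 (x0 + 2))
    (hP : x + 1 < P) (rP : r x P) (gP : ∀ m, x + 1 < m → m < P → ¬ r x m) :
    k ∣ P - (x + 2) := by
  have hk := h.hk
  rcases (h.hB).lt_or_eq with hB | hB
  · have hl0 : lab k r x0 (x0 + 2) = 2 := by
      unfold lab
      rw [lcT_eq_zero (a := x0) (b := x0 + 2) (fun y y1 y2 y3 => by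
        rcases (show y ≤ x0 + 1 ∨ y = x0 + 2 by omega) with hy | hy
        · have e : y = x0 + 1 := by omega
          rw [e] at y3
          exact y3.1 ⟨by omega, h.succ x0⟩
        · rw [hy] at y3
          exact y3.1 ⟨by omega, h0⟩)]
      push_cast
      ring
    obtain ⟨z, z1, z2, z3⟩ := h.tr x0 x (x0 + 2) hx (by omega) (by omega) h0
    have hz : lab k r x z = 2 := by
      unfold lab at hl0 ⊢
      rw [z3]
      exact hl0
    have hs := h.lab_second hP rP gP
    have hm0 := Int.emod_nonneg (P - 2 - x) hk.ne'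
    have hzP : z = P := by
      rcases lt_trichotomy z P with hl | he | hg
      · exfalso
        rcases (show z ≤ x + 1 ∨ x + 1 < z by omega) with hz1 | hz1
        · have e : z = x + 1 := by omega
          rw [e, h.lab_succ x] at hz
          omega
        · exact gP z hz1 hl z2
      · exact he
      · have := h.lab_lt (v := x) (by omega) hg rP z2
        omega
    rw [hzP, hs] at hz
    have e : P - (x + 2) = P - 2 - x := by ring
    rw [e]
    exact Int.dvd_of_emod_eq_zero (by omega)
  · have h2 : r x (x + 2) := h.far _ _ (by omega)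
    have e : P = x + 2 := by
      by_contra hc
      exact gP (x + 2) (by omega) (by omega) h2
    rw [e, sub_self]
    exact dvd_zero _

end Tw

end VisMap
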