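import Pool.Agent.Lib.MP_9f3af0_lcC.WWalls
import Pool.Agent.Lib.MP_9f3af0_lcC.WTool

/-!
# MP_9f3af0_lc: the frame of the longest gap (helper95, helper52, helper69; Lean by helper72)

`Lge k r s t`: the gap `(s, s + t)` of the row `s - 1` is the longest of all gaps of rows and
columns.  It exists in every weak `T'`-structure without class-wide chords, up to a reflection; all
rows `≤ s` see all columns `≥ s + t`, and the second sights of the mates of `s - 1` are congruent.
-/

namespace VisMap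

namespace Tw

open Tp

/-- All gaps of rows and columns have a length of at most `t`. -/
structure GapLe (r : ℤ → ℤ → Prop) (t : ℤ) : Prop where
  row : ∀ v a b, v < a → a < b → r v a → r v b → (∀ m, a < m → m < b → ¬ r v m) → b - a ≤ t
  col : ∀ v a b, a < b → b < v → r v a → r v b → (∀ m, a < m → m < b → ¬ r v m) → b - a ≤ t

/-- The frame of the longest gap. -/
structure Lge (k : ℤ) (r : ℤ → ℤ → Prop) (s t : ℤ) : Prop where
  kt : k < t
  le : GapLe r t
  rt : r (s - 1) (s + t)
  gap : ∀ m, s < m → m < s + t → ¬ r (s - 1) m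

variable {k B : ℤ} {r : ℤ → ℤ → Prop}

theorem GapLe.mirror {t : ℤ} (g : GapLe r t) : GapLe (VisMap.mirror r) t where
  row v a b h1 h2 ha hb hm := by
    have := g.col (-v) (-b) (-a) (by omega) (by omega) hb ha fun m m1 m2 m3 =>
      hm (-m) (by omega) (by omega) (by
        show r (-v) (- -m)
        rw [neg_neg]; exact m3)
    omega
  col v a b h1 h2 ha hb hm := by
    have := g.row (-v) (-b) (-a) (by omega) (by omega) hb ha fun m m1 m2 m3 =>
      hm (-m) (by omega) (by omega) (by
        show r (-v) (- -m)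
        rw [neg_neg]; exact m3)
    omega

/-- A vertex hides at most `t - 1` consecutive vertices on its right. -/
theorem GapLe.len (h : TZ k B r) {t : ℤ} (g : GapLe r t) (ht : 1 ≤ t) {v a b : ℤ} (hva : v ≤ a)
    (hm : ∀ m, a < m → m < b → ¬ r v m) : b - a ≤ t := by
  rcases hva.lt_or_eq with hl | he
  · obtain ⟨p, p1, p2, p3, p4⟩ := h.last (v := v) (a := a) hl
    obtain ⟨q, q1, q2, q3, -⟩ := h.next (v := v) (a := a) hva
    have h1 : b ≤ q := by
      by_contra hc
      exact hm q q1 (by omega) q2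
    have h2 := g.row v p q p1 (by omega) p3 q2 fun m m1 m2 => by
      rcases le_or_gt m a with h3 | h3
      · exact p4 m m1 h3
      · exact q3 m h3 m2
    omega
  · by_contra hc
    exact hm (v + 1) (by omega) (by omega) (h.succ v)

/-- A vertex hides at most `t - 1` consecutive vertices on its left. -/
theorem GapLe.len' (h : TZ k B r) {t : ℤ} (g : GapLe r t) (ht : 1 ≤ t) {v a b : ℤ} (hva : b ≤ v)
    (hm : ∀ m, a < m → m < b → ¬ r v m) : b - a ≤ t := by
  have := g.mirror.len h.mirror ht (v := -v) (a := -b) (b := -a) (by omega) fun m m1 m2 m3 =>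
    hm (-m) (by omega) (by omega) (by
      have m4 : r (- -v) (-m) := m3
      rwa [neg_neg] at m4)
  omega

/-- There is a longest gap. -/
theorem TZ.exists_longest (h : TZ k B r) (hk : 2 ≤ k) (hc : NoWide k r) :
    ∃ t, k < t ∧ GapLe r t ∧
      ((∃ v a, v < a ∧ r v a ∧ r v (a + t) ∧ ∀ m, a < m → m < a + t → ¬ r v m) ∨
        ∃ v a, v < a ∧ VisMap.mirror r v a ∧ VisMap.mirror r v (a + t) ∧
          ∀ m, a < m → m < a + t → ¬ VisMap.mirror r v m) := by
  have hB := h.hB
  have hbd : ∀ {r : ℤ → ℤ → Prop}, TZ k B r → ∀ t v a, v < a → 2 ≤ t → r v (a + t) →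
      (∀ m, a < m → m < a + t → ¬ r v m) → t ≤ B + 2 := by
    intro r h t v a hva ht h1 h2
    by_contra hcon
    exact h2 (a + t - 1) (by omega) (by omega) (h.far _ _ (by omega))
  obtain ⟨v, -, hv⟩ := h.wall hk hc 0
  obtain ⟨q, q1, q2, q3, -⟩ := h.next (v := v) (a := v + 1) (by omega)
  have hq : v + k + 1 < q := by
    by_contra hcon
    exact hv q q1 (by omega) q2
  obtain ⟨t, ⟨ht, hP⟩, hmax⟩ := Int.exists_greatest_of_bdd
    (P := fun t => k < t ∧ ((∃ v a, v < a ∧ r v a ∧ r v (a + t) ∧ ∀ m, a < m → m < a + t → ¬ r v m) ∨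
        ∃ v a, v < a ∧ VisMap.mirror r v a ∧ VisMap.mirror r v (a + t) ∧
          ∀ m, a < m → m < a + t → ¬ VisMap.mirror r v m))
    ⟨B + 2, by
      rintro t ⟨h1, ⟨v, a, h2, h3, h4, h5⟩ | ⟨v, a, h2, h3, h4, h5⟩⟩
      · exact hbd h t v a h2 (by omega) h4 h5
      · exact hbd h.mirror t v a h2 (by omega) h4 h5⟩
    ⟨q - (v + 1), by omega, Or.inl ⟨v, v + 1, by omega, h.succ v, by
      have e : v + 1 + (q - (v + 1)) = q := by ring
      rw [e]; exact q2, fun m m1 m2 => q3 m m1 (by omega)⟩⟩
  refine ⟨t, ht, ⟨fun v a b h1 h2 ha hb hm => ?_, fun v a b h1 h2 ha hb hm => ?_⟩, hP⟩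
  · by_contra hcon
    have := hmax (b - a) ⟨by omega, Or.inl ⟨v, a, h1, ha, by
      have e : a + (b - a) = b := by ring
      rw [e]; exact hb, fun m m1 m2 => hm m m1 (by omega)⟩⟩
    omega
  · by_contra hcon
    have := hmax (b - a) ⟨by omega, Or.inr ⟨-v, -b, by omega, by
      show r (- -v) (- -b)
      rw [neg_neg, neg_neg]; exact hb, by
      show r (- -v) (-(-b + (b - a)))
      have e : -(-b + (b - a)) = a := by ring
      rw [neg_neg, e]; exact ha, fun m m1 m2 m3 => hm (-m) (by omega) (by omega) (by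
        have m4 : r (- -v) (-m) := m3
        rwa [neg_neg] at m4)⟩⟩
    omega

/-- The row next to a longest gap has it. -/
theorem TZ.lge_of (h : TZ k B r) {t v a : ℤ} (hk : 0 < k) (ht : k < t) (g : GapLe r t) (hv : v < a)
    (h1 : r v a) (h2 : r v (a + t)) (h3 : ∀ m, a < m → m < a + t → ¬ r v m) : Lge k r a t := by
  have h4 : ∀ m, a < m → m < a + t → ¬ r (a - 1) m := fun m m1 m2 =>
    h.hide (v := v) (x := a - 1) (p := a) (y := m) (by omega) (by omega) m1 h1 (h3 m m1 m2)
  refine ⟨ht, g, ?_, h4⟩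
  obtain ⟨q, q1, q2, q3, -⟩ := h.next (v := a - 1) (a := a) (by omega)
  have hs := h.succ (a - 1)
  rw [sub_add_cancel] at hs
  have h5 := g.row (a - 1) a q (by omega) q1 hs q2 q3
  have h6 : a + t ≤ q := by
    by_contra hc
    exact h4 q q1 (by omega) q2
  have e : q = a + t := by omega
  rw [← e]; exact q2

/-- Existence of the frame of the longest gap. -/
theorem TZ.exists_lge (h : TZ k B r) (hk : 2 ≤ k) (hc : NoWide k r) :
    (∃ s t, Lge k r s t) ∨ ∃ s t, Lge k (VisMap.mirror r) s t := by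
  obtain ⟨t, ht, g, ⟨v, a, h1, h2, h3, h4⟩ | ⟨v, a, h1, h2, h3, h4⟩⟩ := h.exists_longest hk hc
  · exact Or.inl ⟨a, t, h.lge_of (by omega) ht g h1 h2 h3 h4⟩
  · exact Or.inr ⟨a, t, h.mirror.lge_of (by omega) ht g.mirror h1 h2 h3 h4⟩

/-- To exclude weak `T'`-structures it is enough to exclude the frames of the longest gap. -/
theorem false_of_Lge
    (H : ∀ (k B : ℤ) (r : ℤ → ℤ → Prop) (s t : ℤ), TZ k B r → 2 ≤ k → NoWide k r →
      Lge k r s t → False)
    (h : TZ k B r) (hk : 2 ≤ k) (hc : NoWide k r) : False := by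
  rcases h.exists_lge hk hc with ⟨s, t, L⟩ | ⟨s, t, L⟩
  · exact H k B r s t h hk hc L
  · exact H k B _ s t h.mirror hk (noWide_mirror h.symm hc) L

section

variable {s t : ℤ} (h : TZ k B r) (L : Lge k r s t)

include h L

theorem Lge.t_pos : 1 < t := by
  have := h.hk
  have := L.kt
  omega

theorem Lge.rs : r (s - 1) s := by
  have := h.succ (s - 1)
  rwa [sub_add_cancel] at this

/-- The two ends of the longest gap see each other. -/
theorem Lge.st : r s (s + t) :=
  h.cn (s - 1) s (s + t) (by omega) (by have := L.t_pos h; omega) (L.rs h) L.rt L.gap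

/-- The vertex `s - 1` sees everything beyond `s + t`. -/
theorem Lge.pre {y : ℤ} (hy : s + t ≤ y) : r (s - 1) y := by
  by_contra hn
  have ht := L.t_pos h
  obtain ⟨p, p1, p2, p3, p4⟩ := h.last (v := s - 1) (a := y) (by omega)
  have hpy : p < y := by
    rcases p2.lt_or_eq with h1 | h1
    · exact h1
    · rw [h1] at p3; exact absurd p3 hn
  have hpt : s + t ≤ p := by
    by_contra hc
    rcases hy.lt_or_eq with h1 | h1
    · exact p4 (s + t) (by omega) hy L.rt
    · rw [← h1] at hn; exact hn L.rt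
  have h2 := L.le.len' h ht.le (v := y) (a := s - 2) (b := p) hpy.le fun m m1 m2 m3 =>
    h.hide (v := s - 1) (x := m) (p := p) (y := y) (by omega) m2 hpy p3 hn (h.symm _ _ m3)
  omega

/-- The vertex `s` sees everything beyond `s + t`. -/
theorem Lge.s_far {y : ℤ} (hy : s + t ≤ y) : r s y := by
  by_contra hn
  have ht := L.t_pos h
  obtain ⟨p, p1, p2, p3, p4⟩ := h.last (v := s) (a := y) (by omega)
  have hpy : p < y := by
    rcases p2.lt_or_eq with h1 | h1
    · exact h1
    · rw [h1] at p3; exact absurd p3 hn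
  have hpt : s + t ≤ p := by
    by_contra hc
    rcases hy.lt_or_eq with h1 | h1
    · exact p4 (s + t) (by omega) hy (L.st h)
    · rw [← h1] at hn; exact hn (L.st h)
  have h2 := L.le.len' h ht.le (v := y) (a := s - 1) (b := p) hpy.le fun m m1 m2 m3 =>
    h.hide (v := s) (x := m) (p := p) (y := y) (by omega) m2 hpy p3 hn (h.symm _ _ m3)
  omega

/-- All rows `≤ s` see all columns `≥ s + t`. -/
theorem Lge.rows {x y : ℤ} (hx : x ≤ s) (hy : s + t ≤ y) : r x y := by
  have ht := L.t_pos h
  rcases hx.lt_or_eq with hxs | he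
  swap
  · rw [he]; exact L.s_far h hy
  rcases (show x ≤ s - 1 by omega).lt_or_eq with hx1 | he
  swap
  · rw [he]; exact L.pre h hy
  by_contra hn
  obtain ⟨p, p1, p2, p3, p4⟩ := h.last (v := x) (a := y) (by omega)
  have hpy : p < y := by
    rcases p2.lt_or_eq with h1 | h1
    · exact h1
    · rw [h1] at p3; exact absurd p3 hn
  rcases le_or_gt p s with hps | hps
  · -- a gap over `(s, y]`
    have h2 := L.le.len h ht.le (v := x) (a := p) (b := y + 1) p1.le fun m m1 m2 =>
      p4 m m1 (by omega)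
    omega
  · exact h.hide (v := x) (x := s) (p := p) (y := y) hx hps hpy p3 hn (L.s_far h hy)

/-- A vertex `x < s - 1` that sees `s - 1` sees `s`. -/
theorem Lge.ears {x : ℤ} (hx : x < s - 1) (hr : r x (s - 1)) : r x s := by
  have ht := L.t_pos h
  by_contra hn
  obtain ⟨q, q1, q2, q3, -⟩ := h.next (v := x) (a := s - 1) hx.le
  have h1 := h.cn x (s - 1) q hx q1 hr q2 q3
  have hq : s ≠ q := fun e => hn (e ▸ q2)
  have h2 : s + t ≤ q := by
    by_contra hc
    exact L.gap q (by omega) (by omega) h1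
  have h3 := L.le.row x (s - 1) q hx q1 hr q2 q3
  omega

/-- The vertex `s - 2` sees `s`. -/
theorem Lge.ear : r (s - 2) s := by
  refine L.ears h (by omega) ?_
  have := h.succ (s - 2)
  have e : s - 2 + 1 = s - 1 := by ring
  rwa [e] at this

/-- The second sights of the mates of `s - 1`. -/
theorem Lge.second {w d : ℤ} (hw : k ∣ w - (s - 1)) (hd : 1 < d) (hr : r w (w + d))
    (hm : ∀ m, 1 < m → m < d → ¬ r w (w + m)) : k ∣ d - (t + 1) ∧ d ≤ t + 1 := by
  have ht := L.t_pos h
  refine ⟨?_, ?_⟩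
  · refine h.second_dvd (v := s - 1) (v' := w) (d := t + 1) (d' := d) hw (by omega) ?_ ?_ hd hr hm
    · have e : s - 1 + (t + 1) = s + t := by ring
      rw [e]; exact L.rt
    · intro m m1 m2
      exact L.gap (s - 1 + m) (by omega) (by omega)
  · have := L.le.row w (w + 1) (w + d) (by omega) (by omega) (h.succ w) hr fun m m1 m2 m3 => by
      refine hm (m - w) (by omega) (by omega) ?_
      have e : w + (m - w) = m := by ring
      rw [e]; exact m3
    omega

/-- Every mate of `s - 1` sees the next vertex, hides the vertices up to its second sight and sees it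
(explicit form with the residue `ρ = (t - 1) % k`). -/
theorem Lge.exists_second {w : ℤ} (hw : k ∣ w - (s - 1)) : ∃ j : ℕ, (j : ℤ) ≤ (t - 1) / k ∧
    r w (w + 2 + (t - 1) % k + k * j) ∧
    ∀ m, w + 1 < m → m < w + 2 + (t - 1) % k + k * j → ¬ r w m := by
  have hk := h.hk
  have ht := L.t_pos h
  obtain ⟨d, d1, d2, d3⟩ := h.second w
  obtain ⟨⟨c, hc⟩, h2⟩ := L.second h hw d1 d2 d3
  have h3 := Int.emod_add_mul_ediv (t - 1) k
  have h4 := Int.emod_nonneg (t - 1) hk.ne'
  have h5 := Int.emod_lt_of_pos (t - 1) hk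
  have hA : d = 2 + (t - 1) % k + k * ((t - 1) / k + c) := by
    rw [mul_add]; linarith
  have hc0 : c ≤ 0 := by
    by_contra hcon
    have : 0 < k * c := mul_pos hk (by omega)
    omega
  have hc1 : 0 ≤ (t - 1) / k + c := by
    by_contra hcon
    have : k * ((t - 1) / k + c) ≤ k * (-1) := mul_le_mul_of_nonneg_left (by omega) hk.le
    omega
  have e : (((t - 1) / k + c).toNat : ℤ) = (t - 1) / k + c := Int.toNat_of_nonneg hc1
  have hE : w + 2 + (t - 1) % k + k * ((((t - 1) / k + c).toNat : ℕ) : ℤ) = w + d := by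
    rw [e, hA]; ring
  refine ⟨((t - 1) / k + c).toNat, by rw [e]; omega, by rw [hE]; exact d2, fun m m1 m2 m3 => ?_⟩
  rw [hE] at m2
  refine d3 (m - w) (by omega) (by omega) ?_
  have e2 : w + (m - w) = m := by ring
  rw [e2]; exact m3

end

end Tw

end VisMap
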