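import Pool.Agent.Lib.MP_9f3af0_lcC.WBase

/-!
# MP_9f3af0_lc: Theorem A (helper64; hand proofs by helper31, helper59, helper12, helper70, helper83)

Let `(s, t)` be a forward gap of `v` that is at least as long as every forward gap of the vertices of
the set `PA` and as every backward gap of the vertices of the set `PB` (both sets meet every block of
`k` consecutive vertices), and let `g` be the next sight of `s` behind `v`.  Only `X` and `CN` are used.

* `TZ.gapA_far`: the `PB`-vertices beyond `t` see `s` and `v`;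
* `TZ.gapA_near`: the `PA`-vertices in `(v, s)` see `s`;
* `TZ.gapA_behind`: a `PA`-vertex behind `v` that sees `v` sees `s`;
* `TZ.gapA_g`: there is no `PA`-vertex in `(g, v)`;
* `TZ.gapA_lf`, `TZ.gapA_lf'`, `TZ.gapA_lb`: `lf s ≤ (t - 1 - s) / k ≤ lf v` and `lb s ≤ lb v`,
  so `laps s ≤ laps v` (`TZ.gapA_laps`), with equality only if `lf s = lf v = (t - 1 - s) / k` and
  `lb s = lb v`.
-/

namespace VisMap

namespace Tw

open Tp

variable {k B : ℤ} {r : ℤ → ℤ → Prop}

/-- All forward gaps of the vertices in `P` have length at most `L`. -/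
def GapF (r : ℤ → ℤ → Prop) (P : ℤ → Prop) (L : ℤ) : Prop :=
  ∀ y a b, P y → y < a → a < b → r y a → r y b → (∀ m, a < m → m < b → ¬ r y m) → b - a ≤ L

/-- All backward gaps of the vertices in `P` have length at most `L`. -/
def GapB (r : ℤ → ℤ → Prop) (P : ℤ → Prop) (L : ℤ) : Prop :=
  ∀ y a b, P y → a < b → b < y → r y a → r y b → (∀ m, a < m → m < b → ¬ r y m) → b - a ≤ L

/-- `P` meets every block of `k` consecutive vertices. -/
def Meets (k : ℤ) (P : ℤ → Prop) : Prop := ∀ a, ∃ y, a < y ∧ y ≤ a + k ∧ P y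

theorem meets_cls (hk : 0 < k) (c : ℤ) : Meets k fun y => k ∣ y - c := by
  intro a
  have h1 := Int.emod_nonneg (c - (a + 1)) hk.ne'
  have h2 := Int.emod_lt_of_pos (c - (a + 1)) hk
  refine ⟨a + 1 + (c - (a + 1)) % k, by omega, by omega, ?_⟩
  have e : a + 1 + (c - (a + 1)) % k - c = -((c - (a + 1)) - (c - (a + 1)) % k) := by ring
  show k ∣ a + 1 + (c - (a + 1)) % k - c
  rw [e, dvd_neg]
  exact Int.dvd_self_sub_emod

/-- If `y` does not see `s > y`, then `s` is in a forward gap of `y`. -/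
theorem TZ.fgap (h : TZ k B r) {y s : ℤ} (hys : y < s) (hr : ¬ r y s) :
    ∃ c d, y < c ∧ c < s ∧ s < d ∧ r y c ∧ r y d ∧ ∀ m, c < m → m < d → ¬ r y m := by
  have h1 : s ≠ y + 1 := by rintro rfl; exact hr (h.succ y)
  obtain ⟨c, c1, c2, c3, c4⟩ := h.last (v := y) (a := s - 1) (by omega)
  obtain ⟨d, d1, d2, d3, -⟩ := h.next (v := y) (a := s) hys.le
  refine ⟨c, d, c1, by omega, d1, c3, d2, fun m m1 m2 => ?_⟩
  rcases lt_trichotomy m s with hm | hm | hm
  · exact c4 m m1 (by omega)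
  · rw [hm]; exact hr
  · exact d3 m hm m2

/-- If `y` does not see `s < y`, then `s` is in a backward gap of `y`. -/
theorem TZ.bgap (h : TZ k B r) {y s : ℤ} (hys : s < y) (hr : ¬ r y s) :
    ∃ c d, c < s ∧ s < d ∧ d < y ∧ r y c ∧ r y d ∧ ∀ m, c < m → m < d → ¬ r y m := by
  have h1 : s ≠ y - 1 := by rintro rfl; exact hr (h.pred y)
  obtain ⟨d, d1, d2, d3, d4⟩ := h.last' (v := y) (a := s + 1) (by omega)
  obtain ⟨c, c1, c2, c3, -⟩ := h.next' (v := y) (a := s) hys.le
  refine ⟨c, d, c1, by omega, d2, c2, d3, fun m m1 m2 => ?_⟩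
  rcases lt_trichotomy m s with hm | hm | hm
  · exact c3 m m1 hm
  · rw [hm]; exact hr
  · exact d4 m (by omega) m2

section

variable {v s t : ℤ}

/-- The `PB`-vertices beyond `t` see `s`. -/
theorem TZ.gapA_far_s (h : TZ k B r) {PB : ℤ → Prop} (hg : Tp.Gp r v s t)
    (hB : GapB r PB (t - s)) {y : ℤ} (hy : PB y) (hty : t < y) : r s y := by
  obtain ⟨g1, g2, g3, g4, g5⟩ := hg
  by_contra hns
  obtain ⟨c, d, c1, d1, d2, hc, hd, hm⟩ := h.bgap (y := y) (s := s) (by omega)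
    fun h1 => hns (h.symm _ _ h1)
  have hst : r s t := h.cn v s t g1 g2 g3 g4 g5
  have hdt : t ≤ d := by
    by_contra hlt
    exact hns (h.X s d t y d1 (by omega) hty hst (h.symm _ _ hd))
  have := hB y c d hy (by omega) d2 hc hd hm
  omega

/-- The `PB`-vertices beyond `t` see `v`. -/
theorem TZ.gapA_far_v (h : TZ k B r) {PB : ℤ → Prop} (hg : Tp.Gp r v s t)
    (hB : GapB r PB (t - s)) {y : ℤ} (hy : PB y) (hty : t < y) : r v y := by
  have hs := h.gapA_far_s hg hB hy hty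
  obtain ⟨g1, g2, g3, g4, g5⟩ := hg
  by_contra hnv
  obtain ⟨a, a1, a2, a3, a4⟩ := h.last (v := v) (a := y - 1) (by omega)
  have hta : t ≤ a := by
    by_contra hlt
    exact a4 t (by omega) (by omega) g4
  exact h.hide (v := v) (x := s) (p := a) (y := y) g1.le (by omega) (by omega) a3 hnv hs

/-- The `PA`-vertices in `(v, s)` see `s`. -/
theorem TZ.gapA_near (h : TZ k B r) {PA : ℤ → Prop} (hg : Tp.Gp r v s t)
    (hA : GapF r PA (t - s)) {y : ℤ} (hy : PA y) (hvy : v < y) (hys : y < s) : r y s := by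
  obtain ⟨g1, g2, g3, g4, g5⟩ := hg
  by_contra hns
  obtain ⟨c, d, c1, c2, d1, hc, hd, hm⟩ := h.fgap hys hns
  have hdt : t ≤ d := by
    by_contra hlt
    exact g5 d d1 (by omega) (h.X v y s d hvy hys d1 g3 hd)
  have := hA y c d hy c1 (by omega) hc hd hm
  omega

/-- A `PA`-vertex behind `v` that sees `v` sees `s`. -/
theorem TZ.gapA_behind (h : TZ k B r) {PA : ℤ → Prop} (hg : Tp.Gp r v s t)
    (hA : GapF r PA (t - s)) {y : ℤ} (hy : PA y) (hyv : y < v) (hr : r y v) : r y s := by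
  obtain ⟨g1, g2, g3, g4, g5⟩ := hg
  by_contra hns
  obtain ⟨c, d, c1, c2, d1, hc, hd, hm⟩ := h.fgap (y := y) (s := s) (by omega) hns
  have hvc : v ≤ c := by
    by_contra hlt
    exact hm v (by omega) (by omega) hr
  have hcv : c = v := by
    by_contra hne
    exact hns (h.X y v c s hyv (by omega) c2 hc g3)
  have hvd : r v d := by
    have := h.cn y c d c1 (by omega) hc hd hm
    rwa [hcv] at this
  have hdt : t ≤ d := by
    by_contra hlt
    exact g5 d d1 (by omega) hvd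
  have := hA y c d hy c1 (by omega) hc hd hm
  omega

/-- The rows in `(s, t)` do not see `(g, v)`. -/
theorem TZ.gapA_lemG (h : TZ k B r) {g : ℤ} (hg : Tp.Gp r v s t)
    (hg2 : ∀ m, g < m → m < v → ¬ r s m) {x c : ℤ} (hgx : g < x) (hxv : x < v) (hsc : s < c)
    (hct : c < t) : ¬ r x c := by
  obtain ⟨g1, g2, g3, g4, g5⟩ := hg
  intro hxc
  -- minimal `c`
  obtain ⟨c0, c01, c02, ⟨x1, x11, x12, x13⟩, c04⟩ := exists_first
    (p := fun c => ∃ x, g < x ∧ x < v ∧ r x c) (a := s + 1) (b := c) (by omega)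
    ⟨x, hgx, hxv, hxc⟩
  -- maximal `x`
  obtain ⟨x0, x01, x02, x03, x04⟩ := exists_last (p := fun x => r x c0) (a := x1) (b := v - 1)
    (by omega) x13
  obtain ⟨x', x'0, x'2, x'3, x'4⟩ := h.last' (v := c0) (a := x0 + 1) (by omega)
  have x'1 : x0 < x' := by omega
  have hx'm : ∀ m, x0 < m → m < x' → ¬ r c0 m := fun m m1 m2 => x'4 m (by omega) m2
  have hvc0 : ¬ r v c0 := g5 c0 (by omega) (by omega)
  have hx's : s ≤ x' := by
    by_contra hlt
    rcases lt_or_ge x' v with h1 | h1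
    · exact x04 x' x'1 (by omega) (h.symm _ _ x'3)
    · exact h.hide (v := v) (x := x') (p := s) (y := c0) h1 (by omega) (by omega) g3 hvc0
        (h.symm _ _ x'3)
  have hcn : r x' x0 := h.cn' c0 x' x0 x'1 x'2 x'3 (h.symm _ _ x03) hx'm
  rcases hx's.lt_or_eq with h1 | h1
  · exact c04 x' (by omega) x'2 ⟨x0, by omega, by omega, h.symm _ _ hcn⟩
  · rw [← h1] at hcn
    exact hg2 x0 (by omega) (by omega) hcn

/-- There is no `PA`-vertex in `(g, v)`. -/
theorem TZ.gapA_g (h : TZ k B r) {PA : ℤ → Prop} {g : ℤ} (hg : Tp.Gp r v s t)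
    (hA : GapF r PA (t - s)) (hg2 : ∀ m, g < m → m < v → ¬ r s m) {y : ℤ} (hgy : g < y)
    (hyv : y < v) : ¬ PA y := by
  intro hy
  have hg0 := hg
  obtain ⟨g1, g2, g3, g4, g5⟩ := hg
  have hns : ¬ r y s := fun h1 => hg2 y hgy hyv (h.symm _ _ h1)
  have hnv : ¬ r y v := fun h1 => hns (h.gapA_behind hg0 hA hy hyv h1)
  obtain ⟨c, d, c1, c2, d1, hc, hd, hm⟩ := h.fgap (y := y) (s := s) (by omega) hns
  have hcv : c < v := by
    by_contra hlt
    rcases (not_lt.1 hlt).lt_or_eq with h1 | h1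
    · exact hns (h.X y v c s hyv h1 c2 hc g3)
    · rw [← h1] at hc; exact hnv hc
  have hdt : t ≤ d := by
    by_contra hlt
    exact h.gapA_lemG hg0 hg2 hgy hyv d1 (by omega) hd
  have := hA y c d hy c1 (by omega) hc hd hm
  omega

/-- `v - g ≤ k`. -/
theorem TZ.gapA_gk (h : TZ k B r) {PA : ℤ → Prop} {g : ℤ} (hg : Tp.Gp r v s t)
    (hA : GapF r PA (t - s)) (hP : Meets k PA) (hg2 : ∀ m, g < m → m < v → ¬ r s m) :
    v - g ≤ k := by
  obtain ⟨y, y1, y2, y3⟩ := hP g
  by_contra hlt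
  exact h.gapA_g hg hA hg2 y1 (by omega) y3

/-- The sights of `v` behind `g` are sights of `s`. -/
theorem TZ.gapA_sub (h : TZ k B r) {g : ℤ} (hvs : v < s) (hgv : g < v) (hg : r s g) {z : ℤ}
    (hz : z ≤ g) (hr : r v z) : r s z := by
  rcases hz.lt_or_eq with h1 | h1
  · exact h.symm _ _ (h.X z g v s h1 hgv hvs (h.symm _ _ hr) (h.symm _ _ hg))
  · rw [h1]; exact hg

/-- A set `P` that meets every block of `k` vertices and is seen beyond `a` leaves no laps there. -/
theorem no_lap_of_meets {T P : ℤ → Prop} (hP : Meets k P) {a y : ℤ} (hay : a < y)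
    (ha : T a) (hT : ∀ z, a < z → z ≤ y → P z → T z) : ¬ LapP k T y := by
  rintro ⟨h1, s, s1, s2, s3, s4⟩
  have has : a ≤ s := by
    by_contra hc
    exact s3 a (by omega) hay ha
  have hky : k ≤ y - s := Int.le_of_dvd (by omega) s4
  obtain ⟨z, z1, z2, z3⟩ := hP (y - k)
  have hz := hT z (by omega) (by omega) z3
  rcases (show z ≤ y by omega).lt_or_eq with h2 | h2
  · exact s3 z (by omega) h2 hz
  · rw [h2] at hz; exact h1 hz

/-- There is no lap of `v` beyond `t`. -/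
theorem TZ.gapA_nolap_v (h : TZ k B r) {PB : ℤ → Prop} (hg : Tp.Gp r v s t)
    (hB : GapB r PB (t - s)) (hP : Meets k PB) {y : ℤ} (hy : t < y) : ¬ LapP k (Tf r v) y :=
  no_lap_of_meets hP hy ⟨by have := hg.1; have := hg.2.1; omega, hg.2.2.2.1⟩
    fun z z1 _ z3 => ⟨by have := hg.1; have := hg.2.1; omega, h.gapA_far_v hg hB z3 z1⟩

theorem TZ.gapA_st (h : TZ k B r) (hg : Tp.Gp r v s t) : r s t :=
  h.cn v s t hg.1 hg.2.1 hg.2.2.1 hg.2.2.2.1 hg.2.2.2.2

/-- There is no lap of `s` beyond `t`. -/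
theorem TZ.gapA_nolap_s (h : TZ k B r) {PB : ℤ → Prop} (hg : Tp.Gp r v s t)
    (hB : GapB r PB (t - s)) (hP : Meets k PB) {y : ℤ} (hy : t < y) : ¬ LapP k (Tf r s) y :=
  no_lap_of_meets hP hy ⟨hg.2.1, h.gapA_st hg⟩
    fun z z1 _ z3 => ⟨by have := hg.2.1; omega, h.gapA_far_s hg hB z3 z1⟩

/-- The laps of `v` in `(s, t]`. -/
theorem TZ.gapA_lc_v (h : TZ k B r) (hg : Tp.Gp r v s t) :
    (lcT k (Tf r v) s t : ℤ) = (t - 1 - s) / k := by
  obtain ⟨g1, g2, g3, g4, g5⟩ := hg
  exact lcT_gap h.hk g2 ⟨g1, g3⟩ ⟨by omega, g4⟩ fun m m1 m2 m3 => g5 m m1 m2 m3.2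

/-- The forward laps of `v`: the laps up to `s` and those of the gap `(s, t)`. -/
theorem TZ.gapA_lf_v (h : TZ k B r) {PB : ℤ → Prop} (hg : Tp.Gp r v s t)
    (hB : GapB r PB (t - s)) (hP : Meets k PB) :
    (lf k B r v : ℤ) = lcT k (Tf r v) v s + (t - 1 - s) / k := by
  rw [h.lf_eq (v := v) (M := max (v + B) t) (le_max_left _ _),
    lcT_split (a := v) (b := s) (c := max (v + B) t) hg.1.le
      (by have := hg.2.1; have := le_max_right (v + B) t; omega),
    lcT_split (a := s) (b := t) (c := max (v + B) t) hg.2.1.le (le_max_right _ _),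
    lcT_eq_zero (a := t) fun y y1 _ => h.gapA_nolap_v hg hB hP y1]
  push_cast
  rw [h.gapA_lc_v hg]
  ring

/-- The forward laps of `s` are in `(s, t)`. -/
theorem TZ.gapA_lf_s (h : TZ k B r) {PB : ℤ → Prop} (hg : Tp.Gp r v s t)
    (hB : GapB r PB (t - s)) (hP : Meets k PB) : lf k B r s = lcT k (Tf r s) s t := by
  rw [h.lf_eq (v := s) (M := max (s + B) t) (le_max_left _ _),
    lcT_split (a := s) (b := t) (c := max (s + B) t) hg.2.1.le (le_max_right _ _),
    lcT_eq_zero (a := t) (fun y y1 _ => h.gapA_nolap_s hg hB hP y1), add_zero]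

/-- The forward laps of `s` are at most those of the gap `(s, t)`. -/
theorem TZ.gapA_lf (h : TZ k B r) {PB : ℤ → Prop} (hg : Tp.Gp r v s t)
    (hB : GapB r PB (t - s)) (hP : Meets k PB) : (lf k B r s : ℤ) ≤ (t - 1 - s) / k := by
  rw [h.gapA_lf_s hg hB hP, Int.le_ediv_iff_mul_le h.hk, mul_comm]
  have hst := h.gapA_st hg
  obtain ⟨g1, g2, g3, g4, g5⟩ := hg
  rcases (show s + 1 ≤ t by omega).lt_or_eq with h1 | h1
  · have h2 := lcT_lt h.hk (T := Tf r s) (a := s + 1) (b := t) h1 ⟨by omega, h.succ s⟩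
      ⟨g2, hst⟩
    have h3 := lcT_split (k := k) (T := Tf r s) (a := s) (b := s + 1) (c := t) (by omega) h1.le
    have h4 : lcT k (Tf r s) s (s + 1) = 0 := lcT_eq_zero fun y y1 y2 y3 => by
      have e : y = s + 1 := by omega
      rw [e] at y3
      exact y3.1 ⟨by omega, h.succ s⟩
    rw [h3, h4, zero_add]
    omega
  · have h4 : lcT k (Tf r s) s t = 0 := lcT_eq_zero fun y y1 y2 y3 => by
      have e : y = s + 1 := by omega
      rw [e] at y3
      exact y3.1 ⟨by omega, h.succ s⟩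
    rw [h4]
    push_cast
    omega

/-- The forward laps of `v` are at least those of the gap `(s, t)`. -/
theorem TZ.gapA_lf' (h : TZ k B r) {PB : ℤ → Prop} (hg : Tp.Gp r v s t)
    (hB : GapB r PB (t - s)) (hP : Meets k PB) : (t - 1 - s) / k ≤ (lf k B r v : ℤ) := by
  rw [h.gapA_lf_v hg hB hP]
  omega

/-- The backward sights of `v`, mirrored. -/
theorem TZ.lb_eq (h : TZ k B r) {v M : ℤ} (hM : -v + B ≤ M) :
    lb k B r v = lcT k (Tf (VisMap.mirror r) (-v)) (-v) M := h.mirror.lf_eq hM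

/-- The backward laps of `v` are those behind `g`. -/
theorem TZ.gapA_lb_v (h : TZ k B r) {PA : ℤ → Prop} {g M : ℤ} (hg : Tp.Gp r v s t)
    (hA : GapF r PA (t - s)) (hP : Meets k PA) (hgv : g < v) (hsg : r s g)
    (hg2 : ∀ m, g < m → m < v → ¬ r s m) (hM : -v + B ≤ M) (hM2 : -g ≤ M) :
    lb k B r v = lcT k (Tf (VisMap.mirror r) (-v)) (-g) M := by
  have hgk := h.gapA_gk hg hA hP hg2
  obtain ⟨g1, g2, g3, g4, g5⟩ := hg
  have hvg : r v g := h.cn' s v g hgv g1 (h.symm _ _ g3) hsg hg2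
  rw [h.lb_eq (v := v) (M := M) hM, lcT_split (a := -v) (b := -g) (c := M) (by omega) hM2]
  have h1 : lcT k (Tf (VisMap.mirror r) (-v)) (-v) (-g) = 0 := by
    refine lcT_eq_zero fun y y1 y2 y3 => ?_
    obtain ⟨y4, z, z1, z2, z3, z4⟩ := y3
    have h5 : k ≤ y - z := Int.le_of_dvd (by omega) z4
    have h6 := z2.1
    omega
  rw [h1, zero_add]

/-- The backward laps of `s` are those behind `g`. -/
theorem TZ.gapA_lb_s (h : TZ k B r) {PA : ℤ → Prop} {g M : ℤ} (hg : Tp.Gp r v s t)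
    (hA : GapF r PA (t - s)) (hP : Meets k PA) (hgv : g < v) (hsg : r s g)
    (hg2 : ∀ m, g < m → m < v → ¬ r s m) (hM : -s + B ≤ M) (hM2 : -g ≤ M) :
    lb k B r s = lcT k (Tf (VisMap.mirror r) (-s)) (-g) M := by
  have hgk := h.gapA_gk hg hA hP hg2
  have hg0 := hg
  obtain ⟨g1, g2, g3, g4, g5⟩ := hg
  rw [h.lb_eq (v := s) (M := M) hM, lcT_split (a := -s) (b := -g) (c := M) (by omega) hM2]
  have h1 : lcT k (Tf (VisMap.mirror r) (-s)) (-s) (-g) = 0 := by
    refine lcT_eq_zero fun y y1 y2 y3 => ?_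
    obtain ⟨y4, z, z1, z2, z3, z4⟩ := y3
    have h5 : k ≤ y - z := Int.le_of_dvd (by omega) z4
    have h6 := z2.1
    -- the vertices of `(z, y]` are hidden from `s`; there is a `PA`-vertex among the first `k`
    rcases lt_or_ge z (-v) with hz | hz
    · -- `v` is a sight, so `y < -v` or `y` is beyond `-v`
      have hyv : y < -v := by
        by_contra hlt
        rcases (not_lt.1 hlt).lt_or_eq with h7 | h7
        · refine z3 (-v) hz h7 ⟨by omega, ?_⟩
          show r (- -s) (- -v)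
          rw [neg_neg, neg_neg]
          exact h.symm _ _ g3
        · refine y4 ⟨by omega, ?_⟩
          show r (- -s) (-y)
          rw [neg_neg, ← h7, neg_neg]
          exact h.symm _ _ g3
      obtain ⟨w, w1, w2, w3⟩ := hP (-y - 1)
      have hws := h.gapA_near hg0 hA w3 (by omega) (by omega)
      rcases (show -w ≤ y by omega).lt_or_eq with h7 | h7
      · refine z3 (-w) (by omega) h7 ⟨by omega, ?_⟩
        show r (- -s) (- -w)
        rw [neg_neg, neg_neg]
        exact h.symm _ _ hws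
      · refine y4 ⟨by omega, ?_⟩
        show r (- -s) (-y)
        rw [neg_neg, ← h7, neg_neg]
        exact h.symm _ _ hws
    · -- the gap `(-v, -g)` has length at most `k`
      have hy : y = -g := by omega
      refine y4 ⟨by omega, ?_⟩
      show r (- -s) (-y)
      rw [neg_neg, hy, neg_neg]
      exact hsg
  rw [h1, zero_add]

/-- The backward laps of `s` are at most those of `v`. -/
theorem TZ.gapA_lb (h : TZ k B r) {PA : ℤ → Prop} (hg : Tp.Gp r v s t)
    (hA : GapF r PA (t - s)) (hP : Meets k PA) : lb k B r s ≤ lb k B r v := by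
  obtain ⟨g, hgv, hsg, hg2, -⟩ := h.next' (v := s) (a := v) hg.1.le
  set M := max (max (-v + B + 1) (-s + B + 1)) (-g) with hMdef
  have hM1 : -v + B + 1 ≤ M := le_trans (le_max_left _ _) (le_max_left _ _)
  have hM2 : -s + B + 1 ≤ M := le_trans (le_max_right _ _) (le_max_left _ _)
  have hM3 : -g ≤ M := le_max_right _ _
  rw [h.gapA_lb_s hg hA hP hgv hsg hg2 (M := M) (by omega) hM3,
    h.gapA_lb_v hg hA hP hgv hsg hg2 (M := M) (by omega) hM3]
  obtain ⟨g1, g2, g3, g4, g5⟩ := hg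
  have hvg : r v g := h.cn' s v g hgv g1 (h.symm _ _ g3) hsg hg2
  refine lcT_mono h.hk hM3 ⟨by omega, ?_⟩ ⟨by omega, ?_⟩ ?_
  · show r (- -v) (- -g)
    rw [neg_neg, neg_neg]
    exact hvg
  · show r (- -v) (-M)
    rw [neg_neg]
    exact h.far' (by omega)
  · rintro z z1 z2 ⟨z3, z4⟩
    refine ⟨by omega, ?_⟩
    show r (- -s) (-z)
    have z5 : r (- -v) (-z) := z4
    rw [neg_neg] at z5 ⊢
    exact h.gapA_sub g1 hgv hsg (by omega) z5

/-- THEOREM A. -/
theorem TZ.gapA_laps (h : TZ k B r) {PA PB : ℤ → Prop} (hg : Tp.Gp r v s t)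
    (hA : GapF r PA (t - s)) (hB : GapB r PB (t - s)) (hPA : Meets k PA) (hPB : Meets k PB) :
    laps k B r s ≤ laps k B r v := by
  have h1 := h.gapA_lf hg hB hPB
  have h2 := h.gapA_lf' hg hB hPB
  have h3 := h.gapA_lb hg hA hPA
  unfold laps
  omega

/-- THEOREM A, the case of equality. -/
theorem TZ.gapA_eq (h : TZ k B r) {PA PB : ℤ → Prop} (hg : Tp.Gp r v s t)
    (hA : GapF r PA (t - s)) (hB : GapB r PB (t - s)) (hPA : Meets k PA) (hPB : Meets k PB)
    (he : laps k B r v ≤ laps k B r s) :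
    (lf k B r s : ℤ) = (t - 1 - s) / k ∧ lf k B r v = lf k B r s ∧ lb k B r v = lb k B r s ∧
      lcT k (Tf r v) v s = 0 ∧ (lcT k (Tf r s) s t : ℤ) = (t - 1 - s) / k := by
  have h1 := h.gapA_lf hg hB hPB
  have h2 := h.gapA_lf' hg hB hPB
  have h3 := h.gapA_lb hg hA hPA
  have h4 := h.gapA_lf_v hg hB hPB
  have h5 := h.gapA_lf_s hg hB hPB
  unfold laps at he
  refine ⟨by omega, by omega, by omega, by omega, by omega⟩

end

end Tw

end VisMap
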