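import Pool.Agent.Lib.MP_9f3af0_lcC.WE
import Pool.Agent.Lib.MP_9f3af0_lcC.WL
import Pool.Agent.Lib.MP_9f3af0_lcC.WThmA
import Pool.Agent.Lib.MP_9f3af0_lcC.WWalls

/-!
# MP_9f3af0_lc: the frame of the least number of laps (helper88; Lean by helper31), weak structures

`Mn k B r y`: `y` has the least number of laps.  `MF k B r v s t`: `v` is such a vertex and `(s, t)` is
a gap of `v` that is at least as long as all gaps (of either direction) of such vertices.  Then `s` is
such a vertex too, it has as many forward and as many backward laps as `v`, and all its forward laps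
are in the gap.
-/

namespace VisMap

namespace Tw

open Tp

/-- The vertices with the least number of laps. -/
def Mn (k B : ℤ) (r : ℤ → ℤ → Prop) (y : ℤ) : Prop := ∀ z, laps k B r y ≤ laps k B r z

/-- `(s, t)` is the longest gap of the vertices with the least number of laps. -/
structure MF (k B : ℤ) (r : ℤ → ℤ → Prop) (v s t : ℤ) : Prop where
  gf : GapF r (Mn k B r) (t - s)
  gb : GapB r (Mn k B r) (t - s)
  g : Tp.Gp r v s t
  mv : Mn k B r v

variable {k B : ℤ} {r : ℤ → ℤ → Prop} {v s t : ℤ}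

theorem TZ.Mn_iff (h : TZ k B r) {y y' : ℤ} (hy : k ∣ y' - y) : Mn k B r y' ↔ Mn k B r y := by
  unfold Mn
  rw [h.laps_class hy]

theorem Mn_mirror {y : ℤ} : Mn k B (VisMap.mirror r) (-y) ↔ Mn k B r y := by
  unfold Mn
  rw [laps_mirror]
  constructor
  · intro h1 z
    have := h1 (-z)
    rwa [laps_mirror] at this
  · intro h1 z
    have h2 := h1 (-z)
    have h3 := laps_mirror (k := k) (B := B) (r := r) (-z)
    rw [neg_neg] at h3
    rw [h3]
    exact h2

theorem exists_Mn (k B : ℤ) (r : ℤ → ℤ → Prop) : ∃ y, Mn k B r y := by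
  classical
  have hex : ∃ c : ℕ, ∃ v, laps k B r v = c := ⟨_, 0, rfl⟩
  obtain ⟨v, hv⟩ := Nat.find_spec hex
  exact ⟨v, fun w => by rw [hv]; exact Nat.find_min' hex ⟨w, rfl⟩⟩

theorem TZ.meets_Mn (h : TZ k B r) : Meets k (Mn k B r) := by
  intro a
  obtain ⟨y, hy⟩ := exists_Mn k B r
  obtain ⟨z, z1, z2, z3⟩ := meets_cls h.hk y a
  exact ⟨z, z1, z2, (h.Mn_iff z3).2 hy⟩

theorem GapF.mirror {L : ℤ} (hg : GapB r (Mn k B r) L) :
    GapF (VisMap.mirror r) (Mn k B (VisMap.mirror r)) L := by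
  intro y a b hy h1 h2 h3 h4 h5
  have hy' : Mn k B r (-y) := by
    rw [← Mn_mirror, neg_neg]; exact hy
  have := hg (-y) (-b) (-a) hy' (by omega) (by omega) h4 h3 fun m m1 m2 m3 =>
    h5 (-m) (by omega) (by omega) (by
      show r (-y) (- -m)
      rw [neg_neg]; exact m3)
  omega

theorem GapB.mirror {L : ℤ} (hg : GapF r (Mn k B r) L) :
    GapB (VisMap.mirror r) (Mn k B (VisMap.mirror r)) L := by
  intro y a b hy h1 h2 h3 h4 h5
  have hy' : Mn k B r (-y) := by
    rw [← Mn_mirror, neg_neg]; exact hy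
  have := hg (-y) (-b) (-a) hy' (by omega) (by omega) h4 h3 fun m m1 m2 m3 =>
    h5 (-m) (by omega) (by omega) (by
      show r (-y) (- -m)
      rw [neg_neg]; exact m3)
  omega

/-- Existence of the frame. -/
theorem TZ.exists_MF (h : TZ k B r) (hk : 2 ≤ k) (hc : NoWide k r) :
    ∃ v s t, k < t - s ∧ (MF k B r v s t ∨ MF k B (VisMap.mirror r) v s t) := by
  have hB := h.hB
  obtain ⟨c, hcm⟩ := exists_Mn k B r
  obtain ⟨w, hw0, hw⟩ := h.wall hk hc c
  obtain ⟨z, z1, z2, z3, -⟩ := h.next (v := w) (a := w + k + 1) (by omega)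
  have hg0 : Tp.Gp r w (w + 1) z := ⟨by omega, by omega, h.succ w, z2, fun m m1 m2 => by
    rcases lt_or_ge (w + k + 1) m with hm | hm
    · exact z3 m hm m2
    · exact hw m m1 (by omega)⟩
  have hwm : Mn k B r w := (h.Mn_iff hw0).2 hcm
  have hb : ∀ {r : ℤ → ℤ → Prop}, TZ k B r → ∀ {u x y : ℤ}, Tp.Gp r u x y → y - x ≤ B + 1 := by
    intro r h u x y hg
    obtain ⟨g1, g2, g3, g4, g5⟩ := hg
    by_contra hcon
    exact g5 (y - 1) (by omega) (by omega) (h.far _ _ (by omega))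
  obtain ⟨L, ⟨u, x, y, hg, ht⟩, hmax⟩ := Int.exists_greatest_of_bdd
    (P := fun L => ∃ u x y, ((Mn k B r u ∧ Tp.Gp r u x y) ∨
      (Mn k B (VisMap.mirror r) u ∧ Tp.Gp (VisMap.mirror r) u x y)) ∧ y - x = L)
    ⟨B + 1, fun t ⟨u, x, y, hg, ht⟩ => by
      rcases hg with hg | hg
      · have := hb h hg.2; omega
      · have := hb h.mirror hg.2; omega⟩ ⟨z - (w + 1), w, w + 1, z, Or.inl ⟨hwm, hg0⟩, rfl⟩
  have h2 : k < L := by
    have := hmax (z - (w + 1)) ⟨w, w + 1, z, Or.inl ⟨hwm, hg0⟩, rfl⟩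
    omega
  have hgf : GapF r (Mn k B r) L := fun u x y hu h1 h2 h3 h4 h5 =>
    hmax _ ⟨u, x, y, Or.inl ⟨hu, h1, h2, h3, h4, h5⟩, rfl⟩
  have hgb : GapB r (Mn k B r) L := fun u x y hu h1 h2 h3 h4 h5 => by
    have := hmax _ ⟨-u, -y, -x, Or.inr ⟨Mn_mirror.2 hu, by omega, by omega,
      (mir_iff u y).2 h4, (mir_iff u x).2 h3, fun m m1 m2 m3 => by
        have e : m = -(-m) := (neg_neg m).symm
        rw [e, mir_iff] at m3
        exact h5 (-m) (by omega) (by omega) m3⟩, rfl⟩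
    omega
  refine ⟨u, x, y, by omega, ?_⟩
  rcases hg with ⟨hu, hg⟩ | ⟨hu, hg⟩
  · exact Or.inl ⟨by rw [ht]; exact hgf, by rw [ht]; exact hgb, hg, hu⟩
  · exact Or.inr ⟨by rw [ht]; exact GapF.mirror hgb, by rw [ht]; exact GapB.mirror hgf, hg, hu⟩

/-- The near corner has the least number of laps too. -/
theorem MF.ms (h : TZ k B r) (M : MF k B r v s t) : Mn k B r s := fun z =>
  (h.gapA_laps M.g M.gf M.gb h.meets_Mn h.meets_Mn).trans (M.mv z)

/-- The equalities. -/
theorem MF.eqs (h : TZ k B r) (M : MF k B r v s t) :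
    (lf k B r s : ℤ) = (t - 1 - s) / k ∧ lf k B r v = lf k B r s ∧ lb k B r v = lb k B r s ∧
      lcT k (Tf r v) v s = 0 ∧ (lcT k (Tf r s) s t : ℤ) = (t - 1 - s) / k :=
  h.gapA_eq M.g M.gf M.gb h.meets_Mn h.meets_Mn (M.mv s)

/-- `t - 1 - s` is not a multiple of `k`. -/
theorem MF.rho (h : TZ k B r) (M : MF k B r v s t) (hks : k < t - s) :
    1 ≤ (t - 1 - s) % k := by
  have hk := h.hk
  have h1 := (M.eqs h).2.2.2.2
  have h2 := h.lcT_le2 (x := s) (y := t) (by omega) (h.gapA_st M.g)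
  have h3 := Int.emod_add_mul_ediv (t - 1 - s) k
  have h4 := Int.emod_nonneg (t - 1 - s) hk.ne'
  by_contra hcon
  have h5 : (t - 1 - s) % k = 0 := by omega
  rw [h1] at h2
  have h6 : k * ((t - 1 - s) / k) ≤ k * ((t - 2 - s) / k) := mul_le_mul_of_nonneg_left
    (by have e : t - 2 - s = t - 2 - s := rfl; omega) hk.le
  have h7 := Int.mul_ediv_self_le (x := t - 2 - s) (k := k) hk.ne'
  omega

/-- The vertices with the least number of laps beyond `t` are seen by `s` and by `v`. -/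
theorem MF.far (h : TZ k B r) (M : MF k B r v s t) {y : ℤ} (hy : Mn k B r y) (hty : t < y) :
    r s y ∧ r v y := ⟨h.gapA_far_s M.g M.gb hy hty, h.gapA_far_v M.g M.gb hy hty⟩

/-- No forward lap of `s` or `v` beyond `t`. -/
theorem MF.nolap (h : TZ k B r) (M : MF k B r v s t) {y : ℤ} (hty : t < y) :
    ¬ LapP k (Tf r s) y ∧ ¬ LapP k (Tf r v) y :=
  ⟨h.gapA_nolap_s M.g M.gb h.meets_Mn hty, h.gapA_nolap_v M.g M.gb h.meets_Mn hty⟩

/-- A row with the least number of laps that hides `(s, t)` from before `s` has exactly this gap. -/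
theorem MF.gap (h : TZ k B r) (M : MF k B r v s t) {w : ℤ} (hw : Mn k B r w) (hws : w < s)
    (hh : ∀ m, s < m → m < t → ¬ r w m) (hst : s + 1 < t) : Tp.Gp r w s t := by
  obtain ⟨a, a1, a2, a3, a4⟩ := h.last (v := w) (a := s) (by omega)
  obtain ⟨b, b1, b2, b3, -⟩ := h.next (v := w) (a := t - 1) (by omega)
  have hm : ∀ m, a < m → m < b → ¬ r w m := fun m m1 m2 => by
    rcases le_or_gt m s with h1 | h1
    · exact a4 m m1 h1
    · rcases lt_or_ge m t with h3 | h3
      · exact hh m h1 h3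
      · exact b3 m (by omega) m2
  have := M.gf w a b hw a1 (by omega) a3 b2 hm
  have e1 : a = s := by omega
  have e2 : b = t := by omega
  rw [e1] at a3 hm a1
  rw [e2] at b2 hm
  exact ⟨a1, by omega, a3, b2, hm⟩

/-- The frame with another viewer. -/
theorem MF.viewer (h : TZ k B r) (M : MF k B r v s t) {w : ℤ} (hw : Mn k B r w) (hws : w < s)
    (hh : ∀ m, s < m → m < t → ¬ r w m) (hst : s + 1 < t) : MF k B r w s t :=
  ⟨M.gf, M.gb, M.gap h hw hws hh hst, hw⟩

/-- If there is no frame there is no `T'`-structure without class-wide chords. -/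
theorem false_of_MF
    (H : ∀ (k B : ℤ) (r : ℤ → ℤ → Prop) (v s t : ℤ), TZ k B r → 2 ≤ k → NoWide k r →
      k < t - s → MF k B r v s t → False)
    (h : TZ k B r) (hk : 2 ≤ k) (hc : NoWide k r) : False := by
  obtain ⟨v, s, t, hst, hM | hM⟩ := h.exists_MF hk hc
  · exact H k B r v s t h hk hc hst hM
  · exact H k B _ v s t h.mirror hk (hc.mirror h.symm) hst hM

end Tw

end VisMap
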