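import Pool.Agent.Lib.MP_9f3af0_lcC.WRed3

/-!
# MP_9f3af0_lc: there is no frame of the longest terminal gap for `k = 2`
-/

namespace VisMap

namespace Tw

open Tp

variable {B : ℤ} {r : ℤ → ℤ → Prop} {c : ℕ} {l : ℤ}

/-- The holes of the word of the centre. -/
theorem SF.hole2 (h : TZ 2 B r) (C : Cl 2 B r c l) {T s t : ℤ} (S : SF 2 B r c l T s t)
    {lam i j : ℤ} (hlam : (lf 2 B r s : ℤ) = lam) (hi : 0 ≤ i) (hiT : T < s - 2 * (i + 1))
    (hj : 1 ≤ j) (hj2 : s + 2 * lam + j < t) (ht : t ≤ s + 2 * lam + 2) :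
    ¬ r (s - 2 * i) (s + 2 * lam + 2 + j) := by
  intro hr
  have hst := S.ht
  have hkl := C.kl
  have hlf := S.lf_s (closC l) h C (by omega)
  have hM : ∀ i', laps 2 B r (s - 2 * i') = c := fun i' => by
    rw [← S.hs]
    exact h.laps_class (v := s) (v' := s - 2 * i') ⟨-i', by ring⟩
  have hlc : (lcT 2 (Tf r (s - 2 * i)) (s - 2 * i) (s + 2 * lam + 2 + j) : ℤ) = lam := by
    have h1 := h.lcT_le_lf (v := s - 2 * i) (z := s + 2 * lam + 2 + j) (by omega)
    rcases hi.lt_or_eq with h2 | h2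
    · rw [(S.row (closC l) h C (by omega) (u := s - 2 * i) (by omega) (by omega) (hM i)).1] at h1
      obtain ⟨x1, x2, a1, a2, a3, a4, a5, a6, a7⟩ :=
        S.rc.gap h (x := s - 2 * i) (by omega) (by omega) (by omega)
      have hx2 : x2 ≤ s + 2 * lam + 2 + j := by
        by_contra hc
        exact a7 _ (by omega) (by omega) hr
      have h3 := lcT_gap (k := 2) (by norm_num) (T := Tf r (s - 2 * i)) (a := x1) (b := x2) a4
        ⟨a3, a5⟩ ⟨by omega, a6⟩ fun m m1 m2 m3 => a7 m m1 m2 m3.2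
      have h4 := lcT_split (k := 2) (T := Tf r (s - 2 * i)) (a := s - 2 * i) (b := x1)
        (c := s + 2 * lam + 2 + j) a3.le (by omega)
      have h5 := lcT_split (k := 2) (T := Tf r (s - 2 * i)) (a := x1) (b := x2)
        (c := s + 2 * lam + 2 + j) a4.le hx2
      omega
    · have e : s - 2 * i = s := by omega
      rw [e] at h1 ⊢
      have h3 := lcT_split (k := 2) (T := Tf r s) (a := s) (b := t)
        (c := s + 2 * lam + 2 + j) (by omega) (by omega)
      omega
  obtain ⟨z', z1, z2, z3⟩ := h.transport (v := s - 2 * i) (v' := s - 2 * (i + 1))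
    (z := s + 2 * lam + 2 + j) ⟨-1, by ring⟩ (by omega) (by
      have hnr := (h.near (S.rc (s - 2 * (i + 1)) (t - 1) hiT (by omega) (by omega)
        (by omega))).1
      omega) hr
  rw [hlc] at z3
  have h3 := h.lcT_le_lf (v := s - 2 * (i + 1)) (z := z') z1.le
  rw [(S.row (closC l) h C (by omega) (u := s - 2 * (i + 1)) hiT (by omega) (hM (i + 1))).1] at h3
  generalize lcT 2 (Tf r (s - 2 * (i + 1))) (s - 2 * (i + 1)) z' = Q at z3 h3
  exact S.rc (s - 2 * (i + 1)) z' hiT (by omega) (by omega) (by omega) z2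

/-- The row `g` has a lap gap beyond `t`. -/
theorem TermF.lap2 (h : TZ 2 B r) {v g t : ℤ} (F : TermF 2 B r c l v g t)
    (hng : ∀ H H', t ≤ H → Tp.Gp r g H H' → H' ≤ H + 2) : False := by
  have C := F.cl
  have hkl := F.kl
  have hlen := F.len
  have hvg := F.vg
  have hv := F.hv
  have hg := F.hg
  have hlv := F.lf_v h
  obtain ⟨g1, g2, g3, g4, g5⟩ := F.gap
  have hgt : r g t := h.cn v g t g1 g2 g3 g4 g5
  have hz : lcT 2 (Tf r g) t (max (g + B) t) = 0 := lcT_eq_zero fun y y1 _ hy => by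
    obtain ⟨a, b, ⟨b1, b2, b3, b4, b5⟩, ha, hb, hab⟩ := h.gap_of_lap hy
    have hta : t ≤ a := by
      by_contra hc
      exact b5 t (by omega) (by omega) hgt
    have := hng a b hta ⟨b1, b2, b3, b4, b5⟩
    omega
  have hlg : lf 2 B r g = lcT 2 (Tf r g) g t := by
    rw [h.lf_eq (v := g) (M := max (g + B) t) (le_max_left _ _),
      lcT_split (a := g) (b := t) (c := max (g + B) t) g2.le (le_max_right _ _), hz, add_zero]
  obtain ⟨T, T1, T2, ⟨w0, w1, w2, w3⟩, T4⟩ := h.exists_T (x := v) (y := t) (by omega)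
  have hTg : r T g := by
    obtain ⟨c0, c1, c2, c3, c4⟩ := exists_first (p := fun y => r T y) (a := v + 1) (b := w0)
      (by omega) w3
    have hc : r v c0 := h.cn T v c0 T1 (by omega) (h.symm _ _ T2) c3
      fun m m1 m2 => c4 m (by omega) m2
    have hcg : c0 ≤ g := by
      by_contra hcon
      exact g5 c0 (by omega) (by omega) hc
    rcases hcg.lt_or_eq with h1 | h1
    · exact h.X T v c0 g T1 (by omega) h1 c3 g3
    · rw [← h1]; exact c3
  have hTm : ∀ m, T < m → m < v → ¬ r g m := fun m m1 m2 m3 =>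
    T4 m g m1 m2 g1 g2 (h.symm _ _ m3)
  have hlbg := h.lb_bound (T := T) (v := v) (g := g) T1 g1 (by omega) (h.symm _ _ g3)
    (h.symm _ _ hTg) T2 hTm
  have hA : (lcT 2 (Tf r g) g t : ℤ) ≤ (t - 2 - g) / 2 := h.lcT_le2 (by omega) hgt
  have elg : laps 2 B r g = lf 2 B r g + lb 2 B r g := rfl
  have elv : laps 2 B r v = lf 2 B r v + lb 2 B r v := rfl
  rcases le_or_gt (v - 2) T with hT | hT
  · omega
  obtain ⟨t', t1, t2, ⟨z, z1, z2, z3⟩, t4⟩ := h.exists_t (T := T) (s := v) (by omega)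
  have htt : t ≤ t' := by
    by_contra hc
    exact T4 z t' z1 z2 t1 (by omega) z3
  have S : SF 2 B r c l T v t' := ⟨hv, by omega, by omega, t4, T2, t2, ⟨w0, w1, by omega, w3⟩,
    ⟨z, z1, z2, z3⟩⟩
  have hlf := S.lf_s (closC l) h C (by omega)
  obtain ⟨lam, hlam⟩ : ∃ lam : ℤ, (lf 2 B r v : ℤ) = lam := ⟨_, rfl⟩
  have hlam1 : 1 ≤ lam := by omega
  have hto : t = v + 2 * lam + 2 := by omega
  have hto' : t' = v + 2 * lam + 2 := by omega
  have hgv : g = v + 1 := by omega
  obtain ⟨R, hR⟩ : ∃ R : ℤ, R = (v - 1 - T) / 2 := ⟨_, rfl⟩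
  have hR1 : 1 ≤ R := by omega
  have hhole : ∀ i : ℤ, 0 ≤ i → i ≤ R - 1 → ¬ r (v - 2 * i) (v + 2 * lam + 2 + 1) :=
    fun i i1 i2 => S.hole2 h C hlam i1 (by omega) le_rfl (by omega) (by omega)
  have hvw : ¬ r v (v + 2 * lam + 2 + 1) := by
    have h1 := hhole 0 le_rfl (by omega)
    have e1 : v - 2 * 0 = v := by ring
    rw [e1] at h1
    exact h1
  have hvo : r v (v + 2 * lam + 2) := by rw [← hto]; exact g4
  have hMo : laps 2 B r (v + 2 * lam + 2) = c := by
    rw [← hv]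
    exact h.laps_class (v := v) (v' := v + 2 * lam + 2) (by omega)
  have hcw : laps 2 B r (v + 2 * lam + 2 + 1) = laps 2 B r g :=
    h.laps_class (v := g) (v' := v + 2 * lam + 2 + 1) (by omega)
  have hlbo : (lb 2 B r (v + 2 * lam + 2) : ℤ) ≤ lam := by
    have h1 := C.lb_near h hMo (q := v) (by omega) (h.symm _ _ hvo)
    have h2 := h.mirror.lcT_le (k := 2) (x := -(v + 2 * lam + 2)) (y := -v) (by omega)
      ((mir_iff _ _).2 (h.symm _ _ hvo))
    rw [← h1] at h2
    omega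
  have hbelow : ∀ x, v - 2 * (R - 1) ≤ x → x < v + 2 * lam + 2 →
      ¬ r x (v + 2 * lam + 2 + 1) := by
    intro x x1 x2
    rcases lt_or_ge x v with h1 | h1
    · have hMu : laps 2 B r (v - 2 * (R - 1)) = c := by
        rw [← hv]
        exact h.laps_class (v := v) (v' := v - 2 * (R - 1)) (by omega)
      obtain ⟨x3, x4, a1, a2, a3⟩ := S.rc.gap h (x := v - 2 * (R - 1)) (by omega) (by omega)
        (by omega)
      have h2 := h.lf_ge a3
      rw [(S.row (closC l) h C (by omega) (u := v - 2 * (R - 1)) (by omega) (by omega) hMu).1]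
        at h2
      obtain ⟨a4, a5, a6, a7, a8⟩ := a3
      have h3 := hhole (R - 1) (by omega) le_rfl
      exact h.hide x1 (by omega) (by omega) a7 h3
    · exact h.hide h1 x2 (by omega) hvo hvw
  obtain ⟨q, q1, q2, q3, -⟩ := h.next' (v := v + 2 * lam + 2 + 1) (a := v) (by omega)
  have hq : q < v - 2 * (R - 1) := by
    by_contra hc
    exact hbelow q (by omega) (by omega) (h.symm _ _ q2)
  have hwo : r (v + 2 * lam + 2 + 1) (v + 2 * lam + 2) := h.symm _ _ (h.succ _)
  have hqm : ∀ m, q < m → m < v + 2 * lam + 2 → ¬ r (v + 2 * lam + 2 + 1) m := by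
    intro m m1 m2
    rcases lt_or_ge m v with h3 | h3
    · exact q3 m m1 h3
    · exact fun h4 => hbelow m (by omega) m2 (h.symm _ _ h4)
  have hlbw := h.lb_ge (show q < v + 2 * lam + 2 by omega) (by omega) hwo q2 hqm
  have hstar := C.star h (p := v + 2 * lam + 2) (z := v + 2 * lam + 2 + 1) (q := q) (by omega)
    (by omega) (by omega) hwo hqm (by rw [hcw]; exact hg)
  have elo : laps 2 B r (v + 2 * lam + 2) =
      lf 2 B r (v + 2 * lam + 2) + lb 2 B r (v + 2 * lam + 2) := rfl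
  have elw : laps 2 B r (v + 2 * lam + 2 + 1) =
      lf 2 B r (v + 2 * lam + 2 + 1) + lb 2 B r (v + 2 * lam + 2 + 1) := rfl
  omega

/-- There is no frame of the longest terminal gap for `k = 2`. -/
theorem TermF.not2 (h : TZ 2 B r) {v g t : ℤ} (F : TermF 2 B r c l v g t) : False := by
  have C := F.cl
  have hkl := F.kl
  have hlen := F.len
  obtain ⟨g1, g2, g3, g4, g5⟩ := F.gap
  have hex : ∃ H H', t ≤ H ∧ Tp.Gp r g H H' ∧ H + 2 < H' := by
    by_contra hc
    refine F.lap2 h fun H H' h1 h2 => ?_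
    by_contra h3
    exact hc ⟨H, H', h1, h2, by omega⟩
  obtain ⟨H, H', hH, ⟨G1, G2, G3, G4, G5⟩, hH'⟩ := hex
  have hrc : Rc r (g - 1) H H' := fun x y x1 x2 x3 x4 =>
    h.hide (v := g) (x := x) (p := H) (y := y) (by omega) x2 x3 G3 (G5 y x3 x4)
  obtain ⟨T1, x1, hT1, hx1, S⟩ := C.mir.mk' h.mirror (hrc.mir h) (by omega) (by omega)
  have hMH : laps 2 B r H = c := by
    have := S.hs
    rw [laps_mirror'] at this
    exact this
  have hHg : r H g := h.symm _ _ G3
  have h1 := (S.lf_s (closC l) h.mirror C.mir (by omega)).1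
  rw [lf_mirror'] at h1
  have h2 := C.lb_near h hMH (q := g) (by omega) hHg
  have h3 := h.mirror.lcT_le2 (k := 2) (x := -H) (y := -g) (by omega) ((mir_iff _ _).2 hHg)
  omega

end Tw

end VisMap
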