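import Pool.Agent.Lib.MP_9f3af0_lcC.WClos

/-!
# MP_9f3af0_lc: the facing picture for `k = 3` (helper96, helper80)

`s` is the centre, `H = s + 3 lam + 3` the facing centre, `T'` the next sight of `s + 1` beyond `H`.
-/

namespace VisMap

namespace Tw

open Tp

/-- The facing picture for `k = 3`. -/
structure Pic3 (B : ℤ) (r : ℤ → ℤ → Prop) (c : ℕ) (l s lam T' : ℤ) : Prop where
  cl : Cl 3 B r c l
  lam1 : 1 ≤ lam
  hs : laps 3 B r s = c
  h1 : c < laps 3 B r (s + 1)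
  h2 : c < laps 3 B r (s + 2)
  sH : r s (s + 3 * lam + 3)
  shid : ∀ y, s + 1 < y → y < s + 3 * lam + 2 → ¬ r s y
  Hg : r (s + 3 * lam + 3) (s + 1)
  Hhid : ∀ y, s + 1 < y → y < s + 3 * lam + 2 → ¬ r (s + 3 * lam + 3) y
  len : (l = 3 * lam + 2 ∧ ¬ r s (s + 3 * lam + 2)) ∨ (l = 3 * lam + 1 ∧ r s (s + 3 * lam + 2))
  T'3 : s + 3 * lam + 3 + 3 < T'
  gT' : r (s + 1) T'
  ghid : ∀ y, s + 3 * lam + 3 < y → y < T' → ¬ r (s + 1) y

end Tw

end VisMap
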