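import Pool.Agent.Lib.MP_9f3af0_lcC.WPic3
import Pool.Agent.Lib.MP_9f3af0_lcC.WE

/-!
# MP_9f3af0_lc: comparison of laps and one side of the facing picture (helper80)
-/

namespace VisMap

namespace Tw

open Tp

variable {k B : ℤ} {r : ℤ → ℤ → Prop}

/-- The laps of the row `v` beyond `a`. -/
noncomputable def lfx (k B : ℤ) (r : ℤ → ℤ → Prop) (v a : ℤ) : ℕ :=
  lcT k (Tf r v) a (max (v + B) a)

theorem TZ.lfx_eq (h : TZ k B r) {v a M : ℤ} (h1 : v + B ≤ M) (h2 : a ≤ M) :
    lfx k B r v a = lcT k (Tf r v) a M := by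
  unfold lfx
  have hB := h.hB
  rw [lcT_split (k := k) (T := Tf r v) (a := a) (b := max (v + B) a) (c := M)
    (le_max_right _ _) (max_le h1 h2),
    lcT_eq_zero (a := max (v + B) a) (b := M) (fun y y1 _ y3 => y3.1 ⟨by
      have := le_max_left (v + B) a
      omega, h.far _ _ (by
      have := le_max_left (v + B) a
      omega)⟩), add_zero]

theorem TZ.lf_split (h : TZ k B r) {v a : ℤ} (hva : v ≤ a) :
    lf k B r v = lcT k (Tf r v) v a + lfx k B r v a := by
  rw [h.lf_eq (v := v) (M := max (v + B) a) (le_max_left _ _),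
    lcT_split (a := v) (b := a) (c := max (v + B) a) hva (le_max_right _ _)]
  rfl

theorem TZ.lfx_split (h : TZ k B r) {v a b : ℤ} (hab : a ≤ b) :
    lfx k B r v a = lcT k (Tf r v) a b + lfx k B r v b := by
  rw [h.lfx_eq (v := v) (a := a) (M := max (v + B) b) (le_max_left _ _)
    (hab.trans (le_max_right _ _)),
    h.lfx_eq (v := v) (a := b) (M := max (v + B) b) (le_max_left _ _) (le_max_right _ _),
    lcT_split (a := a) (b := b) (c := max (v + B) b) hab (le_max_right _ _)]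

/-- The laps between two sights. -/
theorem lcT_le_div (hk : 0 < k) {T : ℤ → Prop} {a b : ℤ} (hab : a < b) (ha : T a) (hb : T b) :
    (lcT k T a b : ℤ) ≤ (b - 1 - a) / k := by
  rw [Int.le_ediv_iff_mul_le hk, mul_comm]
  have := lcT_lt hk hab ha hb
  omega

/-- Comparison of two rows beyond a sight `q` of `u`. -/
theorem TZ.lfx_le (h : TZ k B r) {u v q T : ℤ} (huq : u < q) (rq : r u q) (hvT : v < T)
    (rT : r v T) (hTq : T < q) (sub : ∀ z, T < z → r u z → r v z) :
    (lfx k B r v T : ℤ) ≤ (q - 1 - T) / k + lfx k B r u q := by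
  have hk := h.hk
  have hq := sub q hTq rq
  set M := max (max (u + B + 1) (v + B + 1)) (q + 1) with hM
  have m1 : u + B + 1 ≤ M := le_trans (le_max_left _ _) (le_max_left _ _)
  have m2 : v + B + 1 ≤ M := le_trans (le_max_right _ _) (le_max_left _ _)
  have m3 : q + 1 ≤ M := le_max_right _ _
  rw [h.lfx_eq (v := v) (a := T) (M := M) (by omega) (by omega),
    h.lfx_eq (v := u) (a := q) (M := M) (by omega) (by omega),
    lcT_split (k := k) (T := Tf r v) (a := T) (b := q) (c := M) (by omega) (by omega)]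
  have h1 := lcT_le_div hk (T := Tf r v) (a := T) (b := q) hTq ⟨hvT, rT⟩ ⟨by omega, hq⟩
  have h2 := lcT_mono hk (S := Tf r u) (T := Tf r v) (a := q) (b := M) (by omega)
    ⟨huq, rq⟩ ⟨by omega, h.far _ _ (by omega)⟩ (fun z z1 _ z3 => ⟨by omega, by
      exact sub z (by omega) z3.2⟩)
  push_cast
  omega

/-- Comparison of two rows beyond `T`. -/
theorem TZ.lfx_mono (h : TZ k B r) {u v x T : ℤ} (hux : u < x) (rx : r u x) (hvT : v < T)
    (rT : r v T) (hxT : x ≤ T) (sub : ∀ z, T < z → r u z → r v z) :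
    lfx k B r v T ≤ lfx k B r u x := by
  have hk := h.hk
  obtain ⟨x1, a1, a2, a3, a4⟩ := exists_last (p := fun z => r u z) (a := x) (b := T) hxT rx
  obtain ⟨q, b1, b2, b3, -⟩ := h.next (v := u) (a := T) (by omega)
  have e1 := h.lfx_split (v := u) (a := x) (b := x1) a1
  have e2 := h.lfx_split (v := u) (a := x1) (b := q) (by omega)
  have e3 := lcT_gap hk (T := Tf r u) (a := x1) (b := q) (by omega) ⟨by omega, a3⟩
    ⟨by omega, b2⟩ (fun m m1 m2 m3 => by
      rcases le_or_gt m T with h1 | h1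
      · exact a4 m m1 h1 m3.2
      · exact b3 m h1 m2 m3.2)
  have e4 := h.lfx_le (u := u) (v := v) (q := q) (T := T) (by omega) b2 hvT rT b1 sub
  have e5 : (q - 1 - T) / k ≤ (q - 1 - x1) / k := Int.ediv_le_ediv hk (by omega)
  omega

/-- The laps of a row `u` with the gap `(x, x1)`, compared with the row `v` beyond `T`. -/
theorem TZ.lf_ge_of (h : TZ k B r) {u v x x1 T : ℤ} (hg : Tp.Gp r u x x1) (hxT : x < T)
    (hvT : v < T) (rT : r v T) (sub : ∀ z, T < z → r u z → r v z) :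
    (min (x1 - 1) T - x) / k + lfx k B r v T ≤ (lf k B r u : ℤ) := by
  have hk := h.hk
  obtain ⟨g1, g2, g3, g4, g5⟩ := hg
  have e0 := h.lf_split (v := u) (a := x) (by omega)
  have e1 := h.lfx_split (v := u) (a := x) (b := x1) g2.le
  have e2 := lcT_gap hk (T := Tf r u) (a := x) (b := x1) g2 ⟨g1, g3⟩
    ⟨by omega, g4⟩ (fun m m1 m2 m3 => g5 m m1 m2 m3.2)
  rcases le_or_gt x1 T with h1 | h1
  · have e3 := h.lfx_mono (u := u) (v := v) (x := x1) (T := T) (by omega) g4 hvT rT h1 sub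
    have e4 : min (x1 - 1) T - x = x1 - 1 - x := by
      rw [min_eq_left (by omega)]
    rw [e4]
    omega
  · have e3 := h.lfx_le (u := u) (v := v) (q := x1) (T := T) (by omega) g4 hvT rT h1 sub
    have e4 : min (x1 - 1) T - x = T - x := by
      rw [min_eq_right (by omega)]
    rw [e4]
    have h2 : (T - x) / k + (x1 - 1 - T) / k ≤ (x1 - 1 - x) / k := by
      rw [Int.le_ediv_iff_mul_le hk]
      have h3 := Int.ediv_mul_le (T - x) hk.ne'
      have h4 := Int.ediv_mul_le (x1 - 1 - T) hk.ne'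
      rw [add_mul]
      omega
    omega

/-- The laps between two positions grow. -/
theorem lcT_grow {T : ℤ → Prop} {a b c : ℤ} (h1 : a ≤ b) (h2 : b ≤ c) :
    lcT k T a b ≤ lcT k T a c := by
  rw [lcT_split (k := k) (T := T) h1 h2]
  exact Nat.le_add_right _ _

theorem lcT_seen {T : ℤ → Prop} {a : ℤ} (ha : T (a + 1)) : lcT k T a (a + 1) = 0 :=
  lcT_eq_zero fun z z1 z2 z3 => by
    have e : z = a + 1 := by omega
    rw [e] at z3
    exact z3.1 ha

/-- One side of the facing picture: the rows `(T, p)` hide `(p, y)`. -/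
structure Side3 (B : ℤ) (r : ℤ → ℤ → Prop) (c : ℕ) (l p y T lam : ℤ) : Prop where
  cl : Cl 3 B r c l
  lam1 : 1 ≤ lam
  hp : laps 3 B r p = c
  mod : ∀ v, laps 3 B r v = c → (3 : ℤ) ∣ v - p
  hid : ∀ x z, T < x → x < p → p < z → z < y → ¬ r x z
  y1 : p + 3 * lam + 2 ≤ y
  y2 : y ≤ p + 3 * lam + 3
  ly : l < y - p
  lfp : (lf 3 B r p : ℤ) = lam
  lcp : (lcT 3 (Tf r p) p (p + 3 * lam + 3) : ℤ) = lam
  hq : r p (p + 3 * lam + 3)

section

variable {c : ℕ} {l p y T lam : ℤ}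

/-- The mates of `p` in `(T, p)`. -/
theorem Side3.mate (h : TZ 3 B r) (S : Side3 B r c l p y T lam) (i : ℕ) (hi : 1 ≤ i)
    (hT : T < p - 3 * i) : r (p - 3 * i) p ∧ (lf 3 B r (p - 3 * i) : ℤ) = lam ∧
      laps 3 B r (p - 3 * i) = c ∧ lcT 3 (Tf r (p - 3 * i)) (p - 3 * i) p = 0 ∧
      ∃ q, y ≤ q ∧ q ≤ p + 3 * lam + 3 ∧ Tp.Gp r (p - 3 * i) p q := by
  induction i using Nat.strong_induction_on with
  | _ i ih =>
  have hy1 := S.y1
  have hy2 := S.y2
  have hly := S.ly
  have hlam := S.lam1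
  have hlfp := S.lfp
  have hi' : (1 : ℤ) ≤ i := by exact_mod_cast hi
  have hc : laps 3 B r (p - 3 * i) = c := by
    rw [h.laps_class (v := p) (v' := p - 3 * i) ⟨-i, by ring⟩]
    exact S.hp
  obtain ⟨x, x1, x2, x3, x4⟩ := h.last (v := p - 3 * i) (a := p) (by omega)
  obtain ⟨q, q1, q2, q3, -⟩ := h.next (v := p - 3 * i) (a := y - 1) (by omega)
  have hg : Tp.Gp r (p - 3 * i) x q := by
    refine ⟨x1, by omega, x3, q2, fun m m1 m2 => ?_⟩
    rcases le_or_gt m p with h1 | h1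
    · exact x4 m m1 h1
    · rcases lt_or_ge m y with h2 | h2
      · exact S.hid _ m hT (by omega) h1 h2
      · exact q3 m (by omega) m2
  obtain ⟨f1, f2, f3, f4⟩ := S.cl.f5 h hc hg (by omega)
  obtain ⟨j, hj⟩ := S.mod x f1
  have hj0 : j ≤ 0 := by omega
  have hji : -(i : ℤ) < j := by omega
  have hx : x = p := by
    rcases hj0.lt_or_eq with h1 | h1
    · exfalso
      obtain ⟨j', hj'⟩ : ∃ j' : ℕ, (j' : ℤ) = -j := ⟨(-j).toNat, by omega⟩
      have e : x = p - 3 * (j' : ℤ) := by omega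
      obtain ⟨-, g2, -, -, -⟩ := ih j' (by omega) (by omega) (by omega)
      rw [e] at f2
      rw [g2] at f2
      omega
    · omega
  subst hx
  have hqle : q ≤ x + 3 * lam + 3 := by omega
  have hlf : (lf 3 B r (x - 3 * i) : ℤ) = lam := by omega
  refine ⟨x3, hlf, hc, ?_, q, by omega, hqle, hg⟩
  have e1 := h.lf_split (v := x - 3 * i) (a := x) (by omega)
  have e2 := h.lfx_split (v := x - 3 * i) (a := x) (b := q) (by omega)
  have e3 := lcT_gap h.hk (T := Tf r (x - 3 * i)) (a := x) (b := q) (by omega) ⟨by omega, x3⟩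
    ⟨by omega, q2⟩ (fun m m1 m2 m3 => hg.2.2.2.2 m m1 m2 m3.2)
  omega

/-- `3 j + e` is not a natural of the class of `p`. -/
theorem Side3.hole (h : TZ 3 B r) (S : Side3 B r c l p y T lam) {v z j e : ℤ}
    (hv : (3 : ℤ) ∣ v - p) (hz : v < z) (hr : r v z) (hj : 1 ≤ j) (hT : T < p - 3 * j)
    (he : 1 ≤ e) (he' : p + e + 3 * lam < y)
    (hn : z - v - 3 * lcT 3 (Tf r v) v z = 3 * j + e) (hzB : z ≤ v + B + 1) : False := by
  obtain ⟨j', hj'⟩ : ∃ j' : ℕ, (j' : ℤ) = j := ⟨j.toNat, by omega⟩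
  obtain ⟨-, g2, -, -, -⟩ := S.mate h j' (by omega) (by omega)
  rw [hj'] at g2
  obtain ⟨z', z1, z2, z3⟩ := h.transport (v := v) (v' := p - 3 * j) (z := z) (by
    obtain ⟨w, hw⟩ := hv
    exact ⟨-j - w, by linarith⟩) hz hzB hr
  rw [hn] at z3
  have h1 := h.lcT_le_lf (v := p - 3 * j) (z := z') z1.le
  exact S.hid (p - 3 * j) z' hT (by omega) (by omega) (by omega) z2

/-- The laps before a sight beyond the picture. -/
theorem Side3.lc_far (h : TZ 3 B r) (S : Side3 B r c l p y T lam) {i z : ℤ} (hi : 0 ≤ i)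
    (hT : T < p - 3 * i ∨ i = 0) (hz : p + 3 * lam + 3 ≤ z) :
    (lcT 3 (Tf r (p - 3 * i)) (p - 3 * i) z : ℤ) = lam ∧ r (p - 3 * i) p ∨
      (i = 0 ∧ (lcT 3 (Tf r p) p z : ℤ) = lam) := by
  have hlam := S.lam1
  have hy1 := S.y1
  rcases hi.lt_or_eq with h1 | h1
  · left
    obtain ⟨i', hi'⟩ : ∃ i' : ℕ, (i' : ℤ) = i := ⟨i.toNat, by omega⟩
    obtain ⟨g1, g2, -, g4, q, q1, q2, q3⟩ := S.mate h i' (by omega) (by omega)
    rw [hi'] at g1 g2 g4 q3
    have e1 := h.lcT_le_lf (v := p - 3 * i) (z := z) (by omega)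
    have e2 := lcT_split (k := 3) (T := Tf r (p - 3 * i)) (a := p - 3 * i) (b := p) (c := z)
      (by omega) (by omega)
    have e3 := lcT_split (k := 3) (T := Tf r (p - 3 * i)) (a := p) (b := q) (c := z)
      (by omega) (by omega)
    have e4 := lcT_gap h.hk (T := Tf r (p - 3 * i)) (a := p) (b := q) (by omega)
      ⟨by omega, g1⟩ ⟨by omega, q3.2.2.2.1⟩ (fun m m1 m2 m3 => q3.2.2.2.2 m m1 m2 m3.2)
    exact ⟨by omega, g1⟩
  · right
    refine ⟨h1.symm, ?_⟩
    have e1 := h.lcT_le_lf (v := p) (z := z) (by omega)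
    have e2 := lcT_grow (k := 3) (T := Tf r p) (a := p) (b := p + 3 * lam + 3) (c := z)
      (by omega) hz
    have e3 := S.lcp
    have e4 := S.lfp
    omega

/-- The far holes. -/
theorem Side3.holeFar (h : TZ 3 B r) (S : Side3 B r c l p y T lam) {i e : ℤ} (hi : 0 ≤ i)
    (hT : T < p - 3 * (i + 1)) (he : 1 ≤ e) (he' : p + e + 3 * lam < y) :
    ¬ r (p - 3 * i) (p + 3 * lam + 3 + e) := by
  intro hr
  have hlam := S.lam1
  have hl : (lcT 3 (Tf r (p - 3 * i)) (p - 3 * i) (p + 3 * lam + 3 + e) : ℤ) = lam := by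
    rcases S.lc_far h (i := i) (z := p + 3 * lam + 3 + e) hi (Or.inl (by omega)) (by omega) with
      h1 | ⟨h1, h2⟩
    · exact h1.1
    · rw [h1]
      have e0 : p - 3 * 0 = p := by ring
      rw [e0]
      exact h2
  exact S.hole h (v := p - 3 * i) (z := p + 3 * lam + 3 + e) (j := i + 1) (e := e) ⟨-i, by ring⟩
    (by omega) hr (by omega) hT he he' (by rw [hl]; ring) (by
      have hnr := (h.near (S.hid (p - 3 * (i + 1)) (y - 1) hT (by omega) (by omega)
        (by omega))).1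
      omega)

/-- The mates see the far centre. -/
theorem Side3.seeH (h : TZ 3 B r) (S : Side3 B r c l p y T lam) {i : ℤ} (hi : 0 ≤ i)
    (hT : T < p - 3 * (i + 1)) : r (p - 3 * i) (p + 3 * lam + 3) := by
  have hlam := S.lam1
  have hy1 := S.y1
  rcases hi.lt_or_eq with h1 | h1
  · obtain ⟨i1, hi1⟩ : ∃ i1 : ℕ, (i1 : ℤ) = i + 1 := ⟨(i + 1).toNat, by omega⟩
    obtain ⟨i2, hi2⟩ : ∃ i2 : ℕ, (i2 : ℤ) = i := ⟨i.toNat, by omega⟩
    obtain ⟨g1, -, -, g4, -⟩ := S.mate h i1 (by omega) (by omega)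
    obtain ⟨-, f2, -, -, -⟩ := S.mate h i2 (by omega) (by omega)
    rw [hi1] at g1 g4
    rw [hi2] at f2
    obtain ⟨z', z1, z2, z3⟩ := h.transport (v := p - 3 * (i + 1)) (v' := p - 3 * i) (z := p)
      ⟨1, by ring⟩ (by omega) (by
        have hnr := (h.near (S.hid (p - 3 * (i + 1)) (y - 1) hT (by omega) (by omega)
          (by omega))).1
        omega) g1
    rw [g4] at z3
    have h2 := h.lcT_le_lf (v := p - 3 * i) (z := z') z1.le
    have h3 : ¬ z' < y := fun h4 => S.hid (p - 3 * i) z' (by omega) (by omega) (by omega) h4 z2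
    have e : z' = p + 3 * lam + 3 := by
      push_cast at z3
      omega
    rw [← e]
    exact z2
  · rw [← h1]
    have e0 : p - 3 * 0 = p := by ring
    rw [e0]
    exact S.hq

/-- Consecutive mates see each other. -/
theorem Side3.adj (h : TZ 3 B r) (S : Side3 B r c l p y T lam) {i : ℤ} (hi : 0 ≤ i)
    (hT : T < p - 3 * (i + 1)) : r (p - 3 * (i + 1)) (p - 3 * i) := by
  have h3T : T < p - 3 * ((1 : ℕ) : ℤ) := by push_cast; omega
  obtain ⟨g1, -, -, g4, -⟩ := S.mate h 1 le_rfl h3T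
  have e1 : p - 3 * ((1 : ℕ) : ℤ) = p - 3 := by push_cast; ring
  rw [e1] at g1 g4
  obtain ⟨i1, hi1⟩ : ∃ i1 : ℕ, (i1 : ℤ) = i + 1 := ⟨(i + 1).toNat, by omega⟩
  obtain ⟨f1, -, -, f4, -⟩ := S.mate h i1 (by omega) (by omega)
  rw [hi1] at f1 f4
  rcases hi.lt_or_eq with h1 | h1
  · obtain ⟨z', z1, z2, z3⟩ := h.transport (v := p - 3) (v' := p - 3 * (i + 1)) (z := p)
      ⟨-i, by ring⟩ (by omega) (by
        have hy1 := S.y1
        have hlam := S.lam1
        have hnr := (h.near (S.hid (p - 3 * (i + 1)) (y - 1) hT (by omega) (by omega)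
          (by omega))).1
        omega) g1
    rw [g4] at z3
    have hz : z' < p := by
      by_contra hc
      rcases (show p ≤ z' by omega).lt_or_eq with h2 | h2
      · have := h.nat_lt (v := p - 3 * (i + 1)) (y := p) (z := z') (by omega) h2 f1 z2
        rw [f4] at this
        push_cast at this z3
        omega
      · rw [← h2, f4] at z3
        push_cast at z3
        omega
    have h2 := lcT_grow (k := 3) (T := Tf r (p - 3 * (i + 1))) (a := p - 3 * (i + 1)) (b := z')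
      (c := p) z1.le hz.le
    have e : z' = p - 3 * i := by
      push_cast at z3
      omega
    rw [← e]
    exact z2
  · rw [← h1]
    have e2 : p - 3 * (0 + 1) = p - 3 := by ring
    have e3 : p - 3 * 0 = p := by ring
    rw [e2, e3]
    exact g1

/-- The mates hide `p - e'` for `e' = 1, 2`: `3 i - e' = 3 (i - 1) + (3 - e')`. -/
theorem Side3.hide_e (h : TZ 3 B r) (S : Side3 B r c l p y T lam) {i e : ℤ} (hi : 2 ≤ i)
    (hT : T < p - 3 * i) (he : 1 ≤ e) (he3 : e ≤ 2) (he' : p + e + 3 * lam < y) :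
    ¬ r (p - 3 * i) (p - 3 + e) := by
  intro hr
  obtain ⟨i1, hi1⟩ : ∃ i1 : ℕ, (i1 : ℤ) = i := ⟨i.toNat, by omega⟩
  obtain ⟨-, -, -, f4, -⟩ := S.mate h i1 (by omega) (by omega)
  rw [hi1] at f4
  have h2 := lcT_grow (k := 3) (T := Tf r (p - 3 * i)) (a := p - 3 * i) (b := p - 3 + e)
      (c := p) (by omega) (by omega)
  exact S.hole h (v := p - 3 * i) (z := p - 3 + e) (j := i - 1) (e := e) ⟨-i, by ring⟩
    (by omega) hr (by omega) (by omega) he he' (by
      have e4 : lcT 3 (Tf r (p - 3 * i)) (p - 3 * i) (p - 3 + e) = 0 := by omega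
      rw [e4]
      push_cast
      ring) (by
      have hy1 := S.y1
      have hlam := S.lam1
      have hnr := (h.near (S.hid (p - 3 * i) (y - 1) hT (by omega) (by omega)
        (by omega))).1
      omega)

end

end Tw

end VisMap
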