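import Pool.Agent.Lib.MP_9f3af0_lcC.WDescent

/-!
# MP_9f3af0_lc: the periodicity route (helper70, helper39, helper12, helper65; Lean by helper47)

`PerAt k r d`: the pairs at distance `d` are `k`-periodic.  If distance `d` is periodic whenever all
larger distances are, then every weak `T'`-structure is `k`-periodic and its shortest chord is
class-wide.
-/

namespace VisMap

namespace Tw

open Tp

/-- The pairs at distance `d` are `k`-periodic. -/
def PerAt (k : ℤ) (r : ℤ → ℤ → Prop) (d : ℤ) : Prop :=
  ∀ x, r x (x + d) ↔ r (x + k) (x + k + d)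

variable {k B : ℤ} {r : ℤ → ℤ → Prop} {d : ℤ}

theorem PerAt.far (h : TZ k B r) (hd : B < d) : PerAt k r d := fun x =>
  ⟨fun _ => h.far _ _ (by omega), fun _ => h.far _ _ (by omega)⟩

/-- Translation by a multiple of `k`. -/
theorem PerAt.mul (hp : PerAt k r d) (j : ℕ) (x : ℤ) : r x (x + d) ↔ r (x + k * j) (x + k * j + d) := by
  induction j with
  | zero => simp
  | succ j ih =>
    rw [ih, hp (x + k * j)]
    have e : x + k * (j : ℤ) + k = x + k * ((j + 1 : ℕ) : ℤ) := by push_cast; ring
    rw [e]

theorem PerAt.cls (hp : PerAt k r d) {x y : ℤ} (hxy : k ∣ y - x) : r x (x + d) ↔ r y (y + d) := by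
  obtain ⟨j, hj⟩ := hxy
  rcases le_or_gt 0 j with h0 | h0
  · have h1 := hp.mul j.toNat x
    have e : ((j.toNat : ℕ) : ℤ) = j := Int.toNat_of_nonneg h0
    rw [e] at h1
    have e2 : x + k * j = y := by linarith
    rw [e2] at h1
    exact h1
  · have h1 := hp.mul (-j).toNat y
    have e : (((-j).toNat : ℕ) : ℤ) = -j := Int.toNat_of_nonneg (by omega)
    rw [e] at h1
    have e2 : y + k * -j = x := by linarith
    rw [e2] at h1
    exact h1.symm

/-- If all distances `> d` are periodic, so are all distances of pairs `(x, y)`, `y - x > d`. -/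
theorem PerAt.pair (hp : ∀ e, d < e → PerAt k r e) {x y x' y' : ℤ} (hxy : d < y - x)
    (h1 : k ∣ x' - x) (h2 : y' - x' = y - x) : r x y ↔ r x' y' := by
  have h3 := (hp (y - x) hxy).cls h1
  have e1 : x + (y - x) = y := by ring
  have e2 : x' + (y - x) = y' := by linarith
  rw [e1, e2] at h3
  exact h3

/-- The downward induction. -/
theorem false_of_Ld
    (Ld : ∀ (k B : ℤ) (r : ℤ → ℤ → Prop) (d : ℤ), TZ k B r → 2 ≤ k → NoWide k r → 2 ≤ d →
      (∀ e, d < e → PerAt k r e) → PerAt k r d)
    (h : TZ k B r) (hk : 2 ≤ k) (hc : NoWide k r) : False := by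
  have hB := h.hB
  have key : ∀ j : ℕ, ∀ e : ℤ, 2 ≤ e → B - j < e → PerAt k r e := by
    intro j
    induction j with
    | zero =>
      intro e _ he
      exact PerAt.far h (by push_cast at he; omega)
    | succ j ih =>
      intro e he2 he
      rcases lt_or_ge (B - j) e with h1 | h1
      · exact ih e he2 h1
      · refine Ld k B r e h hk hc he2 fun e' he' => ih e' (by omega) ?_
        push_cast at he
        omega
  have hper : ∀ e : ℤ, 2 ≤ e → PerAt k r e := fun e he =>
    key (B.toNat) e he (by
      have : ((B.toNat : ℕ) : ℤ) = B := Int.toNat_of_nonneg hB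
      omega)
  -- the least chord
  obtain ⟨l, ⟨hl2, v, hv⟩, hmin⟩ := Int.exists_least_of_bdd
    (P := fun l => 2 ≤ l ∧ ∃ v, r v (v + l)) ⟨2, fun z hz => hz.1⟩
    ⟨B + 2, by omega, 0, h.far _ _ (by omega)⟩
  have hl : l = 2 := by
    by_contra hne
    have h1 := h.cn v (v + 1) (v + l) (by omega) (by omega) (h.succ v) hv fun m m1 m2 m3 => by
      have := hmin (m - v) ⟨by omega, v, by
        have e : v + (m - v) = m := by ring
        rw [e]; exact m3⟩
      omega
    have := hmin (l - 1) ⟨by omega, v + 1, by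
      have e : v + 1 + (l - 1) = v + l := by ring
      rw [e]; exact h1⟩
    omega
  rw [hl] at hv
  exact hc v 2 le_rfl hk fun u hu => ((hper 2 le_rfl).cls hu).1 hv

end Tw

end VisMap
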