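import Pool.Agent.Lib.MP_9f3af0_lcC.WOpp

/-!
# MP_9f3af0_lc: the totals of hidden vertices are class functions (helper90)

In the ring all pairs at a distance in `[D, n - D]` see each other, so the vertices of a class hidden
from `v` are those hidden ahead and those hidden behind at a distance of at most `D - 1`.
-/

namespace VisMap

namespace Tw

open Tp LemB

variable {n : ℕ} {k D : ℤ} {r : ℤ → ℤ → Prop}

/-- The number of hidden vertices of a class ahead and behind. -/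
theorem hf_add_hb3 (hz : ZRel n r) (h3 : ∀ x, r x (x + D)) (hD : 2 ≤ D) (h6 : 2 * D ≤ n)
    (hkn : k ∣ (n : ℤ)) (v e : ℤ) :
    hf k (D - 1) (rF (D - 1) r) v e + hb k (D - 1) (rF (D - 1) r) v e = Cut.Hc n k r v e := by
  classical
  have hn : 0 < n := by omega
  rw [Hc_eq_Ioo hz hn hkn, hf_rF, hb_rF]
  have hperR : ∀ x y : ℤ, r x (y + n) ↔ r x y := (ZR.of_zRel hz).perR
  have hb' : ((Finset.Ico (v - (D - 1)) v).filter fun z => k ∣ z - e ∧ ¬ r v z).card =
      ((Finset.Ico (v + n - (D - 1)) (v + n)).filter fun z => k ∣ z - e ∧ ¬ r v z).card := by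
    refine Finset.card_bij' (fun z _ => z + n) (fun z _ => z - n) ?_ ?_ ?_ ?_
    · intro z hz1
      rw [Finset.mem_filter, Finset.mem_Ico] at hz1 ⊢
      exact ⟨⟨by omega, by omega⟩, (Cut.dvd_per hkn z e).2 hz1.2.1,
        fun h => hz1.2.2 ((hperR _ _).1 h)⟩
    · intro z hz1
      rw [Finset.mem_filter, Finset.mem_Ico] at hz1 ⊢
      refine ⟨⟨by omega, by omega⟩, ?_, fun h => hz1.2.2 ?_⟩
      · rw [← Cut.dvd_per hkn, sub_add_cancel]; exact hz1.2.1
      · rw [← hperR, sub_add_cancel] at h; exact h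
    · intro z _
      simp
    · intro z _
      simp
  rw [hb', ← Finset.card_union_of_disjoint]
  · refine congrArg Finset.card ?_
    ext z
    simp only [Finset.mem_union, Finset.mem_filter, Finset.mem_Ioo, Finset.mem_Ioc, Finset.mem_Ico]
    constructor
    · rintro (⟨a1, a2, a3⟩ | ⟨a1, a2, a3⟩)
      · exact ⟨⟨by omega, by omega⟩, a2, a3⟩
      · exact ⟨⟨by omega, by omega⟩, a2, a3⟩
    · rintro ⟨a1, a2, a3⟩
      rcases le_or_gt z (v + (D - 1)) with h5 | h5
      · exact Or.inl ⟨⟨a1.1, h5⟩, a2, a3⟩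
      · refine Or.inr ⟨⟨?_, a1.2⟩, a2, a3⟩
        by_contra hc
        exact a3 (far3 hz h3 hD (by omega) (by omega))
  · rw [Finset.disjoint_left]
    intro z a b
    rw [Finset.mem_filter, Finset.mem_Ioc] at a
    rw [Finset.mem_filter, Finset.mem_Ico] at b
    omega

/-- **The totals are class functions.** -/
theorem tot3 (hz : ZRel n r) (h3 : ∀ x, r x (x + D)) (hD : 2 ≤ D) (h6 : 2 * D ≤ n)
    (hkn : k ∣ (n : ℤ)) (hw : Cut.Wd n k r) {v v' : ℤ} (hv : k ∣ v' - v) (e : ℤ) :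
    hf k (D - 1) (rF (D - 1) r) v' e + hb k (D - 1) (rF (D - 1) r) v' e =
      hf k (D - 1) (rF (D - 1) r) v e + hb k (D - 1) (rF (D - 1) r) v e := by
  rw [hf_add_hb3 hz h3 hD h6 hkn, hf_add_hb3 hz h3 hD h6 hkn]
  exact Cut.Hc_class hz (by omega) hkn hw hv

/-- **Symmetry of the totals.** -/
theorem tot3_symm (hz : ZRel n r) (h3 : ∀ x, r x (x + D)) (hD : 2 ≤ D) (h6 : 2 * D ≤ n)
    (hkn : k ∣ (n : ℤ)) (hw : Cut.Wd n k r) (a b : ℤ) :
    hf k (D - 1) (rF (D - 1) r) a b + hb k (D - 1) (rF (D - 1) r) a b =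
      hf k (D - 1) (rF (D - 1) r) b a + hb k (D - 1) (rF (D - 1) r) b a := by
  rw [hf_add_hb3 hz h3 hD h6 hkn, hf_add_hb3 hz h3 hD h6 hkn]
  exact Cut.Hc_symm hz (by omega) hkn hw a b

end Tw

end VisMap
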